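import Pool.Agent.H96.AVG.Vla

/-!
# The near digits of the first rough coordinate given its velocity: hypotheses at good windows

`vel_ae`: the theorem at rational indices. `SlpG.slP`, `SlpG.whP`: the slopes and the windows.
`FulG`, `JetG`: the position is full, the jets of order at least `2` are few bits, at real windows
of `G`; `FulG.ful`, `JetG.jet`: at the indices. `vel_G0`: the conclusion `VelI` from these.
-/

set_option autoImplicit false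

namespace Pool.AVG96

open Finset Real MvPolynomial MeasureTheory Filter
open Pool.Agent.H49.Ent Pool.Agent.H32.Dense Pool.STK Pool.KA Pool.KSAT Pool.K2S Pool.PB Pool.S6C
  Pool.GEN Pool.RCD Pool.LA91
open Pool.OWN83
open Pool.OWN68 (F1)

variable {m : ℕ} {U₀ U U' V : Type} {α γ : ∀ J : ℕ, Fam m J → Type}
  {f : ∀ (J : ℕ) (F : Fam m J), F.Ω → α J F} {y : ∀ (J : ℕ) (F : Fam m J), F.Ω → γ J F}
  {S : PCl m} {c : ℕ → Fin m} {r₀ r : ℕ} {s A B Λ : ℝ} {wh : ℚ → ℝ} {sc : ℚ → ℕ → ℝ}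
  {PA : ℚ → Prop} {sn : ℝ → ℕ → ℝ} {G : Set ℝ}

/-- The position is full, at the indices. -/
def FulN (S : PCl m) (f : ∀ (J : ℕ) (F : Fam m J), F.Ω → α J F)
    (y : ∀ (J : ℕ) (F : Fam m J), F.Ω → γ J F) (Q₀ : Qt m U₀) (c : ℕ → Fin m) (r₀ : ℕ) (s : ℝ)
    (wh : ℚ → ℝ) (sc : ℚ → ℕ → ℝ) (g : ℝ) : Prop :=
  ∀ e : ℝ, 0 < e → ∃ ρ : ℝ, 0 < ρ ∧ ∀ r : ℝ, 0 < r → r < ρ → ∀ w o : ℚ, g - r ≤ w → w ≤ o →
    (o : ℝ) ≤ g + r → LowN S f (vg ((w : ℝ) + s)) y Q₀ (fam m c r₀ 0 wh sc w o)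
      ((sc o r₀ - sc w r₀) * Real.log 2 - e * r)

/-- **Rational indices**: almost every `g`. -/
theorem vel_ae (h : ∀ A' : ℚ, PA A' → NCh S f y c r₀ r s A' B Λ wh sc)
    (hP : ∀ p q : ℚ, PA p → p ≤ q → PA q) {Q₀ : Qt m U₀}
    (hn : VNum S f y c r₀ s PA B Λ wh sc Q₀) (hr : r₀ ≤ r) (hQ : Exs S Q₀)
    (hQt : ∀ A' : ℚ, PA A' → ∀ v : ℚ, (A' : ℝ) < v → (v : ℝ) < B →
      Few S f (vg ((v : ℝ) + s)) y Q₀ Q₀) {p₀ lam' : ℝ} (hkn : Kn ((range r₀).image c) p₀ lam' y)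
    (hyk : ∀ (J : ℕ) (F : Fam m J), ∃ ψ : ℕ × (Fin m → ℤ) × (Fin m → ℤ) → γ J F, ∀ ω,
      y J F ω = ψ (F.T ω, (fun i => if i ∈ (range r₀).image c then F.X ⌊p₀ * J⌋₊ ω i else 0),
        (fun i => if i ∈ (range r₀).image c then F.D ⌊lam' * J⌋₊ ω i else 0)))
    (hA0 : ∀ A' : ℚ, PA A' → 0 ≤ (A' : ℝ) + s)
    (hp0 : ∀ A' : ℚ, PA A' → ∀ w : ℚ, (A' : ℝ) < w → (w : ℝ) < B → 0 ≤ sc w r₀)
    (hpl : ∀ A' : ℚ, PA A' → p₀ ≤ (A' : ℝ) + s + lam') :
    ∀ᵐ g : ℝ, ∀ A : ℚ, PA A → g ∈ Set.Ioo (A : ℝ) B → ∀ P Sl : ℝ, 1 < Sl →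
      SlP (fun q => sc q r₀) g P Sl → WhP wh s g → FulN S f y Q₀ c r₀ s wh sc g →
      JetPG S f y Q₀ ((range r₀).image c) (c r₀) s wh (fun q => sc q r₀) g →
      VelI S f y Q₀ ((range r₀).image c) (c r₀) s wh (fun q => sc q r₀) g := by
  have key : ∀ᵐ g : ℝ, ∀ A' B' : ℚ, PA A' → A' < B' → (B' : ℝ) ≤ B → OneOk sc r₀ Λ A' B' →
      g ∈ Set.Ioo (A' : ℝ) B' → ∀ P Sl : ℝ, 1 < Sl →
      SlP (fun q => sc q r₀) g P Sl → WhP wh s g → FulN S f y Q₀ c r₀ s wh sc g →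
      JetPG S f y Q₀ ((range r₀).image c) (c r₀) s wh (fun q => sc q r₀) g →
      VelI S f y Q₀ ((range r₀).image c) (c r₀) s wh (fun q => sc q r₀) g := by
    rw [ae_all_iff]; intro A'
    rw [ae_all_iff]; intro B'
    by_cases hh : PA A' ∧ A' < B' ∧ (B' : ℝ) ≤ B ∧ OneOk sc r₀ Λ A' B'
    · obtain ⟨hA, hAB, hB, hok⟩ := hh
      have hAB' : (A' : ℝ) < B' := by exact_mod_cast hAB
      have hc := (h A' hA).cut le_rfl hB
      have hlam : (0 : ℝ) < (B' : ℝ) - A' := by linarith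
      obtain ⟨⟨x0, x1, x2⟩, ⟨d0, d1, d2⟩, ⟨j0, j1, j2⟩⟩ := hn A' B' hA hAB hB hok
      have hQt' : ∀ v : ℚ, (A' : ℝ) < v → (v : ℝ) < B' → Few S f (vg ((v : ℝ) + s)) y Q₀ Q₀ :=
        fun v a b => hQt A' hA v a (by linarith)
      have hL : LbsG S f y ((range r₀).image c) (c r₀) s wh (fun q => sc q r₀) A' B' p₀ lam' :=
        { ne := hc.ne
          pos := hc.pos
          tm := hc.tm
          rn := hc.rn
          p0 := fun w a b => hp0 A' hA w a (by linarith)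
          att := fun w a b => hc.at0 hr a b
          wl := fun w a b => (hc.wl w a b).2
          pt := hc.pt
          kn := hkn
          yk := hyk
          A0 := hA0 A' hA
          B1 := hc.B1.le
          pl := hpl A' hA }
      have hF : FmsG S f y ((range r₀).image c) (c r₀) s wh (fun q => sc q r₀) Q₀ A' B'
          ((B' : ℝ) - A') x1 d1 j1 :=
        { X := rel_one hc hr hok hQ hQt' (by norm_num)
          D := rel_one hc hr hok hQ hQt' le_rfl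
          nX := ⟨x0, x2⟩
          nD := ⟨d0, d2⟩
          nJ := ⟨j0, j2⟩ }
      filter_upwards [near_velG hL hF hlam] with g hg _ _ _ _ hgm P Sl hS hsl hwh hful hjet
      refine hg hgm P Sl hS hsl hwh (fun e he => ?_) hjet
      obtain ⟨ρ, hρ, H⟩ := hful e he
      obtain ⟨t, ht, t1, t2, t3⟩ : ∃ t : ℝ, 0 < t ∧ t ≤ ρ ∧ t ≤ (g - A') / 2 ∧
          t ≤ (B' - g) / 2 := by
        have q1 : 0 < (g - A') / 2 := by linarith [hgm.1]
        have q2 : 0 < (B' - g) / 2 := by linarith [hgm.2]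
        exact ⟨min ρ (min ((g - A') / 2) ((B' - g) / 2)), by positivity, min_le_left _ _,
          (min_le_right _ _).trans (min_le_left _ _), (min_le_right _ _).trans (min_le_right _ _)⟩
      refine ⟨t, ht, fun R hR hRt w o w1 w2 w3 => ?_⟩
      have w2' : (w : ℝ) ≤ o := by exact_mod_cast w2
      have a1 : (A' : ℝ) < w := by linarith
      have a2 : (o : ℝ) < B' := by linarith
      obtain ⟨η, hη⟩ := hc.rn w a1 (by linarith)
      exact (H R hR (by linarith) w o w1 w2 w3).le_rn hc.ne hc.pos hη hQ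
        (hF.X.exs w o a1 w2 a2 (by linarith))
        (RN.of hc.pos (x2.n₀ w a1 (by linarith)) (x2.n w o a1 w2 a2 (by linarith)))
    · refine Eventually.of_forall fun g hA hAB hB hok => absurd ?_ hh
      exact ⟨hA, hAB, hB, hok⟩
  filter_upwards [key] with g hg A hA hgm P Sl hS hsl hwh hful hjet
  have hΛ0 := (h A hA).Λ0
  obtain ⟨t₀, ht₀, H⟩ := hsl 1 one_pos
  obtain ⟨t, ht, k1, k2, k3, k4⟩ : ∃ t : ℝ, 0 < t ∧ t ≤ t₀ ∧ (Sl + 1) * t ≤ Λ / 4 ∧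
      t ≤ g - A ∧ t ≤ B - g := by
    have q1 : 0 < g - A := by linarith [hgm.1]
    have q2 : 0 < B - g := by linarith [hgm.2]
    have q3 : 0 < Λ / (4 * (Sl + 1)) := by positivity
    refine ⟨min (min t₀ (Λ / (4 * (Sl + 1)))) (min (g - A) (B - g)), by positivity,
      (min_le_left _ _).trans (min_le_left _ _), ?_, (min_le_right _ _).trans (min_le_left _ _),
      (min_le_right _ _).trans (min_le_right _ _)⟩
    have := (min_le_left (min t₀ (Λ / (4 * (Sl + 1)))) (min (g - A) (B - g))).trans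
      (min_le_right _ _)
    have h4 : (Sl + 1) * min (min t₀ (Λ / (4 * (Sl + 1)))) (min (g - A) (B - g)) ≤
        (Sl + 1) * (Λ / (4 * (Sl + 1))) := mul_le_mul_of_nonneg_left this (by linarith)
    refine h4.trans (le_of_eq ?_)
    field_simp
  obtain ⟨A', a1, a2⟩ := exists_rat_btwn (show g - t < g by linarith)
  obtain ⟨B', b1, b2⟩ := exists_rat_btwn (show g < g + t by linarith)
  have hAA : A ≤ A' := by
    have : (A : ℝ) ≤ A' := by linarith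
    exact_mod_cast this
  have hAB : A' < B' := by
    have : (A' : ℝ) < B' := by linarith
    exact_mod_cast this
  refine hg A' B' (hP A A' hA hAA) hAB (by linarith) ⟨Λ / 4, by linarith, fun w o w1 w2 w3 => ?_⟩
    ⟨a2, b1⟩ P Sl hS hsl hwh hful hjet
  have w2' : (w : ℝ) ≤ o := by exact_mod_cast w2
  have e1 : |(w : ℝ) - g| ≤ t := by
    rw [abs_le]
    constructor <;> linarith
  have e2 : |(o : ℝ) - g| ≤ t := by
    rw [abs_le]
    constructor <;> linarith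
  have f1 := abs_le.1 (H w (e1.trans k1))
  have f2 := abs_le.1 (H o (e2.trans k1))
  have g1 := abs_le.1 e1
  have g2 := abs_le.1 e2
  have h1 : Sl * ((o : ℝ) - w) ≤ Sl * (2 * t) :=
    mul_le_mul_of_nonneg_left (by linarith [g1.1, g2.2]) (by linarith)
  linarith [f1.1, f2.2]

/-! ### Slopes and windows -/

/-- The point of the slopes is in `G`. -/
theorem SlpG.mem {g : ℝ} {Sl : ℕ → ℝ} (h : SlpG sn r₀ r G g Sl) (hG : IsClosed G) : g ∈ G := by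
  rw [← hG.closure_eq, Metric.mem_closure_iff]
  intro ε hε
  obtain ⟨ρ, hρ, H⟩ := h.gap 1 one_pos
  obtain ⟨u, hu, u1, u2⟩ := H (min (ρ / 2) (ε / 2)) (by positivity)
    ((min_le_left _ _).trans_lt (by linarith)) g (by
      have : 0 < min (ρ / 2) (ε / 2) := by positivity
      linarith) (by
      have : 0 < min (ρ / 2) (ε / 2) := by positivity
      linarith)
  refine ⟨u, hu, ?_⟩
  have := min_le_right (ρ / 2) (ε / 2)
  rw [Real.dist_eq, abs_of_nonneg (by linarith)]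
  linarith

/-- The windows of the charts near `g`. -/
theorem SlpG.wnd {g : ℝ} {Sl : ℕ → ℝ} (h : SlpG sn r₀ r G g Sl) (hG : IsClosed G) (hA : A < g)
    {η : ℝ} (hη : 0 < η) (hη1 : η ≤ 1) : ∃ ρ : ℝ, 0 < ρ ∧ ∀ t : ℝ, 0 < t → t < ρ → ∀ x : ℚ,
      g - s - t ≤ x → (x : ℝ) ≤ g - s + t → whG G A s x ∈ G ∧ A ≤ whG G A s x ∧
        whG G A s x ≤ x + s ∧ (x : ℝ) + s - η * t ≤ whG G A s x ∧ PG G A s x := by
  obtain ⟨ρ, hρ, H⟩ := h.gap η hη
  refine ⟨min ρ ((g - A) / 2), lt_min hρ (by linarith), fun t ht htρ x x1 x2 => ?_⟩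
  have t1 : t < ρ := htρ.trans_le (min_le_left _ _)
  have t2 : t < (g - A) / 2 := htρ.trans_le (min_le_right _ _)
  obtain ⟨u, hu, u1, u2⟩ := H t ht t1 ((x : ℝ) + s) (by linarith) (by linarith)
  have u3 : η * t ≤ 1 * t := mul_le_mul_of_nonneg_right hη1 ht.le
  have u4 : A ≤ u := by linarith
  obtain ⟨m1, m2, m3⟩ := fl_mem (x := (x : ℝ) + s) hG ⟨u, hu, u4, u2⟩
  have m4 : u ≤ fl G A ((x : ℝ) + s) := le_fl hu u4 u2
  refine ⟨m1, m2, m3, ?_, ⟨u, hu, u4, u2⟩⟩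
  show (x : ℝ) + s - η * t ≤ fl G A ((x : ℝ) + s)
  linarith

theorem SlpG.whP {g : ℝ} {Sl : ℕ → ℝ} (h : SlpG sn r₀ r G g Sl) (hG : IsClosed G) (hA : A < g) :
    WhP (whG G A s) s (g - s) := by
  intro ε hε
  obtain ⟨ρ, hρ, H⟩ := h.wnd (s := s) hG hA (η := min ε 1) (lt_min hε one_pos) (min_le_right _ _)
  refine ⟨ρ, hρ, fun r hr hrρ x x1 x2 => ?_⟩
  obtain ⟨-, -, m3, m4, -⟩ := H r hr hrρ x x1 x2
  have : min ε 1 * r ≤ ε * r := mul_le_mul_of_nonneg_right (min_le_left _ _) hr.le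
  exact ⟨m3, by linarith⟩

theorem SlpG.slP {g : ℝ} {Sl : ℕ → ℝ} (h : SlpG sn r₀ r G g Sl) (hG : IsClosed G) (hA : A < g)
    (hr : r₀ ≤ r) : SlP (fun q => scG sn G A s q r₀) (g - s) (sn g r₀) (Sl r₀) := by
  have hg := h.mem hG
  have hS := h.nn r₀ le_rfl hr
  intro ε hε
  obtain ⟨η, hη, e1, e2⟩ : ∃ η : ℝ, 0 < η ∧ η ≤ 1 ∧ Sl r₀ * η ≤ ε / 2 := by
    refine ⟨min 1 (ε / (2 * (Sl r₀ + 1))), lt_min one_pos (by positivity), min_le_left _ _, ?_⟩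
    have h2 : Sl r₀ * min 1 (ε / (2 * (Sl r₀ + 1))) ≤ (Sl r₀ + 1) * (ε / (2 * (Sl r₀ + 1))) :=
      mul_le_mul (by linarith) (min_le_right _ _) (by positivity) (by linarith)
    have h4 : (Sl r₀ + 1) * (ε / (2 * (Sl r₀ + 1))) = ε / 2 := by field_simp
    linarith
  obtain ⟨ρ₁, hρ₁, H1⟩ := h.sl r₀ le_rfl hr (ε / 4) (by positivity)
  obtain ⟨ρ₂, hρ₂, H2⟩ := h.wnd (s := s) hG hA hη e1
  refine ⟨min (ρ₁ / 4) (ρ₂ / 2), by positivity, fun w hw => ?_⟩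
  have k1 : |(w : ℝ) - (g - s)| ≤ ρ₁ / 4 := hw.trans (min_le_left _ _)
  have k2 : |(w : ℝ) - (g - s)| ≤ ρ₂ / 2 := hw.trans (min_le_right _ _)
  rcases eq_or_ne ((w : ℝ) - (g - s)) 0 with h0 | h0
  · have hws : (w : ℝ) + s = g := by linarith
    have h5 : whG G A s w = g := by
      unfold whG
      rw [hws]
      exact le_antisymm (fl_mem hG ⟨g, hg, hA.le, le_rfl⟩).2.2 (le_fl hg hA.le le_rfl)
    show |scG sn G A s w r₀ - sn g r₀ - Sl r₀ * (w - (g - s))| ≤ ε * |(w : ℝ) - (g - s)|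
    unfold scG
    rw [h5, h0]
    simp
  · obtain ⟨t, ht⟩ : ∃ t : ℝ, t = |(w : ℝ) - (g - s)| := ⟨_, rfl⟩
    have ht0 : 0 < t := by rw [ht]; exact abs_pos.2 h0
    rw [← ht] at k1 k2 ⊢
    have h6 := abs_le.1 (le_of_eq ht.symm)
    obtain ⟨m1, m2, m3, m4, -⟩ := H2 t ht0 (by linarith) w (by linarith [h6.1])
      (by linarith [h6.2])
    obtain ⟨u, hu⟩ : ∃ u : ℝ, u = whG G A s w := ⟨_, rfl⟩
    rw [← hu] at m1 m2 m3 m4
    have hηt : η * t ≤ 1 * t := mul_le_mul_of_nonneg_right e1 ht0.le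
    have q : |sn u r₀ - sn g r₀ - Sl r₀ * (u - g)| ≤ ε / 4 * (2 * t) := by
      rcases le_total g u with h7 | h7
      · exact H1 (2 * t) (by linarith) (by linarith) g hg u m1 (by linarith) h7
          (by linarith [h6.2])
      · have := H1 (2 * t) (by linarith) (by linarith) u m1 g hg (by linarith [h6.1]) h7
          (by linarith)
        have e3 : sn u r₀ - sn g r₀ - Sl r₀ * (u - g) =
            -(sn g r₀ - sn u r₀ - Sl r₀ * (g - u)) := by ring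
        rw [e3, abs_neg]
        exact this
    have q' := abs_le.1 q
    have q1 : Sl r₀ * (η * t) ≤ ε / 2 * t := by
      rw [← mul_assoc]
      exact mul_le_mul_of_nonneg_right e2 ht0.le
    have q2 : Sl r₀ * (u - g) ≤ Sl r₀ * (w - (g - s)) :=
      mul_le_mul_of_nonneg_left (by linarith) hS
    have q3 : Sl r₀ * (w - (g - s)) ≤ Sl r₀ * (u - g) + Sl r₀ * (η * t) := by
      rw [← mul_add]
      exact mul_le_mul_of_nonneg_left (by linarith) hS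
    show |scG sn G A s w r₀ - sn g r₀ - Sl r₀ * (w - (g - s))| ≤ ε * t
    unfold scG
    rw [← hu, abs_le]
    constructor <;> linarith [q'.1, q'.2]

/-! ### The hypotheses at real windows -/

/-- **The position is full**, at real windows: over the labels of the window `w` of `G`, to `N`
digits, given the record of the window `a`. -/
def FulG (S : PCl m) (f : ∀ (J : ℕ) (F : Fam m J), F.Ω → α J F)
    (y : ∀ (J : ℕ) (F : Fam m J), F.Ω → γ J F) (Q₀ : Qt m U₀) (c : ℕ → Fin m) (r₀ : ℕ)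
    (sn : ℝ → ℕ → ℝ) (G : Set ℝ) (Sl g : ℝ) : Prop :=
  ∀ e C : ℝ, 0 < e → 0 < C → ∃ ρ : ℝ, 0 < ρ ∧ ∀ R : ℝ, 0 < R → R < ρ → ∀ w ∈ G, ∀ a : ℝ,
    g - R ≤ w → w ≤ a → a ≤ g + R → ∀ N : ℝ, N ≤ sn w r₀ + C * R →
    LowN S f (vg a) y Q₀ (qJet m ((range r₀).image c) (c r₀) 0 w (sn w r₀) N)
      ((N - (sn w r₀ + Sl * (a - w))) * Real.log 2 - e * R)

/-- **The jets of order at least `2`** are few bits, at the windows of `G`. -/
def JetG (S : PCl m) (f : ∀ (J : ℕ) (F : Fam m J), F.Ω → α J F)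
    (y : ∀ (J : ℕ) (F : Fam m J), F.Ω → γ J F) (Q₀ : Qt m U₀) (c : ℕ → Fin m) (r₀ : ℕ)
    (sn : ℝ → ℕ → ℝ) (G : Set ℝ) (g : ℝ) : Prop :=
  ∀ e C : ℝ, 0 < e → 0 < C → ∃ ρ : ℝ, 0 < ρ ∧ ∀ R : ℝ, 0 < R → R < ρ → ∀ w ∈ G,
    g - R ≤ w → w ≤ g + R → ∃ Pm : ℝ, sn w r₀ + C * R ≤ Pm ∧
      JetR S f (vg w) y Q₀ ((range r₀).image c) (c r₀) w (sn w r₀) Pm (e * R)

theorem FulG.sub {S' : PCl m} (hs : ∀ (τ : ℝ) (J : ℕ) (F : Fam m J) (A : F.Ω → Prop),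
    S'.St τ J F A → S.St τ J F A) {Q₀ : Qt m U₀} {Sl g : ℝ}
    (h : FulG S f y Q₀ c r₀ sn G Sl g) : FulG S' f y Q₀ c r₀ sn G Sl g := by
  intro e C he hC
  obtain ⟨ρ, hρ, H⟩ := h e C he hC
  exact ⟨ρ, hρ, fun R hR hRρ w hw a h1 h2 h3 N hN => (H R hR hRρ w hw a h1 h2 h3 N hN).sub hs⟩

theorem jetR_sub {S' : PCl m} (hs : ∀ (τ : ℝ) (J : ℕ) (F : Fam m J) (A : F.Ω → Prop),
    S'.St τ J F A → S.St τ J F A) {β : ∀ J : ℕ, Fam m J → Type}
    {g : ∀ (J : ℕ) (F : Fam m J), F.Ω → β J F} {Q₀ : Qt m U₀} {I : Finset (Fin m)} {k : Fin m}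
    {w p Pm δ : ℝ} (h : JetR S f g y Q₀ I k w p Pm δ) : JetR S' f g y Q₀ I k w p Pm δ := by
  obtain ⟨⟨j₀, η, e, he, hη, hs', h1, h2⟩, e', he', h3⟩ := h
  exact ⟨⟨j₀, η, e, he, hη, hs', fun j a b K => (h1 j a b K).sub hs,
    fun j a b x hx K => (h2 j a b x hx K).sub hs⟩, e', he', fun K => (h3 K).sub hs⟩

theorem JetG.sub {S' : PCl m} (hs : ∀ (τ : ℝ) (J : ℕ) (F : Fam m J) (A : F.Ω → Prop),
    S'.St τ J F A → S.St τ J F A) {Q₀ : Qt m U₀} {g : ℝ}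
    (h : JetG S f y Q₀ c r₀ sn G g) : JetG S' f y Q₀ c r₀ sn G g := by
  intro e C he hC
  obtain ⟨ρ, hρ, H⟩ := h e C he hC
  refine ⟨ρ, hρ, fun R hR hRρ w hw h1 h2 => ?_⟩
  obtain ⟨Pm, h3, h4⟩ := H R hR hRρ w hw h1 h2
  exact ⟨Pm, h3, jetR_sub hs h4⟩

/-- A larger window of the record. -/
theorem jetR_up {Q₀ : Qt m U₀} {I : Finset (Fin m)} {k : Fin m} {a b w p Pm δ : ℝ} (hab : b ≤ a)
    (ha : a ≤ 1) (h : JetR S f (vg b) y Q₀ I k w p Pm δ) : JetR S f (vg a) y Q₀ I k w p Pm δ := by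
  obtain ⟨⟨j₀, η, e, he, hη, hs', h1, h2⟩, e', he', h3⟩ := h
  exact ⟨⟨j₀, η, e, he, hη, hs', fun j a' b' => (h1 j a' b').up hab ha,
    fun j a' b' x hx => (h2 j a' b' x hx).up hab ha⟩, e', he', h3.up hab ha⟩

theorem FulG.ful {Q₀ : Qt m U₀} {g : ℝ} {Sl : ℕ → ℝ} (h : FulG S f y Q₀ c r₀ sn G (Sl r₀) g)
    (hS : SlpG sn r₀ r G g Sl) (hG : IsClosed G) (hA : A < g) (hr : r₀ ≤ r) :
    FulN S f y Q₀ c r₀ s (whG G A s) (scG sn G A s) (g - s) := by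
  have hS0 := hS.nn r₀ le_rfl hr
  intro e he
  obtain ⟨η, hη, e1, e2⟩ : ∃ η : ℝ, 0 < η ∧ η ≤ 1 ∧ Sl r₀ * η ≤ e / 4 := by
    refine ⟨min 1 (e / (4 * (Sl r₀ + 1))), lt_min one_pos (by positivity), min_le_left _ _, ?_⟩
    have h2 : Sl r₀ * min 1 (e / (4 * (Sl r₀ + 1))) ≤ (Sl r₀ + 1) * (e / (4 * (Sl r₀ + 1))) :=
      mul_le_mul (by linarith) (min_le_right _ _) (by positivity) (by linarith)
    have h4 : (Sl r₀ + 1) * (e / (4 * (Sl r₀ + 1))) = e / 4 := by field_simp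
    linarith
  obtain ⟨ρ₁, hρ₁, H1⟩ := h (e / 4) (2 * Sl r₀ + 1) (by positivity) (by linarith)
  obtain ⟨ρ₂, hρ₂, H2⟩ := hS.wnd (s := s) hG hA hη e1
  obtain ⟨ρ₃, hρ₃, H3⟩ := hS.sl r₀ le_rfl hr 1 one_pos
  refine ⟨min (ρ₁ / 2) (min ρ₂ (ρ₃ / 2)), by positivity, fun t ht htρ w o w1 w2 w3 => ?_⟩
  have t1 : t < ρ₁ / 2 := htρ.trans_le (min_le_left _ _)
  have t2 : t < ρ₂ := htρ.trans_le ((min_le_right _ _).trans (min_le_left _ _))
  have t3 : t < ρ₃ / 2 := htρ.trans_le ((min_le_right _ _).trans (min_le_right _ _))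
  have w2' : (w : ℝ) ≤ o := by exact_mod_cast w2
  obtain ⟨m1, m2, m3, m4, m5⟩ := H2 t ht t2 w w1 (by linarith)
  obtain ⟨n1, n2, n3, n4, -⟩ := H2 t ht t2 o (by linarith) w3
  have hηt : η * t ≤ 1 * t := mul_le_mul_of_nonneg_right e1 ht.le
  have huv : whG G A s w ≤ whG G A s o := fl_mono m5 (by linarith)
  have k1 := (abs_le.1 (H3 (2 * t) (by linarith) (by linarith) _ m1 _ n1 (by linarith) huv
    (by linarith))).2
  have k2 : Sl r₀ * (whG G A s o - whG G A s w) ≤ Sl r₀ * (4 * t) :=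
    mul_le_mul_of_nonneg_left (by linarith) hS0
  have hN : natD r₀ (whG G A s) (scG sn G A s) o 0 = sn (whG G A s o) r₀ := by
    unfold natD scG
    simp
  have key := H1 (2 * t) (by linarith) (by linarith) _ m1 ((w : ℝ) + s) (by linarith) m3
    (by linarith) (natD r₀ (whG G A s) (scG sn G A s) o 0) (by
      rw [hN]
      linarith)
  refine LowN.le (Q := fam m c r₀ 0 (whG G A s) (scG sn G A s) w o) key ?_
  rw [hN]
  have l1 := Real.log_two_lt_d9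
  have l0 : 0 < Real.log 2 := Real.log_pos one_lt_two
  have k3 : Sl r₀ * ((w : ℝ) + s - whG G A s w) ≤ e / 4 * t := by
    refine (mul_le_mul_of_nonneg_left (show (w : ℝ) + s - whG G A s w ≤ η * t by linarith)
      hS0).trans ?_
    rw [← mul_assoc]
    exact mul_le_mul_of_nonneg_right e2 ht.le
  have k4 : 0 ≤ Sl r₀ * ((w : ℝ) + s - whG G A s w) := mul_nonneg hS0 (by linarith)
  have k5 : Sl r₀ * ((w : ℝ) + s - whG G A s w) * Real.log 2 ≤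
      Sl r₀ * ((w : ℝ) + s - whG G A s w) * 1 :=
    mul_le_mul_of_nonneg_left (by linarith) k4
  show (sn (whG G A s o) r₀ - sn (whG G A s w) r₀) * Real.log 2 - e * t ≤ _
  linarith

theorem JetG.jet {Q₀ : Qt m U₀} {g : ℝ} {Sl : ℕ → ℝ} (h : JetG S f y Q₀ c r₀ sn G g)
    (hS : SlpG sn r₀ r G g Sl) (hG : IsClosed G) (hA : A < g) (hr : r₀ ≤ r) (hg1 : g < 1) :
    JetPG S f y Q₀ ((range r₀).image c) (c r₀) s (whG G A s) (fun q => scG sn G A s q r₀)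
      (g - s) := by
  have hS0 := hS.nn r₀ le_rfl hr
  intro e he
  obtain ⟨ρ₁, hρ₁, H1⟩ := h (e / 2) (2 * Sl r₀ + 1) (by positivity) (by linarith)
  obtain ⟨ρ₂, hρ₂, H2⟩ := hS.wnd (s := s) hG hA one_pos le_rfl
  obtain ⟨ρ₃, hρ₃, H3⟩ := hS.sl r₀ le_rfl hr 1 one_pos
  refine ⟨min (min (ρ₁ / 2) (1 - g)) (min ρ₂ (ρ₃ / 2)), by
    have : 0 < 1 - g := by linarith
    positivity, fun t ht htρ w o w1 w2 w3 => ?_⟩
  have t1 : t < ρ₁ / 2 := htρ.trans_le ((min_le_left _ _).trans (min_le_left _ _))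
  have t4 : t < 1 - g := htρ.trans_le ((min_le_left _ _).trans (min_le_right _ _))
  have t2 : t < ρ₂ := htρ.trans_le ((min_le_right _ _).trans (min_le_left _ _))
  have t3 : t < ρ₃ / 2 := htρ.trans_le ((min_le_right _ _).trans (min_le_right _ _))
  have w2' : (w : ℝ) ≤ o := by exact_mod_cast w2.le
  obtain ⟨m1, m2, m3, m4, m5⟩ := H2 t ht t2 w (by linarith) (by linarith)
  obtain ⟨n1, n2, n3, n4, -⟩ := H2 t ht t2 o (by linarith) w3
  have huv : whG G A s w ≤ whG G A s o := fl_mono m5 (by linarith)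
  have k1 := (abs_le.1 (H3 (2 * t) (by linarith) (by linarith) _ m1 _ n1 (by linarith) huv
    (by linarith))).2
  have k2 : Sl r₀ * (whG G A s o - whG G A s w) ≤ Sl r₀ * (4 * t) :=
    mul_le_mul_of_nonneg_left (by linarith) hS0
  obtain ⟨Pm, p1, p2⟩ := H1 (2 * t) (by linarith) (by linarith) _ m1 (by linarith) (by linarith)
  have e1 : e / 2 * (2 * t) = e * t := by ring
  rw [e1] at p2
  refine ⟨Pm, ?_, jetR_up m3 (by linarith) p2⟩
  show sn (whG G A s o) r₀ ≤ Pm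
  linarith

end Pool.AVG96
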