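import Pool.Agent.H96.AVG.Stp
import Pool.Agent.H91.LA.Shn

/-!
# Other windows and more digits

`MIw`: `MIs` at real windows. `FewD`: few bits up to `δ J`; `more_digits`: more digits of a jet.
`MIw.conv`: passage to other windows, with other charts.
-/

set_option autoImplicit false

namespace Pool.AVG96

open Finset Real MvPolynomial
open Pool.Agent.H49.Ent Pool.Agent.H32.Dense Pool.STK Pool.KA Pool.KSAT Pool.K2S Pool.PB Pool.S6C
  Pool.GEN Pool.RCD Pool.LA91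
open Pool.KVA (MI)
open Pool.AVG71 (MI_eq MI_eq')
open Pool.BFL (Pb)

variable {m : ℕ} {U₀ U U' U₁ U₂ U₃ : Type} {α β γ : ∀ J : ℕ, Fam m J → Type}
  {f : ∀ (J : ℕ) (F : Fam m J), F.Ω → α J F} {g : ∀ (J : ℕ) (F : Fam m J), F.Ω → β J F}
  {y : ∀ (J : ℕ) (F : Fam m J), F.Ω → γ J F}
  {S : PCl m} {s : ℝ}

/-- The record at the window `v` knows at most `ε J` bits of the far quantity `Qa`, given the near
quantity `Qn`, the record at the window `w` and `y`. -/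
def MIw (S : PCl m) (f : ∀ (J : ℕ) (F : Fam m J), F.Ω → α J F)
    (y : ∀ (J : ℕ) (F : Fam m J), F.Ω → γ J F) (w v : ℝ) (Qa : Qt m U) (Qn : Qt m U')
    (ε : ℝ) : Prop :=
  ∀ c : ℝ, 0 < c → ∃ k : ℝ, 0 < k ∧ ∃ e₀ : ℝ, 0 < e₀ ∧ ∀ K : ℕ, Bas S (fun J F A =>
    ∀ (V₁ V₂ : Type) (z : F.Ω → V₁) (zv : F.Ω → V₂), Mx f (vg w) k F A z →
    Mx f (vg v) k F A zv → ∀ a n, Qa.P K e₀ J F A a → Qn.P K e₀ J F A n →
    MI (Pool.Agent.H49.Ent.cond F.p A True) zv a (fun ω => (n ω, (z ω, y J F ω))) ≤ (ε + c) * J)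

theorem MIs.w {w v : ℚ} {Qa : Qt m U} {Qn : Qt m U'} {ε : ℝ} (h : MIs S f y s w v Qa Qn ε) :
    MIw S f y (w + s) (v + s) Qa Qn ε := h

theorem MIw.sub {S' : PCl m} (hs : ∀ (τ : ℝ) (J : ℕ) (F : Fam m J) (A : F.Ω → Prop),
    S'.St τ J F A → S.St τ J F A) {w v : ℝ} {Qa : Qt m U} {Qn : Qt m U'} {ε : ℝ}
    (h : MIw S f y w v Qa Qn ε) : MIw S' f y w v Qa Qn ε := by
  intro c hc
  obtain ⟨k, hk, e, he, h1⟩ := h c hc
  exact ⟨k, hk, e, he, fun K => (h1 K).sub hs⟩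

theorem MIw.le {w v : ℝ} {Qa : Qt m U} {Qn : Qt m U'} {ε ε' : ℝ} (h : MIw S f y w v Qa Qn ε)
    (hε : ε ≤ ε') : MIw S f y w v Qa Qn ε' := by
  intro c hc
  obtain ⟨k, hk, e, he, h1⟩ := h c hc
  refine ⟨k, hk, e, he, fun K => Bas.mono 0 (h1 K) ?_⟩
  intro J _ F A H V₁ V₂ z zv hz hzv a n ha hn
  exact (H V₁ V₂ z zv hz hzv a n ha hn).trans
    (mul_le_mul_of_nonneg_right (by linarith) (Nat.cast_nonneg J))

/-! ### Few bits up to `δ J` -/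

/-- Few bits up to `δ J`. -/
def FewD (S : PCl m) (f : ∀ (J : ℕ) (F : Fam m J), F.Ω → α J F)
    (g : ∀ (J : ℕ) (F : Fam m J), F.Ω → β J F) (y : ∀ (J : ℕ) (F : Fam m J), F.Ω → γ J F)
    (Q : Qt m U) (Q' : Qt m U') (δ : ℝ) : Prop :=
  ∀ h : ℝ, 0 < h → ∃ e₀ : ℝ, 0 < e₀ ∧ ∀ K : ℕ, Bas S (fun J F A => ∀ u u',
    Q.P K e₀ J F A u → Q'.P K e₀ J F A u' → ∃ (V : Type) (z : F.Ω → V),
      Cl2 (f J F) (g J F) A z ∧ CH (Pool.Agent.H49.Ent.cond F.p A True) u'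
        (fun ω => (u ω, (z ω, y J F ω))) ≤ (δ + h) * J)

theorem few_d {Q : Qt m U} {Q' : Qt m U'} (h : Few S f g y Q Q') : FewD S f g y Q Q' 0 := by
  intro x hx
  obtain ⟨e, he, H⟩ := h x hx
  exact ⟨e, he, fun K => Bas.mono 0 (H K) fun J _ F A H u u' hu hu' => by
    obtain ⟨V, z, hz, h1⟩ := H u u' hu hu'
    exact ⟨V, z, hz, by rw [zero_add]; exact h1⟩⟩

theorem FewD.le {Q : Qt m U} {Q' : Qt m U'} {δ δ' : ℝ} (h : FewD S f g y Q Q' δ) (hd : δ ≤ δ') :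
    FewD S f g y Q Q' δ' := by
  intro x hx
  obtain ⟨e, he, H⟩ := h x hx
  exact ⟨e, he, fun K => Bas.mono 0 (H K) fun J _ F A H u u' hu hu' => by
    obtain ⟨V, z, hz, h1⟩ := H u u' hu hu'
    exact ⟨V, z, hz, h1.trans (mul_le_mul_of_nonneg_right (by linarith) (Nat.cast_nonneg J))⟩⟩

theorem FewD.pair
    (hpos : ∀ (τ : ℝ) (J : ℕ) (F : Fam m J) (A : F.Ω → Prop), S.St τ J F A → 0 < Pe F.p A)
    {Q : Qt m U} {Q₁ : Qt m U₁} {Q₂ : Qt m U₂} {δ₁ δ₂ : ℝ} (h₁ : FewD S f g y Q Q₁ δ₁)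
    (h₂ : FewD S f g y Q Q₂ δ₂) : FewD S f g y Q (Q₁.prod Q₂) (δ₁ + δ₂) := by
  intro x hx
  obtain ⟨e1, he1, H1⟩ := h₁ (x / 2) (half_pos hx)
  obtain ⟨e2, he2, H2⟩ := h₂ (x / 2) (half_pos hx)
  refine ⟨min e1 e2, lt_min he1 he2, fun K => Bas.mono 0 (((H1 K).and (H2 K)).and
    (pos_bas hpos)) ?_⟩
  rintro J - F A ⟨⟨H1, H2⟩, hA⟩ u u' hu ⟨hu1, hu2⟩
  have hcl := isLaw_cond F.isLaw hA
  obtain ⟨V, z, hz, h1⟩ := H1 u _ (Q.mono le_rfl (min_le_left _ _) hu)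
    (Q₁.mono le_rfl (min_le_left _ _) hu1)
  obtain ⟨V', z', hz', h2⟩ := H2 u _ (Q.mono le_rfl (min_le_right _ _) hu)
    (Q₂.mono le_rfl (min_le_right _ _) hu2)
  refine ⟨V × V', fun ω => (z ω, z' ω), hz.join hz', ?_⟩
  have h3 := CH_chain hcl.nonneg (fun ω => (u' ω).1) (fun ω => (u' ω).2)
    (fun ω => (u ω, ((z ω, z' ω), y J F ω)))
  have h4 : CH (Pool.Agent.H49.Ent.cond F.p A True) u'
      (fun ω => (u ω, ((z ω, z' ω), y J F ω))) =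
      CH (Pool.Agent.H49.Ent.cond F.p A True) (fun ω => ((u' ω).1, (u' ω).2))
      (fun ω => (u ω, ((z ω, z' ω), y J F ω))) := rfl
  have h5 := CH_le_add hcl.nonneg u' (fun ω => (u' ω).1) (fun ω => (u ω, ((z ω, z' ω), y J F ω)))
  have h6 : CH (Pool.Agent.H49.Ent.cond F.p A True) (fun ω => (u' ω).1)
      (fun ω => (u ω, ((z ω, z' ω), y J F ω))) ≤
      CH (Pool.Agent.H49.Ent.cond F.p A True) (fun ω => (u' ω).1)
      (fun ω => (u ω, (z ω, y J F ω))) :=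
    CH_mono_cond hcl.nonneg fun ω ω' _ _ hh => by
      simp only [Prod.mk.injEq] at hh ⊢
      exact ⟨hh.1, hh.2.1.1, hh.2.2⟩
  have h7 : CH (Pool.Agent.H49.Ent.cond F.p A True) u'
      (fun ω => ((u' ω).1, (u ω, ((z ω, z' ω), y J F ω)))) ≤
      CH (Pool.Agent.H49.Ent.cond F.p A True) (fun ω => (u' ω).2)
      (fun ω => (u ω, (z' ω, y J F ω))) := by
    have e1 : CH (Pool.Agent.H49.Ent.cond F.p A True) u'
        (fun ω => ((u' ω).1, (u ω, ((z ω, z' ω), y J F ω)))) =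
        CH (Pool.Agent.H49.Ent.cond F.p A True) (fun ω => (u' ω).2)
        (fun ω => ((u' ω).1, (u ω, ((z ω, z' ω), y J F ω)))) :=
      CH_congr hcl.nonneg (fun _ _ _ _ hh => congrArg Prod.snd (Prod.ext_iff.mp hh).1)
        (fun ω ω' _ _ hh => by
          have h1 := (Prod.ext_iff.mp hh).1
          have h2 := congrArg Prod.fst (Prod.ext_iff.mp hh).2
          exact Prod.ext h2 h1) (fun _ _ _ _ hh => hh) (fun _ _ _ _ hh => hh)
    rw [e1]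
    exact CH_mono_cond hcl.nonneg fun ω ω' _ _ hh => by
      simp only [Prod.mk.injEq] at hh ⊢
      exact ⟨hh.2.1, hh.2.2.1.2, hh.2.2.2⟩
  linarith

/-- On records. -/
theorem FewD.mx
    (hpos : ∀ (τ : ℝ) (J : ℕ) (F : Fam m J) (A : F.Ω → Prop), S.St τ J F A → 0 < Pe F.p A)
    {Q : Qt m U} {Q₁ : Qt m U₁} {δ : ℝ} (hF : FewD S f g y Q Q₁ δ) (h : ℝ) (hh : 0 < h) :
    ∃ e₀ : ℝ, 0 < e₀ ∧ ∀ K : ℕ, Bas S (fun J F A => ∀ (V : Type) (z : F.Ω → V),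
      Mx f g (h / 2) F A z → ∀ u u₁, Q.P K e₀ J F A u → Q₁.P K e₀ J F A u₁ →
      CH (Pool.Agent.H49.Ent.cond F.p A True) u₁ (fun ω => (u ω, (z ω, y J F ω))) ≤
        (δ + h) * J) := by
  obtain ⟨e₀, he₀, h1⟩ := hF (h / 2) (half_pos hh)
  refine ⟨e₀, he₀, fun K => Bas.mono 0 ((h1 K).and (pos_bas hpos)) ?_⟩
  rintro J - F A ⟨h2, hA⟩ V z ⟨hz, hmax⟩ u u₁ hu hu₁
  have hcl := isLaw_cond F.isLaw hA
  obtain ⟨V₁, z₁, hz₁, h3⟩ := h2 u u₁ hu hu₁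
  have h4 := hmax _ _ hz₁
  have h5 := CH_le_add hcl.nonneg u₁ z₁ (fun ω => (u ω, (z ω, y J F ω)))
  have h6 : CH (Pool.Agent.H49.Ent.cond F.p A True) z₁ (fun ω => (u ω, (z ω, y J F ω))) ≤
      CH (Pool.Agent.H49.Ent.cond F.p A True) z₁ z := by
    refine CH_mono_cond hcl.nonneg fun ω ω' _ _ hh => ?_
    simp only [Prod.mk.injEq] at hh
    exact hh.2.1
  have h7 : CH (Pool.Agent.H49.Ent.cond F.p A True) u₁
      (fun ω => (z₁ ω, (u ω, (z ω, y J F ω)))) ≤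
      CH (Pool.Agent.H49.Ent.cond F.p A True) u₁ (fun ω => (u ω, (z₁ ω, y J F ω))) := by
    refine CH_mono_cond hcl.nonneg fun ω ω' _ _ hh => ?_
    simp only [Prod.mk.injEq] at hh ⊢
    exact ⟨hh.2.1, hh.1, hh.2.2.2⟩
  linarith

theorem cnt_pair_I {Ω β' γ' : Type} [Fintype Ω] (p : Ω → ℝ) (X : Ω → β') (Y : Ω → γ')
    {A : Ω → Prop} (I : Finset β') (h : ∀ ω, 0 < p ω → A ω → X ω ∈ I) :
    cnt p (fun ω => (X ω, Y ω)) A ≤ I.card * cnt p Y A := by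
  classical
  have h1 := cnt_le_card p (fun ω => (X ω, Y ω)) (A := A)
    (I ×ˢ ((univ.filter fun ω => 0 < p ω ∧ A ω).image Y)) (fun ω h0 hA => by
      rw [mem_product]
      refine ⟨h ω h0 hA, mem_image_of_mem Y ?_⟩
      rw [mem_filter]
      exact ⟨mem_univ ω, h0, hA⟩)
  rw [card_product] at h1
  refine h1.trans (Nat.mul_le_mul_left _ (le_of_eq ?_))
  unfold cnt
  congr

/-- **More digits of a jet.** -/
theorem more_digits
    (hpos : ∀ (τ : ℝ) (J : ℕ) (F : Fam m J) (A : F.Ω → Prop), S.St τ J F A → 0 < Pe F.p A)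
    {I : Finset (Fin m)} {k : Fin m} {j : ℕ} {w p N N' : ℝ} (hN : N ≤ N') {Q : Qt m U}
    (hf : Few S f g y Q (qJet m I k j w p N)) :
    FewD S f g y Q (qJet m I k j w p N') ((N' - N) * Real.log 2) := by
  classical
  intro h hh
  obtain ⟨e₀, he₀, H⟩ := hf (h / 2) (half_pos hh)
  obtain ⟨J₀, hJ₀⟩ := exists_nat_ge ((Real.log 2 + Real.log 5) / (h / 2))
  refine ⟨e₀, he₀, fun K => Bas.mono (max J₀ 2) ((H (K + 1)).and (pos_bas hpos)) ?_⟩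
  rintro J hJ F A ⟨H, hA⟩ u u' hu ⟨hc, V, z, z', G, hl, hu'⟩
  have hcl := isLaw_cond F.isLaw hA
  have hJ1 : (J₀ : ℝ) ≤ J := by exact_mod_cast (le_max_left J₀ 2).trans hJ
  have hJ2 : (2 : ℝ) ≤ J := by exact_mod_cast (le_max_right J₀ 2).trans hJ
  have hJ0 : (0 : ℝ) ≤ J := by linarith
  obtain ⟨o, ho⟩ : ∃ o : F.Ω → ℝ, o = fun ω => ojet F k j (G (z' (slam F ⌊w * J⌋₊ ω))) ω :=
    ⟨_, rfl⟩
  obtain ⟨u'', hu''⟩ : ∃ u'' : F.Ω → ℤ, u'' = fun ω => ⌊(2 : ℝ) ^ (N * J) * o ω⌋ := ⟨_, rfl⟩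
  have e'' : ∀ ω, u'' ω = ⌊(2 : ℝ) ^ (N * J) * o ω⌋ := fun ω => by rw [hu'']
  have eo : ∀ ω, A ω → u' ω = ⌊(2 : ℝ) ^ (N' * J) * o ω⌋ := fun ω hω => by
    rw [hu' ω hω, ho]
  obtain ⟨t, ht⟩ : ∃ t : ℝ, t = (2 : ℝ) ^ ((N - N') * J) := ⟨_, rfl⟩
  obtain ⟨T, hT⟩ : ∃ T : ℝ, T = (2 : ℝ) ^ ((N' - N) * J) := ⟨_, rfl⟩
  have ht0 : 0 < t := by rw [ht]; positivity
  have hT0 : 0 < T := by rw [hT]; positivity
  have ht1 : t ≤ 1 := by
    rw [ht]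
    exact Real.rpow_le_one_of_one_le_of_nonpos (by norm_num)
      (mul_nonpos_of_nonpos_of_nonneg (by linarith) hJ0)
  have hT1 : 1 ≤ T := by
    rw [hT]
    exact Real.one_le_rpow (by norm_num) (mul_nonneg (by linarith) hJ0)
  have htN : t * (2 : ℝ) ^ (N' * J) = 2 ^ (N * J) := by
    rw [ht, ← Real.rpow_add (by norm_num)]
    congr 1
    ring
  have hTN : T * (2 : ℝ) ^ (N * J) = 2 ^ (N' * J) := by
    rw [hT, ← Real.rpow_add (by norm_num)]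
    congr 1
    ring
  obtain ⟨bt, hbt⟩ : ∃ bt : F.Ω → ℤ, bt = fun ω => u'' ω - ⌊t * (u' ω : ℝ)⌋ := ⟨_, rfl⟩
  have hb : ∀ ω, A ω → |(bt ω : ℝ)| ≤ 1 := by
    intro ω hω
    have a1 := Int.floor_le ((2 : ℝ) ^ (N' * J) * o ω)
    have a2 := Int.lt_floor_add_one ((2 : ℝ) ^ (N' * J) * o ω)
    rw [← eo ω hω] at a1 a2
    have a3 : t * (u' ω : ℝ) ≤ 2 ^ (N * J) * o ω := by
      rw [← htN, mul_assoc]
      exact mul_le_mul_of_nonneg_left a1 ht0.le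
    have a4 : (2 : ℝ) ^ (N * J) * o ω ≤ t * (u' ω : ℝ) + 1 := by
      have : (2 : ℝ) ^ (N * J) * o ω ≤ t * ((u' ω : ℝ) + 1) := by
        rw [← htN, mul_assoc]
        exact mul_le_mul_of_nonneg_left a2.le ht0.le
      linarith
    have a5 : ⌊t * (u' ω : ℝ)⌋ ≤ u'' ω := by
      rw [e'']
      exact Int.floor_le_floor a3
    have a6 : u'' ω ≤ ⌊t * (u' ω : ℝ)⌋ + 1 := by
      rw [e'', ← Int.floor_add_one]
      exact Int.floor_le_floor a4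
    have a7 : bt ω = u'' ω - ⌊t * (u' ω : ℝ)⌋ := by rw [hbt]
    have a8 : 0 ≤ bt ω := by omega
    have a9 : bt ω ≤ 1 := by omega
    rw [abs_of_nonneg (by exact_mod_cast a8)]
    exact_mod_cast a9
  have hcb : (cnt F.p u'' A : ℝ) ≤ Real.exp ((K + 1 : ℕ) * J) := by
    have c1 : cnt F.p u'' A ≤ cnt F.p (fun ω => (bt ω, u' ω)) A :=
      cnt_comp_le F.p (fun ω => (bt ω, u' ω)) u'' (fun q => q.1 + ⌊t * (q.2 : ℝ)⌋)
        (fun ω _ _ => by rw [hbt]; ring)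
    have c2 := cnt_pair_I F.p bt u' (A := A) (Finset.Icc (-1) 1) (fun ω _ hω => by
      have := abs_le.1 (hb ω hω)
      rw [Finset.mem_Icc]
      exact ⟨by exact_mod_cast this.1, by exact_mod_cast this.2⟩)
    have c3 : (Finset.Icc (-1 : ℤ) 1).card = 3 := by decide
    rw [c3] at c2
    have c4 : (cnt F.p u'' A : ℝ) ≤ 3 * cnt F.p u' A := by exact_mod_cast c1.trans c2
    refine c4.trans ?_
    have c5 : (3 : ℝ) ≤ Real.exp (J : ℝ) := by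
      have := Real.add_one_le_exp (J : ℝ)
      linarith
    have c6 : Real.exp ((K + 1 : ℕ) * J) = Real.exp (J : ℝ) * Real.exp (K * J) := by
      rw [← Real.exp_add]
      congr 1
      push_cast
      ring
    rw [c6]
    exact mul_le_mul c5 hc (Nat.cast_nonneg _) (Real.exp_pos _).le
  obtain ⟨V', z₁, hz₁, h1⟩ := H u u'' (Q.mono (Nat.le_succ K) le_rfl hu)
    ⟨hcb, V, z, z', G, hl.mono (Finset.Subset.refl _) (Nat.le_succ K) le_rfl, fun ω _ => by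
      rw [e'', ho]⟩
  refine ⟨V', z₁, hz₁, ?_⟩
  have h2 := CH_le_add hcl.nonneg u' u'' (fun ω => (u ω, (z₁ ω, y J F ω)))
  have h3 := CH_near hcl u' (fun ω => (u'' ω, (u ω, (z₁ ω, y J F ω))))
    (fun x => T * (x.1 : ℝ)) (fun _ => False) (η := 0) (M := K * J) (D := T + 1)
    (by
      unfold Pb
      simp) (by positivity) (by positivity)
    (le_trans (by exact_mod_cast cnt_cond_le F.isLaw u' A) hc) (by
      intro ω hω _
      have hω' := of_cond_pos hω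
      have a1 := Int.floor_le ((2 : ℝ) ^ (N' * J) * o ω)
      have a2 := Int.lt_floor_add_one ((2 : ℝ) ^ (N' * J) * o ω)
      rw [← eo ω hω'] at a1 a2
      have b1 := Int.floor_le ((2 : ℝ) ^ (N * J) * o ω)
      have b2 := Int.lt_floor_add_one ((2 : ℝ) ^ (N * J) * o ω)
      rw [← e''] at b1 b2
      have b3 : T * (u'' ω : ℝ) ≤ 2 ^ (N' * J) * o ω := by
        rw [← hTN, mul_assoc]
        exact mul_le_mul_of_nonneg_left b1 hT0.le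
      have b4 : (2 : ℝ) ^ (N' * J) * o ω ≤ T * (u'' ω : ℝ) + T := by
        have : (2 : ℝ) ^ (N' * J) * o ω ≤ T * ((u'' ω : ℝ) + 1) := by
          rw [← hTN, mul_assoc]
          exact mul_le_mul_of_nonneg_left b2.le hT0.le
        linarith
      rw [abs_le]
      constructor <;> linarith)
  have h4 : Real.log (2 * (T + 1) + 1) ≤ Real.log 5 + (N' - N) * Real.log 2 * J := by
    have e1 : 2 * (T + 1) + 1 ≤ 5 * T := by linarith
    refine (Real.log_le_log (by positivity) e1).trans (le_of_eq ?_)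
    rw [Real.log_mul (by norm_num) hT0.ne', hT, Real.log_rpow (by norm_num)]
    ring
  have h5 : Real.log 2 + Real.log 5 ≤ h / 2 * J := by
    have : (Real.log 2 + Real.log 5) / (h / 2) ≤ J := hJ₀.trans hJ1
    rw [div_le_iff₀ (by positivity)] at this
    linarith
  linarith

/-! ### Other windows -/

/-- **Other windows, other charts.** -/
theorem MIw.conv
    (hpos : ∀ (τ : ℝ) (J : ℕ) (F : Fam m J) (A : F.Ω → Prop), S.St τ J F A → 0 < Pe F.p A)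
    {w' w v v' : ℝ} (h1 : w' ≤ w) (h2 : w ≤ v) (h3 : v ≤ v') (h4 : v' ≤ 1) {η η' : ℝ}
    (rw' : RNum S f (vg w') η) (rv' : RNum S f (vg v') η') {Qa' : Qt m U} {Qn' : Qt m U'}
    {Qa : Qt m U₁} {Qn : Qt m U₂} {ε δ : ℝ} (h : MIw S f y w' v' Qa' Qn' ε) (xa : Exs S Qa')
    (xn : Exs S Qn') (a1 : Few S f (vg w) y Qa' Qa) (a2 : Few S f (vg w) y Qa Qa')
    (a3 : FewD S f (vg w) y Qn Qn' δ) (a4 : Few S f (vg w) y Qa Qn) :
    MIw S f y w v Qa Qn (ε + δ) := by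
  intro c hc
  obtain ⟨d, hd⟩ : ∃ d, d = c / 8 := ⟨_, rfl⟩
  have hd0 : 0 < d := by rw [hd]; positivity
  obtain ⟨k1, hk1, e1, he1, H1⟩ := h d hd0
  obtain ⟨e2, he2, H2⟩ := a1.mx hpos d hd0
  obtain ⟨e3, he3, H3⟩ := a2.mx hpos d hd0
  obtain ⟨e4, he4, H4⟩ := a3.mx hpos d hd0
  obtain ⟨e5, he5, H5⟩ := a4.mx hpos d hd0
  obtain ⟨e₀, he₀, l1, l2, l3, l4, l5⟩ : ∃ e₀ : ℝ, 0 < e₀ ∧ e₀ ≤ e1 ∧ e₀ ≤ e2 ∧ e₀ ≤ e3 ∧
      e₀ ≤ e4 ∧ e₀ ≤ e5 :=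
    ⟨min e1 (min e2 (min e3 (min e4 e5))), by positivity, min_le_left _ _,
      (min_le_right _ _).trans (min_le_left _ _),
      (min_le_right _ _).trans ((min_le_right _ _).trans (min_le_left _ _)),
      (min_le_right _ _).trans ((min_le_right _ _).trans ((min_le_right _ _).trans
        (min_le_left _ _))),
      (min_le_right _ _).trans ((min_le_right _ _).trans ((min_le_right _ _).trans
        (min_le_right _ _)))⟩
  obtain ⟨K₁, M₁, hxa⟩ := xa e₀ he₀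
  obtain ⟨K₂, M₂, hxn⟩ := xn e₀ he₀
  refine ⟨d / 2, half_pos hd0, e₀, he₀, fun K => ?_⟩
  obtain ⟨K', q0, q1, q2⟩ : ∃ K' : ℕ, K ≤ K' ∧ K₁ ≤ K' ∧ K₂ ≤ K' :=
    ⟨max K (max K₁ K₂), le_max_left _ _, (le_max_left _ _).trans (le_max_right _ _),
      (le_max_right _ _).trans (le_max_right _ _)⟩
  refine Bas.mono 0 ((((((H1 K').and (H2 K')).and ((H3 K').and (H4 K'))).and (H5 K')).and
    ((mx_ex hpos rw' k1 hk1).and (mx_ex hpos rv' k1 hk1))).and ((hxa.and hxn).and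
    (pos_bas hpos))) ?_
  rintro J - F A ⟨⟨⟨⟨⟨H1, H2⟩, H3, H4⟩, H5⟩, ⟨Vz', z', hz'⟩, ⟨Vz'', z'', hz''⟩⟩,
    ⟨⟨a', ha', -⟩, ⟨n', hn', -⟩⟩, hA⟩ V₁ V₂ z zv hz hzv a n ha hn
  have hcl := isLaw_cond F.isLaw hA
  have hid : ∃ φ : α J F → α J F, ∀ ω, f J F ω = φ (f J F ω) := ⟨fun x => x, fun _ => rfl⟩
  have z1 : Mx f (vg w) (d / 2) F A (fun ω => (z' ω, z ω)) :=
    Mx.join hA hid (vg_mono h1 (by linarith) J F) hz' hz
  have z2 : Mx f (vg v) (d / 2) F A (fun ω => ((z' ω, z ω), zv ω)) :=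
    Mx.join hA hid (vg_mono h2 (by linarith) J F) z1 hzv
  have z3 : Mx f (vg v') k1 F A (fun ω => (((z' ω, z ω), zv ω), z'' ω)) :=
    Mx.join hA hid (vg_mono h3 (by linarith) J F) z2 hz''
  have zb := hz.2 _ _ z1.1
  have Qa0 : ∀ {e : ℝ}, e₀ ≤ e → Qa.P K' e J F A a := fun he => Qa.mono q0 he ha
  have Qn0 : ∀ {e : ℝ}, e₀ ≤ e → Qn.P K' e J F A n := fun he => Qn.mono q0 he hn
  have Qa1 : ∀ {e : ℝ}, e₀ ≤ e → Qa'.P K' e J F A a' := fun he => Qa'.mono q1 he ha'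
  have Qn1 : ∀ {e : ℝ}, e₀ ≤ e → Qn'.P K' e J F A n' := fun he => Qn'.mono q2 he hn'
  have b1 := H1 _ _ z' _ hz' z3 a' n' (Qa1 l1) (Qn1 l1)
  have b2 := H2 V₁ z hz a' a (Qa1 l2) (Qa0 l2)
  have b3 := H3 V₁ z hz a a' (Qa0 l3) (Qa1 l3)
  have b4 := H4 V₁ z hz n n' (Qn0 l4) (Qn1 l4)
  have b5 := H5 V₁ z hz a n (Qa0 l5) (Qn0 l5)
  have s1 := mi_step1 hcl.nonneg zv a n n' (fun ω => (z ω, y J F ω)) b4 b5
  rw [MI_eq' hcl.nonneg] at b1
  have s2 : MI (Pool.Agent.H49.Ent.cond F.p A True) zv a (fun ω => (n' ω, (z ω, y J F ω))) ≤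
      (ε + d) * J + d / 2 * J + 2 * (d * J) := by
    rw [MI_eq' hcl.nonneg]
    -- above
    have c1 := CH_le_add hcl.nonneg a (fun ω => (z' ω, z ω)) (fun ω => (n' ω, (z ω, y J F ω)))
    have c2 : CH (Pool.Agent.H49.Ent.cond F.p A True) (fun ω => (z' ω, z ω))
        (fun ω => (n' ω, (z ω, y J F ω))) ≤
        CH (Pool.Agent.H49.Ent.cond F.p A True) (fun ω => (z' ω, z ω)) z :=
      CH_mono_cond hcl.nonneg fun ω ω' _ _ hh => by
        simp only [Prod.mk.injEq] at hh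
        exact hh.2.1
    have c3 := CH_le_add hcl.nonneg a a' (fun ω => ((z' ω, z ω), (n' ω, (z ω, y J F ω))))
    have c4 : CH (Pool.Agent.H49.Ent.cond F.p A True) a
        (fun ω => (a' ω, ((z' ω, z ω), (n' ω, (z ω, y J F ω))))) ≤
        CH (Pool.Agent.H49.Ent.cond F.p A True) a (fun ω => (a' ω, (z ω, y J F ω))) :=
      CH_mono_cond hcl.nonneg fun ω ω' _ _ hh => by
        simp only [Prod.mk.injEq] at hh ⊢
        exact ⟨hh.1, hh.2.2.2.1, hh.2.2.2.2⟩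
    have c5 : CH (Pool.Agent.H49.Ent.cond F.p A True) a'
        (fun ω => ((z' ω, z ω), (n' ω, (z ω, y J F ω)))) ≤
        CH (Pool.Agent.H49.Ent.cond F.p A True) a' (fun ω => (n' ω, (z' ω, y J F ω))) :=
      CH_mono_cond hcl.nonneg fun ω ω' _ _ hh => by
        simp only [Prod.mk.injEq] at hh ⊢
        exact ⟨hh.2.1, hh.1.1, hh.2.2.2⟩
    -- below
    have d1 := CH_le_add hcl.nonneg a' a
      (fun ω => ((((z' ω, z ω), zv ω), z'' ω), (n' ω, (z' ω, y J F ω))))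
    have d2 : CH (Pool.Agent.H49.Ent.cond F.p A True) a'
        (fun ω => (a ω, ((((z' ω, z ω), zv ω), z'' ω), (n' ω, (z' ω, y J F ω))))) ≤
        CH (Pool.Agent.H49.Ent.cond F.p A True) a' (fun ω => (a ω, (z ω, y J F ω))) :=
      CH_mono_cond hcl.nonneg fun ω ω' _ _ hh => by
        simp only [Prod.mk.injEq] at hh ⊢
        exact ⟨hh.1, hh.2.1.1.1.2, hh.2.2.2.2⟩
    have d3 : CH (Pool.Agent.H49.Ent.cond F.p A True) a
        (fun ω => ((((z' ω, z ω), zv ω), z'' ω), (n' ω, (z' ω, y J F ω)))) ≤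
        CH (Pool.Agent.H49.Ent.cond F.p A True) a (fun ω => (zv ω, (n' ω, (z ω, y J F ω)))) :=
      CH_mono_cond hcl.nonneg fun ω ω' _ _ hh => by
        simp only [Prod.mk.injEq] at hh ⊢
        exact ⟨hh.1.1.2, hh.2.1, hh.1.1.1.2, hh.2.2.2⟩
    linarith
  rw [hd] at s1 s2
  nlinarith [Nat.cast_nonneg (α := ℝ) J]

end Pool.AVG96
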