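import Pool.Agent.H96.AVG.Mj
import Pool.Agent.H96.AVG.Cnv

/-!
# A closed set of good windows

`GCh`: the charts exist at the windows of a closed set `G`. `fl G A x`: the last point of `G` before
`x`. `GCh.nch`: the charts of the index `q` are taken at `fl G A (q + s)`. `SlpG`: the slopes at a
point of `G`; `gap_ae`: almost every point of `G` is a point where the gaps are small.
-/

set_option autoImplicit false

namespace Pool.AVG96

open Finset Real MvPolynomial MeasureTheory Filter Topology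
open Pool.Agent.H49.Ent Pool.Agent.H32.Dense Pool.STK Pool.KA Pool.KSAT Pool.K2S Pool.PB Pool.S6C
  Pool.GEN Pool.RCD Pool.LA91

variable {m : ℕ} {α γ : ∀ J : ℕ, Fam m J → Type}
  {f : ∀ (J : ℕ) (F : Fam m J), F.Ω → α J F} {y : ∀ (J : ℕ) (F : Fam m J), F.Ω → γ J F}
  {S : PCl m} {c : ℕ → Fin m} {r₀ r : ℕ} {s A B Λ : ℝ} {sn : ℝ → ℕ → ℝ} {G : Set ℝ}

/-! ### The last point of `G` -/

/-- The last point of `G` before `x`, behind `A`. -/
noncomputable def fl (G : Set ℝ) (A x : ℝ) : ℝ := sSup (G ∩ Set.Icc A x)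

theorem fl_mem (hG : IsClosed G) {x : ℝ} (h : (G ∩ Set.Icc A x).Nonempty) :
    fl G A x ∈ G ∧ A ≤ fl G A x ∧ fl G A x ≤ x := by
  have := (hG.inter isClosed_Icc).csSup_mem h ⟨x, fun _ hy => hy.2.2⟩
  exact ⟨this.1, this.2.1, this.2.2⟩

theorem le_fl {x u : ℝ} (hu : u ∈ G) (h1 : A ≤ u) (h2 : u ≤ x) : u ≤ fl G A x :=
  le_csSup ⟨x, fun _ hy => hy.2.2⟩ ⟨hu, h1, h2⟩

theorem fl_mono {x x' : ℝ} (h : (G ∩ Set.Icc A x).Nonempty) (hx : x ≤ x') :
    fl G A x ≤ fl G A x' :=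
  csSup_le_csSup ⟨x', fun _ hy => hy.2.2⟩ h fun _ hy => ⟨hy.1, hy.2.1, hy.2.2.trans hx⟩

/-! ### The class -/

/-- **The class and the labels**, at the windows of a closed set `G`. -/
structure GCh (S : PCl m) (f : ∀ (J : ℕ) (F : Fam m J), F.Ω → α J F)
    (y : ∀ (J : ℕ) (F : Fam m J), F.Ω → γ J F) (c : ℕ → Fin m) (r₀ r : ℕ) (s A B Λ : ℝ)
    (sn : ℝ → ℕ → ℝ) (G : Set ℝ) : Prop where
  ne : S.Ne
  pos : ∀ (τ : ℝ) (J : ℕ) (F : Fam m J) (A : F.Ω → Prop), S.St τ J F A → 0 < Pe F.p A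
  tm : ∃ C₀, TmC S C₀
  rn : ∀ q : ℚ, A < (q : ℝ) + s → (q : ℝ) + s < B → ∃ η, RNum S f (vg ((q : ℝ) + s)) η
  cl : IsClosed G
  ch : ∀ w ∈ G, A ≤ w → w < B → ∃ (u₁ : ℝ) (rd : ℕ → ℝ), (∀ l, r₀ ≤ l → l < r → 0 ≤ rd l) ∧
    Chn S c r₀ r w w u₁ (sn w) rd
  att : ∀ w ∈ G, A ≤ w → w < B → AtT S c r₀ r w (sn w r)
  pt : ∀ (J : ℕ) (F : Fam m J), ∃ φ : α J F → PtT F, ∀ ω, ptr F J ω = φ (f J F ω)
  kn : ∃ p₀ lam : ℝ, p₀ ≤ 1 ∧ Λ ≤ lam ∧ B + Λ ≤ p₀ ∧ Kn ((range r₀).image c) p₀ lam y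
  mono : ∀ l, r₀ ≤ l → l ≤ r → ∀ v ∈ G, ∀ o ∈ G, A ≤ v → v ≤ o → o < B → sn v l - v ≤ sn o l - o
  A0 : 0 ≤ A
  Λ0 : 0 < Λ

/-- Passage to a subclass. -/
theorem GCh.sub (h : GCh S f y c r₀ r s A B Λ sn G) {S' : PCl m} (hne : S'.Ne)
    (hs : ∀ (τ : ℝ) (J : ℕ) (F : Fam m J) (A : F.Ω → Prop), S'.St τ J F A → S.St τ J F A) :
    GCh S' f y c r₀ r s A B Λ sn G where
  ne := hne
  pos := fun τ J F A hA => h.pos τ J F A (hs τ J F A hA)
  tm := by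
    obtain ⟨C₀, hC⟩ := h.tm
    exact ⟨C₀, fun τ J F A hτ hA => hC τ J F A hτ (hs τ J F A hA)⟩
  rn := fun w a b => by
    obtain ⟨η, hη⟩ := h.rn w a b
    exact ⟨η, hη.sub hs⟩
  cl := h.cl
  ch := fun w hw a b => by
    obtain ⟨u₁, rd, h1, h2⟩ := h.ch w hw a b
    exact ⟨u₁, rd, h1, h2.sub hs⟩
  att := fun w hw a b => (h.att w hw a b).sub hs
  pt := h.pt
  kn := h.kn
  mono := h.mono
  A0 := h.A0
  Λ0 := h.Λ0

/-- A smaller set of good windows. -/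
theorem GCh.set (h : GCh S f y c r₀ r s A B Λ sn G) {G' : Set ℝ} (hG' : IsClosed G')
    (hs : G' ⊆ G) : GCh S f y c r₀ r s A B Λ sn G' where
  ne := h.ne
  pos := h.pos
  tm := h.tm
  rn := h.rn
  cl := hG'
  ch := fun w hw a b => h.ch w (hs hw) a b
  att := fun w hw a b => h.att w (hs hw) a b
  pt := h.pt
  kn := h.kn
  mono := fun l a b v hv o ho => h.mono l a b v (hs hv) o (hs ho)
  A0 := h.A0
  Λ0 := h.Λ0

theorem GCh.B1 (h : GCh S f y c r₀ r s A B Λ sn G) : B < 1 := by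
  obtain ⟨p₀, lam, h1, h2, h3, h4⟩ := h.kn
  linarith [h.Λ0]

theorem GCh.mono' (h : GCh S f y c r₀ r s A B Λ sn G) {l : ℕ} (h0 : r₀ ≤ l) (h1 : l ≤ r)
    {v o : ℝ} (hv : v ∈ G) (ho : o ∈ G) (hA : A ≤ v) (hvo : v ≤ o) (hB : o < B) :
    sn v l ≤ sn o l := by
  have h2 := h.mono l h0 h1 v hv o ho hA hvo hB
  linarith

/-- The window of the charts of the index `q`. -/
noncomputable def whG (G : Set ℝ) (A s : ℝ) (q : ℚ) : ℝ := fl G A ((q : ℝ) + s)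

/-- The levels of the index `q`. -/
noncomputable def scG (sn : ℝ → ℕ → ℝ) (G : Set ℝ) (A s : ℝ) (q : ℚ) (l : ℕ) : ℝ :=
  sn (whG G A s q) l

/-- There is a point of `G` before `q + s`. -/
def PG (G : Set ℝ) (A s : ℝ) (q : ℚ) : Prop := (G ∩ Set.Icc A ((q : ℝ) + s)).Nonempty

theorem PG.mono {p q : ℚ} (h : PG G A s p) (hpq : p ≤ q) : PG G A s q := by
  obtain ⟨u, hu, h1, h2⟩ := h
  have : (p : ℝ) ≤ q := by exact_mod_cast hpq
  exact ⟨u, hu, h1, by linarith⟩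

theorem PG.lt {p q : ℚ} (h : PG G A s p) (hpq : (p : ℝ) < q) : PG G A s q :=
  h.mono (le_of_lt (by exact_mod_cast hpq))

theorem GCh.nch (h : GCh S f y c r₀ r s A B Λ sn G) {A' : ℚ} (hA' : PG G A s A') :
    NCh S f y c r₀ r s A' (B - s) Λ (whG G A s) (scG sn G A s) := by
  have h0 : A ≤ (A' : ℝ) + s := by
    obtain ⟨u, hu, h1, h2⟩ := hA'
    linarith
  have hm : ∀ w : ℚ, (A' : ℝ) < w → whG G A s w ∈ G ∧ A ≤ whG G A s w ∧
      whG G A s w ≤ w + s := fun w hw => fl_mem h.cl (hA'.lt hw)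
  exact
  { ne := h.ne
    pos := h.pos
    tm := h.tm
    rn := fun w a b => h.rn w (by linarith) (by linarith)
    ch := fun w a b => h.ch _ (hm w a).1 (hm w a).2.1 (by linarith [(hm w a).2.2])
    att := fun w a b => h.att _ (hm w a).1 (hm w a).2.1 (by linarith [(hm w a).2.2])
    pt := h.pt
    kn := by
      obtain ⟨p₀, lam, h1, h2, h3, h4⟩ := h.kn
      exact ⟨p₀, lam, h1, h2, by linarith, h4⟩
    wm := fun v o a b d => fl_mono (hA'.lt a) (by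
      have : (v : ℝ) ≤ o := by exact_mod_cast b
      linarith)
    wl := fun v a b => ⟨h.A0.trans (hm v a).2.1, (hm v a).2.2⟩
    mono := fun l l0 l1 v o a b d => by
      have b' : (v : ℝ) ≤ o := by exact_mod_cast b
      exact h.mono l l0 l1 _ (hm v a).1 _ (hm o (by linarith)).1 (hm v a).2.1
        (fl_mono (hA'.lt a) (by linarith)) (by linarith [(hm o (by linarith)).2.2])
    Λ0 := h.Λ0 }

/-! ### The slopes -/

/-- **The slopes** of the levels at a point of `G`, and the gaps of `G`. -/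
structure SlpG (sn : ℝ → ℕ → ℝ) (r₀ r : ℕ) (G : Set ℝ) (g : ℝ) (Sl : ℕ → ℝ) : Prop where
  nn : ∀ l, r₀ ≤ l → l ≤ r → 0 ≤ Sl l
  gt : ∀ l, r₀ ≤ l → l < r → 1 < Sl l
  sl : ∀ l, r₀ ≤ l → l ≤ r → ∀ η : ℝ, 0 < η → ∃ ρ : ℝ, 0 < ρ ∧ ∀ t : ℝ, 0 < t → t < ρ →
    ∀ w ∈ G, ∀ v ∈ G, g - t ≤ w → w ≤ v → v ≤ g + t → |sn v l - sn w l - Sl l * (v - w)| ≤ η * t
  gap : ∀ η : ℝ, 0 < η → ∃ ρ : ℝ, 0 < ρ ∧ ∀ t : ℝ, 0 < t → t < ρ → ∀ x : ℝ, g - t ≤ x →
    x ≤ g + t → ∃ u ∈ G, x - η * t ≤ u ∧ u ≤ x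

/-- The slopes are the derivatives within `G`. -/
theorem slpG_of {g : ℝ} {Sl : ℕ → ℝ}
    (nn : ∀ l, r₀ ≤ l → l ≤ r → 0 ≤ Sl l) (gt : ∀ l, r₀ ≤ l → l < r → 1 < Sl l)
    (hd : ∀ l, r₀ ≤ l → l ≤ r → HasDerivWithinAt (fun x => sn x l) (Sl l) G g)
    (gap : ∀ η : ℝ, 0 < η → ∃ ρ : ℝ, 0 < ρ ∧ ∀ t : ℝ, 0 < t → t < ρ → ∀ x : ℝ, g - t ≤ x →
      x ≤ g + t → ∃ u ∈ G, x - η * t ≤ u ∧ u ≤ x) : SlpG sn r₀ r G g Sl := by
  refine ⟨nn, gt, fun l l0 l1 η hη => ?_, gap⟩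
  have h1 := (hasDerivWithinAt_iff_isLittleO.1 (hd l l0 l1)).def (half_pos hη)
  obtain ⟨ρ, hρ, h2⟩ := Metric.mem_nhdsWithin_iff.1 h1
  refine ⟨ρ, hρ, fun t ht htρ w hw v hv a b d => ?_⟩
  have key : ∀ x ∈ G, g - t ≤ x → x ≤ g + t → |sn x l - sn g l - (x - g) * Sl l| ≤
      η / 2 * t := by
    intro x hx b1 b2
    have h3 : |x - g| ≤ t := by
      rw [abs_le]
      constructor <;> linarith
    have h4 : ‖sn x l - sn g l - (x - g) • Sl l‖ ≤ η / 2 * ‖x - g‖ :=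
      h2 ⟨by rw [Metric.mem_ball, Real.dist_eq]; linarith, hx⟩
    simp only [smul_eq_mul, Real.norm_eq_abs] at h4
    exact h4.trans (mul_le_mul_of_nonneg_left h3 (by positivity))
  have k1 := abs_le.mp (key w hw a (by linarith))
  have k2 := abs_le.mp (key v hv (by linarith) d)
  rw [abs_le]
  constructor <;> linarith [k1.1, k1.2, k2.1, k2.2]

/-- The slopes at the indices. -/
theorem SlpG.slp {g : ℝ} {Sl : ℕ → ℝ} (h : SlpG sn r₀ r G g Sl) (hG : IsClosed G) (hA : A < g) :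
    Slp s (whG G A s) (scG sn G A s) r₀ r (g - s) Sl := by
  -- the windows of the charts
  have hw : ∀ η : ℝ, 0 < η → η ≤ 1 → ∃ ρ : ℝ, 0 < ρ ∧ ∀ t : ℝ, 0 < t → t < ρ → ∀ v : ℚ,
      g - s - t ≤ v → (v : ℝ) ≤ g - s + t → whG G A s v ∈ G ∧ whG G A s v ≤ v + s ∧
        (v : ℝ) + s - whG G A s v ≤ η * t ∧ PG G A s v := by
    intro η hη hη1
    obtain ⟨ρ, hρ, H⟩ := h.gap η hη
    refine ⟨min ρ ((g - A) / 2), lt_min hρ (by linarith), fun t ht htρ v a b => ?_⟩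
    have t1 : t < ρ := htρ.trans_le (min_le_left _ _)
    have t2 : t < (g - A) / 2 := htρ.trans_le (min_le_right _ _)
    obtain ⟨u, hu, u1, u2⟩ := H t ht t1 ((v : ℝ) + s) (by linarith) (by linarith)
    have u3 : η * t ≤ 1 * t := mul_le_mul_of_nonneg_right hη1 ht.le
    have u4 : A ≤ u := by linarith
    obtain ⟨m1, m2, m3⟩ := fl_mem (x := (v : ℝ) + s) hG ⟨u, hu, u4, u2⟩
    have m4 : u ≤ fl G A ((v : ℝ) + s) := le_fl hu u4 u2
    refine ⟨m1, m3, ?_, ⟨u, hu, u4, u2⟩⟩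
    show (v : ℝ) + s - fl G A ((v : ℝ) + s) ≤ η * t
    linarith
  refine ⟨h.nn, h.gt, fun l l0 l1 η hη => ?_, fun η hη => ?_⟩
  · have hS := h.nn l l0 l1
    obtain ⟨η₁, hη₁, e1, e2⟩ : ∃ η₁ : ℝ, 0 < η₁ ∧ η₁ ≤ 1 ∧ Sl l * η₁ ≤ η / 2 := by
      refine ⟨min 1 (η / (2 * (Sl l + 1))), lt_min one_pos (by positivity), min_le_left _ _, ?_⟩
      have h1 := min_le_right 1 (η / (2 * (Sl l + 1)))
      have h2 : Sl l * min 1 (η / (2 * (Sl l + 1))) ≤ Sl l * (η / (2 * (Sl l + 1))) :=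
        mul_le_mul_of_nonneg_left h1 hS
      have h3 : Sl l * (η / (2 * (Sl l + 1))) ≤ (Sl l + 1) * (η / (2 * (Sl l + 1))) :=
        mul_le_mul_of_nonneg_right (by linarith) (by positivity)
      have h4 : (Sl l + 1) * (η / (2 * (Sl l + 1))) = η / 2 := by
        field_simp
      linarith
    obtain ⟨ρ₁, hρ₁, H1⟩ := h.sl l l0 l1 (η / 4) (by positivity)
    obtain ⟨ρ₂, hρ₂, H2⟩ := hw η₁ hη₁ e1
    refine ⟨min (ρ₁ / 2) ρ₂, lt_min (by positivity) hρ₂, fun t ht htρ w v a b d => ?_⟩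
    have t1 : t < ρ₁ / 2 := htρ.trans_le (min_le_left _ _)
    have t2 : t < ρ₂ := htρ.trans_le (min_le_right _ _)
    have b' : (w : ℝ) ≤ v := by exact_mod_cast b
    obtain ⟨w1, w2, w3, w4⟩ := H2 t ht t2 w a (by linarith)
    obtain ⟨v1, v2, v3, -⟩ := H2 t ht t2 v (by linarith) d
    have e3 : η₁ * t ≤ 1 * t := mul_le_mul_of_nonneg_right e1 ht.le
    have hwv : whG G A s w ≤ whG G A s v := fl_mono w4 (by linarith)
    have k1 := abs_le.mp (H1 (2 * t) (by linarith) (by linarith) _ w1 _ v1 (by linarith) hwv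
      (by linarith))
    have k2 : Sl l * (whG G A s v - whG G A s w) ≤ Sl l * (v - w) + Sl l * (η₁ * t) := by
      rw [← mul_add]
      exact mul_le_mul_of_nonneg_left (by linarith) hS
    have k3 : Sl l * (v - w) ≤ Sl l * (whG G A s v - whG G A s w) + Sl l * (η₁ * t) := by
      rw [← mul_add]
      exact mul_le_mul_of_nonneg_left (by linarith) hS
    have k4 : Sl l * (η₁ * t) ≤ η / 2 * t := by
      rw [← mul_assoc]
      exact mul_le_mul_of_nonneg_right e2 ht.le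
    unfold scG
    rw [abs_le]
    constructor <;> linarith [k1.1, k1.2]
  · obtain ⟨ρ, hρ, H⟩ := hw (min η 1) (lt_min hη one_pos) (min_le_right _ _)
    refine ⟨ρ, hρ, fun t ht htρ v a b => ?_⟩
    obtain ⟨m1, m2, m3, -⟩ := H t ht htρ v a b
    exact ⟨m2, m3.trans (mul_le_mul_of_nonneg_right (min_le_left _ _) ht.le)⟩

/-! ### Points of density -/

/-- **The gaps are small** at almost every point of a closed set. -/
theorem gap_ae (hG : IsClosed G) : ∀ᵐ g : ℝ, g ∈ G → ∀ η : ℝ, 0 < η → ∃ ρ : ℝ, 0 < ρ ∧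
    ∀ t : ℝ, 0 < t → t < ρ → ∀ x : ℝ, g - t ≤ x → x ≤ g + t → ∃ u ∈ G, x - η * t ≤ u ∧ u ≤ x := by
  filter_upwards [(ae_restrict_iff' hG.measurableSet).1
    (Besicovitch.ae_tendsto_measure_inter_div volume G)] with g hg hgG η hη
  obtain ⟨θ, hθ0, hθ1, hθη⟩ : ∃ θ : ℝ, 0 < θ ∧ θ ≤ 1 / 8 ∧ θ * 8 ≤ η :=
    ⟨min (η / 8) (1 / 8), lt_min (by positivity) (by norm_num),
      min_le_right _ _, by linarith [min_le_left (η / 8) (1 / 8)]⟩
  have h1 : ∀ᶠ r in 𝓝[>] (0 : ℝ), ENNReal.ofReal (1 - θ) <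
      volume (G ∩ Metric.closedBall g r) / volume (Metric.closedBall g r) := by
    refine (hg hgG).eventually_const_lt ?_
    rw [← ENNReal.ofReal_one, ENNReal.ofReal_lt_ofReal_iff one_pos]
    linarith
  obtain ⟨r₁, hr₁, h2⟩ := mem_nhdsGT_iff_exists_Ioo_subset.1 h1
  have hr₁' : (0 : ℝ) < r₁ := hr₁
  refine ⟨r₁ / (2 + η), by positivity, fun t ht htr x hx1 hx2 => ?_⟩
  rw [lt_div_iff₀ (by positivity)] at htr
  by_contra hcon
  push Not at hcon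
  have hηt : 0 < η * t := by positivity
  have h3 : ENNReal.ofReal (1 - θ) <
      volume (G ∩ Metric.closedBall g (2 * t)) / volume (Metric.closedBall g (2 * t)) :=
    h2 ⟨by linarith, by nlinarith⟩
  have hv : volume (Metric.closedBall g (2 * t)) = ENNReal.ofReal (2 * (2 * t)) :=
    Real.volume_closedBall g (2 * t)
  -- the interval without points of `G`
  have hθt : 0 < 8 * θ * t := by positivity
  obtain ⟨μ, hμ⟩ : ∃ μ : ℝ, μ = min (8 * θ * t) t := ⟨_, rfl⟩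
  have hμ0 : 0 < μ := by rw [hμ]; exact lt_min hθt ht
  have hμ1 : μ ≤ 8 * θ * t := by rw [hμ]; exact min_le_left _ _
  have hμ2 : μ ≤ t := by rw [hμ]; exact min_le_right _ _
  have hμη : μ ≤ η * t := hμ1.trans (by nlinarith)
  have hsub : G ∩ Metric.closedBall g (2 * t) ⊆ Metric.closedBall g (2 * t) \ Set.Icc (x - μ) x := by
    rintro u ⟨hu, hu2⟩
    refine ⟨hu2, fun hu3 => ?_⟩
    have := hcon u hu (by linarith [hu3.1])
    linarith [hu3.2]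
  have hIc : Set.Icc (x - μ) x ⊆ Metric.closedBall g (2 * t) := by
    intro u hu
    rw [Metric.mem_closedBall, Real.dist_eq, abs_le]
    constructor <;> linarith [hu.1, hu.2]
  have hm1 : volume (Metric.closedBall g (2 * t) \ Set.Icc (x - μ) x) =
      ENNReal.ofReal (4 * t - μ) := by
    rw [measure_sdiff hIc measurableSet_Icc.nullMeasurableSet (by
      rw [Real.volume_Icc]
      exact ENNReal.ofReal_ne_top), hv, Real.volume_Icc, ← ENNReal.ofReal_sub _ (by linarith)]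
    congr 1
    ring
  have hm2 : volume (G ∩ Metric.closedBall g (2 * t)) ≤ ENNReal.ofReal (4 * t - μ) := by
    rw [← hm1]
    exact measure_mono hsub
  rw [ENNReal.lt_div_iff_mul_lt (Or.inl (by
      rw [hv]
      exact (ENNReal.ofReal_pos.2 (by linarith)).ne')) (Or.inl (by
      rw [hv]
      exact ENNReal.ofReal_ne_top)), hv, ← ENNReal.ofReal_mul (by linarith)] at h3
  have h4 := h3.trans_le hm2
  rw [ENNReal.ofReal_lt_ofReal_iff (by linarith)] at h4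
  -- `(1 - θ) 4 t < 4 t - μ`
  have h6 : θ * t ≤ 1 / 8 * t := mul_le_mul_of_nonneg_right hθ1 ht.le
  have h7 : 0 < θ * t := by positivity
  rcases min_choice (8 * θ * t) t with h5 | h5
  · rw [← hμ] at h5
    linarith
  · rw [← hμ] at h5
    linarith

end Pool.AVG96
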