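import Pool.Agent.H96.AVG.Vld

/-!
# The near digits of the first rough coordinate given its velocity, with side information

`yT`: the time and the digits of the base. `vnum_G`: one subclass with all numbers for `yT`.
`vel_G`: `vel_G0` for any `y` which knows `yT` and is a function of `yT` and the side information.
-/

set_option autoImplicit false

namespace Pool.AVG96

open Finset Real MvPolynomial MeasureTheory Filter
open Pool.Agent.H49.Ent Pool.Agent.H32.Dense Pool.STK Pool.KA Pool.KSAT Pool.K2S Pool.PB Pool.S6C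
  Pool.GEN Pool.RCD Pool.LA91
open Pool.OWN83
open Pool.OWN68 (F1)

variable {m : ℕ} {U₀ U U' : Type} {α γ : ∀ J : ℕ, Fam m J → Type}
  {f : ∀ (J : ℕ) (F : Fam m J), F.Ω → α J F} {y : ∀ (J : ℕ) (F : Fam m J), F.Ω → γ J F}
  {S : PCl m} {c : ℕ → Fin m} {r₀ r : ℕ} {s A B Λ p₀ lam' : ℝ} {sn : ℝ → ℕ → ℝ} {G : Set ℝ}
  {I : Finset (Fin m)}

/-- The time and the digits of the base. -/
noncomputable def yT (I : Finset (Fin m)) (p₀ lam' : ℝ) (J : ℕ) (F : Fam m J) (ω : F.Ω) :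
    ℕ × (Fin m → ℤ) × (Fin m → ℤ) :=
  (F.T ω, (fun i => if i ∈ I then F.X ⌊p₀ * J⌋₊ ω i else 0),
    fun i => if i ∈ I then F.D ⌊lam' * J⌋₊ ω i else 0)

theorem kn_yT : Kn I p₀ lam' (yT (m := m) I p₀ lam') := fun _ _ => ⟨fun v => v, fun _ => rfl⟩

/-- `y` is a function of `yT` and the side information. -/
def YkZ (I : Finset (Fin m)) (p₀ lam' : ℝ) (y : ∀ (J : ℕ) (F : Fam m J), F.Ω → γ J F) : Prop :=
  ∀ (J : ℕ) (F : Fam m J), ∃ ψ : F.ζ × (ℕ × (Fin m → ℤ) × (Fin m → ℤ)) → γ J F, ∀ ω,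
    y J F ω = ψ (F.Z ω, yT I p₀ lam' J F ω)

/-- The side information is closed. -/
theorem cl2_Z (pt : ∀ (J : ℕ) (F : Fam m J), ∃ φ : α J F → PtT F, ∀ ω, ptr F J ω = φ (f J F ω))
    (w : ℝ) (J : ℕ) (F : Fam m J) (A' : F.Ω → Prop) : Cl2 (f J F) (vg w J F) A' F.Z := by
  obtain ⟨φ, hφ⟩ := pt J F
  exact ⟨⟨fun a => (φ a).2.2, fun ω _ => congrArg (fun a => a.2.2) (hφ ω)⟩, fun s => s.2.1,
    fun ω _ => rfl⟩

theorem f1_yT
    (hpos : ∀ (τ : ℝ) (J : ℕ) (F : Fam m J) (A : F.Ω → Prop), S.St τ J F A → 0 < Pe F.p A)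
    (pt : ∀ (J : ℕ) (F : Fam m J), ∃ φ : α J F → PtT F, ∀ ω, ptr F J ω = φ (f J F ω))
    (hy : YkZ I p₀ lam' y) {Q : Qt m U} {Q' : Qt m U'} {w e η : ℝ}
    (h : F1 S f (vg w) y Q Q' e η) : F1 S f (vg w) (yT I p₀ lam') Q Q' e η := by
  intro K
  refine Bas.mono 0 ((h K).and (pos_bas hpos)) ?_
  rintro J - F A' ⟨h1, hA⟩ u u' hu hu'
  have hcl := isLaw_cond F.isLaw hA
  obtain ⟨V, z, hz, h2⟩ := h1 u u' hu hu'
  obtain ⟨ψ, hψ⟩ := hy J F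
  refine ⟨V × F.ζ, fun ω => (z ω, F.Z ω), hz.join (cl2_Z pt w J F A'), le_trans ?_ h2⟩
  refine CH_mono_cond hcl.nonneg fun ω ω' _ _ hh => ?_
  simp only [Prod.mk.injEq] at hh ⊢
  refine ⟨hh.1, hh.2.1.1, ?_⟩
  rw [hψ ω, hψ ω', hh.2.1.2, hh.2.2]

theorem few_yT
    (hpos : ∀ (τ : ℝ) (J : ℕ) (F : Fam m J) (A : F.Ω → Prop), S.St τ J F A → 0 < Pe F.p A)
    (pt : ∀ (J : ℕ) (F : Fam m J), ∃ φ : α J F → PtT F, ∀ ω, ptr F J ω = φ (f J F ω))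
    (hy : YkZ I p₀ lam' y) {Q : Qt m U} {Q' : Qt m U'} {w : ℝ}
    (h : Few S f (vg w) y Q Q') : Few S f (vg w) (yT I p₀ lam') Q Q' := by
  intro x hx
  obtain ⟨e, he, H⟩ := h x hx
  exact ⟨e, he, fun K => f1_yT hpos pt hy H K⟩

theorem lowN_yT
    (hpos : ∀ (τ : ℝ) (J : ℕ) (F : Fam m J) (A : F.Ω → Prop), S.St τ J F A → 0 < Pe F.p A)
    (hkn : Kn I p₀ lam' y) {Q₀ : Qt m U₀} {Q : Qt m U} {w θ : ℝ}
    (h : LowN S f (vg w) y Q₀ Q θ) : LowN S f (vg w) (yT I p₀ lam') Q₀ Q θ := by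
  intro x hx
  obtain ⟨k, hk, e, he, H⟩ := h x hx
  refine ⟨k, hk, e, he, fun K => Bas.mono 0 ((H K).and (pos_bas hpos)) ?_⟩
  rintro J - F A' ⟨H, hA⟩ V z hz u₀ u hu₀ hu
  obtain ⟨φ, hφ⟩ := hkn J F
  refine (H V z hz u₀ u hu₀ hu).trans (CH_mono_cond (isLaw_cond F.isLaw hA).nonneg ?_)
  intro ω ω' _ _ hh
  simp only [Prod.mk.injEq] at hh ⊢
  refine ⟨hh.1, hh.2.1, ?_⟩
  unfold yT
  rw [← hφ ω, ← hφ ω', hh.2.2]

/-- The class for `yT`. -/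
theorem GCh.yT (h : GCh S f y c r₀ r s A B Λ sn G) (h1 : p₀ ≤ 1) (h2 : Λ ≤ lam')
    (h3 : B + Λ ≤ p₀) :
    GCh S f (Pool.AVG96.yT ((range r₀).image c) p₀ lam') c r₀ r s A B Λ sn G where
  ne := h.ne
  pos := h.pos
  tm := h.tm
  rn := h.rn
  cl := h.cl
  ch := h.ch
  att := h.att
  pt := h.pt
  kn := ⟨p₀, lam', h1, h2, h3, kn_yT⟩
  mono := h.mono
  A0 := h.A0
  Λ0 := h.Λ0

/-- **One subclass with all numbers** of the place `r₀`. -/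
theorem vnum_G (h : GCh S f y c r₀ r s A B Λ sn G) (hr : r₀ ≤ r) (h1 : p₀ ≤ 1) (h2 : Λ ≤ lam')
    (h3 : B + Λ ≤ p₀) (hyk : YkZ ((range r₀).image c) p₀ lam' y) {Q₀ : Qt m U₀}
    (hQ : Exs S Q₀) (hQt : ∀ w ∈ G, A ≤ w → w < B → Few S f (vg w) y Q₀ Q₀) :
    ∃ S' : PCl m, S'.Ne ∧
      (∀ (τ : ℝ) (J : ℕ) (F : Fam m J) (A : F.Ω → Prop), S'.St τ J F A → S.St τ J F A) ∧
      VNum S' f (yT ((range r₀).image c) p₀ lam') c r₀ s (PG G A s) (B - s) Λ (whG G A s)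
        (scG sn G A s) Q₀ := by
  have h' := h.yT h1 h2 h3
  refine vnum_cls h.ne h.pos (fun _ hA' => h'.nch hA') hr hQ fun A' hA' v v1 v2 => ?_
  obtain ⟨m1, m2, m3⟩ := fl_mem h.cl (hA'.lt v1)
  have m4 : whG G A s v < B := lt_of_le_of_lt m3 (by linarith)
  exact (h'.nch hA').up v1 le_rfl v2 (few_yT h.pos h.pt hyk (hQt _ m1 m2 m4))

/-- **The near digits of the first rough coordinate are full given its velocity**, at almost every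
`g`; `y` is the near path of the base: `p₀` digits of the position and `lam' ≥ p₀ - A` of the
velocity. -/
theorem vel_Gn (h : GCh S f y c r₀ r s A B Λ sn G) (hr : r₀ ≤ r) (h1 : p₀ ≤ 1) (h2 : Λ ≤ lam')
    (h3 : B + Λ ≤ p₀) (hpl : p₀ ≤ A + lam') (hkn : Kn ((range r₀).image c) p₀ lam' y)
    (hyk : YkZ ((range r₀).image c) p₀ lam' y) {Q₀ : Qt m U₀} (hQ : Exs S Q₀)
    (hQt : ∀ w ∈ G, A ≤ w → w < B → Few S f (vg w) y Q₀ Q₀)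
    (hsn : ∀ w ∈ G, A ≤ w → w < B → 0 ≤ sn w r₀)
    (hn : VNum S f (yT ((range r₀).image c) p₀ lam') c r₀ s (PG G A s) (B - s) Λ (whG G A s)
      (scG sn G A s) Q₀) :
    ∀ᵐ g : ℝ, A < g → g < B → ∀ Sl : ℕ → ℝ, SlpG sn r₀ r G g Sl → 1 < Sl r₀ →
      FulG S f y Q₀ c r₀ sn G (Sl r₀) g → JetG S f y Q₀ c r₀ sn G g →
      VelG S f y Q₀ c r₀ sn G (Sl r₀) g := by
  have h' := h.yT h1 h2 h3
  filter_upwards [vel_G0 h' hr hQ (fun w a b d => few_yT h.pos h.pt hyk (hQt w a b d)) hn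
    kn_yT (fun J F => ⟨fun v => v, fun ω => rfl⟩) hsn hpl] with g hg hgA hgB Sl hS hS1 hful hjet
  have hful' : FulG S f (yT ((range r₀).image c) p₀ lam') Q₀ c r₀ sn G (Sl r₀) g := by
    intro e C he hC
    obtain ⟨ρ, hρ, H⟩ := hful e C he hC
    exact ⟨ρ, hρ, fun R hR hRρ w hw a a1 a2 a3 N hN =>
      lowN_yT h.pos hkn (H R hR hRρ w hw a a1 a2 a3 N hN)⟩
  have hjet' : JetG S f (yT ((range r₀).image c) p₀ lam') Q₀ c r₀ sn G g := by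
    intro e C he hC
    obtain ⟨ρ, hρ, H⟩ := hjet e C he hC
    refine ⟨ρ, hρ, fun R hR hRρ w hw w1 w2 => ?_⟩
    obtain ⟨Pm, q1, ⟨j₀, η, e', he', hη, hs', k1, k2⟩, e'', he'', k3⟩ := H R hR hRρ w hw w1 w2
    exact ⟨Pm, q1, ⟨j₀, η, e', he', hη, hs', fun j a b => f1_yT h.pos h.pt hyk (k1 j a b),
      fun j a b x hx => f1_yT h.pos h.pt hyk (k2 j a b x hx)⟩, e'', he'',
      f1_yT h.pos h.pt hyk k3⟩
  have key := hg hgA hgB Sl hS hS1 hful' hjet'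
  intro e C he hC
  obtain ⟨κ, ρ, hκ, hρ, H⟩ := key (e / 2) C (by positivity) hC
  refine ⟨κ, ρ, hκ, hρ, fun R hR hRρ w hw j w1 w2 w3 Na Nb Nd b1 b2 b3 b4 c₀ hc₀ => ?_⟩
  obtain ⟨k, hk, e₀, he₀, H⟩ := H R hR hRρ w hw j w1 w2 w3 Na Nb Nd b1 b2 b3 b4 c₀ hc₀
  refine ⟨min k (c₀ * (e / 2 * R)), by positivity, e₀, he₀, fun K =>
    Bas.mono 0 ((H K).and (pos_bas h.pos)) ?_⟩
  rintro J - F A' ⟨H, hA'⟩ V₁ V₂ z zj hz hzj u₀ a b d hu₀ ha hb hd B' hB' hBA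
  have hJ0 : (0 : ℝ) ≤ J := Nat.cast_nonneg J
  have hBp : 0 < Pe F.p B' := lt_of_lt_of_le (mul_pos hc₀ hA') hBA
  have hp := (isLaw_cond F.isLaw hBp).nonneg
  obtain ⟨ψ, hψ⟩ := hyk J F
  have q1 := H V₁ V₂ z zj (hz.le' (min_le_left _ _)) (hzj.le' (min_le_left _ _)) u₀ a b d hu₀ ha
    hb hd B' hB' hBA
  have q2 : CH (Pool.Agent.H49.Ent.cond F.p B' True) F.Z z ≤ e / 2 * R * J :=
    ch_part F.isLaw hB' hA' hc₀ hBA _ _ ((hz.2 _ F.Z (cl2_Z h.pt w J F A')).trans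
      ((mul_le_mul_of_nonneg_right (min_le_right _ _) hJ0).trans (le_of_eq (by ring))))
  have q3 := CH_le_add hp b F.Z (fun ω => (a ω, (d ω, (zj ω, (z ω, (u₀ ω,
    yT ((range r₀).image c) p₀ lam' J F ω))))))
  have q4 : CH (Pool.Agent.H49.Ent.cond F.p B' True) F.Z (fun ω => (a ω, (d ω, (zj ω, (z ω, (u₀ ω,
      yT ((range r₀).image c) p₀ lam' J F ω)))))) ≤
      CH (Pool.Agent.H49.Ent.cond F.p B' True) F.Z z := CH_mono_cond hp fun ω ω' _ _ hh => by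
    simp only [Prod.mk.injEq] at hh
    exact hh.2.2.2.1
  have q5 : CH (Pool.Agent.H49.Ent.cond F.p B' True) b (fun ω => (F.Z ω, (a ω, (d ω, (zj ω, (z ω,
      (u₀ ω, yT ((range r₀).image c) p₀ lam' J F ω))))))) ≤
      CH (Pool.Agent.H49.Ent.cond F.p B' True) b
        (fun ω => (a ω, (d ω, (zj ω, (z ω, (u₀ ω, y J F ω)))))) :=
    CH_mono_cond hp fun ω ω' _ _ hh => by
      rw [hψ ω, hψ ω']
      simp only [Prod.mk.injEq] at hh ⊢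
      refine ⟨hh.2.1, hh.2.2.1, hh.2.2.2.1, hh.2.2.2.2.1, hh.2.2.2.2.2.1, ?_⟩
      rw [hh.1, hh.2.2.2.2.2.2]
  linarith

/-- **The near digits of the first rough coordinate are full given its velocity**, at almost every
`g`. -/
theorem vel_G (h : GCh S f y c r₀ r s A B Λ sn G) (hr : r₀ ≤ r) (h1 : p₀ ≤ 1) (h2 : Λ ≤ lam')
    (h3 : B + Λ ≤ p₀) (hpl : p₀ ≤ lam') (hkn : Kn ((range r₀).image c) p₀ lam' y)
    (hyk : YkZ ((range r₀).image c) p₀ lam' y) {Q₀ : Qt m U₀} (hQ : Exs S Q₀)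
    (hQt : ∀ w ∈ G, A ≤ w → w < B → Few S f (vg w) y Q₀ Q₀)
    (hsn : ∀ w ∈ G, A ≤ w → w < B → 0 ≤ sn w r₀)
    (hn : VNum S f (yT ((range r₀).image c) p₀ lam') c r₀ s (PG G A s) (B - s) Λ (whG G A s)
      (scG sn G A s) Q₀) :
    ∀ᵐ g : ℝ, A < g → g < B → ∀ Sl : ℕ → ℝ, SlpG sn r₀ r G g Sl → 1 < Sl r₀ →
      FulG S f y Q₀ c r₀ sn G (Sl r₀) g → JetG S f y Q₀ c r₀ sn G g →
      VelG S f y Q₀ c r₀ sn G (Sl r₀) g :=
  vel_Gn h hr h1 h2 h3 (by linarith [h.A0]) hkn hyk hQ hQt hsn hn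

end Pool.AVG96
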