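import Pool.Agent.H96.AVG.Rga
import Pool.Agent.H96.AVG.Vle

/-!
# Less precise charts: the theorems

`mj_Gr`: `mj_G` for charts of any precision between `sn w - φ R` and `sn w`, where `φ` is small
against the accuracy `κ`. `VelGr`, `VelG.rgh`: the same for `VelG`.
-/

set_option autoImplicit false

namespace Pool.AVG96

open Finset Real MvPolynomial MeasureTheory Filter Topology
open Pool.Agent.H49.Ent Pool.Agent.H32.Dense Pool.STK Pool.KA Pool.KSAT Pool.K2S Pool.PB Pool.S6C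
  Pool.GEN Pool.RCD Pool.LA91
open Pool.OWN83 (ch_part)
open Pool.OWN68 (cl2_vg)

variable {m : ℕ} {U₀ : Type} {α γ : ∀ J : ℕ, Fam m J → Type}
  {f : ∀ (J : ℕ) (F : Fam m J), F.Ω → α J F} {y : ∀ (J : ℕ) (F : Fam m J), F.Ω → γ J F}
  {S : PCl m} {c : ℕ → Fin m} {r₀ r : ℕ} {s A B Λ : ℝ} {sn : ℝ → ℕ → ℝ} {G : Set ℝ}

/-- The conclusion of `mj_G` at one box, for charts of precision `p`. -/
def MjR (S : PCl m) (f : ∀ (J : ℕ) (F : Fam m J), F.Ω → α J F)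
    (y : ∀ (J : ℕ) (F : Fam m J), F.Ω → γ J F) (c : ℕ → Fin m) (r₀ r : ℕ) (A : ℝ)
    (sn : ℝ → ℕ → ℝ) (G : Set ℝ) (Sl : ℕ → ℝ) (a : ℕ → ℝ) (e κ C R w j : ℝ) (p : ℕ → ℝ) : Prop :=
  ∀ (d : ℝ) (D : ℕ → ℕ → ℝ), d ≤ C * R →
    (∀ l, r₀ ≤ l → l < r → Sl l * (j - w) + κ * R ≤ d) →
    (∀ l, r₀ ≤ l → l < r → ∀ j' ≤ 1, sn w l - (j' : ℕ) * w + d ≤ D l j' ∧
      D l j' ≤ sn w l - (j' : ℕ) * w + C * R) →
    MIw S f y w j (jetQ m c r₀ r w p (nD sn a)) (jetQ m c r₀ r w p D) (e * R) ∧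
    (Sl r * (j - w) + κ * R ≤ d → ∀ E : ℕ → ℝ,
      (∀ j' ≤ 1, (∀ o ∈ G, A ≤ o → o ≤ j → sn o r - (j' : ℕ) * o ≤ E j') ∧
        E j' ≤ sn w r - (j' : ℕ) * w + C * R ∧ E j' ≤ nD sn a r j') →
      MIw S f y w j
        ((jetQ m c r₀ r w p (nD sn a)).prod (prQ m c r w (p r) (nD sn a r)))
        ((jetQ m c r₀ r w p D).prod (prQ m c r w (p r) E)) (e * R))

/-- One box. -/
theorem mjR_box (h : GCh S f y c r₀ r s A B Λ sn G) (hr : r₀ ≤ r) {Sl : ℕ → ℝ}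
    (hnn : 0 ≤ Sl r) (hnl : ∀ l, r₀ ≤ l → l < r → 0 ≤ Sl l) {a : ℕ → ℝ}
    {g e κ C ρ φ σ₀ : ℝ} {lv : ℕ → ℝ}
    (hF : FarR sn G r₀ r a Λ (g - ρ) (g + ρ) lv σ₀) (hA : A ≤ g - ρ) (hB : g + ρ ≤ B)
    (har : a r ∈ G) (harB : a r < B) (hκ : 0 < κ)
    (hC1 : C * ρ ≤ σ₀ / 2) (hC2 : C * ρ + σ₀ / 2 ≤ Λ) (hC : 0 < C) (hφ : 0 ≤ φ)
    (hφκ : 16 * ((r : ℝ) + 2) * φ ≤ κ) {R : ℝ} (hR : 0 < R) (hRρ : R < ρ) (hφR : φ * R ≤ σ₀ / 4)
    {w j : ℝ} (hw : w ∈ G) (hwR : g - R ≤ w) (hwj : w ≤ j) (hjR : j ≤ g + R)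
    (hsl : ∀ o ∈ G, w ≤ o → o ≤ j → sn o r - sn w r ≤ Sl r * (o - w) + κ / (16 * (r + 2)) * R)
    (H : MjR S f y c r₀ r A sn G Sl a e (κ / 2) C R w j (sn w)) {p : ℕ → ℝ}
    (hp : Rgh sn r₀ r w (φ * R) p) : MjR S f y c r₀ r A sn G Sl a e κ C R w j p := by
  obtain ⟨x, hx⟩ : ∃ x, x = κ / (16 * (r + 2)) * R := ⟨_, rfl⟩
  rw [← hx] at hsl
  have hx0 : 0 < x := by rw [hx]; positivity
  have hκR : 16 * ((r : ℝ) + 2) * x = κ * R := by rw [hx]; field_simp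
  have hφx : φ * R ≤ x := by
    have h1 : φ ≤ κ / (16 * (r + 2)) := by
      rw [le_div_iff₀ (by positivity)]
      linarith
    rw [hx]
    exact mul_le_mul_of_nonneg_right h1 hR.le
  have hrx : 0 ≤ (r : ℝ) * x := by positivity
  have hexp : 16 * ((r : ℝ) + 2) * x = 16 * (r * x) + 32 * x := by ring
  have hexp' : 3 * ((r : ℝ) + 1) * x = 3 * (r * x) + 3 * x := by ring
  have hexp2 : 3 * ((r : ℝ) + 2) * x = 3 * (r * x) + 6 * x := by ring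
  have hCR : C * R ≤ C * ρ := mul_le_mul_of_nonneg_left hRρ.le hC.le
  have hφR0 : 0 ≤ φ * R := by positivity
  have hjw : 0 ≤ j - w := by linarith
  have hσ := hF.σ0
  have hwA : g - ρ < w := by linarith
  have hwB : w < g + ρ := by linarith
  have hself : Rgh sn r₀ r w (φ * R) (sn w) := Rgh.self hφR0
  have hlr : ∀ l, l < r → 3 * ((l : ℝ) + 1) * x + 3 * x ≤ 3 * ((r : ℝ) + 1) * x := fun l hl => by
    have h1 : (l : ℝ) + 1 ≤ r := by exact_mod_cast hl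
    nlinarith
  have hl0 : ∀ l : ℕ, 3 * x ≤ 3 * ((l : ℝ) + 1) * x := fun l => by
    have : (0 : ℝ) ≤ l := Nat.cast_nonneg l
    nlinarith
  obtain ⟨u₁, rd, hrd, hch⟩ := h.ch w hw (by linarith) (by linarith)
  have hatt := h.att w hw (by linarith) (by linarith)
  have xs : ∀ N : ℕ → ℕ → ℝ, Exs S (jetQ m c r₀ r w (sn w) N) := fun N =>
    exs_qjets fun l l0 l1 j' _ => exs_jet (hrd l l0 l1) (hch.att l l0 l1)
  have xt : ∀ N : ℕ → ℝ, Exs S (prQ m c r w (sn w r) N) := fun N =>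
    (hatt.exs _).prod (hatt.exs _)
  intro d D hdC hdl hD
  have hdκ : ∀ l, r₀ ≤ l → l < r → κ * R ≤ d := fun l l0 l1 => by
    have := hdl l l0 l1
    have := mul_nonneg (hnl l l0 l1) hjw
    linarith
  have hdx : ∀ l, r₀ ≤ l → l < r → 3 * ((r : ℝ) + 1) * x ≤ d := fun l l0 l1 => by
    linarith [hdκ l l0 l1]
  have hdΛ : d ≤ Λ := by linarith
  obtain ⟨H1, H2⟩ := H (d - 3 * ((r : ℝ) + 1) * x)
    (fun l j' => sn w l - (j' : ℝ) * w + (d - 3 * ((l : ℝ) + 1) * x)) (by linarith)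
    (fun l l0 l1 => by
      have := hdl l l0 l1
      linarith) (fun l l0 l1 j' hj' => by
      have := hlr l l1
      have := hl0 l
      constructor <;> linarith)
  have k1 := hF.lab_rgh h hr hA hB hw hwA hwB (by linarith) hself hp
  have k2 := hF.lab_rgh h hr hA hB hw hwA hwB (by linarith) hp hself
  have k3 := h.near_rgh hr (d := d) (x := x) hw (by linarith) (by linarith) hx0 hφx hp hself hdx
    hdΛ (D := D) fun l l0 l1 j' hj' => (hD l l0 l1 j' hj').1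
  have k4 := hF.near_rgh h hr hA hB (C' := C * R) hw hwA hwB hφR hp (by linarith) (by linarith)
    (D := D) fun l l0 l1 j' hj' => (hD l l0 l1 j' hj').2
  refine ⟨?_, fun hdr E hE => ?_⟩
  · have key := MIw.lab h.pos H1 (xs _) (xs _) k1 k2 (few_d k3) k4
    rwa [add_zero] at key
  · -- the last point of `G`
    obtain ⟨m1, m2, m3⟩ := fl_mem h.cl (A := A) (x := j) ⟨w, hw, by linarith, hwj⟩
    have m4 : w ≤ fl G A j := le_fl hw (by linarith) hwj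
    obtain ⟨o, ho⟩ : ∃ o, o = fl G A j := ⟨_, rfl⟩
    rw [← ho] at m1 m2 m3 m4
    have ho' : ∀ o' ∈ G, A ≤ o' → o' ≤ j → o' ≤ o := fun o' h1 h2 h3 => by
      rw [ho]
      exact le_fl h1 h2 h3
    have hoa : o ≤ a r := by linarith [hF.ha r hr le_rfl]
    have hso := hsl o m1 m4 m3
    have hSo : Sl r * (o - w) ≤ Sl r * (j - w) := mul_le_mul_of_nonneg_left (by linarith) hnn
    have key := H2 (by linarith) (fun j' => sn o r - (j' : ℝ) * o) (fun j' hj' => by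
      have hj1 : (j' : ℝ) ≤ 1 := by exact_mod_cast hj'
      have hj0 : (0 : ℝ) ≤ j' := Nat.cast_nonneg j'
      refine ⟨fun o' h1 h2 h3 => ?_, ?_, ?_⟩
      · have e1 := h.mono r hr le_rfl o' h1 o m1 h2 (ho' o' h1 h2 h3) (by linarith)
        have e2 : (1 - (j' : ℝ)) * o' ≤ (1 - (j' : ℝ)) * o :=
          mul_le_mul_of_nonneg_left (ho' o' h1 h2 h3) (by linarith)
        linarith
      · have e2 : (j' : ℝ) * w ≤ (j' : ℝ) * o := mul_le_mul_of_nonneg_left m4 hj0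
        linarith
      · have e1 := h.mono r hr le_rfl o m1 (a r) har m2 hoa harB
        have e2 : (1 - (j' : ℝ)) * o ≤ (1 - (j' : ℝ)) * a r :=
          mul_le_mul_of_nonneg_left hoa (by linarith)
        unfold nD
        linarith)
    have q1 := hF.labT_rgh h hr hA hB hw hwA hwB (by linarith) hself hp
    have q2 := hF.labT_rgh h hr hA hB hw hwA hwB (by linarith) hp hself
    have q4 := hF.nearT_rgh h hr hA hB har harB (C' := C * R) hw hwA hwB hφR hp (by linarith)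
      (by linarith) (E := E) (fun j' hj' => (hE j' hj').2.1) (fun j' hj' => (hE j' hj').2.2)
    have q3 := h.nearT_rgh hr (d := d) (x := x) hw (by linarith) (by linarith) hx0 hφx hp hself
      hdx hdΛ (D := D) (fun l l0 l1 j' hj' => (hD l l0 l1 j' hj').1) (E := E)
      (Nn := fun j' => sn o r - (j' : ℝ) * o) (T := sn o r) (fun j' hj' => by
        have e2 : (j' : ℝ) * w ≤ (j' : ℝ) * o := mul_le_mul_of_nonneg_left m4 (Nat.cast_nonneg _)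
        linarith) (by linarith) (fun l l0 l1 => by linarith)
      (fun j' hj' => (hE j' hj').1 o m1 m2 m3)
    have key := MIw.lab h.pos key ((xs _).prod (xt _)) ((xs _).prod (xt _))
      (Few.pair h.pos (Few.fst h.pos k1) q1) (Few.pair h.pos (Few.fst h.pos k2) q2)
      (few_d (Few.pair h.pos (Few.fst h.pos k3) q3)) (Few.pair h.pos (Few.fst h.pos k4) q4)
    rwa [add_zero] at key

/-- **Almost every `g`**: the far balls `a l` and the conclusions in all small boxes, for all charts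
of a precision between `sn w - φ R` and `sn w`. -/
theorem mj_Gr (h : GCh S f y c r₀ r s A B Λ sn G)
    (hn : HNum S f y c r₀ r s (PG G A s) (B - s) Λ (whG G A s) (scG sn G A s)) (hr : r₀ ≤ r) :
    ∀ᵐ g : ℝ, A < g → g < B → ∀ Sl : ℕ → ℝ, SlpG sn r₀ r G g Sl → ∀ e κ C δ φ : ℝ, 0 < e →
      0 < κ → 0 < C → 0 < δ → 0 ≤ φ → 16 * ((r : ℝ) + 2) * φ ≤ κ → ∃ a : ℕ → ℝ,
        (∀ l, r₀ ≤ l → l ≤ r → a l ∈ G ∧ g < a l ∧ a l < g + δ ∧ a l < B) ∧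
        ∃ (lv : ℕ → ℝ) (σ₀ ρ : ℝ), 0 < ρ ∧ A < g - ρ ∧ g + ρ < B ∧
          FarR sn G r₀ r a Λ (g - ρ) (g + ρ) lv σ₀ ∧ C * ρ ≤ σ₀ / 2 ∧ C * ρ + σ₀ / 2 ≤ Λ ∧
          φ * ρ ≤ σ₀ / 4 ∧
          ∀ R : ℝ, 0 < R → R < ρ → ∀ w ∈ G, ∀ j : ℝ, g - R ≤ w → w ≤ j → j ≤ g + R →
            ∀ p : ℕ → ℝ, Rgh sn r₀ r w (φ * R) p → MjR S f y c r₀ r A sn G Sl a e κ C R w j p := by
  filter_upwards [mj_G h hn hr] with g hg hgA hgB Sl hSl e κ C δ φ he hκ hC hδ hφ hφκ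
  obtain ⟨a, ha, lv, σ₀, ρ, hρ, hρA, hρB, hF, hC1, hC2, H⟩ :=
    hg hgA hgB Sl hSl e (κ / 2) C δ he (by positivity) hC hδ
  have hσ := hF.σ0
  obtain ⟨ρ₂, hρ₂, Hs⟩ := hSl.sl r hr le_rfl (κ / (16 * (r + 2))) (by positivity)
  obtain ⟨t, ht, t1, t2, t3⟩ : ∃ t : ℝ, 0 < t ∧ t ≤ ρ ∧ t ≤ ρ₂ ∧ φ * t ≤ σ₀ / 4 := by
    refine ⟨min ρ (min ρ₂ (σ₀ / 4 / (φ + 1))), by positivity, min_le_left _ _,
      (min_le_right _ _).trans (min_le_left _ _), ?_⟩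
    have h1 := (min_le_right ρ (min ρ₂ (σ₀ / 4 / (φ + 1)))).trans (min_le_right _ _)
    have h2 : φ * min ρ (min ρ₂ (σ₀ / 4 / (φ + 1))) ≤ φ * (σ₀ / 4 / (φ + 1)) :=
      mul_le_mul_of_nonneg_left h1 hφ
    refine h2.trans ?_
    rw [mul_div_assoc', div_le_iff₀ (by positivity)]
    nlinarith
  have hCt : C * t ≤ C * ρ := mul_le_mul_of_nonneg_left t1 hC.le
  have hF' := hF.mono (A'' := g - t) (B'' := g + t) (by linarith) (by linarith)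
  refine ⟨a, ha, lv, σ₀, t, ht, by linarith, by linarith, hF', by linarith, by linarith, t3,
    fun R hR hRt w hw j w1 w2 w3 p hp => ?_⟩
  refine mjR_box h hr (hSl.nn r hr le_rfl) (fun l l0 l1 => hSl.nn l l0 l1.le) hF' (by linarith)
    (by linarith) (ha r hr le_rfl).1 (ha r hr le_rfl).2.2.2 hκ (by linarith) (by linarith) hC hφ
    hφκ hR hRt ((mul_le_mul_of_nonneg_left hRt.le hφ).trans t3) hw w1 w2 w3
    (fun o ho o1 o2 => ?_) (H R hR (by linarith) w hw j w1 w2 w3) hp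
  linarith [(abs_le.1 (Hs R hR (by linarith) w hw o ho w1 o1 (by linarith))).2]

/-! ### The near digits given the velocity -/

/-- `VelG` for charts of any precision `p ≥ sn w - C R`. -/
def VelGr (S : PCl m) (f : ∀ (J : ℕ) (F : Fam m J), F.Ω → α J F)
    (y : ∀ (J : ℕ) (F : Fam m J), F.Ω → γ J F) (Q₀ : Qt m U₀) (c : ℕ → Fin m) (r₀ : ℕ)
    (sn : ℝ → ℕ → ℝ) (G : Set ℝ) (Sl g : ℝ) : Prop :=
  ∀ e C : ℝ, 0 < e → 0 < C → ∃ κ ρ : ℝ, 0 < κ ∧ 0 < ρ ∧ ∀ R : ℝ, 0 < R → R < ρ → ∀ w ∈ G,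
    ∀ j : ℝ, g - R ≤ w → w ≤ j → j ≤ g + R → ∀ p : ℝ, sn w r₀ - C * R ≤ p → ∀ Na Nb Nd : ℝ,
    sn w r₀ + Sl * (j - w) ≤ Na + κ * R → Na ≤ Nb → Nb ≤ sn w r₀ + C * R →
    Nd + w ≤ sn w r₀ + C * R → ∀ c₀ : ℝ, 0 < c₀ → ∃ k : ℝ, 0 < k ∧ ∃ e₀ : ℝ, 0 < e₀ ∧
    ∀ K : ℕ, Bas S (fun J F A' => ∀ (V₁ V₂ : Type) (z : F.Ω → V₁) (zj : F.Ω → V₂),
      Mx f (vg w) k F A' z → Mx f (vg j) k F A' zj → ∀ u₀ a b d, Q₀.P K e₀ J F A' u₀ →
      (qJet m ((range r₀).image c) (c r₀) 0 w p Na).P K e₀ J F A' a →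
      (qJet m ((range r₀).image c) (c r₀) 0 w p Nb).P K e₀ J F A' b →
      (qJet m ((range r₀).image c) (c r₀) 1 w p Nd).P K e₀ J F A' d →
      ∀ B' : F.Ω → Prop, Sub B' A' → c₀ * Pe F.p A' ≤ Pe F.p B' →
      ((Nb - Na) * Real.log 2 - e * R) * J ≤ CH (Pool.Agent.H49.Ent.cond F.p B' True) b
        (fun ω => (a ω, (d ω, (zj ω, (z ω, (u₀ ω, y J F ω)))))))

/-- **Less precise charts.** -/
theorem VelG.rgh (h : GCh S f y c r₀ r s A B Λ sn G) (hr : r₀ ≤ r) {Q₀ : Qt m U₀} {Sl g : ℝ}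
    (hA : A < g) (hB : g < B) (H : VelG S f y Q₀ c r₀ sn G Sl g) :
    VelGr S f y Q₀ c r₀ sn G Sl g := by
  intro e C he hC
  obtain ⟨κ, ρ₁, hκ, hρ₁, H⟩ := H (e / 2) C (by positivity) hC
  have hΛ0 := h.Λ0
  obtain ⟨ρ, hρ, t1, t2, t3, t4⟩ : ∃ ρ : ℝ, 0 < ρ ∧ ρ ≤ ρ₁ ∧ ρ ≤ (g - A) / 2 ∧ ρ ≤ (B - g) / 2 ∧
      C * ρ ≤ Λ / 4 := by
    have q1 : 0 < (g - A) / 2 := by linarith
    have q2 : 0 < (B - g) / 2 := by linarith
    refine ⟨min (min ρ₁ (Λ / 4 / C)) (min ((g - A) / 2) ((B - g) / 2)), by positivity,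
      (min_le_left _ _).trans (min_le_left _ _), (min_le_right _ _).trans (min_le_left _ _),
      (min_le_right _ _).trans (min_le_right _ _), ?_⟩
    have h1 := (min_le_left (min ρ₁ (Λ / 4 / C)) (min ((g - A) / 2) ((B - g) / 2))).trans
      (min_le_right _ _)
    have := mul_le_mul_of_nonneg_left h1 hC.le
    refine this.trans (le_of_eq ?_)
    field_simp
  refine ⟨κ, ρ, hκ, hρ, fun R hR hRρ w hw j w1 w2 w3 p hp Na Nb Nd b1 b2 b3 b4 c₀ hc₀ => ?_⟩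
  obtain ⟨k1, hk1, e1, he1, H1⟩ := H R hR (by linarith) w hw j w1 w2 w3 Na Nb Nd b1 b2 b3 b4 c₀ hc₀
  have hCR : C * R ≤ C * ρ := mul_le_mul_of_nonneg_left hRρ.le hC.le
  have hwA : A ≤ w := by linarith
  have hwB : w < B := by linarith
  have hpos := h.pos
  obtain ⟨x, hx⟩ : ∃ x : ℝ, x = e * R / 10 := ⟨_, rfl⟩
  have hx0 : 0 < x := by rw [hx]; positivity
  have hcx : 0 < c₀ * x := mul_pos hc₀ hx0
  -- few bits
  have hm : sn w r₀ - C * R ≤ min p (sn w r₀) := le_min hp (by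
    have : 0 < C * R := by positivity
    linarith)
  have hm' : sn w r₀ - C * R ≤ min (sn w r₀) p := by rw [min_comm]; exact hm
  have f1 : Few S f (vg w) y (qJet m ((range r₀).image c) (c r₀) 0 w (sn w r₀) Na)
      (qJet m ((range r₀).image c) (c r₀) 0 w p Na) :=
    h.jet_one hr hw hwA hwB le_rfl le_rfl (σ₀ := Λ / 4) (by positivity) le_rfl (by
      push_cast
      linarith)
  have f2 : Few S f (vg w) y (qJet m ((range r₀).image c) (c r₀) 1 w (sn w r₀) Nd)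
      (qJet m ((range r₀).image c) (c r₀) 1 w p Nd) :=
    h.jet_one hr hw hwA hwB le_rfl le_rfl (σ₀ := Λ / 4) (by positivity) le_rfl (by
      push_cast
      linarith)
  have f3 : Few S f (vg w) y (qJet m ((range r₀).image c) (c r₀) 0 w p Nb)
      (qJet m ((range r₀).image c) (c r₀) 0 w (sn w r₀) Nb) :=
    h.jet_one hr hw hwA hwB le_rfl le_rfl (σ₀ := Λ / 4) (by positivity) le_rfl (by
      push_cast
      linarith)
  obtain ⟨g1, hg1, F1⟩ := f1.mx hpos (c₀ * x) hcx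
  obtain ⟨g2, hg2, F2⟩ := f2.mx hpos (c₀ * x) hcx
  obtain ⟨g3, hg3, F3⟩ := f3.mx hpos (c₀ * x) hcx
  obtain ⟨e₀, he₀, l1, l2, l3, l4⟩ : ∃ e : ℝ, 0 < e ∧ e ≤ e1 ∧ e ≤ g1 ∧ e ≤ g2 ∧ e ≤ g3 :=
    ⟨min e1 (min g1 (min g2 g3)), by positivity, min_le_left _ _,
      (min_le_right _ _).trans (min_le_left _ _),
      (min_le_right _ _).trans ((min_le_right _ _).trans (min_le_left _ _)),
      (min_le_right _ _).trans ((min_le_right _ _).trans (min_le_right _ _))⟩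
  obtain ⟨k, hk, k1', k2⟩ : ∃ k : ℝ, 0 < k ∧ k ≤ k1 ∧ k ≤ c₀ * x / 2 :=
    ⟨min k1 (c₀ * x / 2), by positivity, min_le_left _ _, min_le_right _ _⟩
  obtain ⟨u₁, rd, hrd, hch⟩ := h.ch w hw hwA hwB
  obtain ⟨rk, hrk, hatt⟩ : ∃ rk : ℝ, 0 ≤ rk ∧
      Att S ((range r₀).image c) (c r₀) w (sn w r₀) rk := by
    rcases Nat.lt_or_ge r₀ r with h0 | h0
    · exact ⟨rd r₀, hrd r₀ le_rfl h0, hch.att r₀ le_rfl h0⟩
    · obtain rfl : r₀ = r := le_antisymm hr h0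
      obtain ⟨rk, E, h2, -, h3, -⟩ := h.att w hw hwA hwB
      exact ⟨rk, h2, h3 rfl⟩
  obtain ⟨K1, M1, X1⟩ := exs_jet hrk hatt (j := 0) (N := Na) e₀ he₀
  obtain ⟨K2, M2, X2⟩ := exs_jet hrk hatt (j := 0) (N := Nb) e₀ he₀
  obtain ⟨K3, M3, X3⟩ := exs_jet hrk hatt (j := 1) (N := Nd) e₀ he₀
  refine ⟨k, hk, e₀, he₀, fun K => ?_⟩
  obtain ⟨L, n0, n1, n2, n3⟩ : ∃ L : ℕ, K ≤ L ∧ K1 ≤ L ∧ K2 ≤ L ∧ K3 ≤ L :=
    ⟨max K (max K1 (max K2 K3)), le_max_left _ _, (le_max_left _ _).trans (le_max_right _ _),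
      (le_max_left _ _).trans ((le_max_right _ _).trans (le_max_right _ _)),
      (le_max_right _ _).trans ((le_max_right _ _).trans (le_max_right _ _))⟩
  refine Bas.mono 0 ((((H1 L).and (F1 L)).and ((F2 L).and (F3 L))).and
    (((X1.and X2).and X3).and (pos_bas hpos))) ?_
  rintro J - F A' ⟨⟨⟨H, F1⟩, F2, F3⟩, ⟨⟨⟨a', ha'', -⟩, b', hb'', -⟩, d', hd'', -⟩,
    hA'⟩ V₁ V₂ z zj hz hzj u₀ a b d hu₀ hua hub hud B' hB' hBA
  have hJ0 : (0 : ℝ) ≤ J := Nat.cast_nonneg J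
  have hBp : 0 < Pe F.p B' := lt_of_lt_of_le (mul_pos hc₀ hA') hBA
  have hp := (isLaw_cond F.isLaw hBp).nonneg
  have part : ∀ {T T' : Type} (X : F.Ω → T) (Y : F.Ω → T'),
      CH (Pool.Agent.H49.Ent.cond F.p A' True) X Y ≤ c₀ * x * J →
      CH (Pool.Agent.H49.Ent.cond F.p B' True) X Y ≤ x * J := fun X Y hXY =>
    ch_part F.isLaw hB' hA' hc₀ hBA X Y (by rw [← mul_assoc]; exact hXY)
  have t1 := H V₁ V₂ z zj (hz.le' k1') (hzj.le' k1') u₀ a' b' d'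
    (Q₀.mono n0 l1 hu₀) ((qJet m _ _ _ _ _ _).mono n1 l1 ha'')
    ((qJet m _ _ _ _ _ _).mono n2 l1 hb'') ((qJet m _ _ _ _ _ _).mono n3 l1 hd'') B' hB' hBA
  have t2 := part _ _ (F3 V₁ z (hz.le' k2) b b' ((qJet m _ _ _ _ _ _).mono n0 l4 hub)
    ((qJet m _ _ _ _ _ _).mono n2 l4 hb''))
  have t3 := part _ _ (F1 V₁ z (hz.le' k2) a' a ((qJet m _ _ _ _ _ _).mono n1 l2 ha'')
    ((qJet m _ _ _ _ _ _).mono n0 l2 hua))
  have t4 := part _ _ (F2 V₁ z (hz.le' k2) d' d ((qJet m _ _ _ _ _ _).mono n3 l3 hd'')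
    ((qJet m _ _ _ _ _ _).mono n0 l3 hud))
  have zero : ∀ {T : Type} (X : F.Ω → T),
      CH (Pool.Agent.H49.Ent.cond F.p B' True) X X ≤ x * J := fun X => by
    rw [CH_eq_zero hp fun _ _ _ _ hh => hh]
    exact mul_nonneg hx0.le hJ0
  have hkJ : k * J ≤ c₀ * x * J := mul_le_mul_of_nonneg_right (by linarith) hJ0
  have t6 := part _ _ ((hzj.2 V₁ z (cl2_vg w2 (by linarith [h.B1]) hz.1)).trans hkJ)
  refine le_trans (le_of_eq ?_) (ch_swap hp t1 t2 t3 t4 (zero zj) t6)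
  rw [hx]
  ring

end Pool.AVG96
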