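import Pool.Agent.H96.AVG.Vqa
import Pool.Agent.H96.AVG.Rgb

/-!
# The near digits of the first rough coordinate given its velocity: fixed numbers, real windows

`FulGe`, `VelGe`: the conditions `FulG`, `VelG` for one loss and one constant. `vel_Ge`: for almost
every `g`, the position is full up to `eI Sl e C` implies the conclusion with the loss `e`; `eI`
depends on the slope, `e` and `C` only. `VelGre`, `VelGe.rgh`: rough labels.
-/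

set_option autoImplicit false

namespace Pool.AVG96

open Finset Real MvPolynomial MeasureTheory Filter
open Pool.Agent.H49.Ent Pool.Agent.H32.Dense Pool.STK Pool.KA Pool.KSAT Pool.K2S Pool.PB Pool.S6C
  Pool.GEN Pool.RCD Pool.LA91
open Pool.OWN83
open Pool.OWN68 (F1 cl2_vg)

variable {m : ℕ} {U₀ U U' V : Type} {α γ : ∀ J : ℕ, Fam m J → Type}
  {f : ∀ (J : ℕ) (F : Fam m J), F.Ω → α J F} {y : ∀ (J : ℕ) (F : Fam m J), F.Ω → γ J F}
  {S : PCl m} {c : ℕ → Fin m} {r₀ r : ℕ} {s A B Λ p₀ lam' : ℝ} {wh : ℚ → ℝ} {sc : ℚ → ℕ → ℝ}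
  {PA : ℚ → Prop} {sn : ℝ → ℕ → ℝ} {G : Set ℝ}

/-- `VelI` for one loss. -/
def VelIe (S : PCl m) (f : ∀ (J : ℕ) (F : Fam m J), F.Ω → α J F)
    (y : ∀ (J : ℕ) (F : Fam m J), F.Ω → γ J F) (Q₀ : Qt m U₀) (I : Finset (Fin m)) (k : Fin m)
    (sh : ℝ) (wh p : ℚ → ℝ) (g e : ℝ) : Prop :=
  ∃ ρ : ℝ, 0 < ρ ∧ ∀ r : ℝ, 0 < r → r < ρ →
    ∀ w j j' l : ℚ, g - r ≤ w → w ≤ j → j < j' → j' ≤ l → (l : ℝ) ≤ g + r →
    ∀ c₀ : ℝ, 0 < c₀ → ∃ κ : ℝ, 0 < κ ∧ ∃ e₀ : ℝ, 0 < e₀ ∧ ∀ K : ℕ, Bas S (fun J F A' =>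
    ∀ (V₁ V₂ : Type) (z : F.Ω → V₁) (zj : F.Ω → V₂), Mx f (vg ((w : ℝ) + sh)) κ F A' z →
    Mx f (vg ((j : ℝ) + sh)) κ F A' zj → ∀ u₀ a b d, Q₀.P K e₀ J F A' u₀ →
    (JG m I k wh p 0 w j).P K e₀ J F A' a → (JG m I k wh p 0 w j').P K e₀ J F A' b →
    (JG m I k wh p 1 w l).P K e₀ J F A' d →
    ∀ B' : F.Ω → Prop, Sub B' A' → c₀ * Pe F.p A' ≤ Pe F.p B' →
    ((p j' - p j) * Real.log 2 - e * r) * J ≤ CH (Pool.Agent.H49.Ent.cond F.p B' True) b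
        (fun ω => (a ω, (d ω, (zj ω, (z ω, (u₀ ω, y J F ω)))))))

open Set in
/-- **The near digits of one rough coordinate are full given its own velocity**, one loss. -/
theorem near_velGe {I : Finset (Fin m)} {k : Fin m} {sh : ℝ} {wh : ℚ → ℝ} {p : ℚ → ℝ}
    {A B lam p₀ lam' : ℝ}
    (hL : LbsG S f y I k sh wh p A B p₀ lam') {Q₀ : Qt m U₀} {θX θD θJ : ℚ → ℚ → ℝ}
    (hF : FmsG S f y I k sh wh p Q₀ A B lam θX θD θJ) (hlam : 0 < lam) :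
    ∀ᵐ g : ℝ, g ∈ Ioo A B → ∀ P Sl : ℝ, 1 < Sl → SlP p g P Sl → WhP wh sh g →
      JetPG S f y Q₀ I k sh wh p g → ∀ e : ℝ, 0 < e → FulXe p θX g (eX Sl (e / 2)) →
      VelIe S f y Q₀ I k sh wh p g e := by
  obtain ⟨θ₀D, nD⟩ := hF.nD
  obtain ⟨θ₀J, nJ⟩ := hF.nJ
  filter_upwards [dead_clsGe hL hF hlam, near_rel hL.ne hL.pos hL.B1 hlam hL.rn hF.X hF.D nJ nD]
    with g g1 g2 hg P Sl hS hsl hwh hjet e he hful
  obtain ⟨r1, hr1, H1⟩ := g1 hg P Sl hS hsl hwh hjet (e / 2) (half_pos he) hful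
  obtain ⟨r2, hr2, H2⟩ := g2 hg (e / 2) (half_pos he)
  refine ⟨min r1 r2, lt_min hr1 hr2, fun r hr hrr w j j' l h1 h2 h3 h4 h5 c₀ hc₀ => ?_⟩
  obtain ⟨κ, hκ, e₀, he₀, H⟩ := H2 r hr (lt_of_lt_of_le hrr (min_le_right _ _)) w j j' l h1 h2 h3
    h4 h5 c₀ hc₀
  have h2' : (w : ℝ) ≤ j := by exact_mod_cast h2
  have h4' : (j' : ℝ) ≤ l := by exact_mod_cast h4
  have t := H1 r hr (lt_of_lt_of_le hrr (min_le_left _ _)) j j' (by linarith) h3.le (by linarith)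
  refine ⟨κ, hκ, e₀, he₀, fun K => Bas.mono 0 (H K) ?_⟩
  intro J _ F A' H V₁ V₂ z zj hz hzj u₀ a b d hu₀ ha hb hd B' hB' hBA
  obtain ⟨-, q2⟩ := H V₁ V₂ z zj hz hzj u₀ a b d hu₀ ha hb hd B' hB' hBA
  refine le_trans (mul_le_mul_of_nonneg_right ?_ (Nat.cast_nonneg J)) q2
  linarith

/-- The position is full, at the indices, one loss. -/
def FulNe (S : PCl m) (f : ∀ (J : ℕ) (F : Fam m J), F.Ω → α J F)
    (y : ∀ (J : ℕ) (F : Fam m J), F.Ω → γ J F) (Q₀ : Qt m U₀) (c : ℕ → Fin m) (r₀ : ℕ) (s : ℝ)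
    (wh : ℚ → ℝ) (sc : ℚ → ℕ → ℝ) (g e : ℝ) : Prop :=
  ∃ ρ : ℝ, 0 < ρ ∧ ∀ r : ℝ, 0 < r → r < ρ → ∀ w o : ℚ, g - r ≤ w → w ≤ o →
    (o : ℝ) ≤ g + r → LowN S f (vg ((w : ℝ) + s)) y Q₀ (fam m c r₀ 0 wh sc w o)
      ((sc o r₀ - sc w r₀) * Real.log 2 - e * r)

/-- **Rational indices**: almost every `g`. -/
theorem vel_aee (h : ∀ A' : ℚ, PA A' → NCh S f y c r₀ r s A' B Λ wh sc)
    (hP : ∀ p q : ℚ, PA p → p ≤ q → PA q) {Q₀ : Qt m U₀}
    (hn : VNum S f y c r₀ s PA B Λ wh sc Q₀) (hr : r₀ ≤ r) (hQ : Exs S Q₀)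
    (hQt : ∀ A' : ℚ, PA A' → ∀ v : ℚ, (A' : ℝ) < v → (v : ℝ) < B →
      Few S f (vg ((v : ℝ) + s)) y Q₀ Q₀) {p₀ lam' : ℝ} (hkn : Kn ((range r₀).image c) p₀ lam' y)
    (hyk : ∀ (J : ℕ) (F : Fam m J), ∃ ψ : ℕ × (Fin m → ℤ) × (Fin m → ℤ) → γ J F, ∀ ω,
      y J F ω = ψ (F.T ω, (fun i => if i ∈ (range r₀).image c then F.X ⌊p₀ * J⌋₊ ω i else 0),
        (fun i => if i ∈ (range r₀).image c then F.D ⌊lam' * J⌋₊ ω i else 0)))
    (hA0 : ∀ A' : ℚ, PA A' → 0 ≤ (A' : ℝ) + s)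
    (hp0 : ∀ A' : ℚ, PA A' → ∀ w : ℚ, (A' : ℝ) < w → (w : ℝ) < B → 0 ≤ sc w r₀)
    (hpl : ∀ A' : ℚ, PA A' → p₀ ≤ (A' : ℝ) + s + lam') :
    ∀ᵐ g : ℝ, ∀ A : ℚ, PA A → g ∈ Set.Ioo (A : ℝ) B → ∀ P Sl : ℝ, 1 < Sl →
      SlP (fun q => sc q r₀) g P Sl → WhP wh s g →
      JetPG S f y Q₀ ((range r₀).image c) (c r₀) s wh (fun q => sc q r₀) g →
      ∀ e : ℝ, 0 < e → FulNe S f y Q₀ c r₀ s wh sc g (eX Sl (e / 2)) →
      VelIe S f y Q₀ ((range r₀).image c) (c r₀) s wh (fun q => sc q r₀) g e := by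
  have key : ∀ᵐ g : ℝ, ∀ A' B' : ℚ, PA A' → A' < B' → (B' : ℝ) ≤ B → OneOk sc r₀ Λ A' B' →
      g ∈ Set.Ioo (A' : ℝ) B' → ∀ P Sl : ℝ, 1 < Sl →
      SlP (fun q => sc q r₀) g P Sl → WhP wh s g →
      JetPG S f y Q₀ ((range r₀).image c) (c r₀) s wh (fun q => sc q r₀) g →
      ∀ e : ℝ, 0 < e → FulNe S f y Q₀ c r₀ s wh sc g (eX Sl (e / 2)) →
      VelIe S f y Q₀ ((range r₀).image c) (c r₀) s wh (fun q => sc q r₀) g e := by
    rw [ae_all_iff]; intro A'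
    rw [ae_all_iff]; intro B'
    by_cases hh : PA A' ∧ A' < B' ∧ (B' : ℝ) ≤ B ∧ OneOk sc r₀ Λ A' B'
    · obtain ⟨hA, hAB, hB, hok⟩ := hh
      have hAB' : (A' : ℝ) < B' := by exact_mod_cast hAB
      have hc := (h A' hA).cut le_rfl hB
      have hlam : (0 : ℝ) < (B' : ℝ) - A' := by linarith
      obtain ⟨⟨x0, x1, x2⟩, ⟨d0, d1, d2⟩, ⟨j0, j1, j2⟩⟩ := hn A' B' hA hAB hB hok
      have hQt' : ∀ v : ℚ, (A' : ℝ) < v → (v : ℝ) < B' → Few S f (vg ((v : ℝ) + s)) y Q₀ Q₀ :=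
        fun v a b => hQt A' hA v a (by linarith)
      have hL : LbsG S f y ((range r₀).image c) (c r₀) s wh (fun q => sc q r₀) A' B' p₀ lam' :=
        { ne := hc.ne
          pos := hc.pos
          tm := hc.tm
          rn := hc.rn
          p0 := fun w a b => hp0 A' hA w a (by linarith)
          att := fun w a b => hc.at0 hr a b
          wl := fun w a b => (hc.wl w a b).2
          pt := hc.pt
          kn := hkn
          yk := hyk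
          A0 := hA0 A' hA
          B1 := hc.B1.le
          pl := hpl A' hA }
      have hF : FmsG S f y ((range r₀).image c) (c r₀) s wh (fun q => sc q r₀) Q₀ A' B'
          ((B' : ℝ) - A') x1 d1 j1 :=
        { X := rel_one hc hr hok hQ hQt' (by norm_num)
          D := rel_one hc hr hok hQ hQt' le_rfl
          nX := ⟨x0, x2⟩
          nD := ⟨d0, d2⟩
          nJ := ⟨j0, j2⟩ }
      filter_upwards [near_velGe hL hF hlam] with g hg _ _ _ _ hgm P Sl hS hsl hwh hjet e he hful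
      refine hg hgm P Sl hS hsl hwh hjet e he ?_
      obtain ⟨ρ, hρ, H⟩ := hful
      obtain ⟨t, ht, t1, t2, t3⟩ : ∃ t : ℝ, 0 < t ∧ t ≤ ρ ∧ t ≤ (g - A') / 2 ∧
          t ≤ (B' - g) / 2 := by
        have q1 : 0 < (g - A') / 2 := by linarith [hgm.1]
        have q2 : 0 < (B' - g) / 2 := by linarith [hgm.2]
        exact ⟨min ρ (min ((g - A') / 2) ((B' - g) / 2)), by positivity, min_le_left _ _,
          (min_le_right _ _).trans (min_le_left _ _), (min_le_right _ _).trans (min_le_right _ _)⟩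
      refine ⟨t, ht, fun R hR hRt w o w1 w2 w3 => ?_⟩
      have w2' : (w : ℝ) ≤ o := by exact_mod_cast w2
      have a1 : (A' : ℝ) < w := by linarith
      have a2 : (o : ℝ) < B' := by linarith
      obtain ⟨η, hη⟩ := hc.rn w a1 (by linarith)
      exact (H R hR (by linarith) w o w1 w2 w3).le_rn hc.ne hc.pos hη hQ
        (hF.X.exs w o a1 w2 a2 (by linarith))
        (RN.of hc.pos (x2.n₀ w a1 (by linarith)) (x2.n w o a1 w2 a2 (by linarith)))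
    · refine Eventually.of_forall fun g hA hAB hB hok => absurd ?_ hh
      exact ⟨hA, hAB, hB, hok⟩
  filter_upwards [key] with g hg A hA hgm P Sl hS hsl hwh hjet e he hful
  have hΛ0 := (h A hA).Λ0
  obtain ⟨t₀, ht₀, H⟩ := hsl 1 one_pos
  obtain ⟨t, ht, k1, k2, k3, k4⟩ : ∃ t : ℝ, 0 < t ∧ t ≤ t₀ ∧ (Sl + 1) * t ≤ Λ / 4 ∧
      t ≤ g - A ∧ t ≤ B - g := by
    have q1 : 0 < g - A := by linarith [hgm.1]
    have q2 : 0 < B - g := by linarith [hgm.2]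
    have q3 : 0 < Λ / (4 * (Sl + 1)) := by positivity
    refine ⟨min (min t₀ (Λ / (4 * (Sl + 1)))) (min (g - A) (B - g)), by positivity,
      (min_le_left _ _).trans (min_le_left _ _), ?_, (min_le_right _ _).trans (min_le_left _ _),
      (min_le_right _ _).trans (min_le_right _ _)⟩
    have := (min_le_left (min t₀ (Λ / (4 * (Sl + 1)))) (min (g - A) (B - g))).trans
      (min_le_right _ _)
    have h4 : (Sl + 1) * min (min t₀ (Λ / (4 * (Sl + 1)))) (min (g - A) (B - g)) ≤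
        (Sl + 1) * (Λ / (4 * (Sl + 1))) := mul_le_mul_of_nonneg_left this (by linarith)
    refine h4.trans (le_of_eq ?_)
    field_simp
  obtain ⟨A', a1, a2⟩ := exists_rat_btwn (show g - t < g by linarith)
  obtain ⟨B', b1, b2⟩ := exists_rat_btwn (show g < g + t by linarith)
  have hAA : A ≤ A' := by
    have : (A : ℝ) ≤ A' := by linarith
    exact_mod_cast this
  have hAB : A' < B' := by
    have : (A' : ℝ) < B' := by linarith
    exact_mod_cast this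
  refine hg A' B' (hP A A' hA hAA) hAB (by linarith) ⟨Λ / 4, by linarith, fun w o w1 w2 w3 => ?_⟩
    ⟨a2, b1⟩ P Sl hS hsl hwh hjet e he hful
  have w2' : (w : ℝ) ≤ o := by exact_mod_cast w2
  have e1 : |(w : ℝ) - g| ≤ t := by
    rw [abs_le]
    constructor <;> linarith
  have e2 : |(o : ℝ) - g| ≤ t := by
    rw [abs_le]
    constructor <;> linarith
  have f1 := abs_le.1 (H w (e1.trans k1))
  have f2 := abs_le.1 (H o (e2.trans k1))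
  have g1 := abs_le.1 e1
  have g2 := abs_le.1 e2
  have h1 : Sl * ((o : ℝ) - w) ≤ Sl * (2 * t) :=
    mul_le_mul_of_nonneg_left (by linarith [g1.1, g2.2]) (by linarith)
  linarith [f1.1, f2.2]

/-- **The position is full**, at real windows, one loss and one constant. -/
def FulGe (S : PCl m) (f : ∀ (J : ℕ) (F : Fam m J), F.Ω → α J F)
    (y : ∀ (J : ℕ) (F : Fam m J), F.Ω → γ J F) (Q₀ : Qt m U₀) (c : ℕ → Fin m) (r₀ : ℕ)
    (sn : ℝ → ℕ → ℝ) (G : Set ℝ) (Sl g e C : ℝ) : Prop :=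
  ∃ ρ : ℝ, 0 < ρ ∧ ∀ R : ℝ, 0 < R → R < ρ → ∀ w ∈ G, ∀ a : ℝ,
    g - R ≤ w → w ≤ a → a ≤ g + R → ∀ N : ℝ, N ≤ sn w r₀ + C * R →
    LowN S f (vg a) y Q₀ (qJet m ((range r₀).image c) (c r₀) 0 w (sn w r₀) N)
      ((N - (sn w r₀ + Sl * (a - w))) * Real.log 2 - e * R)

theorem fulG_iff {Q₀ : Qt m U₀} {Sl g : ℝ} : FulG S f y Q₀ c r₀ sn G Sl g ↔
    ∀ e C : ℝ, 0 < e → 0 < C → FulGe S f y Q₀ c r₀ sn G Sl g e C := Iff.rfl

theorem FulGe.ful {Q₀ : Qt m U₀} {g e : ℝ} {Sl : ℕ → ℝ} (he : 0 < e)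
    (h : FulGe S f y Q₀ c r₀ sn G (Sl r₀) g (e / 4) (2 * Sl r₀ + 1))
    (hS : SlpG sn r₀ r G g Sl) (hG : IsClosed G) (hA : A < g) (hr : r₀ ≤ r) :
    FulNe S f y Q₀ c r₀ s (whG G A s) (scG sn G A s) (g - s) e := by
  have hS0 := hS.nn r₀ le_rfl hr
  obtain ⟨η, hη, e1, e2⟩ : ∃ η : ℝ, 0 < η ∧ η ≤ 1 ∧ Sl r₀ * η ≤ e / 4 := by
    refine ⟨min 1 (e / (4 * (Sl r₀ + 1))), lt_min one_pos (by positivity), min_le_left _ _, ?_⟩
    have h2 : Sl r₀ * min 1 (e / (4 * (Sl r₀ + 1))) ≤ (Sl r₀ + 1) * (e / (4 * (Sl r₀ + 1))) :=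
      mul_le_mul (by linarith) (min_le_right _ _) (by positivity) (by linarith)
    have h4 : (Sl r₀ + 1) * (e / (4 * (Sl r₀ + 1))) = e / 4 := by field_simp
    linarith
  obtain ⟨ρ₁, hρ₁, H1⟩ := h
  obtain ⟨ρ₂, hρ₂, H2⟩ := hS.wnd (s := s) hG hA hη e1
  obtain ⟨ρ₃, hρ₃, H3⟩ := hS.sl r₀ le_rfl hr 1 one_pos
  refine ⟨min (ρ₁ / 2) (min ρ₂ (ρ₃ / 2)), by positivity, fun t ht htρ w o w1 w2 w3 => ?_⟩
  have t1 : t < ρ₁ / 2 := htρ.trans_le (min_le_left _ _)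
  have t2 : t < ρ₂ := htρ.trans_le ((min_le_right _ _).trans (min_le_left _ _))
  have t3 : t < ρ₃ / 2 := htρ.trans_le ((min_le_right _ _).trans (min_le_right _ _))
  have w2' : (w : ℝ) ≤ o := by exact_mod_cast w2
  obtain ⟨m1, m2, m3, m4, m5⟩ := H2 t ht t2 w w1 (by linarith)
  obtain ⟨n1, n2, n3, n4, -⟩ := H2 t ht t2 o (by linarith) w3
  have hηt : η * t ≤ 1 * t := mul_le_mul_of_nonneg_right e1 ht.le
  have huv : whG G A s w ≤ whG G A s o := fl_mono m5 (by linarith)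
  have k1 := (abs_le.1 (H3 (2 * t) (by linarith) (by linarith) _ m1 _ n1 (by linarith) huv
    (by linarith))).2
  have k2 : Sl r₀ * (whG G A s o - whG G A s w) ≤ Sl r₀ * (4 * t) :=
    mul_le_mul_of_nonneg_left (by linarith) hS0
  have hN : natD r₀ (whG G A s) (scG sn G A s) o 0 = sn (whG G A s o) r₀ := by
    unfold natD scG
    simp
  have key := H1 (2 * t) (by linarith) (by linarith) _ m1 ((w : ℝ) + s) (by linarith) m3
    (by linarith) (natD r₀ (whG G A s) (scG sn G A s) o 0) (by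
      rw [hN]
      linarith)
  refine LowN.le (Q := fam m c r₀ 0 (whG G A s) (scG sn G A s) w o) key ?_
  rw [hN]
  have l1 := Real.log_two_lt_d9
  have l0 : 0 < Real.log 2 := Real.log_pos one_lt_two
  have k3 : Sl r₀ * ((w : ℝ) + s - whG G A s w) ≤ e / 4 * t := by
    refine (mul_le_mul_of_nonneg_left (show (w : ℝ) + s - whG G A s w ≤ η * t by linarith)
      hS0).trans ?_
    rw [← mul_assoc]
    exact mul_le_mul_of_nonneg_right e2 ht.le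
  have k4 : 0 ≤ Sl r₀ * ((w : ℝ) + s - whG G A s w) := mul_nonneg hS0 (by linarith)
  have k5 : Sl r₀ * ((w : ℝ) + s - whG G A s w) * Real.log 2 ≤
      Sl r₀ * ((w : ℝ) + s - whG G A s w) * 1 :=
    mul_le_mul_of_nonneg_left (by linarith) k4
  show (sn (whG G A s o) r₀ - sn (whG G A s w) r₀) * Real.log 2 - e * t ≤ _
  linarith

/-- `VelG` for one loss, one accuracy and one constant. -/
def VelGe (S : PCl m) (f : ∀ (J : ℕ) (F : Fam m J), F.Ω → α J F)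
    (y : ∀ (J : ℕ) (F : Fam m J), F.Ω → γ J F) (Q₀ : Qt m U₀) (c : ℕ → Fin m) (r₀ : ℕ)
    (sn : ℝ → ℕ → ℝ) (G : Set ℝ) (Sl g e κ C : ℝ) : Prop :=
  ∃ ρ : ℝ, 0 < ρ ∧ ∀ R : ℝ, 0 < R → R < ρ → ∀ w ∈ G,
    ∀ j : ℝ, g - R ≤ w → w ≤ j → j ≤ g + R → ∀ Na Nb Nd : ℝ,
    sn w r₀ + Sl * (j - w) ≤ Na + κ * R → Na ≤ Nb → Nb ≤ sn w r₀ + C * R →
    Nd + w ≤ sn w r₀ + C * R → ∀ c₀ : ℝ, 0 < c₀ → ∃ k : ℝ, 0 < k ∧ ∃ e₀ : ℝ, 0 < e₀ ∧
    ∀ K : ℕ, Bas S (fun J F A' => ∀ (V₁ V₂ : Type) (z : F.Ω → V₁) (zj : F.Ω → V₂),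
      Mx f (vg w) k F A' z → Mx f (vg j) k F A' zj → ∀ u₀ a b d, Q₀.P K e₀ J F A' u₀ →
      (qJet m ((range r₀).image c) (c r₀) 0 w (sn w r₀) Na).P K e₀ J F A' a →
      (qJet m ((range r₀).image c) (c r₀) 0 w (sn w r₀) Nb).P K e₀ J F A' b →
      (qJet m ((range r₀).image c) (c r₀) 1 w (sn w r₀) Nd).P K e₀ J F A' d →
      ∀ B' : F.Ω → Prop, Sub B' A' → c₀ * Pe F.p A' ≤ Pe F.p B' →
      ((Nb - Na) * Real.log 2 - e * R) * J ≤ CH (Pool.Agent.H49.Ent.cond F.p B' True) b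
        (fun ω => (a ω, (d ω, (zj ω, (z ω, (u₀ ω, y J F ω)))))))

/-- The constant of `vel_real`. -/
noncomputable def dC (Sl C : ℝ) : ℝ := 6 + C + C / (Sl - 1)

/-- **From the indices to real windows.** -/
theorem vel_reale (h : GCh S f y c r₀ r s A B Λ sn G) (hr : r₀ ≤ r) {Q₀ : Qt m U₀} {g : ℝ}
    {Sl : ℕ → ℝ} (hS : SlpG sn r₀ r G g Sl) (hS1 : 1 < Sl r₀) (hA : A < g) (hB : g < B)
    {e C : ℝ} (he : 0 < e) (hC : 0 < C)
    (hI : VelIe S f y Q₀ ((range r₀).image c) (c r₀) s (whG G A s)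
      (fun q => scG sn G A s q r₀) (g - s) (e / (4 * dC (Sl r₀) C))) :
    VelGe S f y Q₀ c r₀ sn G (Sl r₀) g e (e / 4) C := by
  obtain ⟨T, hT⟩ : ∃ T : ℝ, T = Sl r₀ := ⟨_, rfl⟩
  rw [← hT] at hS1 hI ⊢
  have hT0 : 0 < T := by linarith
  have hT1 : 0 < T - 1 := by linarith
  have hΛ0 := h.Λ0
  -- the constants
  obtain ⟨D, hD⟩ : ∃ D : ℝ, D = 6 + C + C / (T - 1) := ⟨_, rfl⟩
  have hDd : dC T C = D := by rw [hD]; rfl
  rw [hDd] at hI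
  have hCT : 0 < C / (T - 1) := by positivity
  have hD0 : 0 < D := by rw [hD]; positivity
  obtain ⟨τ, hτ, τ1, τ2, τ3⟩ : ∃ τ : ℝ, 0 < τ ∧ τ ≤ 1 / 16 ∧ 12 * T * τ ≤ e / 8 ∧
      τ / (T - 1) ≤ 1 / 16 := by
    refine ⟨min (1 / 16) (min (e / (96 * T)) ((T - 1) / 16)), by positivity, min_le_left _ _,
      ?_, ?_⟩
    · have h1 := (min_le_right (1 / 16) (min (e / (96 * T)) ((T - 1) / 16))).trans
        (min_le_left _ _)
      have h2 : 12 * T * min (1 / 16) (min (e / (96 * T)) ((T - 1) / 16)) ≤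
          12 * T * (e / (96 * T)) := mul_le_mul_of_nonneg_left h1 (by positivity)
      refine h2.trans (le_of_eq ?_)
      field_simp
      norm_num
    · have h1 := (min_le_right (1 / 16) (min (e / (96 * T)) ((T - 1) / 16))).trans
        (min_le_right _ _)
      rw [div_le_iff₀ hT1]
      linarith
  obtain ⟨ρ₁, hρ₁, H1⟩ := hI
  obtain ⟨ρ₂, hρ₂, H2⟩ := hS.wnd (s := s) h.cl hA (η := τ / D) (by positivity) (by
    rw [div_le_one hD0]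
    rw [hD]
    linarith)
  obtain ⟨ρ₃, hρ₃, H3⟩ := hS.sl r₀ le_rfl hr (τ / D) (by positivity)
  rw [← hT] at H3
  obtain ⟨ρ, hρ, k1, k2, k3, k4, k5, k6⟩ : ∃ ρ : ℝ, 0 < ρ ∧ D * ρ ≤ ρ₁ ∧ D * ρ ≤ ρ₂ ∧
      D * ρ ≤ ρ₃ ∧ D * ρ ≤ (g - A) / 2 ∧ D * ρ ≤ (B - g) / 2 ∧ (C + 2 * T + 2) * ρ ≤ Λ / 2 := by
    have q1 : 0 < (g - A) / 2 := by linarith
    have q2 : 0 < (B - g) / 2 := by linarith
    obtain ⟨a, ha, a1, a2, a3⟩ : ∃ a : ℝ, 0 < a ∧ a ≤ ρ₁ ∧ a ≤ ρ₂ ∧ a ≤ ρ₃ :=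
      ⟨min ρ₁ (min ρ₂ ρ₃), by positivity, min_le_left _ _, (min_le_right _ _).trans
        (min_le_left _ _), (min_le_right _ _).trans (min_le_right _ _)⟩
    obtain ⟨b, hb, b1, b2, b3⟩ : ∃ b : ℝ, 0 < b ∧ b ≤ a ∧ b ≤ (g - A) / 2 ∧ b ≤ (B - g) / 2 :=
      ⟨min a (min ((g - A) / 2) ((B - g) / 2)), by positivity, min_le_left _ _,
        (min_le_right _ _).trans (min_le_left _ _), (min_le_right _ _).trans (min_le_right _ _)⟩
    have c1 : D * min (b / D) (Λ / 2 / (C + 2 * T + 2)) ≤ b := by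
      have : D * min (b / D) (Λ / 2 / (C + 2 * T + 2)) ≤ D * (b / D) :=
        mul_le_mul_of_nonneg_left (min_le_left _ _) hD0.le
      refine this.trans (le_of_eq ?_)
      field_simp
    refine ⟨min (b / D) (Λ / 2 / (C + 2 * T + 2)), by positivity, by linarith, by linarith,
      by linarith, by linarith, by linarith, ?_⟩
    have : (C + 2 * T + 2) * min (b / D) (Λ / 2 / (C + 2 * T + 2)) ≤
        (C + 2 * T + 2) * (Λ / 2 / (C + 2 * T + 2)) :=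
      mul_le_mul_of_nonneg_left (min_le_right _ _) (by positivity)
    refine this.trans (le_of_eq ?_)
    field_simp

  refine ⟨ρ, hρ, fun R hR hRρ w hw j w1 w2 w3 Na Nb Nd hNa hab hNb hNd c₀
    hc₀ => ?_⟩
  have hDR : D * R ≤ D * ρ := mul_le_mul_of_nonneg_left hRρ.le hD0.le
  have hDR' : D * R < D * ρ := mul_lt_mul_of_pos_left hRρ hD0
  have hDR0 : 0 < D * R := by positivity
  have hτR : 0 < τ * R := by positivity
  have hτR1 : τ * R ≤ 1 / 16 * R := mul_le_mul_of_nonneg_right τ1 hR.le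
  have hTτ : T * (τ * R) ≤ e / 96 * R := by
    have := mul_le_mul_of_nonneg_right τ2 hR.le
    linarith
  have hτT : τ * R ≤ T * (τ * R) := by
    have := mul_le_mul_of_nonneg_right hS1.le hτR.le
    linarith
  have eτ : τ / D * (D * R) = τ * R := by field_simp
  have heR : 0 < e * R := by positivity
  have hCR : 0 < C * R := by positivity
  have eD : D * R = 6 * R + C * R + C / (T - 1) * R := by rw [hD]; ring
  have hCTR : 0 < C / (T - 1) * R := by positivity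
  -- the windows in the box
  have wn : ∀ x : ℚ, g - D * R ≤ x + s → (x : ℝ) + s ≤ g + D * R → whG G A s x ∈ G ∧
      A ≤ whG G A s x ∧ whG G A s x ≤ x + s ∧ (x : ℝ) + s - τ * R ≤ whG G A s x ∧
      PG G A s x := by
    intro x x1 x2
    have := H2 (D * R) hDR0 (by linarith) x (by linarith) (by linarith)
    rwa [eτ] at this
  have sl : ∀ u ∈ G, ∀ v ∈ G, g - D * R ≤ u → u ≤ v → v ≤ g + D * R →
      |sn v r₀ - sn u r₀ - T * (v - u)| ≤ τ * R := by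
    intro u hu v hv a1 a2 a3
    have := H3 (D * R) hDR0 (by linarith) u hu v hv a1 a2 a3
    rwa [eτ] at this
  -- the trivial case
  rcases le_or_gt ((Nb - Na) * Real.log 2) (e * R) with hc | hc
  · refine ⟨1, one_pos, 1, one_pos, fun K => Bas.mono 0 (pos_bas h.pos) ?_⟩
    intro J _ F A' hA' V₁ V₂ z zj _ _ u₀ a b d _ _ _ _ B' hB' hBA
    have hBp : 0 < Pe F.p B' := lt_of_lt_of_le (mul_pos hc₀ hA') hBA
    refine le_trans ?_ (CH_nonneg (isLaw_cond F.isLaw hBp).nonneg _ _)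
    exact mul_nonpos_of_nonpos_of_nonneg (by linarith) (Nat.cast_nonneg J)
  have l0 : 0 < Real.log 2 := Real.log_pos one_lt_two
  have l1 : Real.log 2 ≤ 1 := by
    have := Real.log_two_lt_d9
    linarith
  have hN : e * R < Nb - Na := by
    have : (Nb - Na) * Real.log 2 ≤ (Nb - Na) * 1 :=
      mul_le_mul_of_nonneg_left l1 (by linarith)
    linarith
  have hRΛ : (C + 2 * T + 2) * R ≤ Λ / 2 :=
    (mul_le_mul_of_nonneg_left hRρ.le (by positivity)).trans k6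
  obtain ⟨w', A₁, q₁, q₂, l, hPA, hAw, n1, hwq, hqq, hql, n2, n3, n4, z1, z2, z3, y1, y2, y3,
    z1', z2'⟩ := vel_num hS1 hτR hR heR hCR hτR1 hTτ τ3 eD wn sl hw w1 w2 w3 hNa hNb hNd hN
      hCTR hRΛ
  have key := vel_box h hr (Q₀ := Q₀) hw (by linarith) (by linarith) w2 hPA hAw n1 hwq hqq hql
    n2 (by linarith) (σ₀ := Λ / 2) (E := e * R / 8)
    (X := (scG sn G A s q₂ r₀ - scG sn G A s q₁ r₀) * Real.log 2 - e / (4 * D) * (D * R))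
    (c₀ := c₀) (by linarith) (by positivity) hc₀ z1 z2 z3 y1 y2 y3
    (H1 (D * R) hDR0 (by linarith) w' q₁ q₂ l (by linarith) hwq hqq hql (by linarith) c₀ hc₀)
  obtain ⟨k, hk, e₀, he₀, key⟩ := key
  refine ⟨k, hk, e₀, he₀, fun K => Bas.mono 0 (key K) ?_⟩
  intro J _ F A' H V₁ V₂ z zj hz hzj u₀ a b d hu₀ ha hb hd B' hB' hBA
  refine le_trans (mul_le_mul_of_nonneg_right ?_ (Nat.cast_nonneg J))
    (H V₁ V₂ z zj hz hzj u₀ a b d hu₀ ha hb hd B' hB' hBA)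
  have e1 : e / (4 * D) * (D * R) = e / 4 * R := by field_simp
  rw [e1]
  have h1 : (Nb - Na - e / 4 * R - 12 * (T * (τ * R))) * Real.log 2 ≤
      (scG sn G A s q₂ r₀ - scG sn G A s q₁ r₀) * Real.log 2 :=
    mul_le_mul_of_nonneg_right (by linarith) l0.le
  have h2 : (e / 4 * R + 12 * (T * (τ * R))) * Real.log 2 ≤
      (e / 4 * R + 12 * (T * (τ * R))) * 1 := mul_le_mul_of_nonneg_left l1 (by positivity)
  linarith

/-- The loss of the position wanted for the loss `e` of the conclusion. -/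
noncomputable def eI0 (Sl e C : ℝ) : ℝ := eX Sl (e / (4 * dC Sl C) / 2) / 4

theorem dC_pos {Sl C : ℝ} (hS : 1 < Sl) (hC : 0 < C) : 0 < dC Sl C := by
  unfold dC
  have : 0 < Sl - 1 := by linarith
  positivity

theorem eI0_pos {Sl e C : ℝ} (hS : 1 < Sl) (he : 0 < e) (hC : 0 < C) : 0 < eI0 Sl e C := by
  unfold eI0
  have h1 := dC_pos hS hC
  have := eX_pos hS (e := e / (4 * dC Sl C) / 2) (by positivity)
  positivity

/-- **The near digits of the first rough coordinate are full given its velocity**: almost every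
`g`, for the time, all digits of the base (`y`). -/
theorem vel_G0e (h : GCh S f y c r₀ r s A B Λ sn G) (hr : r₀ ≤ r) {Q₀ : Qt m U₀} (hQ : Exs S Q₀)
    (hQt : ∀ w ∈ G, A ≤ w → w < B → Few S f (vg w) y Q₀ Q₀)
    (hn : VNum S f y c r₀ s (PG G A s) (B - s) Λ (whG G A s) (scG sn G A s) Q₀)
    {p₀ lam' : ℝ} (hkn : Kn ((range r₀).image c) p₀ lam' y)
    (hyk : ∀ (J : ℕ) (F : Fam m J), ∃ ψ : ℕ × (Fin m → ℤ) × (Fin m → ℤ) → γ J F, ∀ ω,
      y J F ω = ψ (F.T ω, (fun i => if i ∈ (range r₀).image c then F.X ⌊p₀ * J⌋₊ ω i else 0),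
        (fun i => if i ∈ (range r₀).image c then F.D ⌊lam' * J⌋₊ ω i else 0)))
    (hsn : ∀ w ∈ G, A ≤ w → w < B → 0 ≤ sn w r₀) (hpl : p₀ ≤ A + lam') :
    ∀ᵐ g : ℝ, A < g → g < B → ∀ Sl : ℕ → ℝ, SlpG sn r₀ r G g Sl → 1 < Sl r₀ →
      JetG S f y Q₀ c r₀ sn G g → ∀ e C : ℝ, 0 < e → 0 < C →
      FulGe S f y Q₀ c r₀ sn G (Sl r₀) g (eI0 (Sl r₀) e C) (2 * Sl r₀ + 1) →
      VelGe S f y Q₀ c r₀ sn G (Sl r₀) g e (e / 4) C := by
  have hmem : ∀ A' : ℚ, PG G A s A' → ∀ v : ℚ, (A' : ℝ) < v →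
      whG G A s v ∈ G ∧ A ≤ whG G A s v ∧ whG G A s v ≤ v + s := fun A' hA' v hv =>
    fl_mem h.cl (hA'.lt hv)
  filter_upwards [(measurePreserving_sub_right (volume : Measure ℝ)
    s).quasiMeasurePreserving.tendsto_ae.eventually (vel_aee (PA := PG G A s)
    (fun _ hA' => h.nch hA') (fun _ _ => PG.mono) hn hr hQ (fun A' hA' v v1 v2 => by
      obtain ⟨m1, m2, m3⟩ := hmem A' hA' v v1
      exact (h.nch hA').up v1 le_rfl v2 (hQt _ m1 m2 (by linarith))) hkn hyk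
    (fun A' hA' => by
      obtain ⟨u, hu, u1, u2⟩ := hA'
      linarith [h.A0]) (fun A' hA' v v1 v2 => by
      obtain ⟨m1, m2, m3⟩ := hmem A' hA' v v1
      exact hsn _ m1 m2 (by linarith)) (fun A' hA' => by
      obtain ⟨u, hu, u1, u2⟩ := hA'
      linarith))] with g hg hgA hgB Sl hS hS1 hjet e C he hC hful
  -- a point of `G` before `g`
  obtain ⟨A₁, b0, b1⟩ : ∃ A₁ : ℚ, PG G A s A₁ ∧ (A₁ : ℝ) < g - s := by
    obtain ⟨ρ₀, hρ₀, H₀⟩ := hS.gap 1 one_pos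
    obtain ⟨t, ht, ht1, ht2⟩ : ∃ t : ℝ, 0 < t ∧ t < ρ₀ ∧ 2 * t < g - A :=
      ⟨min (ρ₀ / 2) ((g - A) / 4), lt_min (by positivity) (by linarith),
        (min_le_left _ _).trans_lt (by linarith), by
          linarith [min_le_right (ρ₀ / 2) ((g - A) / 4)]⟩
    obtain ⟨u₀, hu₀, u1, u2⟩ := H₀ t ht ht1 (g - t) le_rfl (by linarith)
    obtain ⟨A₁, b1, b2⟩ := exists_rat_btwn (show u₀ - s < g - s by linarith)
    exact ⟨A₁, ⟨u₀, hu₀, by linarith, by linarith⟩, b2⟩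
  have hd := dC_pos hS1 hC
  refine vel_reale h hr hS hS1 hgA hgB he hC (hg A₁ b0 ⟨b1, by linarith⟩ _ _ hS1
    (hS.slP h.cl hgA hr) (hS.whP h.cl hgA) (hjet.jet hS h.cl hgA hr (by linarith [h.B1]))
    (e / (4 * dC (Sl r₀) C)) (by positivity) ?_)
  exact FulGe.ful (eX_pos hS1 (by positivity)) hful hS h.cl hgA hr

/-- The loss of the position wanted for the loss `e` of the conclusion. -/
noncomputable def eI (Sl e C : ℝ) : ℝ := eI0 Sl (e / 2) C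

theorem eI_pos {Sl e C : ℝ} (hS : 1 < Sl) (he : 0 < e) (hC : 0 < C) : 0 < eI Sl e C :=
  eI0_pos hS (half_pos he) hC

/-- The constant of the position wanted. -/
noncomputable def CI (Sl : ℝ) : ℝ := 2 * Sl + 1

/-- **The near digits of the first rough coordinate are full given its velocity**, at almost every
`g`, fixed numbers; `y` is the near path of the base: `p₀` digits of the position and
`lam' ≥ p₀ - A` of the velocity. The loss `eI` and the constant `CI` of the hypothesis depend on the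
slope, `e` and `C` only. -/
theorem vel_Ge (h : GCh S f y c r₀ r s A B Λ sn G) (hr : r₀ ≤ r) (h1 : p₀ ≤ 1) (h2 : Λ ≤ lam')
    (h3 : B + Λ ≤ p₀) (hpl : p₀ ≤ A + lam') (hkn : Kn ((range r₀).image c) p₀ lam' y)
    (hyk : YkZ ((range r₀).image c) p₀ lam' y) {Q₀ : Qt m U₀} (hQ : Exs S Q₀)
    (hQt : ∀ w ∈ G, A ≤ w → w < B → Few S f (vg w) y Q₀ Q₀)
    (hsn : ∀ w ∈ G, A ≤ w → w < B → 0 ≤ sn w r₀)
    (hn : VNum S f (yT ((range r₀).image c) p₀ lam') c r₀ s (PG G A s) (B - s) Λ (whG G A s)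
      (scG sn G A s) Q₀) :
    ∀ᵐ g : ℝ, A < g → g < B → ∀ Sl : ℕ → ℝ, SlpG sn r₀ r G g Sl → 1 < Sl r₀ →
      JetG S f y Q₀ c r₀ sn G g → ∀ e C : ℝ, 0 < e → 0 < C →
      FulGe S f y Q₀ c r₀ sn G (Sl r₀) g (eI (Sl r₀) e C) (CI (Sl r₀)) →
      VelGe S f y Q₀ c r₀ sn G (Sl r₀) g e (e / 8) C := by
  have h' := h.yT h1 h2 h3
  filter_upwards [vel_G0e h' hr hQ (fun w a b d => few_yT h.pos h.pt hyk (hQt w a b d)) hn
    kn_yT (fun J F => ⟨fun v => v, fun ω => rfl⟩) hsn hpl] with g hg hgA hgB Sl hS hS1 hjet e C he hC hful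
  have hful' : FulGe S f (yT ((range r₀).image c) p₀ lam') Q₀ c r₀ sn G (Sl r₀) g
      (eI (Sl r₀) e C) (2 * Sl r₀ + 1) := by
    obtain ⟨ρ, hρ, H⟩ := hful
    exact ⟨ρ, hρ, fun R hR hRρ w hw a a1 a2 a3 N hN =>
      lowN_yT h.pos hkn (H R hR hRρ w hw a a1 a2 a3 N hN)⟩
  have hjet' : JetG S f (yT ((range r₀).image c) p₀ lam') Q₀ c r₀ sn G g := by
    intro e C he hC
    obtain ⟨ρ, hρ, H⟩ := hjet e C he hC
    refine ⟨ρ, hρ, fun R hR hRρ w hw w1 w2 => ?_⟩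
    obtain ⟨Pm, q1, ⟨j₀, η, e', he', hη, hs', k1, k2⟩, e'', he'', k3⟩ := H R hR hRρ w hw w1 w2
    exact ⟨Pm, q1, ⟨j₀, η, e', he', hη, hs', fun j a b => f1_yT h.pos h.pt hyk (k1 j a b),
      fun j a b x hx => f1_yT h.pos h.pt hyk (k2 j a b x hx)⟩, e'', he'',
      f1_yT h.pos h.pt hyk k3⟩
  obtain ⟨ρ, hρ, H⟩ := hg hgA hgB Sl hS hS1 hjet' (e / 2) C (by positivity) hC hful'
  have e84 : e / 2 / 4 = e / 8 := by ring
  rw [e84] at H
  refine ⟨ρ, hρ, fun R hR hRρ w hw j w1 w2 w3 Na Nb Nd b1 b2 b3 b4 c₀ hc₀ => ?_⟩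
  obtain ⟨k, hk, e₀, he₀, H⟩ := H R hR hRρ w hw j w1 w2 w3 Na Nb Nd b1 b2 b3 b4 c₀ hc₀
  refine ⟨min k (c₀ * (e / 2 * R)), by positivity, e₀, he₀, fun K =>
    Bas.mono 0 ((H K).and (pos_bas h.pos)) ?_⟩
  rintro J - F A' ⟨H, hA'⟩ V₁ V₂ z zj hz hzj u₀ a b d hu₀ ha hb hd B' hB' hBA
  have hJ0 : (0 : ℝ) ≤ J := Nat.cast_nonneg J
  have hBp : 0 < Pe F.p B' := lt_of_lt_of_le (mul_pos hc₀ hA') hBA
  have hp := (isLaw_cond F.isLaw hBp).nonneg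
  obtain ⟨ψ, hψ⟩ := hyk J F
  have q1 := H V₁ V₂ z zj (hz.le' (min_le_left _ _)) (hzj.le' (min_le_left _ _)) u₀ a b d hu₀ ha
    hb hd B' hB' hBA
  have q2 : CH (Pool.Agent.H49.Ent.cond F.p B' True) F.Z z ≤ e / 2 * R * J :=
    ch_part F.isLaw hB' hA' hc₀ hBA _ _ ((hz.2 _ F.Z (cl2_Z h.pt w J F A')).trans
      ((mul_le_mul_of_nonneg_right (min_le_right _ _) hJ0).trans (le_of_eq (by ring))))
  have q3 := CH_le_add hp b F.Z (fun ω => (a ω, (d ω, (zj ω, (z ω, (u₀ ω,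
    yT ((range r₀).image c) p₀ lam' J F ω))))))
  have q4 : CH (Pool.Agent.H49.Ent.cond F.p B' True) F.Z (fun ω => (a ω, (d ω, (zj ω, (z ω, (u₀ ω,
      yT ((range r₀).image c) p₀ lam' J F ω)))))) ≤
      CH (Pool.Agent.H49.Ent.cond F.p B' True) F.Z z := CH_mono_cond hp fun ω ω' _ _ hh => by
    simp only [Prod.mk.injEq] at hh
    exact hh.2.2.2.1
  have q5 : CH (Pool.Agent.H49.Ent.cond F.p B' True) b (fun ω => (F.Z ω, (a ω, (d ω, (zj ω, (z ω,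
      (u₀ ω, yT ((range r₀).image c) p₀ lam' J F ω))))))) ≤
      CH (Pool.Agent.H49.Ent.cond F.p B' True) b
        (fun ω => (a ω, (d ω, (zj ω, (z ω, (u₀ ω, y J F ω)))))) :=
    CH_mono_cond hp fun ω ω' _ _ hh => by
      rw [hψ ω, hψ ω']
      simp only [Prod.mk.injEq] at hh ⊢
      refine ⟨hh.2.1, hh.2.2.1, hh.2.2.2.1, hh.2.2.2.2.1, hh.2.2.2.2.2.1, ?_⟩
      rw [hh.1, hh.2.2.2.2.2.2]
  linarith

/-- `VelG` for charts of any precision `p ≥ sn w - C R`. -/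
def VelGre (S : PCl m) (f : ∀ (J : ℕ) (F : Fam m J), F.Ω → α J F)
    (y : ∀ (J : ℕ) (F : Fam m J), F.Ω → γ J F) (Q₀ : Qt m U₀) (c : ℕ → Fin m) (r₀ : ℕ)
    (sn : ℝ → ℕ → ℝ) (G : Set ℝ) (Sl g e κ C : ℝ) : Prop :=
  ∃ ρ : ℝ, 0 < ρ ∧ ∀ R : ℝ, 0 < R → R < ρ → ∀ w ∈ G,
    ∀ j : ℝ, g - R ≤ w → w ≤ j → j ≤ g + R → ∀ p : ℝ, sn w r₀ - C * R ≤ p → ∀ Na Nb Nd : ℝ,
    sn w r₀ + Sl * (j - w) ≤ Na + κ * R → Na ≤ Nb → Nb ≤ sn w r₀ + C * R →
    Nd + w ≤ sn w r₀ + C * R → ∀ c₀ : ℝ, 0 < c₀ → ∃ k : ℝ, 0 < k ∧ ∃ e₀ : ℝ, 0 < e₀ ∧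
    ∀ K : ℕ, Bas S (fun J F A' => ∀ (V₁ V₂ : Type) (z : F.Ω → V₁) (zj : F.Ω → V₂),
      Mx f (vg w) k F A' z → Mx f (vg j) k F A' zj → ∀ u₀ a b d, Q₀.P K e₀ J F A' u₀ →
      (qJet m ((range r₀).image c) (c r₀) 0 w p Na).P K e₀ J F A' a →
      (qJet m ((range r₀).image c) (c r₀) 0 w p Nb).P K e₀ J F A' b →
      (qJet m ((range r₀).image c) (c r₀) 1 w p Nd).P K e₀ J F A' d →
      ∀ B' : F.Ω → Prop, Sub B' A' → c₀ * Pe F.p A' ≤ Pe F.p B' →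
      ((Nb - Na) * Real.log 2 - e * R) * J ≤ CH (Pool.Agent.H49.Ent.cond F.p B' True) b
        (fun ω => (a ω, (d ω, (zj ω, (z ω, (u₀ ω, y J F ω)))))))

/-- **Less precise charts.** -/
theorem VelGe.rgh (h : GCh S f y c r₀ r s A B Λ sn G) (hr : r₀ ≤ r) {Q₀ : Qt m U₀} {Sl g e κ C : ℝ}
    (hA : A < g) (hB : g < B) (he : 0 < e) (hC : 0 < C)
    (H : VelGe S f y Q₀ c r₀ sn G Sl g (e / 2) κ C) :
    VelGre S f y Q₀ c r₀ sn G Sl g e κ C := by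
  obtain ⟨ρ₁, hρ₁, H⟩ := H
  have hΛ0 := h.Λ0
  obtain ⟨ρ, hρ, t1, t2, t3, t4⟩ : ∃ ρ : ℝ, 0 < ρ ∧ ρ ≤ ρ₁ ∧ ρ ≤ (g - A) / 2 ∧ ρ ≤ (B - g) / 2 ∧
      C * ρ ≤ Λ / 4 := by
    have q1 : 0 < (g - A) / 2 := by linarith
    have q2 : 0 < (B - g) / 2 := by linarith
    refine ⟨min (min ρ₁ (Λ / 4 / C)) (min ((g - A) / 2) ((B - g) / 2)), by positivity,
      (min_le_left _ _).trans (min_le_left _ _), (min_le_right _ _).trans (min_le_left _ _),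
      (min_le_right _ _).trans (min_le_right _ _), ?_⟩
    have h1 := (min_le_left (min ρ₁ (Λ / 4 / C)) (min ((g - A) / 2) ((B - g) / 2))).trans
      (min_le_right _ _)
    have := mul_le_mul_of_nonneg_left h1 hC.le
    refine this.trans (le_of_eq ?_)
    field_simp
  refine ⟨ρ, hρ, fun R hR hRρ w hw j w1 w2 w3 p hp Na Nb Nd b1 b2 b3 b4 c₀ hc₀ => ?_⟩
  obtain ⟨k1, hk1, e1, he1, H1⟩ := H R hR (by linarith) w hw j w1 w2 w3 Na Nb Nd b1 b2 b3 b4 c₀ hc₀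
  have hCR : C * R ≤ C * ρ := mul_le_mul_of_nonneg_left hRρ.le hC.le
  have hwA : A ≤ w := by linarith
  have hwB : w < B := by linarith
  have hpos := h.pos
  obtain ⟨x, hx⟩ : ∃ x : ℝ, x = e * R / 10 := ⟨_, rfl⟩
  have hx0 : 0 < x := by rw [hx]; positivity
  have hcx : 0 < c₀ * x := mul_pos hc₀ hx0
  -- few bits
  have hm : sn w r₀ - C * R ≤ min p (sn w r₀) := le_min hp (by
    have : 0 < C * R := by positivity
    linarith)
  have hm' : sn w r₀ - C * R ≤ min (sn w r₀) p := by rw [min_comm]; exact hm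
  have f1 : Few S f (vg w) y (qJet m ((range r₀).image c) (c r₀) 0 w (sn w r₀) Na)
      (qJet m ((range r₀).image c) (c r₀) 0 w p Na) :=
    h.jet_one hr hw hwA hwB le_rfl le_rfl (σ₀ := Λ / 4) (by positivity) le_rfl (by
      push_cast
      linarith)
  have f2 : Few S f (vg w) y (qJet m ((range r₀).image c) (c r₀) 1 w (sn w r₀) Nd)
      (qJet m ((range r₀).image c) (c r₀) 1 w p Nd) :=
    h.jet_one hr hw hwA hwB le_rfl le_rfl (σ₀ := Λ / 4) (by positivity) le_rfl (by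
      push_cast
      linarith)
  have f3 : Few S f (vg w) y (qJet m ((range r₀).image c) (c r₀) 0 w p Nb)
      (qJet m ((range r₀).image c) (c r₀) 0 w (sn w r₀) Nb) :=
    h.jet_one hr hw hwA hwB le_rfl le_rfl (σ₀ := Λ / 4) (by positivity) le_rfl (by
      push_cast
      linarith)
  obtain ⟨g1, hg1, F1⟩ := f1.mx hpos (c₀ * x) hcx
  obtain ⟨g2, hg2, F2⟩ := f2.mx hpos (c₀ * x) hcx
  obtain ⟨g3, hg3, F3⟩ := f3.mx hpos (c₀ * x) hcx
  obtain ⟨e₀, he₀, l1, l2, l3, l4⟩ : ∃ e : ℝ, 0 < e ∧ e ≤ e1 ∧ e ≤ g1 ∧ e ≤ g2 ∧ e ≤ g3 :=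
    ⟨min e1 (min g1 (min g2 g3)), by positivity, min_le_left _ _,
      (min_le_right _ _).trans (min_le_left _ _),
      (min_le_right _ _).trans ((min_le_right _ _).trans (min_le_left _ _)),
      (min_le_right _ _).trans ((min_le_right _ _).trans (min_le_right _ _))⟩
  obtain ⟨k, hk, k1', k2⟩ : ∃ k : ℝ, 0 < k ∧ k ≤ k1 ∧ k ≤ c₀ * x / 2 :=
    ⟨min k1 (c₀ * x / 2), by positivity, min_le_left _ _, min_le_right _ _⟩
  obtain ⟨u₁, rd, hrd, hch⟩ := h.ch w hw hwA hwB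
  obtain ⟨rk, hrk, hatt⟩ : ∃ rk : ℝ, 0 ≤ rk ∧
      Att S ((range r₀).image c) (c r₀) w (sn w r₀) rk := by
    rcases Nat.lt_or_ge r₀ r with h0 | h0
    · exact ⟨rd r₀, hrd r₀ le_rfl h0, hch.att r₀ le_rfl h0⟩
    · obtain rfl : r₀ = r := le_antisymm hr h0
      obtain ⟨rk, E, h2, -, h3, -⟩ := h.att w hw hwA hwB
      exact ⟨rk, h2, h3 rfl⟩
  obtain ⟨K1, M1, X1⟩ := exs_jet hrk hatt (j := 0) (N := Na) e₀ he₀
  obtain ⟨K2, M2, X2⟩ := exs_jet hrk hatt (j := 0) (N := Nb) e₀ he₀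
  obtain ⟨K3, M3, X3⟩ := exs_jet hrk hatt (j := 1) (N := Nd) e₀ he₀
  refine ⟨k, hk, e₀, he₀, fun K => ?_⟩
  obtain ⟨L, n0, n1, n2, n3⟩ : ∃ L : ℕ, K ≤ L ∧ K1 ≤ L ∧ K2 ≤ L ∧ K3 ≤ L :=
    ⟨max K (max K1 (max K2 K3)), le_max_left _ _, (le_max_left _ _).trans (le_max_right _ _),
      (le_max_left _ _).trans ((le_max_right _ _).trans (le_max_right _ _)),
      (le_max_right _ _).trans ((le_max_right _ _).trans (le_max_right _ _))⟩
  refine Bas.mono 0 ((((H1 L).and (F1 L)).and ((F2 L).and (F3 L))).and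
    (((X1.and X2).and X3).and (pos_bas hpos))) ?_
  rintro J - F A' ⟨⟨⟨H, F1⟩, F2, F3⟩, ⟨⟨⟨a', ha'', -⟩, b', hb'', -⟩, d', hd'', -⟩,
    hA'⟩ V₁ V₂ z zj hz hzj u₀ a b d hu₀ hua hub hud B' hB' hBA
  have hJ0 : (0 : ℝ) ≤ J := Nat.cast_nonneg J
  have hBp : 0 < Pe F.p B' := lt_of_lt_of_le (mul_pos hc₀ hA') hBA
  have hp := (isLaw_cond F.isLaw hBp).nonneg
  have part : ∀ {T T' : Type} (X : F.Ω → T) (Y : F.Ω → T'),
      CH (Pool.Agent.H49.Ent.cond F.p A' True) X Y ≤ c₀ * x * J →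
      CH (Pool.Agent.H49.Ent.cond F.p B' True) X Y ≤ x * J := fun X Y hXY =>
    ch_part F.isLaw hB' hA' hc₀ hBA X Y (by rw [← mul_assoc]; exact hXY)
  have t1 := H V₁ V₂ z zj (hz.le' k1') (hzj.le' k1') u₀ a' b' d'
    (Q₀.mono n0 l1 hu₀) ((qJet m _ _ _ _ _ _).mono n1 l1 ha'')
    ((qJet m _ _ _ _ _ _).mono n2 l1 hb'') ((qJet m _ _ _ _ _ _).mono n3 l1 hd'') B' hB' hBA
  have t2 := part _ _ (F3 V₁ z (hz.le' k2) b b' ((qJet m _ _ _ _ _ _).mono n0 l4 hub)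
    ((qJet m _ _ _ _ _ _).mono n2 l4 hb''))
  have t3 := part _ _ (F1 V₁ z (hz.le' k2) a' a ((qJet m _ _ _ _ _ _).mono n1 l2 ha'')
    ((qJet m _ _ _ _ _ _).mono n0 l2 hua))
  have t4 := part _ _ (F2 V₁ z (hz.le' k2) d' d ((qJet m _ _ _ _ _ _).mono n3 l3 hd'')
    ((qJet m _ _ _ _ _ _).mono n0 l3 hud))
  have zero : ∀ {T : Type} (X : F.Ω → T),
      CH (Pool.Agent.H49.Ent.cond F.p B' True) X X ≤ x * J := fun X => by
    rw [CH_eq_zero hp fun _ _ _ _ hh => hh]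
    exact mul_nonneg hx0.le hJ0
  have hkJ : k * J ≤ c₀ * x * J := mul_le_mul_of_nonneg_right (by linarith) hJ0
  have t6 := part _ _ ((hzj.2 V₁ z (cl2_vg w2 (by linarith [h.B1]) hz.1)).trans hkJ)
  refine le_trans (le_of_eq ?_) (ch_swap hp t1 t2 t3 t4 (zero zj) t6)
  rw [hx]
  ring

end Pool.AVG96
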