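import Pool.Agent.H83.OWN.Rate
import Mathlib.MeasureTheory.Covering.DensityTheorem

/-!
# Far look-ahead has rate zero

`F w o` nonnegative and superadditive. At almost every point `g`, for every `e > 0`, there are points
`a > g` arbitrarily near `g` with `F w a - F w j - F j a ≤ e r` for all `g - r ≤ w ≤ j ≤ g + r` and all
small `r`; the point `a` does not depend on `r`. `far_one`: one interval, `far_sup`: steps less than
`lam`, `far_rat`: numbers at rational points.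
-/

set_option autoImplicit false

namespace Pool.AVG96

open MeasureTheory Set Filter Topology Pool.LOV23 Pool.OWN83

section one

variable {F : ℝ → ℝ → ℝ} {A B : ℝ}

/-- The defect to a fixed end is antitone in the beginning. -/
theorem mono_Df (h0 : ∀ w o, A ≤ w → w ≤ o → o ≤ B → 0 ≤ F w o)
    (h2 : ∀ w v o, A ≤ w → w ≤ v → v ≤ o → o ≤ B → F w v + F v o ≤ F w o) {a : ℝ} (ha : a ≤ B) :
    MonotoneOn (fun x => - Df F x a) (Icc A a) := by
  intro x hx y hy hxy
  have h3 := Df_add h0 h2 hx.1 hxy hy.2 ha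
  have h4 := Df_nonneg h0 hx.1 hxy (hy.2.trans ha)
  dsimp only
  linarith

/-- The look-ahead is bounded by the growth of the defect. -/
theorem far_defect (h0 : ∀ w o, A ≤ w → w ≤ o → o ≤ B → 0 ≤ F w o) {w j a : ℝ} (hw : A ≤ w)
    (hwj : w ≤ j) (hja : j ≤ a) (ha : a ≤ B) : F w a - F w j - F j a ≤ Df F w a - Df F j a := by
  have h1 := Phi_add h0 hw hwj hja ha
  have h2 := Phi_le h0 hw (hja.trans ha) (parts_one F hwj)
  unfold Df
  linarith

/-- The points where all defects grow fast. -/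
def badN (F : ℝ → ℝ → ℝ) (A B c δ : ℝ) : Set ℝ :=
  {g | g ∈ Ioo A B ∧ ∀ a : ℚ, g < a → (a : ℝ) < g + δ → (a : ℝ) < B →
    c ≤ deriv (fun x => - Df F x a) g}

theorem meas_badN (F : ℝ → ℝ → ℝ) (A B c δ : ℝ) : MeasurableSet (badN F A B c δ) := by
  have h1 : badN F A B c δ = Ioo A B ∩ ⋂ a : ℚ, ({g : ℝ | (a : ℝ) ≤ g} ∪
      ({g : ℝ | g + δ ≤ (a : ℝ)} ∪ ({_g : ℝ | B ≤ (a : ℝ)} ∪
      {g : ℝ | c ≤ deriv (fun x => - Df F x a) g}))) := by
    ext g
    simp only [badN, mem_ofPred_eq, mem_inter_iff, mem_iInter, mem_union]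
    refine and_congr_right fun _ => forall_congr' fun a => ?_
    constructor
    · intro h
      by_cases h1 : (a : ℝ) ≤ g
      · exact Or.inl h1
      by_cases h2 : g + δ ≤ a
      · exact Or.inr (Or.inl h2)
      by_cases h3 : B ≤ a
      · exact Or.inr (Or.inr (Or.inl h3))
      exact Or.inr (Or.inr (Or.inr (h (not_le.1 h1) (not_le.1 h2) (not_le.1 h3))))
    · rintro (h | h | h | h) h1 h2 h3
      · exact absurd h (not_le.2 h1)
      · exact absurd h (not_le.2 h2)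
      · exact absurd h (not_le.2 h3)
      · exact h
  rw [h1]
  refine measurableSet_Ioo.inter (MeasurableSet.iInter fun a => ?_)
  refine MeasurableSet.union measurableSet_Ici (MeasurableSet.union ?_
    (MeasurableSet.union (MeasurableSet.const _) ?_))
  · exact measurableSet_le (measurable_id.add_const δ) measurable_const
  · exact measurableSet_le measurable_const (measurable_deriv _)

/-- **The points where all defects grow fast are few.** -/
theorem null_badN (h0 : ∀ w o, A ≤ w → w ≤ o → o ≤ B → 0 ≤ F w o)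
    (h2 : ∀ w v o, A ≤ w → w ≤ v → v ≤ o → o ≤ B → F w v + F v o ≤ F w o) (hAB : A < B) {c δ : ℝ}
    (hc : 0 < c) (hδ : 0 < δ) : volume (badN F A B c δ) = 0 := by
  obtain ⟨N, hN⟩ : ∃ N, N = badN F A B c δ := ⟨_, rfl⟩
  rw [← hN]
  have hNm : MeasurableSet N := by rw [hN]; exact meas_badN F A B c δ
  have h3 := IsUnifLocDoublingMeasure.ae_tendsto_measure_inter_div (volume : Measure ℝ) N 1
  have h4 := volume_bad h0 h2 hAB (c := c / 12) (by positivity)
  rw [← Measure.restrict_eq_zero, ← ae_eq_bot]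
  by_contra hne
  have hne' : (ae (volume.restrict N)).NeBot := ⟨hne⟩
  obtain ⟨g, hg1, hg2, hg3⟩ := ((ae_restrict_mem hNm).and (h3.and
    (ae_restrict_of_ae h4))).exists
  have hgN : g ∈ badN F A B c δ := by rw [← hN]; exact hg1
  obtain ⟨r₀, hr₀, hr⟩ := hg3 hgN.1
  -- the density
  have h5 := hg2 (l := 𝓝[>] (0 : ℝ)) (fun t => g + t) (fun t => t) tendsto_id (by
    filter_upwards [self_mem_nhdsWithin] with t ht
    rw [Metric.mem_closedBall, Real.dist_eq, one_mul, sub_add_cancel_left, abs_neg,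
      abs_of_pos (by exact ht)])
  have h6 : ∀ᶠ t in 𝓝[>] (0 : ℝ), ENNReal.ofReal (3 / 4) <
      volume (N ∩ Metric.closedBall (g + t) t) / volume (Metric.closedBall (g + t) t) :=
    h5.eventually (lt_mem_nhds (by
      rw [← ENNReal.ofReal_one]
      exact (ENNReal.ofReal_lt_ofReal_iff one_pos).2 (by norm_num)))
  have h6' : ∀ᶠ t in 𝓝[>] (0 : ℝ), t ∈ Ioo (0 : ℝ) (min (min δ r₀) (B - g) / 4) :=
    Ioo_mem_nhdsGT (show (0 : ℝ) < min (min δ r₀) (B - g) / 4 by
      have : 0 < B - g := by linarith [hgN.1.2]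
      positivity)
  obtain ⟨t, ht1, ht3⟩ := (h6.and h6').exists
  have ht0 : (0 : ℝ) < t := ht3.1
  have htm : t < min (min δ r₀) (B - g) / 4 := ht3.2
  have e1 : 4 * t < δ := by
    have := (min_le_left (min δ r₀) (B - g)).trans (min_le_left _ _)
    linarith
  have e2 : 4 * t < r₀ := by
    have := (min_le_left (min δ r₀) (B - g)).trans (min_le_right _ _)
    linarith
  have e3 : 4 * t < B - g := by
    have := min_le_right (min δ r₀) (B - g)
    linarith
  obtain ⟨a, ha1, ha2⟩ := exists_rat_btwn (show g + 2 * t < g + 4 * t by linarith)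
  have hga : g < (a : ℝ) := by linarith
  have haB : (a : ℝ) < B := by linarith
  -- the upper bound
  have h7 := volume_deriv_ge (f := fun x => - Df F x a) hga.le
    ((mono_Df h0 h2 haB.le).mono (Icc_subset_Icc_left hgN.1.1.le)) hc
  have h8 : N ∩ Metric.closedBall (g + t) t ⊆
      {g} ∪ {x : ℝ | x ∈ Ioo g (a : ℝ) ∧ c ≤ deriv (fun x => - Df F x a) x} := by
    rintro x ⟨hx1, hx2⟩
    rw [hN] at hx1
    rw [Metric.mem_closedBall, Real.dist_eq, abs_le] at hx2
    rcases eq_or_lt_of_le (show g ≤ x by linarith [hx2.1]) with h | h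
    · exact Or.inl h.symm
    · refine Or.inr ⟨⟨h, by linarith [hx2.2]⟩, hx1.2 a (by linarith [hx2.2]) (by linarith) haB⟩
  have h9 : volume (N ∩ Metric.closedBall (g + t) t) ≤ ENNReal.ofReal t := by
    refine (measure_mono h8).trans ((measure_union_le _ _).trans ?_)
    rw [Real.volume_singleton, zero_add]
    refine h7.trans (ENNReal.ofReal_le_ofReal ?_)
    rw [div_le_iff₀ hc]
    have k1 := hr (a - g) (by linarith) (by linarith) g a (by linarith) hga.le (by linarith)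
    have k2 := Df_nonneg h0 (a := (a : ℝ)) (b := a) (hgN.1.1.le.trans hga.le) le_rfl haB.le
    have k3 : 3 * (c / 12) * (a - g) ≤ t * c := by
      have : c * (a - g) ≤ c * (4 * t) := mul_le_mul_of_nonneg_left (by linarith) hc.le
      linarith
    linarith
  have h10 : volume (Metric.closedBall (g + t) t) = ENNReal.ofReal (2 * t) :=
    Real.volume_closedBall _ _
  rw [h10] at ht1
  have h11 : volume (N ∩ Metric.closedBall (g + t) t) / ENNReal.ofReal (2 * t) ≤
      ENNReal.ofReal t / ENNReal.ofReal (2 * t) := ENNReal.div_le_div_right h9 _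
  rw [← ENNReal.ofReal_div_of_pos (by linarith)] at h11
  have h12 := ht1.trans_le h11
  rw [ENNReal.ofReal_lt_ofReal_iff_of_nonneg (by norm_num)] at h12
  have h13 : t / (2 * t) = 1 / 2 := by field_simp
  rw [h13] at h12
  norm_num at h12

/-- **Far look-ahead on one interval.** -/
theorem far_one (h0 : ∀ w o, A ≤ w → w ≤ o → o ≤ B → 0 ≤ F w o)
    (h2 : ∀ w v o, A ≤ w → w ≤ v → v ≤ o → o ≤ B → F w v + F v o ≤ F w o) (hAB : A < B) :
    ∀ᵐ g : ℝ, g ∈ Ioo A B → ∀ e : ℝ, 0 < e → ∀ δ : ℝ, 0 < δ → ∃ a : ℚ, g < a ∧ (a : ℝ) < g + δ ∧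
      (a : ℝ) < B ∧ ∃ r₀ : ℝ, 0 < r₀ ∧ ∀ r : ℝ, 0 < r → r < r₀ → g + r < a ∧
      ∀ w j : ℝ, g - r ≤ w → w ≤ j → j ≤ g + r → F w a - F w j - F j a ≤ e * r := by
  have h3 : ∀ᵐ g : ℝ, ∀ i j : ℕ, g ∉ badN F A B (1 / ((i : ℝ) + 1)) (1 / ((j : ℝ) + 1)) := by
    rw [ae_all_iff]; intro i
    rw [ae_all_iff]; intro j
    rw [ae_iff]
    simp only [not_not]
    exact null_badN h0 h2 hAB (by positivity) (by positivity)
  have h4 : ∀ᵐ g : ℝ, ∀ a : ℚ, g ∈ Ioo A B → g < a → (a : ℝ) < B →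
      DifferentiableAt ℝ (fun x => - Df F x a) g := by
    rw [ae_all_iff]; intro a
    by_cases ha : (a : ℝ) < B
    · filter_upwards [(mono_Df h0 h2 ha.le).ae_differentiableWithinAt_of_mem] with g hg hgAB hga _
      exact (hg ⟨hgAB.1.le, hga.le⟩).differentiableAt (Icc_mem_nhds hgAB.1 hga)
    · exact Eventually.of_forall fun g _ _ h => absurd h ha
  filter_upwards [h3, h4] with g h5 h6 hgAB e he δ hδ
  obtain ⟨i, hi⟩ := exists_nat_one_div_lt (show 0 < e / 3 by positivity)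
  obtain ⟨j, hj⟩ := exists_nat_one_div_lt hδ
  have h7 := h5 i j
  have h8 : ∃ a : ℚ, g < a ∧ (a : ℝ) < g + 1 / ((j : ℝ) + 1) ∧ (a : ℝ) < B ∧
      deriv (fun x => - Df F x a) g < 1 / ((i : ℝ) + 1) := by
    by_contra hcon
    push Not at hcon
    exact h7 ⟨hgAB, fun a a1 a2 a3 => hcon a a1 a2 a3⟩
  obtain ⟨a, a1, a2, a3, a4⟩ := h8
  have ci : (0 : ℝ) < 1 / ((i : ℝ) + 1) := by positivity
  obtain ⟨r₀, hr₀, hr⟩ := incr_of_deriv (a := A) (b := a) ⟨hgAB.1, a1⟩ (h6 a hgAB a1 a3) ci a4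
  refine ⟨a, a1, by linarith, a3, min r₀ (a - g), lt_min hr₀ (by linarith), fun r r1 r2 => ?_⟩
  have l1 : r < r₀ := r2.trans_le (min_le_left _ _)
  have l2 : r < a - g := r2.trans_le (min_le_right _ _)
  obtain ⟨k1, k2, k3⟩ := hr r r1 l1
  refine ⟨by linarith, fun w o hw hwo ho => ?_⟩
  have m1 := far_defect h0 (w := w) (j := o) (a := (a : ℝ)) (by linarith) hwo (by linarith) a3.le
  have hm := mono_Df h0 h2 (a := (a : ℝ)) a3.le
  have m2 := hm (show g - r ∈ Icc A (a : ℝ) from ⟨k1, by linarith⟩)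
    (show w ∈ Icc A (a : ℝ) from ⟨by linarith, by linarith⟩) hw
  have m3 := hm (show o ∈ Icc A (a : ℝ) from ⟨by linarith, by linarith⟩)
    (show g + r ∈ Icc A (a : ℝ) from ⟨by linarith, k2⟩) ho
  have m4 : 3 * (1 / ((i : ℝ) + 1)) * r ≤ e * r := mul_le_mul_of_nonneg_right (by linarith) r1.le
  dsimp only at k3 m2 m3
  linarith

end one

/-- **Far look-ahead**, steps less than `lam`. -/
theorem far_sup {F : ℝ → ℝ → ℝ} {A B lam : ℝ} (hlam : 0 < lam)
    (h0 : ∀ w o, A < w → w ≤ o → o < B → o < w + lam → 0 ≤ F w o)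
    (h2 : ∀ w v o, A < w → w ≤ v → v ≤ o → o < B → o < w + lam → F w v + F v o ≤ F w o) :
    ∀ᵐ g : ℝ, g ∈ Ioo A B → ∀ e : ℝ, 0 < e → ∀ δ : ℝ, 0 < δ → ∃ a : ℚ, g < a ∧ (a : ℝ) < g + δ ∧
      (a : ℝ) < B ∧ ∃ r₀ : ℝ, 0 < r₀ ∧ ∀ r : ℝ, 0 < r → r < r₀ → g + r < a ∧ (a : ℝ) < g - r + lam ∧
      A < g - r ∧
      ∀ w j : ℝ, g - r ≤ w → w ≤ j → j ≤ g + r → F w a - F w j - F j a ≤ e * r := by
  have key : ∀ᵐ g : ℝ, ∀ p q : ℚ, A < (p : ℝ) → (q : ℝ) < B → (p : ℝ) < q →
      (q : ℝ) < p + lam → g ∈ Ioo (p : ℝ) q → ∀ e : ℝ, 0 < e → ∀ δ : ℝ, 0 < δ → ∃ a : ℚ, g < a ∧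
      (a : ℝ) < g + δ ∧ (a : ℝ) < q ∧ ∃ r₀ : ℝ, 0 < r₀ ∧ ∀ r : ℝ, 0 < r → r < r₀ → g + r < a ∧
      ∀ w j : ℝ, g - r ≤ w → w ≤ j → j ≤ g + r → F w a - F w j - F j a ≤ e * r := by
    rw [ae_all_iff]; intro p
    rw [ae_all_iff]; intro q
    by_cases h : A < (p : ℝ) ∧ (q : ℝ) < B ∧ (p : ℝ) < q ∧ (q : ℝ) < p + lam
    · obtain ⟨hp, hq, hpq, hl⟩ := h
      have := far_one (F := F) (A := p) (B := q)
        (fun w o hw hwo ho => h0 w o (hp.trans_le hw) hwo (ho.trans_lt hq) (by linarith))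
        (fun w v o hw hwv hvo ho => h2 w v o (hp.trans_le hw) hwv hvo (ho.trans_lt hq)
          (by linarith)) hpq
      filter_upwards [this] with g hg _ _ _ _ hmem
      exact hg hmem
    · exact Eventually.of_forall fun g h1 h3 h4 h5 _ => absurd ⟨h1, h3, h4, h5⟩ h
  filter_upwards [key] with g hg hgAB e he δ hδ
  obtain ⟨p, hp1, hp2⟩ := exists_rat_btwn (show max A (g - lam / 2) < g from
    max_lt hgAB.1 (by linarith))
  obtain ⟨q, hq1, hq2⟩ := exists_rat_btwn (show g < min B (g + lam / 2) from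
    lt_min hgAB.2 (by linarith))
  have hpA : A < (p : ℝ) := (le_max_left _ _).trans_lt hp1
  have hpl : g - lam / 2 < (p : ℝ) := (le_max_right _ _).trans_lt hp1
  have hqB : (q : ℝ) < B := hq2.trans_le (min_le_left _ _)
  have hql : (q : ℝ) < g + lam / 2 := hq2.trans_le (min_le_right _ _)
  obtain ⟨a, a1, a2, a3, r₀, hr₀, hr⟩ := hg p q hpA hqB (hp2.trans hq1) (by linarith) ⟨hp2, hq1⟩
    e he δ hδ
  refine ⟨a, a1, a2, by linarith, min r₀ (min (lam / 2) (g - A)), lt_min hr₀ (lt_min (by linarith)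
    (by linarith [hgAB.1])), fun r r1 r2 => ?_⟩
  have l1 : r < r₀ := r2.trans_le (min_le_left _ _)
  have l2 : r < lam / 2 := r2.trans_le ((min_le_right _ _).trans (min_le_left _ _))
  have l3 : r < g - A := r2.trans_le ((min_le_right _ _).trans (min_le_right _ _))
  obtain ⟨k1, k2⟩ := hr r r1 l1
  exact ⟨k1, by linarith, by linarith, k2⟩

/-- **Far look-ahead for numbers at rational points.** -/
theorem far_rat {θ : ℚ → ℚ → ℝ} {A B lam : ℝ} (hlam : 0 < lam)
    (h0 : ∀ w o : ℚ, A < w → w ≤ o → (o : ℝ) < B → (o : ℝ) < w + lam → 0 ≤ θ w o)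
    (h2 : ∀ w v o : ℚ, A < w → w ≤ v → v ≤ o → (o : ℝ) < B → (o : ℝ) < w + lam →
      θ w v + θ v o ≤ θ w o) :
    ∀ᵐ g : ℝ, g ∈ Ioo A B → ∀ e : ℝ, 0 < e → ∀ δ : ℝ, 0 < δ → ∃ a : ℚ, g < a ∧ (a : ℝ) < g + δ ∧
      (a : ℝ) < B ∧ ∃ r₀ : ℝ, 0 < r₀ ∧ ∀ r : ℝ, 0 < r → r < r₀ → g + r < a ∧ (a : ℝ) < g - r + lam ∧
      A < g - r ∧
      ∀ w j : ℚ, g - r ≤ w → w ≤ j → (j : ℝ) ≤ g + r → θ w a - θ w j - θ j a ≤ e * r := by
  obtain ⟨T, hT⟩ : ∃ T : ℝ → ℝ → Set ℝ, T = fun w o => {x | x = 0 ∨ ∃ w' o' : ℚ, w ≤ (w' : ℝ) ∧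
    w' ≤ o' ∧ (o' : ℝ) ≤ o ∧ x = θ w' o'} := ⟨_, rfl⟩
  have hz : ∀ w o, (0 : ℝ) ∈ T w o := by
    intro w o
    rw [hT]
    exact Or.inl rfl
  have hmon : ∀ w o w' o' : ℚ, A < w → w ≤ w' → w' ≤ o' → o' ≤ o → (o : ℝ) < B →
      (o : ℝ) < w + lam → θ w' o' ≤ θ w o := by
    intro w o w' o' hw a1 a2 a3 ho hl
    have b1 : (w : ℝ) ≤ w' := by exact_mod_cast a1
    have b2 : (w' : ℝ) ≤ o' := by exact_mod_cast a2
    have b3 : (o' : ℝ) ≤ o := by exact_mod_cast a3
    have c1 := h2 w w' o hw a1 (a2.trans a3) ho hl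
    have c2 := h2 w' o' o (hw.trans_le b1) a2 a3 ho (by linarith)
    have c3 := h0 w w' hw a1 (by linarith) (by linarith)
    have c4 := h0 o' o (by linarith) a3 ho (by linarith)
    linarith
  have hbd : ∀ w o : ℝ, A < w → w ≤ o → o < B → o < w + lam → BddAbove (T w o) := by
    intro w o hw hwo ho hl
    obtain ⟨a, ha1, ha2⟩ := exists_rat_btwn (show max A (w - (w + lam - o) / 2) < w from
      max_lt hw (by linarith))
    obtain ⟨b, hb1, hb2⟩ := exists_rat_btwn (show o < min B (o + (w + lam - o) / 2) from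
      lt_min ho (by linarith))
    have e1 := le_max_left A (w - (w + lam - o) / 2)
    have e2 := le_max_right A (w - (w + lam - o) / 2)
    have e3 := min_le_left B (o + (w + lam - o) / 2)
    have e4 := min_le_right B (o + (w + lam - o) / 2)
    refine ⟨max 0 (θ a b), ?_⟩
    rintro x hx
    rw [hT] at hx
    rcases hx with rfl | ⟨w', o', a1, a2, a3, rfl⟩
    · exact le_max_left _ _
    · refine (hmon a b w' o' (by linarith) ?_ a2 ?_ (by linarith) (by linarith)).trans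
        (le_max_right _ _)
      · have : (a : ℝ) ≤ w' := by linarith
        exact_mod_cast this
      · have : (o' : ℝ) ≤ b := by linarith
        exact_mod_cast this
  obtain ⟨G, hG⟩ : ∃ G : ℝ → ℝ → ℝ, G = fun w o => sSup (T w o) := ⟨_, rfl⟩
  have hGe : ∀ w o : ℚ, A < w → w ≤ o → (o : ℝ) < B → (o : ℝ) < w + lam → G w o = θ w o := by
    intro w o hw hwo ho hl
    have hwo' : (w : ℝ) ≤ o := by exact_mod_cast hwo
    rw [hG]
    refine le_antisymm (csSup_le ⟨0, hz _ _⟩ ?_) (le_csSup (hbd _ _ hw hwo' ho hl) ?_)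
    · intro x hx
      rw [hT] at hx
      rcases hx with rfl | ⟨w', o', a1, a2, a3, rfl⟩
      · exact h0 w o hw hwo ho hl
      · exact hmon w o w' o' hw (by exact_mod_cast a1) a2 (by exact_mod_cast a3) ho hl
    · rw [hT]
      exact Or.inr ⟨w, o, le_rfl, hwo, le_rfl, rfl⟩
  have hG0 : ∀ w o : ℝ, A < w → w ≤ o → o < B → o < w + lam → 0 ≤ G w o := by
    intro w o a1 a2 a3 a4
    rw [hG]
    exact le_csSup (hbd w o a1 a2 a3 a4) (hz w o)
  have hGs : ∀ w v o : ℝ, A < w → w ≤ v → v ≤ o → o < B → o < w + lam →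
      G w v + G v o ≤ G w o := by
    intro w v o hw hwv hvo ho hl
    have hb := hbd w o hw (hwv.trans hvo) ho hl
    have key : ∀ x ∈ T w v, ∀ x' ∈ T v o, x + x' ≤ G w o := by
      intro x hx x' hx'
      rw [hT] at hx hx'
      have gle : ∀ w' o' : ℚ, w ≤ w' → w' ≤ o' → (o' : ℝ) ≤ o → θ w' o' ≤ G w o := by
        intro w' o' a1 a2 a3
        rw [hG]
        refine le_csSup hb ?_
        rw [hT]
        exact Or.inr ⟨w', o', a1, a2, a3, rfl⟩
      rcases hx with rfl | ⟨w1, v1, a1, a2, a3, rfl⟩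
      · rcases hx' with rfl | ⟨v2, o2, b1, b2, b3, rfl⟩
        · rw [add_zero]
          exact hG0 w o hw (hwv.trans hvo) ho hl
        · rw [zero_add]
          exact gle v2 o2 (hwv.trans b1) b2 b3
      · rcases hx' with rfl | ⟨v2, o2, b1, b2, b3, rfl⟩
        · rw [add_zero]
          exact gle w1 v1 a1 a2 (a3.trans hvo)
        · have c0 : v1 ≤ v2 := by
            have : (v1 : ℝ) ≤ v2 := a3.trans b1
            exact_mod_cast this
          have a2' : (w1 : ℝ) ≤ v1 := by exact_mod_cast a2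
          have b2' : (v2 : ℝ) ≤ o2 := by exact_mod_cast b2
          have c1 := h2 w1 v1 o2 (by linarith) a2 (c0.trans b2) (by linarith) (by linarith)
          have c2 := h2 v1 v2 o2 (by linarith) c0 b2 (by linarith) (by linarith)
          have c3 := h0 v1 v2 (by linarith) c0 (by linarith) (by linarith)
          have c4 := gle w1 o2 a1 (a2.trans (c0.trans b2)) b3
          linarith
    rw [hG] at key ⊢
    have k1 : ∀ x' ∈ T v o, sSup (T w v) ≤ sSup (T w o) - x' := by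
      intro x' hx'
      exact csSup_le ⟨0, hz _ _⟩ fun x hx => by linarith [key x hx x' hx']
    have k2 : sSup (T v o) ≤ sSup (T w o) - sSup (T w v) :=
      csSup_le ⟨0, hz _ _⟩ fun x' hx' => by linarith [k1 x' hx']
    simp only
    linarith
  have := far_sup (F := G) (A := A) (B := B) hlam hG0 hGs
  filter_upwards [this] with g hg hgAB e he δ hδ
  obtain ⟨a, a1, a2, a3, r₀, hr₀, hr⟩ := hg hgAB e he δ hδ
  refine ⟨a, a1, a2, a3, r₀, hr₀, fun r r1 r2 => ?_⟩
  obtain ⟨k1, k2, k3, k4⟩ := hr r r1 r2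
  refine ⟨k1, k2, k3, fun w j hw hwj hj => ?_⟩
  have hwj' : (w : ℝ) ≤ j := by exact_mod_cast hwj
  have hja : j ≤ a := by
    have : (j : ℝ) ≤ a := by linarith
    exact_mod_cast this
  have h5 := k4 w j hw hwj' hj
  rw [hGe w a (by linarith) (hwj.trans hja) a3 (by linarith), hGe w j (by linarith) hwj
    (by linarith) (by linarith), hGe j a (by linarith) hja a3 (by linarith)] at h5
  exact h5

end Pool.AVG96
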