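import Pool.Agent.H96.AVG.Stp
import Pool.Agent.H96.AVG.Far
import Pool.Agent.H3.V0F.Ag

/-!
# The families of the coordinates of a chain

The windows are indexed by rational numbers. `wh w`: the window of the charts of the index `w` (a
good window), `wh w ≤ w + s`; the record of the index `w` is taken at the window `w + s`.
`farQ`: far digits of the coordinates `r₀ ≤ l < i` (positions and velocities), at fixed balls `a l`;
`nearQ`: the digits `D l j'`; `FamX`: position and velocity of the coordinate `i` to the natural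
digits. `NCh`: the class and the labels. `FarS`, `FarT`: the numbers; `rel_fam`: `FamX` is a
relative family over `farQ`.
-/

set_option autoImplicit false

namespace Pool.AVG96

open Finset Real MvPolynomial
open Pool.Agent.H49.Ent Pool.Agent.H32.Dense Pool.STK Pool.KA Pool.KSAT Pool.K2S Pool.PB Pool.S6C
  Pool.GEN Pool.RCD Pool.LA91
open Pool.OWN83 (TwoRelS TRelS TwoParS)

variable {m : ℕ}

/-- The coordinates `r₀ ≤ l < i` over the labels of the window `x`, precisions `p l`, to the digits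
`D l j'`. -/
noncomputable def jetQ (m : ℕ) (c : ℕ → Fin m) (r₀ i : ℕ) (x : ℝ) (p : ℕ → ℝ) (D : ℕ → ℕ → ℝ) :
    Qt m (ℕ → ℕ → ℤ) := qJets m c r₀ i 1 (fun _ _ => x) (fun l _ => p l) D

/-- Position and velocity of the coordinate `i` over the labels of the window `x`, precision `p`, to
the digits `N j`. -/
noncomputable def prQ (m : ℕ) (c : ℕ → Fin m) (i : ℕ) (x p : ℝ) (N : ℕ → ℝ) : Qt m (ℤ × ℤ) :=
  (qJet m ((range i).image c) (c i) 0 x p (N 0)).prod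
    (qJet m ((range i).image c) (c i) 1 x p (N 1))

/-- The digits of the balls `a l`. -/
noncomputable def farD (i : ℕ) (wh : ℚ → ℝ) (sc : ℚ → ℕ → ℝ) (a : ℕ → ℚ) (l j' : ℕ) : ℝ :=
  if l < i then sc (a l) l - (j' : ℝ) * wh (a l) else 0

/-- Far digits of the coordinates `r₀ ≤ l < i`. -/
noncomputable def farQ (m : ℕ) (c : ℕ → Fin m) (r₀ i : ℕ) (wh : ℚ → ℝ) (sc : ℚ → ℕ → ℝ)
    (a : ℕ → ℚ) (w : ℚ) : Qt m (ℕ → ℕ → ℤ) := jetQ m c r₀ i (wh w) (sc w) (farD i wh sc a)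

/-- The coordinates `r₀ ≤ l < i` to the digits `D l j'`. -/
noncomputable def nearQ (m : ℕ) (c : ℕ → Fin m) (r₀ i : ℕ) (wh : ℚ → ℝ) (sc : ℚ → ℕ → ℝ)
    (D : ℕ → ℕ → ℝ) (w : ℚ) : Qt m (ℕ → ℕ → ℤ) := jetQ m c r₀ i (wh w) (sc w) D

/-- The natural digits of the order `j` of the coordinate `i` at the index `o`. -/
noncomputable def natD (i : ℕ) (wh : ℚ → ℝ) (sc : ℚ → ℕ → ℝ) (o : ℚ) (j : ℕ) : ℝ :=
  sc o i - (j : ℝ) * wh o

/-- The jet of order `j` of the coordinate `i` over the labels of the index `w`, to the natural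
digits of the index `o`. -/
noncomputable def fam (m : ℕ) (c : ℕ → Fin m) (i j : ℕ) (wh : ℚ → ℝ) (sc : ℚ → ℕ → ℝ) (w o : ℚ) :
    Qt m ℤ := qJet m ((range i).image c) (c i) j (wh w) (sc w i) (natD i wh sc o j)

/-- Position and velocity of the coordinate `i`. -/
noncomputable def FamX (m : ℕ) (c : ℕ → Fin m) (i : ℕ) (wh : ℚ → ℝ) (sc : ℚ → ℕ → ℝ) (w o : ℚ) :
    Qt m (ℤ × ℤ) := prQ m c i (wh w) (sc w i) (natD i wh sc o)

variable {α γ : ∀ J : ℕ, Fam m J → Type}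

/-- Labels with a gradient exponent `E`. -/
def AtE (S : PCl m) (I : Finset (Fin m)) (k : Fin m) (w p r E : ℝ) : Prop :=
  ∀ e : ℝ, 0 < e → ∃ K : ℕ, Bas S (fun J F A =>
    Lb F I k K ⌊(E + e) * J⌋₊ J ⌊w * J⌋₊ ⌊(r + e) * J⌋₊ ⌊(p - e) * J⌋₊ A)

theorem AtE.sub {S S' : PCl m} {I : Finset (Fin m)} {k : Fin m} {w p r E : ℝ}
    (hs : ∀ (τ : ℝ) (J : ℕ) (F : Fam m J) (A : F.Ω → Prop), S'.St τ J F A → S.St τ J F A)
    (h : AtE S I k w p r E) : AtE S' I k w p r E := by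
  intro e he
  obtain ⟨K, hK⟩ := h e he
  exact ⟨K, Bas.sub hs hK⟩

theorem exs_jetA {S : PCl m} {I : Finset (Fin m)} {k : Fin m} {j : ℕ} {w p r E N : ℝ}
    (hr : 0 ≤ r) (hE : 0 ≤ E) (h : AtE S I k w p r E) : Exs S (qJet m I k j w p N) :=
  Pool.V0F.exs_jetE hr hE h

/-- **The labels of the target** of a chain: a gradient exponent `E` is allowed, if the target is not
the first place. -/
def AtT (S : PCl m) (c : ℕ → Fin m) (r₀ r : ℕ) (w p : ℝ) : Prop :=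
  ∃ rk E : ℝ, 0 ≤ rk ∧ 0 ≤ E ∧ (r₀ = r → Att S ((range r).image c) (c r) w p rk) ∧
    AtE S ((range r).image c) (c r) w p rk E

theorem AtT.sub {S S' : PCl m} {c : ℕ → Fin m} {r₀ r : ℕ} {w p : ℝ}
    (hs : ∀ (τ : ℝ) (J : ℕ) (F : Fam m J) (A : F.Ω → Prop), S'.St τ J F A → S.St τ J F A)
    (h : AtT S c r₀ r w p) : AtT S' c r₀ r w p := by
  obtain ⟨rk, E, h1, h2, h3, h4⟩ := h
  exact ⟨rk, E, h1, h2, fun x => (h3 x).sub hs, h4.sub hs⟩

theorem AtT.exs {S : PCl m} {c : ℕ → Fin m} {r₀ r j : ℕ} {w p : ℝ} (h : AtT S c r₀ r w p) (N : ℝ) :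
    Exs S (qJet m ((range r).image c) (c r) j w p N) := by
  obtain ⟨rk, E, h1, h2, -, h4⟩ := h
  exact exs_jetA h1 h2 h4

theorem AtT.of {S : PCl m} {c : ℕ → Fin m} {r₀ r : ℕ} {w p rk : ℝ} (hrk : 0 ≤ rk) (hw : w ≤ 1)
    (h : Att S ((range r).image c) (c r) w p rk) : AtT S c r₀ r w p := by
  refine ⟨rk, 0, hrk, le_rfl, fun _ => h, fun e he => ?_⟩
  obtain ⟨K, hK⟩ := h e he
  refine ⟨K, Bas.mono 0 hK ?_⟩
  intro J _ F A hG
  have hJ : (0 : ℝ) ≤ J := Nat.cast_nonneg J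
  exact hG.mono (Finset.Subset.refl _) le_rfl
    (Nat.floor_le_floor (mul_le_mul_of_nonneg_right (by linarith) hJ)) le_rfl le_rfl (fl_le hw J)
    le_rfl le_rfl

/-- **The class and the labels.** `c`: the chain; the base are the places `< r₀`, then the places
`r₀ ≤ l < r`, the target is the place `r`. -/
structure NCh (S : PCl m) (f : ∀ (J : ℕ) (F : Fam m J), F.Ω → α J F)
    (y : ∀ (J : ℕ) (F : Fam m J), F.Ω → γ J F) (c : ℕ → Fin m) (r₀ r : ℕ) (s A B Λ : ℝ)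
    (wh : ℚ → ℝ) (sc : ℚ → ℕ → ℝ) : Prop where
  ne : S.Ne
  pos : ∀ (τ : ℝ) (J : ℕ) (F : Fam m J) (A : F.Ω → Prop), S.St τ J F A → 0 < Pe F.p A
  tm : ∃ C₀, TmC S C₀
  rn : ∀ w : ℚ, A < w → (w : ℝ) < B → ∃ η, RNum S f (vg ((w : ℝ) + s)) η
  ch : ∀ w : ℚ, A < w → (w : ℝ) < B → ∃ (u₁ : ℝ) (rd : ℕ → ℝ), (∀ l, r₀ ≤ l → l < r → 0 ≤ rd l) ∧
    Chn S c r₀ r (wh w) (wh w) u₁ (sc w) rd
  att : ∀ w : ℚ, A < w → (w : ℝ) < B → AtT S c r₀ r (wh w) (sc w r)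
  pt : ∀ (J : ℕ) (F : Fam m J), ∃ φ : α J F → PtT F, ∀ ω, ptr F J ω = φ (f J F ω)
  kn : ∃ p₀ lam : ℝ, p₀ ≤ 1 ∧ Λ ≤ lam ∧ B + s + Λ ≤ p₀ ∧ Kn ((range r₀).image c) p₀ lam y
  wm : ∀ v o : ℚ, A < v → v ≤ o → (o : ℝ) < B → wh v ≤ wh o
  wl : ∀ v : ℚ, A < v → (v : ℝ) < B → 0 ≤ wh v ∧ wh v ≤ v + s
  mono : ∀ l, r₀ ≤ l → l ≤ r → ∀ v o : ℚ, A < v → v ≤ o → (o : ℝ) < B →
    sc v l - wh v ≤ sc o l - wh o
  Λ0 : 0 < Λ

section

variable {f : ∀ (J : ℕ) (F : Fam m J), F.Ω → α J F} {y : ∀ (J : ℕ) (F : Fam m J), F.Ω → γ J F}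
  {S : PCl m} {c : ℕ → Fin m} {r₀ r : ℕ} {s A B Λ : ℝ} {wh : ℚ → ℝ} {sc : ℚ → ℕ → ℝ}

theorem NCh.B1 (h : NCh S f y c r₀ r s A B Λ wh sc) : B + s < 1 := by
  obtain ⟨p₀, lam, h1, h2, h3, h4⟩ := h.kn
  linarith [h.Λ0]

theorem NCh.mono' (h : NCh S f y c r₀ r s A B Λ wh sc) {l : ℕ} (h0 : r₀ ≤ l) (h1 : l ≤ r)
    {v o : ℚ} (hv : A < v) (hvo : v ≤ o) (ho : (o : ℝ) < B) : sc v l ≤ sc o l := by
  have h2 := h.mono l h0 h1 v o hv hvo ho
  have h3 := h.wm v o hv hvo ho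
  linarith

/-- Passage to a subclass. -/
theorem NCh.sub (h : NCh S f y c r₀ r s A B Λ wh sc) {S' : PCl m} (hne : S'.Ne)
    (hs : ∀ (τ : ℝ) (J : ℕ) (F : Fam m J) (A : F.Ω → Prop), S'.St τ J F A → S.St τ J F A) :
    NCh S' f y c r₀ r s A B Λ wh sc where
  ne := hne
  pos := fun τ J F A hA => h.pos τ J F A (hs τ J F A hA)
  tm := by
    obtain ⟨C₀, hC⟩ := h.tm
    exact ⟨C₀, fun τ J F A hτ hA => hC τ J F A hτ (hs τ J F A hA)⟩
  rn := fun w a b => by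
    obtain ⟨η, hη⟩ := h.rn w a b
    exact ⟨η, hη.sub hs⟩
  ch := fun w a b => by
    obtain ⟨u₁, rd, h1, h2⟩ := h.ch w a b
    exact ⟨u₁, rd, h1, h2.sub hs⟩
  att := fun w a b => (h.att w a b).sub hs
  pt := h.pt
  kn := h.kn
  wm := h.wm
  wl := h.wl
  mono := h.mono
  Λ0 := h.Λ0

/-- A smaller interval. -/
theorem NCh.cut (h : NCh S f y c r₀ r s A B Λ wh sc) {A' B' : ℝ} (hA : A ≤ A') (hB : B' ≤ B) :
    NCh S f y c r₀ r s A' B' Λ wh sc where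
  ne := h.ne
  pos := h.pos
  tm := h.tm
  rn := fun w a b => h.rn w (by linarith) (by linarith)
  ch := fun w a b => h.ch w (by linarith) (by linarith)
  att := fun w a b => h.att w (by linarith) (by linarith)
  pt := h.pt
  kn := by
    obtain ⟨p₀, lam, h1, h2, h3, h4⟩ := h.kn
    exact ⟨p₀, lam, h1, h2, by linarith, h4⟩
  wm := fun v o d e g => h.wm v o (by linarith) e (by linarith)
  wl := fun v d e => h.wl v (by linarith) (by linarith)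
  mono := fun l a b v o d e g => h.mono l a b v o (by linarith) e (by linarith)
  Λ0 := h.Λ0

/-- The coordinate `r₀` is attained over the base. -/
theorem NCh.at0 (h : NCh S f y c r₀ r s A B Λ wh sc) (hr : r₀ ≤ r) {w : ℚ}
    (hw : A < w) (hwB : (w : ℝ) < B) : ∃ rk : ℝ, 0 ≤ rk ∧
      Att S ((range r₀).image c) (c r₀) (wh w) (sc w r₀) rk := by
  rcases Nat.lt_or_ge r₀ r with h1 | h1
  · obtain ⟨u₁, rd, h2, h3⟩ := h.ch w hw hwB
    exact ⟨rd r₀, h2 r₀ le_rfl h1, h3.att r₀ le_rfl h1⟩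
  · obtain rfl : r₀ = r := le_antisymm hr h1
    obtain ⟨rk, E, h2, -, h3, -⟩ := h.att w hw hwB
    exact ⟨rk, h2, h3 rfl⟩

/-- The chain up to the place `i`. -/
theorem NCh.chi (h : NCh S f y c r₀ r s A B Λ wh sc) {i : ℕ} (h0 : r₀ ≤ i) (hi : i ≤ r) {w : ℚ}
    (hw : A < w) (hwB : (w : ℝ) < B) : ∃ (u₁ : ℝ) (rd : ℕ → ℝ), (∀ l, r₀ ≤ l → l < i → 0 ≤ rd l) ∧
      Chn S c r₀ i (wh w) (wh w) u₁ (sc w) rd := by
  obtain ⟨u₁, rd, h2, h3⟩ := h.ch w hw hwB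
  exact ⟨u₁, rd, fun l a b => h2 l a (by omega), h3.take h0 hi⟩

/-- From the record at the window of the charts to the record of the index. -/
theorem NCh.up {U U' : Type} (h : NCh S f y c r₀ r s A B Λ wh sc) {v o : ℚ} (hv : A < v)
    (hvo : v ≤ o) (ho : (o : ℝ) < B) {Q : Qt m U} {Q' : Qt m U'}
    (hf : Few S f (vg (wh v)) y Q Q') : Few S f (vg ((o : ℝ) + s)) y Q Q' := by
  have h1 := (h.wl v hv (lt_of_le_of_lt (by exact_mod_cast hvo) ho)).2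
  have h2 : (v : ℝ) ≤ o := by exact_mod_cast hvo
  exact Few.up h.pos (fun J F => ⟨fun x => x, fun _ => rfl⟩)
    (fun J F => vg_mono (by linarith) (by linarith [h.B1]) J F)
    (fun J F => ⟨fun x => x, fun _ => rfl⟩) hf

/-! ### More in the condition -/

theorem few_lmap {U U' V : Type} {β : ∀ J : ℕ, Fam m J → Type}
    {g : ∀ (J : ℕ) (F : Fam m J), F.Ω → β J F}
    (hpos : ∀ (τ : ℝ) (J : ℕ) (F : Fam m J) (A : F.Ω → Prop), S.St τ J F A → 0 < Pe F.p A)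
    {Qa : Qt m U} {Qb : Qt m U'} {Q' : Qt m V} (φ : U' → U)
    (hφ : ∀ (K : ℕ) (e : ℝ) (J : ℕ) (F : Fam m J) (A : F.Ω → Prop) (u : F.Ω → U'),
      Qb.P K e J F A u → Qa.P K e J F A (fun ω => φ (u ω))) (h : Few S f g y Qa Q') :
    Few S f g y Qb Q' := by
  intro x hx
  obtain ⟨e, he, H⟩ := h x hx
  refine ⟨e, he, fun K => Bas.mono 0 ((H K).and (pos_bas hpos)) ?_⟩
  rintro J - F A ⟨H, hA⟩ u u' hu hu'
  obtain ⟨V, z, hz, h1⟩ := H _ u' (hφ _ _ _ _ _ _ hu) hu'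
  refine ⟨V, z, hz, le_trans (CH_mono_cond (isLaw_cond F.isLaw hA).nonneg ?_) h1⟩
  intro ω ω' _ _ hh
  exact Prod.ext (congrArg φ (Prod.ext_iff.mp hh).1) (Prod.ext_iff.mp hh).2

/-- Jets of higher orders in the condition. -/
theorem few_raise {V U' : Type} {β : ∀ J : ℕ, Fam m J → Type}
    {g : ∀ (J : ℕ) (F : Fam m J), F.Ω → β J F}
    (hpos : ∀ (τ : ℝ) (J : ℕ) (F : Fam m J) (A : F.Ω → Prop), S.St τ J F A → 0 < Pe F.p A)
    {i : ℕ} {w p N : ℕ → ℕ → ℝ} {Q : Qt m V} {Q' : Qt m U'}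
    (h : Few S f g y ((qJets m c r₀ i 0 w p N).prod Q) Q') :
    Few S f g y ((qJets m c r₀ i 1 w p N).prod Q) Q' := by
  refine few_lmap hpos (fun u => (fun l j'' => if r₀ ≤ l ∧ l < i ∧ j'' ≤ 0 then u.1 l j'' else 0,
    u.2)) ?_ h
  intro K e J F A u hu
  exact ⟨qJets_take le_rfl (by norm_num) hu.1, hu.2⟩

/-- **An intermediate quantity.** -/
theorem few_cut {U U₁ U' : Type} {β : ∀ J : ℕ, Fam m J → Type}
    {g : ∀ (J : ℕ) (F : Fam m J), F.Ω → β J F}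
    (hpos : ∀ (τ : ℝ) (J : ℕ) (F : Fam m J) (A : F.Ω → Prop), S.St τ J F A → 0 < Pe F.p A)
    {Q₀ : Qt m U} {Q₁ : Qt m U₁} {Q' : Qt m U'} (x : Exs S Q₁) (h0 : Few S f g y Q₀ Q₁)
    (hf : Few S f g y (Q₀.prod Q₁) Q') : Few S f g y Q₀ Q' := by
  intro h hh
  obtain ⟨e1, he1, H1⟩ := h0 (h / 2) (half_pos hh)
  obtain ⟨e2, he2, H2⟩ := hf (h / 2) (half_pos hh)
  obtain ⟨K₀, M₀, hx⟩ := x (min e1 e2) (lt_min he1 he2)
  refine ⟨min e1 e2, lt_min he1 he2, fun K => ?_⟩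
  refine Bas.mono 0 (((H1 (max K K₀)).and (H2 (max K K₀))).and (hx.and (pos_bas hpos))) ?_
  rintro J - F A ⟨⟨H1, H2⟩, ⟨u₁, hu₁, -⟩, hA⟩ u₀ u' hu₀ hu'
  have hcl := isLaw_cond F.isLaw hA
  obtain ⟨V, z, hz, h1⟩ := H1 u₀ u₁ (Q₀.mono (le_max_left _ _) (min_le_left _ _) hu₀)
    (Q₁.mono (le_max_right _ _) (min_le_left _ _) hu₁)
  obtain ⟨V', z', hz', h2⟩ := H2 (fun ω => (u₀ ω, u₁ ω)) u'
    ⟨Q₀.mono (le_max_left _ _) (min_le_right _ _) hu₀,
      Q₁.mono (le_max_right _ _) (min_le_right _ _) hu₁⟩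
    (Q'.mono (le_max_left _ _) (min_le_right _ _) hu')
  refine ⟨V × V', fun ω => (z ω, z' ω), hz.join hz', ?_⟩
  have h3 := CH_le_add hcl.nonneg u' u₁ (fun ω => (u₀ ω, ((z ω, z' ω), y J F ω)))
  have h4 : CH (Pool.Agent.H49.Ent.cond F.p A True) u₁
      (fun ω => (u₀ ω, ((z ω, z' ω), y J F ω))) ≤
      CH (Pool.Agent.H49.Ent.cond F.p A True) u₁ (fun ω => (u₀ ω, (z ω, y J F ω))) := by
    refine CH_mono_cond hcl.nonneg fun ω ω' _ _ hh => ?_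
    simp only [Prod.mk.injEq] at hh ⊢
    exact ⟨hh.1, hh.2.1.1, hh.2.2⟩
  have h5 : CH (Pool.Agent.H49.Ent.cond F.p A True) u'
      (fun ω => (u₁ ω, (u₀ ω, ((z ω, z' ω), y J F ω)))) ≤
      CH (Pool.Agent.H49.Ent.cond F.p A True) u' (fun ω => ((u₀ ω, u₁ ω), (z' ω, y J F ω))) := by
    refine CH_mono_cond hcl.nonneg fun ω ω' _ _ hh => ?_
    simp only [Prod.mk.injEq] at hh ⊢
    exact ⟨⟨hh.2.1, hh.1⟩, hh.2.2.1.2, hh.2.2.2⟩
  linarith

/-! ### Few bits between charts -/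

/-- The jets over the labels of one window exist. -/
theorem exs_jets (h : NCh S f y c r₀ r s A B Λ wh sc) {i : ℕ} (h0 : r₀ ≤ i) (hi : i ≤ r) {w : ℚ}
    (hw : A < w) (hwB : (w : ℝ) < B) (N : ℕ → ℕ → ℝ) :
    Exs S (jetQ m c r₀ i (wh w) (sc w) N) := by
  obtain ⟨u₁, rd, h1, h2⟩ := h.chi h0 hi hw hwB
  exact exs_qjets fun l l0 l1 j' _ => exs_jet (h1 l l0 l1) (h2.att l l0 l1)

theorem exs_jet1 (h : NCh S f y c r₀ r s A B Λ wh sc) {i j : ℕ} (h0 : r₀ ≤ i) (hi : i ≤ r) {w : ℚ}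
    (hw : A < w) (hwB : (w : ℝ) < B) (N : ℝ) :
    Exs S (qJet m ((range i).image c) (c i) j (wh w) (sc w i) N) := by
  rcases Nat.lt_or_ge i r with h1 | h1
  · obtain ⟨u₁, rd, h2, h3⟩ := h.ch w hw hwB
    exact exs_jet (h2 i h0 h1) (h3.att i h0 h1)
  · obtain rfl : i = r := le_antisymm hi h1
    exact (h.att w hw hwB).exs N

theorem exs_pr (h : NCh S f y c r₀ r s A B Λ wh sc) {i : ℕ} (h0 : r₀ ≤ i) (hi : i ≤ r) {w : ℚ}
    (hw : A < w) (hwB : (w : ℝ) < B) (N : ℕ → ℝ) : Exs S (prQ m c i (wh w) (sc w i) N) :=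
  (exs_jet1 h h0 hi hw hwB _).prod (exs_jet1 h h0 hi hw hwB _)

/-- **Few bits between jets of the coordinates `< i`**, at the window of the charts of `v`: from the
labels of `w` to the labels of `w'`, `w, w' ≤ v`. -/
theorem jets_few (h : NCh S f y c r₀ r s A B Λ wh sc) {i : ℕ} (h0 : r₀ ≤ i) (hi : i ≤ r)
    {w w' v : ℚ} (hw : A < w) (hw' : A < w') (hvB : (v : ℝ) < B) (hwv : w ≤ v) (hwv' : w' ≤ v)
    {N N' : ℕ → ℕ → ℝ} {lv : ℕ → ℝ} {σ₀ : ℝ} (hσ : 0 < σ₀) (hlv : ∀ l, r₀ ≤ l → l < i → 0 < lv l)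
    (h1 : ∀ l, r₀ ≤ l → l < i → ∀ j' ≤ 1, sc v l + lv l + σ₀ ≤ N l j' + (j' : ℕ) * wh v)
    (h2 : ∀ l, r₀ ≤ l → l < i → sc v l + lv l + σ₀ ≤ sc w l + Λ)
    (h2' : ∀ l, r₀ ≤ l → l < i → ∀ l', r₀ ≤ l' → l' < l → sc v l + lv l + σ₀ ≤ sc w l + lv l')
    (hN : ∀ l, r₀ ≤ l → l < i → ∀ j' ≤ 1, N' l j' ≤ N l j')
    (h3 : ∀ l, r₀ ≤ l → l < i → ∀ j' ≤ 1,
      N' l j' + (j' : ℕ) * wh v + σ₀ ≤ min (sc w l) (sc w' l) + Λ)
    (h3' : ∀ l, r₀ ≤ l → l < i → ∀ j' ≤ 1, ∀ l', r₀ ≤ l' → l' < l →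
      N' l j' + (j' : ℕ) * wh v + σ₀ ≤ min (sc w l) (sc w' l) + lv l') :
    Few S f (vg (wh v)) y (jetQ m c r₀ i (wh w) (sc w) N) (jetQ m c r₀ i (wh w') (sc w') N') := by
  obtain ⟨C₀, htm⟩ := h.tm
  obtain ⟨p₀, lam', hp1, hlam, hp0, hkn⟩ := h.kn
  have hΛ0 := h.Λ0
  have hwvR : (w : ℝ) ≤ v := by exact_mod_cast hwv
  have hv : A < v := by linarith
  obtain ⟨u₁, rd, hrd, hch⟩ := h.chi h0 hi hv hvB
  have hwl := (h.wl v hv hvB).2
  have hmn : Λ ≤ min lam' (p₀ - wh v) := le_min hlam (by linarith)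
  refine few_jets htm h.pos hch (lv := lv) (p₀ := p₀) (lam := lam') (σ₀ := σ₀)
    (fun _ _ _ _ _ => h.wm w v hw hwv hvB) (fun _ _ _ _ _ => h.wm w' v hw' hwv' hvB)
    (by linarith) hp1
    (by linarith) hσ hlv (fun l a b j' c' => h1 l a b j' c') (fun l a b j' _ => ?_)
    (fun l a b j' _ l' a' b' => ?_) (fun l a b j' c' => hN l a b j' c')
    (fun l a b j' c' => ?_) (fun l a b j' c' l' a' b' => h3' l a b j' c' l' a' b') h.pt hkn
  · rw [min_eq_left (h.mono' a (by omega) hw hwv hvB)]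
    have := h2 l a b
    linarith
  · rw [min_eq_left (h.mono' a (by omega) hw hwv hvB)]
    exact h2' l a b l' a' b'
  · have := h3 l a b j' c'
    linarith

/-- **Few bits for one jet**, at the window of the charts of `v`, over the coordinates `< i`. -/
theorem jet_few (h : NCh S f y c r₀ r s A B Λ wh sc) {i j : ℕ} (h0 : r₀ ≤ i) (hi : i ≤ r)
    (hj : j ≤ 1) {w₀ w w' v : ℚ} (hw₀ : A < w₀) (hw : A < w) (hw' : A < w') (hvB : (v : ℝ) < B)
    (hw₀v : w₀ ≤ v) (hwv : w ≤ v) (hwv' : w' ≤ v) {N : ℕ → ℕ → ℝ} {N₁ N₂ : ℝ} {lv : ℕ → ℝ}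
    {σ₀ : ℝ} (hσ : 0 < σ₀) (hlv : ∀ l, r₀ ≤ l → l < i → 0 < lv l)
    (h1 : ∀ l, r₀ ≤ l → l < i → ∀ j' ≤ 1, sc v l + lv l + σ₀ ≤ N l j' + (j' : ℕ) * wh v)
    (h2 : ∀ l, r₀ ≤ l → l < i → sc v l + lv l + σ₀ ≤ sc w₀ l + Λ)
    (h2' : ∀ l, r₀ ≤ l → l < i → ∀ l', r₀ ≤ l' → l' < l → sc v l + lv l + σ₀ ≤ sc w₀ l + lv l')
    (hN : N₂ ≤ N₁) (h3 : N₂ + (j : ℝ) * wh v + σ₀ ≤ min (sc w i) (sc w' i) + Λ)
    (h3' : ∀ l, r₀ ≤ l → l < i → N₂ + (j : ℝ) * wh v + σ₀ ≤ min (sc w i) (sc w' i) + lv l) :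
    Few S f (vg (wh v)) y ((jetQ m c r₀ i (wh w₀) (sc w₀) N).prod
      (qJet m ((range i).image c) (c i) j (wh w) (sc w i) N₁))
      (qJet m ((range i).image c) (c i) j (wh w') (sc w' i) N₂) := by
  obtain ⟨C₀, htm⟩ := h.tm
  obtain ⟨p₀, lam', hp1, hlam, hp0, hkn⟩ := h.kn
  have hΛ0 := h.Λ0
  have hwvR : (w : ℝ) ≤ v := by exact_mod_cast hwv
  have hv : A < v := by linarith
  obtain ⟨u₁, rd, hrd, hch⟩ := h.chi h0 hi hv hvB
  have hwl := (h.wl v hv hvB).2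
  have hmn : Λ ≤ min lam' (p₀ - wh v) := le_min hlam (by linarith)
  have key : Few S f (vg (wh v)) y
      ((qJets m c r₀ i j (fun _ _ => wh w₀) (fun l _ => sc w₀ l) N).prod
      (qJet m ((range i).image c) (c i) j (wh w) (sc w i) N₁))
      (qJet m ((range i).image c) (c i) j (wh w') (sc w' i) N₂) := by
    refine few_jetN htm hch (lv := lv) (p₀ := p₀) (lam := lam') (σ₀ := σ₀)
      (fun _ _ _ _ _ => h.wm w₀ v hw₀ hw₀v hvB) (h.wm w v hw hwv hvB) (h.wm w' v hw' hwv' hvB)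
      (by linarith) hp1 (by linarith) hσ hlv (fun l a b j' c' => h1 l a b j' (c'.trans hj))
      (fun l a b j' _ => ?_) (fun l a b j' _ l' a' b' => ?_) hN (by linarith)
      (fun l a b => h3' l a b) h.pt hkn
    · rw [min_eq_left (h.mono' a (by omega) hw₀ hw₀v hvB)]
      have := h2 l a b
      linarith
    · rw [min_eq_left (h.mono' a (by omega) hw₀ hw₀v hvB)]
      exact h2' l a b l' a' b'
  rcases Nat.lt_or_ge j 1 with hj1 | hj1
  · have : j = 0 := by omega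
    subst this
    exact few_raise h.pos key
  · have : j = 1 := by omega
    subst this
    exact key

/-! ### The numbers of far digits -/

/-- The numbers of far digits on the interval `(A', B')`. -/
structure FarS (wh : ℚ → ℝ) (sc : ℚ → ℕ → ℝ) (r₀ i : ℕ) (a : ℕ → ℚ) (Λ A' B' : ℝ) (lv : ℕ → ℝ)
    (σ₀ : ℝ) : Prop where
  σ0 : 0 < σ₀
  lv0 : ∀ l, r₀ ≤ l → l < i → 0 < lv l
  ha : ∀ l, r₀ ≤ l → l < i → B' ≤ a l
  hw : ∀ v : ℚ, A' < v → (v : ℝ) < B' → ∀ l, r₀ ≤ l → l < i → wh v ≤ wh (a l)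
  c1 : ∀ v : ℚ, A' < v → (v : ℝ) < B' → ∀ l, r₀ ≤ l → l < i →
    sc v l + lv l + σ₀ ≤ sc (a l) l - (wh (a l) - wh v)
  c2 : ∀ w v : ℚ, A' < w → w ≤ v → (v : ℝ) < B' → ∀ l, r₀ ≤ l → l < i →
    sc v l + lv l + σ₀ ≤ sc w l + Λ
  c2' : ∀ w v : ℚ, A' < w → w ≤ v → (v : ℝ) < B' → ∀ l, r₀ ≤ l → l < i → ∀ l', r₀ ≤ l' → l' < l →
    sc v l + lv l + σ₀ ≤ sc w l + lv l'
  c4 : ∀ w : ℚ, A' < w → (w : ℝ) < B' → ∀ l, r₀ ≤ l → l < i → sc (a l) l + σ₀ ≤ sc w l + Λ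
  c4' : ∀ w : ℚ, A' < w → (w : ℝ) < B' → ∀ l, r₀ ≤ l → l < i → ∀ l', r₀ ≤ l' → l' < l →
    sc (a l) l + σ₀ ≤ sc w l + lv l'

/-- The numbers of the coordinate `i` over far digits. -/
structure FarT (sc : ℚ → ℕ → ℝ) (r₀ i : ℕ) (Λ A' B' : ℝ) (lv : ℕ → ℝ) (σ₀ : ℝ) : Prop where
  c3 : ∀ w o : ℚ, A' < w → w ≤ o → (o : ℝ) < B' → sc o i + σ₀ ≤ sc w i + Λ
  c3' : ∀ w o : ℚ, A' < w → w ≤ o → (o : ℝ) < B' → ∀ l, r₀ ≤ l → l < i → sc o i + σ₀ ≤ sc w i + lv l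

theorem FarS.mono {i : ℕ} {a : ℕ → ℚ} {A' B' A'' B'' : ℝ} {lv : ℕ → ℝ} {σ₀ σ : ℝ}
    (h : FarS wh sc r₀ i a Λ A' B' lv σ₀) (hA : A' ≤ A'') (hB : B'' ≤ B') (hσ : 0 < σ)
    (hσ₀ : σ ≤ σ₀) : FarS wh sc r₀ i a Λ A'' B'' lv σ where
  σ0 := hσ
  lv0 := h.lv0
  ha := fun l a b => hB.trans (h.ha l a b)
  hw := fun v a b l d e => h.hw v (by linarith) (by linarith) l d e
  c1 := fun v a b l d e => by linarith [h.c1 v (by linarith) (by linarith) l d e]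
  c2 := fun w v a b d l e g => by linarith [h.c2 w v (by linarith) b (by linarith) l e g]
  c2' := fun w v a b d l e g l' e' g' => by
    linarith [h.c2' w v (by linarith) b (by linarith) l e g l' e' g']
  c4 := fun w a b l e g => by linarith [h.c4 w (by linarith) (by linarith) l e g]
  c4' := fun w a b l e g l' e' g' => by
    linarith [h.c4' w (by linarith) (by linarith) l e g l' e' g']

theorem FarS.congr {i : ℕ} {a a' : ℕ → ℚ} {A' B' : ℝ} {lv : ℕ → ℝ} {σ₀ : ℝ}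
    (h : FarS wh sc r₀ i a Λ A' B' lv σ₀) (ha : ∀ l < i, a l = a' l) :
    FarS wh sc r₀ i a' Λ A' B' lv σ₀ where
  σ0 := h.σ0
  lv0 := h.lv0
  ha := fun l b e => by rw [← ha l e]; exact h.ha l b e
  hw := fun v b d l e g => by rw [← ha l g]; exact h.hw v b d l e g
  c1 := fun v b d l e g => by rw [← ha l g]; exact h.c1 v b d l e g
  c2 := h.c2
  c2' := h.c2'
  c4 := fun w b d l e g => by rw [← ha l g]; exact h.c4 w b d l e g
  c4' := fun w b d l e g l' e' g' => by rw [← ha l g]; exact h.c4' w b d l e g l' e' g'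

theorem FarS.take {i i' : ℕ} (hi : i' ≤ i) {a : ℕ → ℚ} {A' B' : ℝ} {lv : ℕ → ℝ} {σ₀ : ℝ}
    (h : FarS wh sc r₀ i a Λ A' B' lv σ₀) : FarS wh sc r₀ i' a Λ A' B' lv σ₀ where
  σ0 := h.σ0
  lv0 := fun l a b => h.lv0 l a (by omega)
  ha := fun l a b => h.ha l a (by omega)
  hw := fun v a b l d e => h.hw v a b l d (by omega)
  c1 := fun v a b l d e => h.c1 v a b l d (by omega)
  c2 := fun w v a b d l e g => h.c2 w v a b d l e (by omega)
  c2' := fun w v a b d l e g l' e' g' => h.c2' w v a b d l e (by omega) l' e' g'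
  c4 := fun w a b l e g => h.c4 w a b l e (by omega)
  c4' := fun w a b l e g l' e' g' => h.c4' w a b l e (by omega) l' e' g'

theorem FarT.mono {i : ℕ} {A' B' A'' B'' : ℝ} {lv : ℕ → ℝ} {σ₀ σ : ℝ}
    (h : FarT sc r₀ i Λ A' B' lv σ₀) (hA : A' ≤ A'') (hB : B'' ≤ B') (hσ₀ : σ ≤ σ₀) :
    FarT sc r₀ i Λ A'' B'' lv σ where
  c3 := fun w o a b d => by linarith [h.c3 w o (by linarith) b (by linarith)]
  c3' := fun w o a b d l e g => by linarith [h.c3' w o (by linarith) b (by linarith) l e g]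

/-- The far digits are far. -/
theorem FarS.far {i : ℕ} {a : ℕ → ℚ} {A' B' : ℝ} {lv : ℕ → ℝ} {σ₀ : ℝ}
    (h : FarS wh sc r₀ i a Λ A' B' lv σ₀) {v : ℚ} (hv : A' < v) (hvB : (v : ℝ) < B') {l j' : ℕ}
    (l0 : r₀ ≤ l) (l1 : l < i) (hj' : j' ≤ 1) :
    sc v l + lv l + σ₀ ≤ farD i wh sc a l j' + (j' : ℕ) * wh v := by
  have e1 : (j' : ℝ) ≤ 1 := by exact_mod_cast hj'
  have e2 := h.c1 v hv hvB l l0 l1
  have e3 := h.hw v hv hvB l l0 l1
  have e4 : (j' : ℝ) * (wh (a l) - wh v) ≤ 1 * (wh (a l) - wh v) :=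
    mul_le_mul_of_nonneg_right e1 (by linarith)
  unfold farD
  rw [if_pos l1]
  linarith

/-- The far digits are near enough. -/
theorem FarS.le {i : ℕ} {a : ℕ → ℚ} {A' B' : ℝ} {lv : ℕ → ℝ} {σ₀ : ℝ}
    (h : FarS wh sc r₀ i a Λ A' B' lv σ₀) {v : ℚ} (hv : A' < v) (hvB : (v : ℝ) < B') {l : ℕ}
    (j' : ℕ) (l0 : r₀ ≤ l) (l1 : l < i) : farD i wh sc a l j' + (j' : ℕ) * wh v ≤ sc (a l) l := by
  have e3 := h.hw v hv hvB l l0 l1
  have e4 : 0 ≤ (j' : ℝ) * (wh (a l) - wh v) := mul_nonneg (Nat.cast_nonneg _) (by linarith)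
  unfold farD
  rw [if_pos l1]
  linarith

/-! ### The relative families -/

/-- **Position and velocity are a relative family over the far digits.** -/
theorem rel_fam (h : NCh S f y c r₀ r s A B Λ wh sc) {i : ℕ} (h0 : r₀ ≤ i) (hi : i ≤ r)
    {a : ℕ → ℚ} {lv : ℕ → ℝ} {σ₀ : ℝ} (hS : FarS wh sc r₀ i a Λ A B lv σ₀)
    (hT : FarT sc r₀ i Λ A B lv σ₀) :
    TwoRelS S f y s (farQ m c r₀ i wh sc a) (FamX m c i wh sc) A B (B - A) := by
  have hwm : ∀ v o : ℚ, A < v → v ≤ o → (o : ℝ) < B → wh v ≤ wh o := h.wm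
  have nn : ∀ (v o : ℚ), A < v → v ≤ o → (o : ℝ) < B → ∀ j : ℕ, 0 ≤ (j : ℝ) * (wh o - wh v) :=
    fun v o a b d j => mul_nonneg (Nat.cast_nonneg _) (by linarith [hwm v o a b d])
  have n1 : ∀ (v o : ℚ), A < v → v ≤ o → (o : ℝ) < B → ∀ j ≤ 1,
      (j : ℕ) * (wh o - wh v) ≤ 1 * (wh o - wh v) := fun v o a b d j hj =>
    mul_le_mul_of_nonneg_right (by exact_mod_cast hj) (by linarith [hwm v o a b d])
  have rowj : ∀ w v o : ℚ, A < w → w ≤ v → v ≤ o → (o : ℝ) < B → ∀ j ≤ 1,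
      Few S f (vg (wh w)) y ((farQ m c r₀ i wh sc a w).prod (fam m c i j wh sc w o))
        (fam m c i j wh sc w v) := by
    intro w v o b d e g j hj
    have d' : (w : ℝ) ≤ v := by exact_mod_cast d
    have e' : (v : ℝ) ≤ o := by exact_mod_cast e
    refine jet_few h h0 hi hj b b b (by linarith) le_rfl le_rfl le_rfl (lv := lv) hS.σ0 hS.lv0
      (fun l l0 l1 j' hj' => hS.far b (by linarith) l0 l1 hj') (fun l l0 l1 =>
        hS.c2 w w b le_rfl (by linarith) l l0 l1) (fun l l0 l1 l' l0' l1' =>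
        hS.c2' w w b le_rfl (by linarith) l l0 l1 l' l0' l1') ?_ ?_ (fun l l0 l1 => ?_)
    · have e1 := h.mono i h0 hi v o (by linarith) e g
      have e2 := n1 v o (by linarith) e g j hj
      unfold natD
      linarith
    · rw [min_self]
      have e1 := hT.c3 w v b d (by linarith)
      have e2 := nn w v b d (by linarith) j
      unfold natD
      linarith
    · rw [min_self]
      have e1 := hT.c3' w v b d (by linarith) l l0 l1
      have e2 := nn w v b d (by linarith) j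
      unfold natD
      linarith
  have chgj : ∀ w v o : ℚ, A < w → w ≤ v → v ≤ o → (o : ℝ) < B → ∀ j ≤ 1,
      Few S f (vg (wh v)) y ((farQ m c r₀ i wh sc a w).prod (fam m c i j wh sc w o))
        (fam m c i j wh sc v o) := by
    intro w v o b d e g j hj
    have d' : (w : ℝ) ≤ v := by exact_mod_cast d
    have e' : (v : ℝ) ≤ o := by exact_mod_cast e
    have b' : A < v := by linarith
    have g' : (v : ℝ) < B := by linarith
    refine jet_few h h0 hi hj b b b' (by linarith) d d le_rfl (lv := lv) hS.σ0 hS.lv0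
      (fun l l0 l1 j' hj' => hS.far b' g' l0 l1 hj') (fun l l0 l1 =>
        hS.c2 w v b d g' l l0 l1) (fun l l0 l1 l' l0' l1' =>
        hS.c2' w v b d g' l l0 l1 l' l0' l1') le_rfl ?_ (fun l l0 l1 => ?_)
    · rw [min_eq_left (h.mono' h0 hi b d g')]
      have e1 := hT.c3 w o b (d.trans e) g
      have e2 := nn v o b' e g j
      unfold natD
      linarith
    · rw [min_eq_left (h.mono' h0 hi b d g')]
      have e1 := hT.c3' w o b (d.trans e) g l l0 l1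
      have e2 := nn v o b' e g j
      unfold natD
      linarith
  have ownj : ∀ w v : ℚ, A < w → w ≤ v → (v : ℝ) < B → ∀ j ≤ 1,
      Few S f (vg (wh v)) y (farQ m c r₀ i wh sc a w) (fam m c i j wh sc w v) := by
    intro w v b d g j hj
    have d' : (w : ℝ) ≤ v := by exact_mod_cast d
    have b' : A < v := by linarith
    obtain ⟨C₀, htm⟩ := h.tm
    obtain ⟨w1, w2⟩ := h.wl v b' g
    have h1 := h.B1
    have k1 : Few S f (vg (wh v)) y (farQ m c r₀ i wh sc a w) (fam m c i j wh sc v v) :=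
      Few0.few h.pos (few0_jet htm w1 (by linarith) (by unfold natD; linarith) _ _ _)
    refine few_cut h.pos (exs_jet1 h h0 hi b' g _) k1 ?_
    refine jet_few h h0 hi hj b b' b g d le_rfl d (lv := lv) hS.σ0 hS.lv0
      (fun l l0 l1 j' hj' => hS.far b' g l0 l1 hj') (fun l l0 l1 =>
        hS.c2 w v b d g l l0 l1) (fun l l0 l1 l' l0' l1' =>
        hS.c2' w v b d g l l0 l1 l' l0' l1') le_rfl ?_ (fun l l0 l1 => ?_)
    · rw [min_eq_right (h.mono' h0 hi b d g)]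
      have e1 := hT.c3 w v b d g
      unfold natD
      linarith
    · rw [min_eq_right (h.mono' h0 hi b d g)]
      have e1 := hT.c3' w v b d g l l0 l1
      unfold natD
      linarith
  refine
    { exs₀ := fun w b d => exs_jets h h0 hi b d _
      exs := fun w o b d e g => exs_pr h h0 hi b (lt_of_le_of_lt (by exact_mod_cast d) e) _
      tr := fun w v b d e g => ?_
      row := fun w v o b d e g g' => ?_
      chg := fun w v o b d e g g' => ?_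
      own := fun w v b d e g => ?_ }
  · have d' : (w : ℝ) ≤ v := by exact_mod_cast d
    have b' : A < v := by linarith
    refine h.up b' le_rfl e (jets_few h h0 hi b' b e le_rfl d (lv := lv) hS.σ0 hS.lv0
      (fun l l0 l1 j' hj' => hS.far b' e l0 l1 hj') (fun l l0 l1 =>
        hS.c2 v v b' le_rfl e l l0 l1) (fun l l0 l1 l' l0' l1' =>
        hS.c2' v v b' le_rfl e l l0 l1 l' l0' l1') (fun l l0 l1 j' hj' => le_rfl)
      (fun l l0 l1 j' hj' => ?_) (fun l l0 l1 j' hj' l' l0' l1' => ?_))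
    · rw [min_eq_right (h.mono' l0 (by omega) b d e)]
      linarith [hS.le b' e j' l0 l1, hS.c4 w b (by linarith) l l0 l1]
    · rw [min_eq_right (h.mono' l0 (by omega) b d e)]
      linarith [hS.le b' e j' l0 l1, hS.c4' w b (by linarith) l l0 l1 l' l0' l1']
  · have d' : (w : ℝ) ≤ v := by exact_mod_cast d
    have e' : (v : ℝ) ≤ o := by exact_mod_cast e
    exact h.up b le_rfl (by linarith) (Few.pair h.pos
      (few_pr1 h.pos (rowj w v o b d e g 0 (by norm_num)))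
      (few_pr2 h.pos (rowj w v o b d e g 1 le_rfl)))
  · have d' : (w : ℝ) ≤ v := by exact_mod_cast d
    have e' : (v : ℝ) ≤ o := by exact_mod_cast e
    exact h.up (by linarith) le_rfl (by linarith) (Few.pair h.pos
      (few_pr1 h.pos (chgj w v o b d e g 0 (by norm_num)))
      (few_pr2 h.pos (chgj w v o b d e g 1 le_rfl)))
  · have d' : (w : ℝ) ≤ v := by exact_mod_cast d
    exact h.up (by linarith) le_rfl e (Few.pair h.pos (ownj w v b d e 0 (by norm_num))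
      (ownj w v b d e 1 le_rfl))

end

end Pool.AVG96
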