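import Pool.Agent.H96.AVG.Dcg
import Pool.Agent.H96.AVG.Gch
import Pool.Agent.H83.OWN.Nrc
import Pool.Agent.H68.OWN.Jr

/-!
# The near digits of the first rough coordinate given its velocity, charts at good windows

`near_velG`: `near_vel` (helper83) for the labels of the windows `wh w`. `rel_one`: the jets of the
place `r₀` are a relative family over any quantity `Q₀`. `VNum`, `vnum_cls`: the numbers.
`vel_ae`: the theorem at rational indices, from lower bounds for the position (`LowN`).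
-/

set_option autoImplicit false

namespace Pool.AVG96

open Finset Real MvPolynomial MeasureTheory Filter
open Pool.Agent.H49.Ent Pool.Agent.H32.Dense Pool.STK Pool.KA Pool.KSAT Pool.K2S Pool.PB Pool.S6C
  Pool.GEN Pool.RCD Pool.LA91
open Pool.OWN83

section near

variable {m : ℕ} {U₀ : Type} {α γ' : ∀ J : ℕ, Fam m J → Type}
  {f : ∀ (J : ℕ) (F : Fam m J), F.Ω → α J F} {y : ∀ (J : ℕ) (F : Fam m J), F.Ω → γ' J F}
  {S : PCl m}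

/-- The conclusion at the indices. -/
def VelI (S : PCl m) (f : ∀ (J : ℕ) (F : Fam m J), F.Ω → α J F)
    (y : ∀ (J : ℕ) (F : Fam m J), F.Ω → γ' J F) (Q₀ : Qt m U₀) (I : Finset (Fin m)) (k : Fin m)
    (sh : ℝ) (wh p : ℚ → ℝ) (g : ℝ) : Prop :=
  ∀ e : ℝ, 0 < e → ∃ ρ : ℝ, 0 < ρ ∧ ∀ r : ℝ, 0 < r → r < ρ →
    ∀ w j j' l : ℚ, g - r ≤ w → w ≤ j → j < j' → j' ≤ l → (l : ℝ) ≤ g + r →
    ∀ c₀ : ℝ, 0 < c₀ → ∃ κ : ℝ, 0 < κ ∧ ∃ e₀ : ℝ, 0 < e₀ ∧ ∀ K : ℕ, Bas S (fun J F A' =>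
    ∀ (V₁ V₂ : Type) (z : F.Ω → V₁) (zj : F.Ω → V₂), Mx f (vg ((w : ℝ) + sh)) κ F A' z →
    Mx f (vg ((j : ℝ) + sh)) κ F A' zj → ∀ u₀ a b d, Q₀.P K e₀ J F A' u₀ →
    (JG m I k wh p 0 w j).P K e₀ J F A' a → (JG m I k wh p 0 w j').P K e₀ J F A' b →
    (JG m I k wh p 1 w l).P K e₀ J F A' d →
    ∀ B' : F.Ω → Prop, Sub B' A' → c₀ * Pe F.p A' ≤ Pe F.p B' →
    ((p j' - p j) * Real.log 2 - e * r) * J ≤ CH (Pool.Agent.H49.Ent.cond F.p B' True) b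
        (fun ω => (a ω, (d ω, (zj ω, (z ω, (u₀ ω, y J F ω)))))))

open Set in
/-- **The near digits of one rough coordinate are full given its own velocity**, charts at good
windows. -/
theorem near_velG {I : Finset (Fin m)} {k : Fin m} {sh : ℝ} {wh : ℚ → ℝ} {p : ℚ → ℝ}
    {A B lam p₀ lam' : ℝ}
    (hL : LbsG S f y I k sh wh p A B p₀ lam') {Q₀ : Qt m U₀} {θX θD θJ : ℚ → ℚ → ℝ}
    (hF : FmsG S f y I k sh wh p Q₀ A B lam θX θD θJ) (hlam : 0 < lam) :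
    ∀ᵐ g : ℝ, g ∈ Ioo A B → ∀ P Sl : ℝ, 1 < Sl → SlP p g P Sl → WhP wh sh g →
      FulX p θX g → JetPG S f y Q₀ I k sh wh p g → VelI S f y Q₀ I k sh wh p g := by
  obtain ⟨θ₀D, nD⟩ := hF.nD
  obtain ⟨θ₀J, nJ⟩ := hF.nJ
  filter_upwards [dead_clsG hL hF hlam, near_rel hL.ne hL.pos hL.B1 hlam hL.rn hF.X hF.D nJ nD]
    with g g1 g2 hg P Sl hS hsl hwh hful hjet e he
  obtain ⟨r1, hr1, H1⟩ := g1 hg P Sl hS hsl hwh hful hjet (e / 2) (half_pos he)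
  obtain ⟨r2, hr2, H2⟩ := g2 hg (e / 2) (half_pos he)
  refine ⟨min r1 r2, lt_min hr1 hr2, fun r hr hrr w j j' l h1 h2 h3 h4 h5 c₀ hc₀ => ?_⟩
  obtain ⟨κ, hκ, e₀, he₀, H⟩ := H2 r hr (lt_of_lt_of_le hrr (min_le_right _ _)) w j j' l h1 h2 h3
    h4 h5 c₀ hc₀
  have h2' : (w : ℝ) ≤ j := by exact_mod_cast h2
  have h4' : (j' : ℝ) ≤ l := by exact_mod_cast h4
  have t := H1 r hr (lt_of_lt_of_le hrr (min_le_left _ _)) j j' (by linarith) h3.le (by linarith)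
  refine ⟨κ, hκ, e₀, he₀, fun K => Bas.mono 0 (H K) ?_⟩
  intro J _ F A' H V₁ V₂ z zj hz hzj u₀ a b d hu₀ ha hb hd B' hB' hBA
  obtain ⟨-, q2⟩ := H V₁ V₂ z zj hz hzj u₀ a b d hu₀ ha hb hd B' hB' hBA
  refine le_trans (mul_le_mul_of_nonneg_right ?_ (Nat.cast_nonneg J)) q2
  linarith

end near

section

variable {m : ℕ} {U₀ U U' V : Type} {α β γ : ∀ J : ℕ, Fam m J → Type}
  {f : ∀ (J : ℕ) (F : Fam m J), F.Ω → α J F} {g : ∀ (J : ℕ) (F : Fam m J), F.Ω → β J F}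
  {y : ∀ (J : ℕ) (F : Fam m J), F.Ω → γ J F}
  {S : PCl m} {c : ℕ → Fin m} {r₀ r : ℕ} {s A B Λ : ℝ} {wh : ℚ → ℝ} {sc : ℚ → ℕ → ℝ}
  {PA : ℚ → Prop}

/-! ### Lower bounds -/

/-- **A lower bound** for the number of `Q`, given the record, `Q₀` and `y`. -/
def LowN (S : PCl m) (f : ∀ (J : ℕ) (F : Fam m J), F.Ω → α J F)
    (g : ∀ (J : ℕ) (F : Fam m J), F.Ω → β J F) (y : ∀ (J : ℕ) (F : Fam m J), F.Ω → γ J F)
    (Q₀ : Qt m U₀) (Q : Qt m U) (θ : ℝ) : Prop :=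
  ∀ h : ℝ, 0 < h → ∃ k : ℝ, 0 < k ∧ ∃ e₀ : ℝ, 0 < e₀ ∧ ∀ K : ℕ, Bas S (fun J F A =>
    ∀ (V : Type) (z : F.Ω → V), Mx f g k F A z → ∀ u₀ u, Q₀.P K e₀ J F A u₀ →
      Q.P K e₀ J F A u → (θ - h) * J ≤ CH (Pool.Agent.H49.Ent.cond F.p A True) u
        (fun ω => (z ω, (u₀ ω, y J F ω))))

theorem LowN.sub {S' : PCl m} (hs : ∀ (τ : ℝ) (J : ℕ) (F : Fam m J) (A : F.Ω → Prop),
    S'.St τ J F A → S.St τ J F A) {Q₀ : Qt m U₀} {Q : Qt m U} {θ : ℝ}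
    (h : LowN S f g y Q₀ Q θ) : LowN S' f g y Q₀ Q θ := by
  intro x hx
  obtain ⟨k, hk, e, he, H⟩ := h x hx
  exact ⟨k, hk, e, he, fun K => (H K).sub hs⟩

theorem LowN.le {Q₀ : Qt m U₀} {Q : Qt m U} {θ θ' : ℝ} (h : LowN S f g y Q₀ Q θ) (hθ : θ' ≤ θ) :
    LowN S f g y Q₀ Q θ' := by
  intro x hx
  obtain ⟨k, hk, e, he, H⟩ := h x hx
  refine ⟨k, hk, e, he, fun K => Bas.mono 0 (H K) ?_⟩
  intro J _ F A H V z hz u₀ u hu₀ hu
  exact (mul_le_mul_of_nonneg_right (by linarith) (Nat.cast_nonneg J)).trans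
    (H V z hz u₀ u hu₀ hu)

/-- The lower bound is at most the number. -/
theorem LowN.le_rn (hS : S.Ne)
    (hpos : ∀ (τ : ℝ) (J : ℕ) (F : Fam m J) (A : F.Ω → Prop), S.St τ J F A → 0 < Pe F.p A)
    {Q₀ : Qt m U₀} {Q : Qt m U} {η θ θ' : ℝ} (hη : RNum S f g η) (x₀ : Exs S Q₀) (x : Exs S Q)
    (h : LowN S f g y Q₀ Q θ) (N : RN S f g y Q₀ Q θ') : θ ≤ θ' := by
  by_contra hcon
  rw [not_le] at hcon
  obtain ⟨h', hh'⟩ : ∃ h' : ℝ, h' = (θ - θ') / 3 := ⟨_, rfl⟩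
  have hh0 : 0 < h' := by rw [hh']; linarith
  obtain ⟨k1, hk1, e1, he1, H1⟩ := h h' hh0
  obtain ⟨k2, hk2, e2, he2, H2⟩ := N h' hh0
  obtain ⟨K1, M1, hx1⟩ := x₀ (min e1 e2) (lt_min he1 he2)
  obtain ⟨K2, M2, hx2⟩ := x (min e1 e2) (lt_min he1 he2)
  obtain ⟨J, hJ, F, A, ⟨⟨⟨H1, H2⟩, ⟨u₀, hu₀, -⟩, u, hu, -⟩, V, z, hz⟩⟩ := bas_ex hS
    ((((H1 (max K1 K2)).and (H2 (max K1 K2))).and (hx1.and hx2)).and
      (mx_ex hpos hη (min k1 k2) (lt_min hk1 hk2))) 1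
  have hJ0 : (1 : ℝ) ≤ J := by exact_mod_cast hJ
  have a1 := H1 V z (hz.le' (min_le_left _ _)) u₀ u
    (Q₀.mono (le_max_left _ _) (min_le_left _ _) hu₀)
    (Q.mono (le_max_right _ _) (min_le_left _ _) hu)
  have a2 := (abs_le.1 (H2 V z (hz.le' (min_le_right _ _)) u₀ u
    (Q₀.mono (le_max_left _ _) (min_le_right _ _) hu₀)
    (Q.mono (le_max_right _ _) (min_le_right _ _) hu))).2
  have a3 : (θ - h' - θ' - h') * J ≤ 0 := by linarith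
  have a4 : 0 < (θ - h' - θ' - h') * J := by
    refine mul_pos ?_ (by linarith)
    rw [hh']
    linarith
  linarith

/-! ### The families of the place `r₀` -/

/-- The jets of no coordinate. -/
theorem few_emp
    (hpos : ∀ (τ : ℝ) (J : ℕ) (F : Fam m J) (A : F.Ω → Prop), S.St τ J F A → 0 < Pe F.p A)
    {j : ℕ} {w p N : ℕ → ℕ → ℝ} {Q : Qt m V} {Q' : Qt m U'}
    (h : Few S f g y ((qJets m c r₀ r₀ j w p N).prod Q) Q') : Few S f g y Q Q' :=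
  few_lmap (Qa := (qJets m c r₀ r₀ j w p N).prod Q) hpos (fun u => (fun _ _ => 0, u))
    (fun K e J F A u hu => ⟨⟨fun i a b => absurd b (by omega), fun _ _ _ _ _ => rfl⟩, hu⟩) h

/-- **Few bits for one jet** over the base, at the window of the charts of `v`. -/
theorem jet_one (h : NCh S f y c r₀ r s A B Λ wh sc) (hr : r₀ ≤ r) {j : ℕ} (hj : j ≤ 1)
    {w w' v : ℚ} (hw : A < w) (hw' : A < w') (hvB : (v : ℝ) < B) (hwv : w ≤ v) (hwv' : w' ≤ v)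
    {N₁ N₂ σ₀ : ℝ} (hσ : 0 < σ₀) (hN : N₂ ≤ N₁)
    (h3 : N₂ + (j : ℝ) * wh v + σ₀ ≤ min (sc w r₀) (sc w' r₀) + Λ) :
    Few S f (vg (wh v)) y (qJet m ((range r₀).image c) (c r₀) j (wh w) (sc w r₀) N₁)
      (qJet m ((range r₀).image c) (c r₀) j (wh w') (sc w' r₀) N₂) :=
  few_emp h.pos (jet_few h le_rfl hr hj (w₀ := w) hw hw hw' hvB hwv hwv hwv' (N := fun _ _ => 0)
    (lv := fun _ => 1) hσ (fun _ _ _ => one_pos) (fun l a b => absurd b (by omega))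
    (fun l a b => absurd b (by omega)) (fun l a b => absurd b (by omega)) hN h3
    (fun l a b => absurd b (by omega)))

/-- The numbers of the place `r₀` on an interval. -/
def OneOk (sc : ℚ → ℕ → ℝ) (r₀ : ℕ) (Λ : ℝ) (A' B' : ℝ) : Prop :=
  ∃ σ₀ : ℝ, 0 < σ₀ ∧ ∀ w o : ℚ, A' < w → w ≤ o → (o : ℝ) < B' → sc o r₀ + σ₀ ≤ sc w r₀ + Λ

/-- **The jets of the place `r₀`** are a relative family over any quantity. -/
theorem rel_one (h : NCh S f y c r₀ r s A B Λ wh sc) (hr : r₀ ≤ r) (hT : OneOk sc r₀ Λ A B)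
    {Q₀ : Qt m U₀} (hQ : Exs S Q₀)
    (hQt : ∀ v : ℚ, A < v → (v : ℝ) < B → Few S f (vg ((v : ℝ) + s)) y Q₀ Q₀) {j : ℕ}
    (hj : j ≤ 1) :
    TwoRelS S f y s (fun _ => Q₀) (fam m c r₀ j wh sc) A B (B - A) := by
  obtain ⟨σ₀, hσ, hT⟩ := hT
  have nn : ∀ (v o : ℚ), A < v → v ≤ o → (o : ℝ) < B → 0 ≤ (j : ℝ) * (wh o - wh v) :=
    fun v o a b d => mul_nonneg (Nat.cast_nonneg _) (by linarith [h.wm v o a b d])
  have n1 : ∀ (v o : ℚ), A < v → v ≤ o → (o : ℝ) < B →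
      (j : ℝ) * (wh o - wh v) ≤ 1 * (wh o - wh v) := fun v o a b d =>
    mul_le_mul_of_nonneg_right (by exact_mod_cast hj) (by linarith [h.wm v o a b d])
  refine
    { exs₀ := fun w b d => hQ
      exs := fun w o b d e g => exs_jet1 h le_rfl hr b (lt_of_le_of_lt (by exact_mod_cast d) e) _
      tr := fun w v b d e g => hQt v (lt_of_lt_of_le b (by exact_mod_cast d)) e
      row := fun w v o b d e g g' => ?_
      chg := fun w v o b d e g g' => ?_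
      own := fun w v b d e g => ?_ }
  · have d' : (w : ℝ) ≤ v := by exact_mod_cast d
    have e' : (v : ℝ) ≤ o := by exact_mod_cast e
    refine h.up b le_rfl (by linarith) (few_lmap h.pos Prod.snd
      (fun K e J F A u hu => hu.2) (jet_one h hr hj b b (by linarith) le_rfl le_rfl hσ ?_ ?_))
    · have e1 := h.mono r₀ le_rfl hr v o (by linarith) e g
      have e2 := n1 v o (by linarith) e g
      unfold natD
      linarith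
    · rw [min_self]
      have e1 := hT w v b d (by linarith)
      have e2 := nn w v b d (by linarith)
      unfold natD
      linarith
  · have d' : (w : ℝ) ≤ v := by exact_mod_cast d
    have e' : (v : ℝ) ≤ o := by exact_mod_cast e
    refine h.up (by linarith) le_rfl (by linarith) (few_lmap h.pos Prod.snd
      (fun K e J F A u hu => hu.2) (jet_one h hr hj b (by linarith) (by linarith) d le_rfl hσ
        le_rfl ?_))
    rw [min_eq_left (h.mono' le_rfl hr b d (by linarith))]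
    have e1 := hT w o b (d.trans e) g
    have e2 := nn v o (by linarith) e g
    unfold natD
    linarith
  · have d' : (w : ℝ) ≤ v := by exact_mod_cast d
    have b' : A < v := by linarith
    obtain ⟨C₀, htm⟩ := h.tm
    obtain ⟨w1, w2⟩ := h.wl v b' e
    have h1 := h.B1
    have k1 : Few S f (vg (wh v)) y Q₀ (fam m c r₀ j wh sc v v) :=
      Few0.few h.pos (few0_jet htm w1 (by linarith) (by unfold natD; linarith) _ _ _)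
    refine h.up b' le_rfl e (few_cut h.pos (exs_jet1 h le_rfl hr b' e _) k1 ?_)
    refine few_lmap h.pos Prod.snd (fun K e J F A u hu => hu.2)
      (jet_one h hr hj b' b e le_rfl d hσ le_rfl ?_)
    rw [min_eq_right (h.mono' le_rfl hr b d e)]
    have e1 := hT w v b d e
    unfold natD
    linarith

/-- **The numbers** of the place `r₀`, at the rational intervals with the left ends `PA`. -/
def VNum (S : PCl m) (f : ∀ (J : ℕ) (F : Fam m J), F.Ω → α J F)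
    (y : ∀ (J : ℕ) (F : Fam m J), F.Ω → γ J F) (c : ℕ → Fin m) (r₀ : ℕ) (s : ℝ)
    (PA : ℚ → Prop) (B Λ : ℝ) (wh : ℚ → ℝ) (sc : ℚ → ℕ → ℝ) (Q₀ : Qt m U₀) : Prop :=
  ∀ A' B' : ℚ, PA A' → A' < B' → (B' : ℝ) ≤ B → OneOk sc r₀ Λ A' B' →
    (∃ (θ₀ : ℚ → ℝ) (θ : ℚ → ℚ → ℝ),
      TRelS S f y s (fun _ => Q₀) (fam m c r₀ 0 wh sc) A' B' ((B' : ℝ) - A') θ₀ θ) ∧
    (∃ (θ₀ : ℚ → ℝ) (θ : ℚ → ℚ → ℝ),
      TRelS S f y s (fun _ => Q₀) (fam m c r₀ 1 wh sc) A' B' ((B' : ℝ) - A') θ₀ θ) ∧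
    (∃ (θ₀ : ℚ → ℝ) (θ : ℚ → ℚ → ℝ),
      TRelS S f y s (fun _ => Q₀) (fun w o => (fam m c r₀ 0 wh sc w o).prod
        (fam m c r₀ 1 wh sc w o)) A' B' ((B' : ℝ) - A') θ₀ θ)

theorem VNum.sub {S' : PCl m} (hs : ∀ (τ : ℝ) (J : ℕ) (F : Fam m J) (A : F.Ω → Prop),
    S'.St τ J F A → S.St τ J F A) {Q₀ : Qt m U₀} (h : VNum S f y c r₀ s PA B Λ wh sc Q₀) :
    VNum S' f y c r₀ s PA B Λ wh sc Q₀ := by
  intro A' B' h1 h2 h3 h4
  obtain ⟨⟨a1, a2, a3⟩, ⟨b1, b2, b3⟩, ⟨c1, c2, c3⟩⟩ := h A' B' h1 h2 h3 h4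
  exact ⟨⟨a1, a2, a3.sub hs⟩, ⟨b1, b2, b3.sub hs⟩, ⟨c1, c2, c3.sub hs⟩⟩

/-- **One subclass with all numbers.** -/
theorem vnum_cls (hne : S.Ne)
    (hpos : ∀ (τ : ℝ) (J : ℕ) (F : Fam m J) (A : F.Ω → Prop), S.St τ J F A → 0 < Pe F.p A)
    (h : ∀ A' : ℚ, PA A' → NCh S f y c r₀ r s A' B Λ wh sc) (hr : r₀ ≤ r) {Q₀ : Qt m U₀}
    (hQ : Exs S Q₀) (hQt : ∀ A' : ℚ, PA A' → ∀ v : ℚ, (A' : ℝ) < v → (v : ℝ) < B →
      Few S f (vg ((v : ℝ) + s)) y Q₀ Q₀) :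
    ∃ S' : PCl m, S'.Ne ∧
      (∀ (τ : ℝ) (J : ℕ) (F : Fam m J) (A : F.Ω → Prop), S'.St τ J F A → S.St τ J F A) ∧
      VNum S' f y c r₀ s PA B Λ wh sc Q₀ := by
  classical
  have key : ∀ (U : Type) (Q : ℚ → ℚ → Qt m U) (S : PCl m), S.Ne →
      (∀ (τ : ℝ) (J : ℕ) (F : Fam m J) (A : F.Ω → Prop), S.St τ J F A → 0 < Pe F.p A) →
      (∀ A' B' : ℚ, PA A' → A' < B' → (B' : ℝ) ≤ B → OneOk sc r₀ Λ A' B' →
        TwoRelS S f y s (fun _ => Q₀) Q A' B' ((B' : ℝ) - A')) →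
      ∃ S' : PCl m, S'.Ne ∧
        (∀ (τ : ℝ) (J : ℕ) (F : Fam m J) (A : F.Ω → Prop), S'.St τ J F A → S.St τ J F A) ∧
        ∀ A' B' : ℚ, PA A' → A' < B' → (B' : ℝ) ≤ B → OneOk sc r₀ Λ A' B' →
          ∃ (θ₀ : ℚ → ℝ) (θ : ℚ → ℚ → ℝ),
            TRelS S' f y s (fun _ => Q₀) Q A' B' ((B' : ℝ) - A') θ₀ θ := by
    intro U Q S hne hpos hT
    obtain ⟨S', h1, h2, h3⟩ := rel_clsS (ι := {x : ℚ × ℚ // PA x.1 ∧ x.1 < x.2 ∧
        (x.2 : ℝ) ≤ B ∧ OneOk sc r₀ Λ x.1 x.2}) hne hpos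
      (fun _ => U₀) (fun _ => U) (fun _ => α) (fun _ => γ) (fun _ => f) (fun _ => y)
      (fun _ => s) (fun _ _ => Q₀) (fun _ => Q) (fun x => (x.1.1 : ℝ)) (fun x => (x.1.2 : ℝ))
      (fun x => (x.1.2 : ℝ) - x.1.1)
      (fun x => hT _ _ x.2.1 x.2.2.1 x.2.2.2.1 x.2.2.2.2)
      (fun x => by
        have a3' : ((x.1.1 : ℚ) : ℝ) < x.1.2 := by exact_mod_cast x.2.2.1
        show (0 : ℝ) < ((x.1.2 : ℚ) : ℝ) - x.1.1
        linarith)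
    exact ⟨S', h1, h2, fun A' B' a2 a3 a4 a5 => h3 ⟨(A', B'), a2, a3, a4, a5⟩⟩
  have hQt' : ∀ A' B' : ℚ, PA A' → (B' : ℝ) ≤ B → ∀ v : ℚ, (A' : ℝ) < v → (v : ℝ) < B' →
      Few S f (vg ((v : ℝ) + s)) y Q₀ Q₀ := fun A' B' a b v d e => hQt A' a v d (by linarith)
  obtain ⟨S₁, a1, a2, a3⟩ := key ℤ (fam m c r₀ 0 wh sc) S hne hpos
    (fun A' B' b1 b2 b3 b4 => rel_one ((h A' b1).cut le_rfl b3) hr b4 hQ (hQt' A' B' b1 b3)
      (by norm_num))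
  have hpos₁ : ∀ (τ : ℝ) (J : ℕ) (F : Fam m J) (A : F.Ω → Prop), S₁.St τ J F A → 0 < Pe F.p A :=
    fun τ J F A h => hpos τ J F A (a2 τ J F A h)
  obtain ⟨S₂, c1, c2, c3⟩ := key ℤ (fam m c r₀ 1 wh sc) S₁ a1 hpos₁
    (fun A' B' b1 b2 b3 b4 => (rel_one ((h A' b1).cut le_rfl b3) hr b4 hQ (hQt' A' B' b1 b3)
      le_rfl).sub a2)
  have hpos₂ : ∀ (τ : ℝ) (J : ℕ) (F : Fam m J) (A : F.Ω → Prop), S₂.St τ J F A → 0 < Pe F.p A :=
    fun τ J F A h => hpos₁ τ J F A (c2 τ J F A h)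
  obtain ⟨S₃, d1, d2, d3⟩ := key (ℤ × ℤ) (fun w o => (fam m c r₀ 0 wh sc w o).prod
    (fam m c r₀ 1 wh sc w o)) S₂ c1 hpos₂
    (fun A' B' b1 b2 b3 b4 => (((rel_one ((h A' b1).cut le_rfl b3) hr b4 hQ (hQt' A' B' b1 b3)
      (by norm_num)).sub a2).sub c2).prod hpos₂ (((rel_one ((h A' b1).cut le_rfl b3) hr b4 hQ
        (hQt' A' B' b1 b3) le_rfl).sub a2).sub c2))
  refine ⟨S₃, d1, fun τ J F A h => a2 τ J F A (c2 τ J F A (d2 τ J F A h)),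
    fun A' B' b1 b2 b3 b4 => ⟨?_, ?_, d3 A' B' b1 b2 b3 b4⟩⟩
  · obtain ⟨θ₀, θ, hθ⟩ := a3 A' B' b1 b2 b3 b4
    exact ⟨θ₀, θ, (hθ.sub c2).sub d2⟩
  · obtain ⟨θ₀, θ, hθ⟩ := c3 A' B' b1 b2 b3 b4
    exact ⟨θ₀, θ, hθ.sub d2⟩

end

end Pool.AVG96
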