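import Pool.Agent.H96.AVG.Scg
import Pool.Agent.H83.OWN.Dcl

/-!
# One rough coordinate, charts at good windows: a defect is impossible in the box of a point

`JG`: the own jets of the coordinate `k` to the natural digits, over the labels of the window
`wh w`; `w` is a rational index, the records are taken at `w + sh`, and `wh w ≤ w + sh`.
`dead_boxG`: `dead_box` (helper83) in this form.
-/

set_option autoImplicit false

namespace Pool.AVG96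

open Finset Real MvPolynomial
open Pool.Agent.H49.Ent Pool.Agent.H32.Dense Pool.STK Pool.KA Pool.KSAT Pool.K2S Pool.PB Pool.GEN
open Pool.S6C Pool.RCD Pool.LA91
open Pool.OWN68 (F1)
open Pool.GRD (LbP)
open Pool.SAT43 (Nest Add Inp DIn)
open Pool.OWN83

/-- **The own jets** of order `j` over the labels of the window `wh w`, to the natural digits of the
window `wh o`. -/
noncomputable def JG (m : ℕ) (I : Finset (Fin m)) (k : Fin m) (wh : ℚ → ℝ) (p : ℚ → ℝ) (j : ℕ)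
    (w o : ℚ) : Qt m ℤ := qJet m I k j (wh w) (p w) (p o - (j : ℝ) * wh o)

/-- The line with the larger window. -/
def crs {m J : ℕ} (F : Fam m J) (w W : ℕ) (s : LnT F) : LnT F :=
  (s.1, (s.2.1, s.2.2 / 2 ^ (W - w)))

theorem slam_crs {m J : ℕ} {F : Fam m J} {w W : ℕ} (hw : w ≤ W) (hJ : W ≤ J) (ω : F.Ω) :
    slam F w ω = crs F w W (slam F W ω) := by
  refine Prod.ext rfl (Prod.ext rfl ?_)
  show F.T1 w ω = F.T1 W ω / 2 ^ (W - w)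
  unfold Fam.T1
  rw [Nat.div_div_eq_div_mul, ← pow_add]
  congr 2
  omega

variable {m : ℕ} {S : PCl m} {U₀ : Type} {α γ' : ∀ J : ℕ, Fam m J → Type}
  {f : ∀ (J : ℕ) (F : Fam m J), F.Ω → α J F} {y : ∀ (J : ℕ) (F : Fam m J), F.Ω → γ' J F}

/-- The three families of one coordinate, relative to `Q₀`. -/
structure FmsG (S : PCl m) (f : ∀ (J : ℕ) (F : Fam m J), F.Ω → α J F)
    (y : ∀ (J : ℕ) (F : Fam m J), F.Ω → γ' J F) (I : Finset (Fin m)) (k : Fin m) (sh : ℝ)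
    (wh : ℚ → ℝ) (p : ℚ → ℝ) (Q₀ : Qt m U₀) (A B lam : ℝ) (θX θD θJ : ℚ → ℚ → ℝ) : Prop where
  X : TwoRelS S f y sh (fun _ => Q₀) (JG m I k wh p 0) A B lam
  D : TwoRelS S f y sh (fun _ => Q₀) (JG m I k wh p 1) A B lam
  nX : ∃ θ₀, TRelS S f y sh (fun _ => Q₀) (JG m I k wh p 0) A B lam θ₀ θX
  nD : ∃ θ₀, TRelS S f y sh (fun _ => Q₀) (JG m I k wh p 1) A B lam θ₀ θD
  nJ : ∃ θ₀, TRelS S f y sh (fun _ => Q₀)
    (fun w o => (JG m I k wh p 0 w o).prod (JG m I k wh p 1 w o)) A B lam θ₀ θJ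

/-- The class and the labels. -/
structure LbsG (S : PCl m) (f : ∀ (J : ℕ) (F : Fam m J), F.Ω → α J F)
    (y : ∀ (J : ℕ) (F : Fam m J), F.Ω → γ' J F) (I : Finset (Fin m)) (k : Fin m) (sh : ℝ)
    (wh : ℚ → ℝ) (p : ℚ → ℝ) (A B p₀ lam' : ℝ) : Prop where
  ne : S.Ne
  pos : ∀ (τ : ℝ) (J : ℕ) (F : Fam m J) (A : F.Ω → Prop), S.St τ J F A → 0 < Pe F.p A
  tm : ∃ C₀, TmC S C₀
  rn : ∀ w : ℚ, A < w → (w : ℝ) < B → ∃ η, RNum S f (vg ((w : ℝ) + sh)) η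
  p0 : ∀ w : ℚ, A < w → (w : ℝ) < B → 0 ≤ p w
  att : ∀ w : ℚ, A < w → (w : ℝ) < B → ∃ r, 0 ≤ r ∧ Att S I k (wh w) (p w) r
  wl : ∀ w : ℚ, A < w → (w : ℝ) < B → wh w ≤ w + sh
  pt : ∀ (J : ℕ) (F : Fam m J), ∃ φ : α J F → PtT F, ∀ ω, ptr F J ω = φ (f J F ω)
  kn : Kn I p₀ lam' y
  yk : ∀ (J : ℕ) (F : Fam m J), ∃ ψ : ℕ × (Fin m → ℤ) × (Fin m → ℤ) → γ' J F, ∀ ω,
    y J F ω = ψ (F.T ω, (fun i => if i ∈ I then F.X ⌊p₀ * J⌋₊ ω i else 0),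
      (fun i => if i ∈ I then F.D ⌊lam' * J⌋₊ ω i else 0))
  A0 : 0 ≤ A + sh
  B1 : B + sh ≤ 1
  pl : p₀ ≤ A + sh + lam'

set_option maxHeartbeats 8000000 in
/-- **A defect is impossible in the box of a point.** -/
theorem dead_boxG {I : Finset (Fin m)} {k : Fin m} {sh : ℝ} {wh : ℚ → ℝ} {p : ℚ → ℝ} {A B lam p₀ lam' : ℝ}
    (hL : LbsG S f y I k sh wh p A B p₀ lam') {Q₀ : Qt m U₀} {θX θD θJ : ℚ → ℚ → ℝ}
    (hF : FmsG S f y I k sh wh p Q₀ A B lam θX θD θJ) {γ P Sl r ε : ℝ} {n : ℕ} {w : ℚ}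
    {v kk : ℕ → ℚ} {L κ δ : ℝ} (h : BoxP p γ P Sl r ε n w v kk L κ δ) (hS : 1 < Sl)
    (hr : 0 < r) (hε : 0 < ε) (hn : 1 ≤ n) (hε1 : ε + δ ≤ 1 / 4)
    (hε2 : 2 * ((Sl + 2) * (ε * r)) ≤ Sl * (κ * L)) (hεn : ε * r * n ≤ κ * L)
    (hεL : ε * r ≤ L) (hA : A < γ) (hBr : γ + r < B) (hrl : r < lam)
    (hwh : ∀ x : ℚ, γ - r ≤ x → (x : ℝ) ≤ γ + r → wh x ≤ x + sh ∧
      (x : ℝ) + sh - ε * r / 2 ≤ wh x)
    {fX fD fJ τ ρ η c₀ Pm : ℝ}
    (rX : ∀ w o : ℚ, γ - r ≤ w → w ≤ o → (o : ℝ) ≤ γ + r → |θX w o - fX * (o - w)| ≤ ε * r)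
    (rD : ∀ w o : ℚ, γ - r ≤ w → w ≤ o → (o : ℝ) ≤ γ + r → |θD w o - fD * (o - w)| ≤ ε * r)
    (rJ : ∀ w o : ℚ, γ - r ≤ w → w ≤ o → (o : ℝ) ≤ γ + r → |θJ w o - fJ * (o - w)| ≤ ε * r)
    (hfX : Sl * Real.log 2 ≤ fX) (hfD : 0 ≤ fD) (hτ0 : 0 ≤ 1 - τ) (hτ1 : 1 - τ ≤ 1)
    (hfJ : fJ - fD ≤ (1 - τ) * (Sl * Real.log 2)) (hρ : ρ = 2 * (Sl - 1) / Sl) (hη : 0 < η)
    (hno : NoD τ ρ η) (hηn : 1 ≤ η * n) (hc₀ : 0 < c₀) (hc1 : c₀ ≤ 1)
    (hc2 : ((n : ℝ) + 1) * c₀ ≤ η) (hPm : p (v n) < Pm)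
    (hjet : JetR S f (vg ((w : ℝ) + sh)) y Q₀ I k (wh w) (p w) Pm (c₀ * (ε * r) / 3))
    (herr : (22 * Sl + 6 + 3 * eK Sl fD) * (ε * r) ≤ η * (Sl * (κ * L)) / 4) : False := by
  classical
  obtain ⟨C₀, htm⟩ := hL.tm
  have hpos := hL.pos
  obtain ⟨hκ0, hL0, hs, hs4, hκ2⟩ := h.sz hS hr
  obtain ⟨hbw, hbv, hbk⟩ := h.bx hS hr hε hε1
  obtain ⟨ow, on, onk, okk⟩ := h.ord hS hr hε hn hεn hεL
  have her : 0 < ε * r := mul_pos hε hr
  have hS0 : 0 < Sl := by linarith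
  -- the windows
  obtain ⟨x, hx⟩ : ∃ x : Ix n → ℚ, x = xx w v kk := ⟨_, rfl⟩
  have xv : ∀ j, j ≤ n → x (iv n j) = v j := fun j hj => by rw [hx]; exact xx_iv w v kk hj
  have xk : ∀ j, j ≤ n → x (ik n j) = kk j := fun j hj => by rw [hx]; exact xx_ik w v kk hj
  have xw : x none = w := by rw [hx]; rfl
  have xb : ∀ i, γ ≤ x i ∧ (x i : ℝ) ≤ γ + r := by
    rintro (_ | ⟨b, j⟩)
    · rw [xw]
      exact hbw
    · rw [hx]
      cases b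
      · exact hbv j (by omega)
      · exact hbk j (by omega)
  have xA : ∀ i, A < x i := fun i => lt_of_lt_of_le hA (xb i).1
  have xB : ∀ i, (x i : ℝ) < B := fun i => lt_of_le_of_lt (xb i).2 hBr
  have xl : ∀ i j, (x j : ℝ) < x i + lam := fun i j => by
    linarith [(xb i).1, (xb j).2]
  have hadd : ∀ {θ : ℚ → ℚ → ℝ} {fθ : ℝ}, (∀ w o : ℚ, γ - r ≤ w → w ≤ o → (o : ℝ) ≤ γ + r →
      |θ w o - fθ * (o - w)| ≤ ε * r) → ∀ i j k, x i ≤ x j → x j ≤ x k →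
      |θ (x i) (x k) - θ (x i) (x j) - θ (x j) (x k)| ≤ 3 * (ε * r) := by
    intro θ fθ hθ i j k hij hjk
    have b1 := abs_le.1 (hθ (x i) (x k) (by linarith [(xb i).1]) (hij.trans hjk) (xb k).2)
    have b2 := abs_le.1 (hθ (x i) (x j) (by linarith [(xb i).1]) hij (xb j).2)
    have b3 := abs_le.1 (hθ (x j) (x k) (by linarith [(xb j).1]) hjk (xb k).2)
    rw [abs_le]
    constructor <;> linarith [b1.1, b1.2, b2.1, b2.2, b3.1, b3.2]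
  have hwA : A < w := by
    have := xA none
    rwa [xw] at this
  have hwB : (w : ℝ) < B := by
    have := xB none
    rwa [xw] at this
  have hw0 : 0 ≤ (w : ℝ) + sh := by linarith [hL.A0]
  -- the families
  obtain ⟨θ₀X, nX⟩ := hF.nX
  obtain ⟨θ₀D, nD⟩ := hF.nD
  obtain ⟨θ₀J, nJ⟩ := hF.nJ
  have hη' : ∀ i, ∃ η, RNum S f (vg ((x i : ℝ) + sh)) η := fun i => hL.rn _ (xA i) (xB i)
  obtain ⟨k1, hk1, e1, he1, HX⟩ := add_relS hpos hF.X nX hL.B1 x xA xB xl hη'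
    (by positivity) (hadd rX) hc₀ her
  obtain ⟨k2, hk2, e2, he2, HD⟩ := add_relS hpos hF.D nD hL.B1 x xA xB xl hη'
    (by positivity) (hadd rD) hc₀ her
  obtain ⟨k3, hk3, e3, he3, HJ⟩ := add_relS hpos (hF.X.prod hpos hF.D) nJ hL.B1 x xA xB xl
    hη' (by positivity) (hadd rJ) hc₀ her
  obtain ⟨e4, he4, HH⟩ := jets_cls hpos (by positivity) hjet
  obtain ⟨e, he, l1, l2, l3, l4⟩ : ∃ e : ℝ, 0 < e ∧ e ≤ e1 ∧ e ≤ e2 ∧ e ≤ e3 ∧ e ≤ e4 :=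
    ⟨min e1 (min e2 (min e3 e4)), by positivity, min_le_left _ _,
      (min_le_right _ _).trans (min_le_left _ _),
      (min_le_right _ _).trans ((min_le_right _ _).trans (min_le_left _ _)),
      (min_le_right _ _).trans ((min_le_right _ _).trans (min_le_right _ _))⟩
  -- the label
  obtain ⟨rr, hrr, hatt⟩ := hL.att w hwA hwB
  obtain ⟨K, hK1, HT⟩ := lab_cls hrr he hatt
  obtain ⟨k4, hk4, HH⟩ := HH (K + 1)
  obtain ⟨T, hT⟩ : ∃ T : Finset (ℕ × ℝ), T =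
      (univ : Finset (Ix n)).image (fun i => ((0 : ℕ), p (x i) - ((0 : ℕ) : ℝ) * wh (x i))) ∪
      ((univ : Finset (Ix n)).image (fun i => ((1 : ℕ), p (x i) - ((1 : ℕ) : ℝ) * wh (x i))) ∪
      (range (K + 2)).image (fun j => (j, Pm - (j : ℝ) * wh w))) := ⟨_, rfl⟩
  obtain ⟨M₁, HL⟩ := HT T
  obtain ⟨K₂, HE0⟩ := exs_fin (ι := Ix n × Ix n) (Q := fun q => JG m I k wh p 0 (x q.1) (x q.2))
    (P := fun q => x q.1 ≤ x q.2) hpos
    (fun q hq => hF.X.exs _ _ (xA q.1) hq (xB q.2) (xl q.1 q.2)) he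
  obtain ⟨K₃, HE1⟩ := exs_fin (ι := Ix n × Ix n) (Q := fun q => JG m I k wh p 1 (x q.1) (x q.2))
    (P := fun q => x q.1 ≤ x q.2) hpos
    (fun q hq => hF.D.exs _ _ (xA q.1) hq (xB q.2) (xl q.1 q.2)) he
  obtain ⟨K₄, M₄, HE2⟩ := hF.X.exs₀ w hwA hwB e he
  obtain ⟨M, m1, m2, m3, m4⟩ : ∃ M : ℕ, M₁ ≤ M ∧ K₂ ≤ M ∧ K₃ ≤ M ∧ K₄ ≤ M :=
    ⟨max M₁ (max K₂ (max K₃ K₄)), le_max_left _ _, (le_max_left _ _).trans (le_max_right _ _),
      (le_max_left _ _).trans ((le_max_right _ _).trans (le_max_right _ _)),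
      (le_max_right _ _).trans ((le_max_right _ _).trans (le_max_right _ _))⟩
  obtain ⟨ki, hki, n1, n2, n3, n4, n5⟩ : ∃ ki : ℝ, 0 < ki ∧ ki ≤ k1 ∧ ki ≤ k2 ∧ ki ≤ k3 ∧
      ki ≤ k4 ∧ ki ≤ c₀ * (ε * r) :=
    ⟨min k1 (min k2 (min k3 (min k4 (c₀ * (ε * r))))), by positivity, min_le_left _ _,
      (min_le_right _ _).trans (min_le_left _ _),
      (min_le_right _ _).trans ((min_le_right _ _).trans (min_le_left _ _)),
      (min_le_right _ _).trans ((min_le_right _ _).trans ((min_le_right _ _).trans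
        (min_le_left _ _))),
      (min_le_right _ _).trans ((min_le_right _ _).trans ((min_le_right _ _).trans
        (min_le_right _ _)))⟩
  -- the scales
  obtain ⟨c, hc⟩ : ∃ c : ℝ, c = Sl * (κ * L) := ⟨_, rfl⟩
  have hc0 : 0 < c := by rw [hc]; positivity
  have hcr : c ≤ r / 8 := by
    have h1 : Sl * (κ * L) * (8 * (1 + κ)) = r := by
      have h2 : L * (4 * Sl * (1 + κ)) = r * (Sl - 1) := by
        rw [h.hL]
        field_simp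
      have h3 : Sl * (κ * L) * (8 * (1 + κ)) = 2 * κ * (L * (4 * Sl * (1 + κ))) := by ring
      rw [h3, h2]
      linear_combination r * hκ2
    have h4 : c * 8 ≤ c * (8 * (1 + κ)) := mul_le_mul_of_nonneg_left (by linarith) hc0.le
    rw [hc] at h4 ⊢
    linarith
  have hδ0 : 0 < δ := by
    rw [h.hδ]
    have : 0 < Sl - 1 := by linarith
    positivity
  have hw1 : (w : ℝ) + sh + (Sl * (κ * L) + (Sl + 2) * (ε * r)) < 1 := by
    have h1 := h.w2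
    have h2 : ε * r ≤ 1 / 4 * r := mul_le_mul_of_nonneg_right (by linarith) hr.le
    rw [← hc] at hε2 ⊢
    linarith [hL.B1]
  have hp0 : 0 ≤ p (v 0) := by
    have h1 := xA (iv n 0)
    have h2 := xB (iv n 0)
    rw [xv 0 (Nat.zero_le n)] at h1 h2
    exact hL.p0 _ h1 h2
  obtain ⟨J₀, HS⟩ := scl_ofG h hS hr hε hn hε1 hε2 hp0 hwh hw0 hw1 hPm K
  obtain ⟨G₀, hG₀⟩ := hno 1 (K + 1 + 5) le_rfl
  -- the limit of `J`
  obtain ⟨C₁, hC₁⟩ : ∃ C₁ : ℝ, C₁ = |cE m K| + 2 * (n + K + 4) + 3 + η + 1 := ⟨_, rfl⟩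
  have hC₁0 : 0 < C₁ := by rw [hC₁]; positivity
  obtain ⟨J₁, hJ₁⟩ := exists_nat_ge (C₁ / (η * c / 4) + (2 * (G₀ : ℝ) + 4) / c)
  -- one event
  obtain ⟨J, hJJ, F, A', hb⟩ := bas_ex hL.ne (((((HX M).and (HD M)).and (HJ M)).and
    ((HH M).and HL)).and (((HE0.and HE1).and HE2).and
      ((mx_fam hpos (fun i => ((x i : ℚ) : ℝ) + sh) hη' hki).and
        (Pool.GRW.tmc_bas htm her)))) (max J₀ J₁)
  obtain ⟨⟨⟨⟨bX, bD⟩, bJ⟩, bH, V, zz, z₁, G, hlb, bL₁⟩, ⟨⟨b0, b1⟩, u₀, hu₀, -⟩, ⟨Z, z, hz⟩, hA',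
    btm⟩ := hb
  have hJ0 : (0 : ℝ) ≤ J := Nat.cast_nonneg J
  have hJa : J₀ ≤ J := (le_max_left _ _).trans hJJ
  have hJb : (J₁ : ℝ) ≤ J := by exact_mod_cast (le_max_right _ _).trans hJJ
  obtain ⟨q, g, b, Q, s, hWg, hqgQ, hsj, hb1, hbn, g1, g2, gj⟩ := HS J hJa
  rw [← hc] at g1 g2 hε2 herr
  have hwl : wh w ≤ (w : ℝ) + sh := hL.wl w hwA hwB
  obtain ⟨z', hz₁⟩ : ∃ z' : LnT F → V, ∀ ω, z₁ (slam F ⌊wh w * J⌋₊ ω) =
      z' (slam F ⌊((w : ℝ) + sh) * J⌋₊ ω) := by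
    refine ⟨fun s => z₁ (crs F ⌊wh w * J⌋₊ ⌊((w : ℝ) + sh) * J⌋₊ s), fun ω => ?_⟩
    rw [slam_crs (Nat.floor_le_floor (mul_le_mul_of_nonneg_right hwl hJ0))
      ((Nat.le_add_right _ _).trans hWg) ω]
  have bL : ∀ t ∈ T, (qJet m I k t.1 (wh w) (p w) t.2).P M₁ e J F A' (fun ω =>
      ⌊(2 : ℝ) ^ (t.2 * J) * ojet F k t.1 (G (z' (slam F ⌊((w : ℝ) + sh) * J⌋₊ ω))) ω⌋) := by
    intro t ht
    have h1 := bL₁ t ht
    simp only [hz₁] at h1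
    exact h1
  -- the functions
  choose ua hua using b0
  choose ub hub using b1
  obtain ⟨vv, hvv'⟩ : ∃ vv : Ix n → Ix n → F.Ω → ℤ, vv = fun i j => if i = none then
    (fun ω => ⌊(2 : ℝ) ^ ((p (x j) - ((0 : ℕ) : ℝ) * wh (x j)) * J) *
      ojet F k 0 (G (z' (slam F ⌊((w : ℝ) + sh) * J⌋₊ ω))) ω⌋) else
    if h : x i ≤ x j then ua (i, j) h else 0 := ⟨_, rfl⟩
  obtain ⟨dd, hdd'⟩ : ∃ dd : Ix n → Ix n → F.Ω → ℤ, dd = fun i j => if i = none then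
    (fun ω => ⌊(2 : ℝ) ^ ((p (x j) - ((1 : ℕ) : ℝ) * wh (x j)) * J) *
      ojet F k 1 (G (z' (slam F ⌊((w : ℝ) + sh) * J⌋₊ ω))) ω⌋) else
    if h : x i ≤ x j then ub (i, j) h else 0 := ⟨_, rfl⟩
  have hvv : ∀ i j, x i ≤ x j → (JG m I k wh p 0 (x i) (x j)).P M e J F A' (vv i j) := by
    intro i j hij
    by_cases hi : i = none
    · rw [hvv', hi, xw]
      simp only [if_pos]
      refine (JG m I k wh p 0 w (x j)).mono m1 le_rfl (bL ((0 : ℕ), p (x j) - ((0 : ℕ) : ℝ) * wh (x j)) ?_)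
      rw [hT]
      exact Finset.mem_union_left _ (Finset.mem_image_of_mem _ (Finset.mem_univ j))
    · rw [hvv']
      simp only [if_neg hi, dif_pos hij]
      exact (JG m I k wh p 0 (x i) (x j)).mono m2 le_rfl (hua (i, j) hij)
  have hdd : ∀ i j, x i ≤ x j → (JG m I k wh p 1 (x i) (x j)).P M e J F A' (dd i j) := by
    intro i j hij
    by_cases hi : i = none
    · rw [hdd', hi, xw]
      simp only [if_pos]
      refine (JG m I k wh p 1 w (x j)).mono m1 le_rfl (bL ((1 : ℕ), p (x j) - ((1 : ℕ) : ℝ) * wh (x j)) ?_)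
      rw [hT]
      exact Finset.mem_union_right _ (Finset.mem_union_left _
        (Finset.mem_image_of_mem _ (Finset.mem_univ j)))
    · rw [hdd']
      simp only [if_neg hi, dif_pos hij]
      exact (JG m I k wh p 1 (x i) (x j)).mono m3 le_rfl (hub (i, j) hij)
  obtain ⟨H, hH⟩ : ∃ H : ℕ → F.Ω → ℤ, H = fun (j : ℕ) (ω : F.Ω) =>
    ⌊(2 : ℝ) ^ ((Pm - (j : ℝ) * wh w) * J) *
      ojet F k j (G (z' (slam F ⌊((w : ℝ) + sh) * J⌋₊ ω))) ω⌋ := ⟨_, rfl⟩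
  have hHP : ∀ j, 2 ≤ j → j ≤ K + 1 →
      (qJet m I k j (wh w) (p w) (Pm - j * wh w)).P M e4 J F A' (H j) := by
    intro j _ hj
    rw [hH]
    refine (qJet m I k j (wh w) (p w) (Pm - j * wh w)).mono m1 l4 (bL (j, Pm - (j : ℝ) * wh w) ?_)
    rw [hT]
    exact Finset.mem_union_right _ (Finset.mem_union_right _
      (Finset.mem_image_of_mem _ (Finset.mem_range.2 (by omega))))
  -- the families on the parts
  have PX := bX Z z (fun i => (hz i).le' n1) u₀ (Q₀.mono m4 l1 hu₀) vv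
    (fun i j hij => (JG m I k wh p 0 (x i) (x j)).mono le_rfl l1 (hvv i j hij))
  have PD := bD Z z (fun i => (hz i).le' n2) u₀ (Q₀.mono m4 l2 hu₀) dd
    (fun i j hij => (JG m I k wh p 1 (x i) (x j)).mono le_rfl l2 (hdd i j hij))
  have PJ := bJ Z z (fun i => (hz i).le' n3) u₀ (Q₀.mono m4 l3 hu₀)
    (fun i j ω => (vv i j ω, dd i j ω))
    (fun i j hij => ⟨(JG m I k wh p 0 (x i) (x j)).mono le_rfl l3 (hvv i j hij),
      (JG m I k wh p 1 (x i) (x j)).mono le_rfl l3 (hdd i j hij)⟩)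
  have hzw : Mx f (vg ((w : ℝ) + sh)) ki F A' (z none) := by
    have := hz none
    rwa [xw] at this
  obtain ⟨q1, q2⟩ := bH Z (z none) (hzw.le' n4) u₀ (Q₀.mono m4 l4 hu₀) H hHP
  have q2 := q2 (by omega)
  have q3 : 3 * (c₀ * (ε * r) / 3) * (J : ℝ) = c₀ * (ε * r * J) := by ring
  rw [q3] at q1 q2
  -- the label is closed
  obtain ⟨φp, hφp⟩ := hL.pt J F
  have hcl : Cl2 (f J F) (vg ((w : ℝ) + sh) J F) A' (fun ω => z' (slam F ⌊((w : ℝ) + sh) * J⌋₊ ω)) :=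
    ⟨⟨fun a => zz (φp a), fun ω hω => ((hz₁ ω).symm.trans
      (hlb.cls ω hω).symm).trans (congrArg zz (hφp ω))⟩, z', fun ω _ => rfl⟩
  have q4 : CH (Pool.Agent.H49.Ent.cond F.p A' True) (fun ω => z' (slam F ⌊((w : ℝ) + sh) * J⌋₊ ω))
      (z none) ≤ c₀ * (ε * r * J) := by
    refine (hzw.2 V _ hcl).trans ?_
    rw [← mul_assoc]
    exact mul_le_mul_of_nonneg_right n5 hJ0
  obtain ⟨ζ, hζ⟩ := hzw.1.2
  obtain ⟨φy, hφy⟩ := hL.kn J F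
  have hew : 0 ≤ ε * r * J := by positivity
  -- the digits of `I`
  have hnl : ⌊p₀ * J⌋₊ ≤ ⌊((w : ℝ) + sh) * J⌋₊ + ⌊lam' * J⌋₊ + 1 := by
    have h1 : p₀ * J ≤ (w + sh) * J + lam' * J := by
      have := mul_le_mul_of_nonneg_right (show p₀ ≤ w + sh + lam' by linarith [hL.pl]) hJ0
      linarith
    have h2 := Nat.lt_floor_add_one (((w : ℝ) + sh) * J)
    have h3 := Nat.lt_floor_add_one (lam' * (J : ℝ))
    have h4 : p₀ * J < ((⌊((w : ℝ) + sh) * J⌋₊ + ⌊lam' * (J : ℝ)⌋₊ + 2 : ℕ) : ℝ) := by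
      push_cast
      linarith
    have h5 := (Nat.floor_lt' (by omega)).2 h4
    omega
  obtain ⟨κt, hκt⟩ : ∃ κt : ℝ, κt = eK Sl fD * (ε * r) * J + 1 := ⟨_, rfl⟩
  have hS1 : 0 < Sl - 1 := by linarith
  have heK : 2 * Sl + 8 ≤ eK Sl fD := by
    unfold eK
    have : 0 ≤ fD * (4 * Sl / (Sl - 1) + 3) := by positivity
    linarith
  have hκ4 : (3 * (ε * r) + ε * r) * J ≤ κt := by
    rw [hκt]
    have := mul_le_mul_of_nonneg_right heK hew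
    nlinarith
  have hκt0 : 0 ≤ κt := by
    rw [hκt]
    have : 0 ≤ eK Sl fD := by linarith
    positivity
  have parts : ∀ B' : F.Ω → Prop, Sub B' A' → c₀ * Pe F.p A' ≤ Pe F.p B' →
      Parts F A' I k ⌊((w : ℝ) + sh) * J⌋₊ g q Q ⌊p₀ * J⌋₊ ⌊lam' * J⌋₊ K z' G u₀ (y J F)
        (fun i => ((x i : ℚ) : ℝ)) z (fun j => ssc (Pm - j * wh w) J) vv dd
        (fun i j => θJ (x i) (x j) * J) (fun i j => θX (x i) (x j) * J)
        (fun i j => θD (x i) (x j) * J) κt (ε * r * J)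
        (Pool.Agent.H49.Ent.cond F.p B' True) := by
    intro B' hB1 hB2
    have hBp : 0 < Pe F.p B' := lt_of_lt_of_le (mul_pos hc₀ hA') hB2
    obtain ⟨N, aX⟩ := PX B' hB1 hB2
    obtain ⟨-, aD⟩ := PD B' hB1 hB2
    obtain ⟨-, aJ⟩ := PJ B' hB1 hB2
    refine ⟨⟨isLaw_cond F.isLaw hBp, hWg, hqgQ, hlb.deg, hnl,
      ch_part F.isLaw hB1 hA' hc₀ hB2 _ _ q4, ⟨fun Y => φy Y.2, fun ω => hφy ω⟩, ?_, hsj, hew⟩,
      ?_, N, add_le aJ hκ4 le_rfl, add_le aD hκ4 le_rfl, add_le aX hκ4 le_rfl⟩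
    · refine ch_part F.isLaw hB1 hA' hc₀ hB2 _ _ (le_trans (le_of_eq ?_) q1)
      rw [hH]
      rfl
    · refine ch_part F.isLaw hB1 hA' hc₀ hB2 _ _ (le_trans (le_of_eq ?_) q2)
      rw [hH]
      rfl
  -- the constants
  obtain ⟨a, ha⟩ : ∃ a : ℝ, a = (2 : ℝ) ^ (11 * Sl * (ε * r) * J + n + K + 4) := ⟨_, rfl⟩
  rw [← ha] at s
  have l0 : 0 < Real.log 2 := Real.log_pos one_lt_two
  have l1' : Real.log 2 ≤ 1 := by
    have := Real.log_two_lt_d9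
    linarith
  have la : Real.log a ≤ 11 * Sl * (ε * r) * J + n + K + 4 := by
    rw [ha, Real.log_rpow (by norm_num)]
    have h1 : 0 ≤ 11 * Sl * (ε * r) * J + n + K + 4 := by positivity
    calc (11 * Sl * (ε * r) * J + n + K + 4) * Real.log 2 ≤
          (11 * Sl * (ε * r) * J + n + K + 4) * 1 := mul_le_mul_of_nonneg_left l1' h1
      _ = _ := mul_one _
  have la0 : 0 ≤ Real.log a := Real.log_nonneg s.a1
  obtain ⟨c1', c2', c3', c4', c5', c6', c7'⟩ := cE_parts m K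
  have hcE : 0 ≤ cE m K := by
    unfold cE
    linarith
  obtain ⟨E, hE⟩ : ∃ E : ℝ, E = cE m K + 2 * Real.log a + 4 * (ε * r * J) +
      (3 * κt + 2 * (ε * r * J)) := ⟨_, rfl⟩
  have j1 : C₁ ≤ η * c / 4 * J := by
    have h1 : 0 ≤ (2 * (G₀ : ℝ) + 4) / c := by positivity
    have h2 : C₁ / (η * c / 4) ≤ J := by linarith
    rw [div_le_iff₀ (by positivity)] at h2
    linarith
  have j2 : 2 * (G₀ : ℝ) + 4 ≤ c * J := by
    have h1 : 0 ≤ C₁ / (η * c / 4) := by positivity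
    have h2 : (2 * (G₀ : ℝ) + 4) / c ≤ J := by linarith
    rw [div_le_iff₀ hc0] at h2
    linarith
  have j3 : c * J / 2 - 1 ≤ g := by
    have h1 := mul_le_mul_of_nonneg_right hε2 hJ0
    linarith
  have hEη : E ≤ η * g := by
    have h1 := mul_le_mul_of_nonneg_right herr hJ0
    have h2 := mul_le_mul_of_nonneg_left j3 hη.le
    have h3 := le_abs_self (cE m K)
    rw [hE, hκt]
    rw [hC₁] at j1
    linarith
  have hκE : κt ≤ E := by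
    rw [hE]
    linarith
  have hGg : G₀ ≤ g := by
    have : (G₀ : ℝ) ≤ g := by linarith
    exact_mod_cast this
  have hbη : (b : ℝ) ≤ η * g := by
    have h1 : (b : ℝ) * n ≤ g := by exact_mod_cast hbn
    have h2 := mul_le_mul_of_nonneg_left h1 hη.le
    have h3 := mul_le_mul_of_nonneg_left hηn (Nat.cast_nonneg (α := ℝ) b)
    linarith
  have hgb : (((g / b : ℕ) : ℝ) + 1) * c₀ ≤ η := by
    rw [s.gb]
    exact hc2
  have xlo : ∀ i, γ - r ≤ ((x i : ℚ) : ℝ) := fun i => by linarith [(xb i).1]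
  have lev : ∀ {i j : Ix n}, ((x i : ℚ) : ℝ) ≤ x j → x i ≤ x j := fun h1 => by exact_mod_cast h1
  have o1 : ∀ j, j ≤ n → ((x none : ℚ) : ℝ) ≤ x (iv n j) := fun j hj => by
    rw [xw, xv j hj]
    exact_mod_cast ow j hj
  have o2 : ∀ j, j ≤ n → ((x (iv n j) : ℚ) : ℝ) ≤ x (iv n n) := fun j hj => by
    rw [xv j hj, xv n le_rfl]
    exact_mod_cast on j hj
  have o3 : ∀ j, j ≤ n → ((x (iv n n) : ℚ) : ℝ) ≤ x (ik n j) := fun j hj => by
    rw [xk j hj, xv n le_rfl]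
    exact_mod_cast onk j hj
  have o4 : ((x (ik n 0) : ℚ) : ℝ) ≤ x (ik n n) := by
    rw [xk 0 (Nat.zero_le n), xk n le_rfl]
    exact_mod_cast okk
  have hdef : ∀ j, j ≤ n → b * j ≤ g → θJ (x (iv n j)) (x (iv n n)) * J -
      θD (x (iv n j)) (x (iv n n)) * J ≤
      (1 - τ) * (((g : ℝ) - (b * j : ℕ)) * Real.log 2) + κt := by
    intro j hj _
    have h1 := rJ (x (iv n j)) (x (iv n n)) (xlo _) (lev (o2 j hj)) (xb _).2
    have h2 := rD (x (iv n j)) (x (iv n n)) (xlo _) (lev (o2 j hj)) (xb _).2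
    rw [xv j hj, xv n le_rfl] at h1 h2 ⊢
    have h3 := num_def h hS hr hε hn on (J := J) (g := g) (bj := fun j => ((b * j : ℕ) : ℝ)) gj hj
      hτ0 hτ1 hfJ h1 h2
    refine h3.trans ?_
    have h4 := mul_le_mul_of_nonneg_right (show 2 * Sl + 4 ≤ eK Sl fD by linarith) hew
    rw [hκt]
    linarith
  have hnum : θD (x (iv n 0)) (x (ik n 0)) * J ≤
      ρ * (θD (x (ik n 0)) (x (ik n n)) * J) + κt := by
    have h1 := rD (x (iv n 0)) (x (ik n 0)) (xlo _)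
      (lev ((o2 0 (Nat.zero_le n)).trans (o3 0 (Nat.zero_le n)))) (xb _).2
    have h2 := rD (x (ik n 0)) (x (ik n n)) (xlo _) (lev o4) (xb _).2
    rw [xk 0 (Nat.zero_le n)] at h1 h2 ⊢
    rw [xk n le_rfl] at h2 ⊢
    rw [xv 0 (Nat.zero_le n)] at h1 ⊢
    have h3 := num_num h hS hr hε hn (J := J) hfD hρ h1 h2
    refine h3.trans ?_
    have h4 : fD * (4 * Sl / (Sl - 1) + 3) + 3 ≤ eK Sl fD := by
      unfold eK
      linarith
    have h5 := mul_le_mul_of_nonneg_right h4 hew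
    rw [hκt]
    linarith
  have hgX : g * Real.log 2 - κt ≤ θX (x (iv n 0)) (x (iv n n)) * J := by
    have h1 := rX (x (iv n 0)) (x (iv n n)) (xlo _) (lev (o2 0 (Nat.zero_le n))) (xb _).2
    rw [xv 0 (Nat.zero_le n), xv n le_rfl] at h1 ⊢
    have h3 := num_gX h hS hr hε hn on (J := J) (g := g) (by rw [← hc]; exact g2) hfX h1
    refine le_trans ?_ h3
    have h4 := mul_le_mul_of_nonneg_right (show 2 * Sl + 3 ≤ eK Sl fD by linarith) hew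
    rw [hκt]
    linarith
  refine hG₀ _ _ _ _ _ _ _ _ _ _ _ _ _ _ _ _ _ _ _ E κt E E c₀ E E hGg hb1 hbη hc₀.le hgb
    (hκE.trans hEη) hEη hEη hEη hEη (din (n := n) (b := b) hA' (hL.yk J F) s (vv := vv)
      (dd := dd) ?_ ?_ hc1 parts ⟨ζ, fun ω hω => hζ ω hω⟩ btm o1 o2 o3 o4 hdef hnum ?_ hgX ?_ hκt0)
  · intro j hj ω
    rw [hvv']
    simp only [if_pos]
    rw [xv j hj]
    rfl
  · intro j hj ω
    rw [hdd']
    simp only [if_pos]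
    rw [xk j hj]
    rfl
  · rw [hE]
    linarith
  · rw [hE]
    linarith

end Pool.AVG96
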