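import Pool.Agent.H96.AVG.Nmc

/-!
# Few bits in a box

`BoxN`: the numbers of a box: `w ≤ v`, the near digits `D` are between `d` and `C'` behind the
natural digits of `w`, and `d` is at least `Sl l * (v - w) + 16 (r + 2) x`. `BoxN.mid`: the natural
digits of the coordinate `i` at `v` are few bits given the record at `v` and the near digits of the
coordinates before. `rw1`, `rw2`, `pre`: the other inputs of `MIs.step`.
-/

set_option autoImplicit false

namespace Pool.AVG96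

open Finset Real MvPolynomial
open Pool.Agent.H49.Ent Pool.Agent.H32.Dense Pool.STK Pool.KA Pool.KSAT Pool.K2S Pool.PB Pool.S6C
  Pool.GEN Pool.RCD Pool.LA91
open Pool.OWN83 (TwoRelS TRelS TwoParS)

variable {m : ℕ} {α γ : ∀ J : ℕ, Fam m J → Type}
  {f : ∀ (J : ℕ) (F : Fam m J), F.Ω → α J F} {y : ∀ (J : ℕ) (F : Fam m J), F.Ω → γ J F}
  {S : PCl m} {c : ℕ → Fin m} {r₀ r : ℕ} {s A B Λ : ℝ} {wh : ℚ → ℝ} {sc : ℚ → ℕ → ℝ}

/-- **The numbers of a box.** `x`: the unit of loss, `e`: error of the slopes, `n`: number of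
steps. -/
structure BoxN (sc : ℚ → ℕ → ℝ) (r₀ r i : ℕ) (Λ : ℝ) (Sl : ℕ → ℝ) (w v : ℚ) (d C' x e : ℝ)
    (n : ℕ) : Prop where
  wv : w ≤ v
  n1 : 1 ≤ n
  x0 : 0 < x
  e0 : e ≤ x / n
  dC : d ≤ C'
  Cn : C' / n ≤ x
  CΛ : C' + 16 * (r + 2) * x ≤ Λ
  nn : ∀ l, r₀ ≤ l → l ≤ i → 0 ≤ Sl l
  sl : ∀ l, r₀ ≤ l → l ≤ i → ∀ w' v' : ℚ, w ≤ w' → w' ≤ v' → v' ≤ v →
    |sc v' l - sc w' l - Sl l * (v' - w')| ≤ e
  dl : ∀ l, r₀ ≤ l → l ≤ i → Sl l * (v - w) + 16 * (r + 2) * x ≤ d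

theorem BoxN.take {i i' : ℕ} {Sl : ℕ → ℝ} {w v : ℚ} {d C' x e : ℝ} {n : ℕ}
    (b : BoxN sc r₀ r i Λ Sl w v d C' x e n) (hi : i' ≤ i) :
    BoxN sc r₀ r i' Λ Sl w v d C' x e n :=
  ⟨b.wv, b.n1, b.x0, b.e0, b.dC, b.Cn, b.CΛ, fun l a b' => b.nn l a (b'.trans hi),
    fun l a b' => b.sl l a (b'.trans hi), fun l a b' => b.dl l a (b'.trans hi)⟩

/-- From the record at the window of the charts of `w` to that of `v`. -/
theorem NCh.upw {U U' : Type} (h : NCh S f y c r₀ r s A B Λ wh sc) {w v : ℚ} (hw : A < w)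
    (hwv : w ≤ v) (hv : (v : ℝ) < B) {Q : Qt m U} {Q' : Qt m U'}
    (hf : Few S f (vg (wh w)) y Q Q') : Few S f (vg (wh v)) y Q Q' := by
  have h2 : (w : ℝ) ≤ v := by exact_mod_cast hwv
  have h1 := (h.wl v (by linarith) hv).2
  exact Few.up h.pos (fun J F => ⟨fun x => x, fun _ => rfl⟩)
    (fun J F => vg_mono (h.wm w v hw hwv hv) (by linarith [h.B1]) J F)
    (fun J F => ⟨fun x => x, fun _ => rfl⟩) hf

section

variable {i : ℕ} {Sl : ℕ → ℝ} {w v : ℚ} {d C' x e : ℝ} {n : ℕ}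

/-- **The natural digits of the coordinate at `v`** from the digits `d - 3 (l + 1) x` of the
coordinates before. -/
theorem BoxN.mid0 (h : NCh S f y c r₀ r s A B Λ wh sc) (h0 : r₀ ≤ i) (hi : i ≤ r)
    (b : BoxN sc r₀ r i Λ Sl w v d C' x e n) (hw : A < w) (hv : (v : ℝ) < B) {j : ℕ} (hj : j ≤ 1) :
    Few S f (vg (wh v)) y (natQ m c r₀ i wh sc (fun l : ℕ => d - 3 * ((l : ℝ) + 1) * x) w)
      (fam m c i j wh sc w v) := by
  have hn : (1 : ℝ) ≤ n := by exact_mod_cast b.n1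
  have hn0 : (0 : ℝ) < n := by linarith
  have hx := b.x0
  have hxn : 0 < x / n := by positivity
  have hxn1 : x / n ≤ x := div_le_self hx.le hn
  have hwv : (w : ℝ) ≤ v := by exact_mod_cast b.wv
  obtain ⟨δ, hδ⟩ : ∃ δ, δ = d - 16 * ((r : ℝ) + 2) * x := ⟨_, rfl⟩
  have hSi := b.dl i h0 le_rfl
  have hδ0 : 0 ≤ δ := by
    have := mul_nonneg (b.nn i h0 le_rfl) (show (0 : ℝ) ≤ v - w by linarith)
    linarith
  have hδC : δ ≤ C' := by
    have h1 : 0 ≤ 16 * ((r : ℝ) + 2) * x := by positivity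
    linarith [b.dC]
  have hδn : δ / n ≤ x := (div_le_div_of_nonneg_right hδC hn0.le).trans b.Cn
  -- the windows
  obtain ⟨o, ho⟩ : ∃ o : ℕ → ℚ, o = fun k : ℕ => w + (k : ℚ) * (v - w) / (n : ℚ) := ⟨_, rfl⟩
  have hnq : (n : ℚ) ≠ 0 := by
    have := b.n1
    exact_mod_cast (by omega : n ≠ 0)
  have o0 : o 0 = w := by rw [ho]; simp
  have on : o n = v := by
    rw [ho]
    show w + n * (v - w) / n = v
    rw [mul_div_assoc, mul_div_cancel₀ _ hnq]
    ring
  have oR : ∀ k : ℕ, (o k : ℝ) = w + k * (v - w) / n := fun k => by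
    rw [ho]
    push_cast
    ring
  have ost : ∀ k, o k ≤ o (k + 1) := by
    intro k
    have h1 : (o k : ℝ) ≤ o (k + 1) := by
      rw [oR, oR, add_le_add_iff_left]
      refine div_le_div_of_nonneg_right (mul_le_mul_of_nonneg_right ?_ (by linarith)) hn0.le
      push_cast
      linarith
    exact_mod_cast h1
  have hkn : ∀ k ≤ n, (k : ℝ) / n ≤ 1 := fun k hk => by
    rw [div_le_one hn0]
    exact_mod_cast hk
  have ow : ∀ k, w ≤ o k := fun k => by
    have h1 : (w : ℝ) ≤ o k := by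
      rw [oR]
      have : 0 ≤ (k : ℝ) * (v - w) / n := by
        have : (0 : ℝ) ≤ v - w := by linarith
        positivity
      linarith
    exact_mod_cast h1
  have ov : ∀ k ≤ n, o k ≤ v := fun k hk => by
    have h1 : (o k : ℝ) ≤ v := by
      rw [oR]
      have h2 := mul_le_mul_of_nonneg_right (hkn k hk) (show (0 : ℝ) ≤ v - w by linarith)
      have h3 : (k : ℝ) * (v - w) / n = k / n * (v - w) := by ring
      rw [h3]
      linarith
    exact_mod_cast h1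
  -- the steps
  have hinc : ∀ k < n, ∀ l, r₀ ≤ l → l ≤ i → sc (o (k + 1)) l - sc (o k) l ≤ δ / n + x / n := by
    intro k hk l l0 l1
    have h1 := (abs_le.mp (b.sl l l0 l1 (o k) (o (k + 1)) (ow k) (ost k) (ov _ hk))).2
    have h2 := b.dl l l0 l1
    have h3 : Sl l * ((o (k + 1) : ℝ) - o k) = Sl l * (v - w) / n := by
      rw [oR, oR]
      push_cast
      ring
    have h4 : Sl l * ((v : ℝ) - w) / n ≤ δ / n :=
      div_le_div_of_nonneg_right (by linarith) hn0.le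
    linarith [b.e0]
  have htl : ∀ k ≤ n, sc v i - sc (o k) i ≤ δ - k / n * δ + x / n := by
    intro k hk
    have h1 := (abs_le.mp (b.sl i h0 le_rfl (o k) v (ow k) (ov k hk) le_rfl)).2
    have h3 : Sl i * ((v : ℝ) - o k) = (1 - k / n) * (Sl i * (v - w)) := by
      rw [oR]
      ring
    have h4 : (1 - (k : ℝ) / n) * (Sl i * (v - w)) ≤ (1 - k / n) * δ :=
      mul_le_mul_of_nonneg_left (by linarith) (by linarith [hkn k hk])
    have h5 : (1 - (k : ℝ) / n) * δ = δ - k / n * δ := by ring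
    linarith [b.e0]
  obtain ⟨L, hL⟩ : ∃ L : ℕ → ℕ → ℝ, L = fun (k l : ℕ) =>
      d - (k : ℝ) / n * δ - 3 * ((l : ℝ) + 1) * x - (k : ℝ) * (2 * (x / n)) := ⟨_, rfl⟩
  have hL' : ∀ k l : ℕ, L k l =
      d - (k : ℝ) / n * δ - 3 * ((l : ℝ) + 1) * x - (k : ℝ) * (2 * (x / n)) :=
    fun k l => by rw [hL]
  have hks : ∀ k : ℕ, ((k + 1 : ℕ) : ℝ) / n * δ = k / n * δ + δ / n := fun k => by
    push_cast
    ring
  have hk2 : ∀ k ≤ n, (k : ℝ) * (2 * (x / n)) ≤ 2 * x := fun k hk => by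
    have h1 : (k : ℝ) * (2 * (x / n)) = k / n * (2 * x) := by ring
    rw [h1]
    have := mul_le_mul_of_nonneg_right (hkn k hk) (show 0 ≤ 2 * x by linarith)
    linarith
  have hkd : ∀ k ≤ n, (k : ℝ) / n * δ ≤ δ := fun k hk => by
    have := mul_le_mul_of_nonneg_right (hkn k hk) hδ0
    linarith
  have hkd0 : ∀ k : ℕ, 0 ≤ (k : ℝ) / n * δ := fun k => by positivity
  have hk20 : ∀ k : ℕ, 0 ≤ (k : ℝ) * (2 * (x / n)) := fun k => by positivity
  have hlr : ∀ l, l < i → 3 * ((l : ℝ) + 1) * x ≤ 3 * r * x := fun l hl => by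
    have h1 : (l : ℝ) + 1 ≤ r := by exact_mod_cast (by omega : l + 1 ≤ r)
    nlinarith
  have hr0 : (0 : ℝ) ≤ r * x := by positivity
  have hl0 : ∀ l : ℕ, 0 ≤ 3 * ((l : ℝ) + 1) * x := fun l => by positivity
  have e1 : 16 * ((r : ℝ) + 2) * x = 16 * (r * x) + 32 * x := by ring
  rw [e1] at hδ
  have hCΛ := b.CΛ
  rw [e1] at hCΛ
  have key := mid_chain h h0 hi hj (n := n) (o := o) (fun k _ => ost k) (by rw [o0]; exact hw)
    (by rw [on]; exact hv) (L := L) (σ₀ := x / n) hxn ?_ ?_ ?_ ?_ ?_ ?_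
  · rw [o0, on] at key
    have e2 : L 0 = fun l : ℕ => d - 3 * ((l : ℝ) + 1) * x := by
      funext l
      rw [hL']
      push_cast
      ring
    rw [e2] at key
    exact key
  · intro k hk l l0 l1
    have := hlr l l1
    have := hk2 k hk
    have := hkd k hk
    rw [hL']
    linarith
  · intro k hk l l0 l1
    have h1 := hinc k hk l l0 l1.le
    have h2 := hks k
    rw [hL', hL', h2]
    push_cast
    linarith
  · intro k hk l l0 l1 l' l0' l1'
    have h1 := hinc k hk l l0 l1.le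
    have h3 : (l' : ℝ) + 1 ≤ l := by exact_mod_cast l1'
    have h4 : 3 * ((l' : ℝ) + 1) * x + 3 * x ≤ 3 * (l + 1) * x := by nlinarith
    rw [hL', hL']
    linarith
  · intro k hk l l0 l1
    have h1 := hinc k hk l l0 l1.le
    rw [hL']
    have := hl0 l
    have := hkd0 (k + 1)
    have := hk20 (k + 1)
    have := b.dC
    linarith
  · intro k hk
    rw [on]
    have h1 := htl k hk.le
    have := hkd0 k
    linarith
  · intro k hk l l0 l1
    rw [on, hL', hks k]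
    have h1 := htl k hk.le
    have := hlr l l1
    have h5 := hk2 (k + 1) hk
    linarith

/-- The digits `D` are enough. -/
theorem near_nat (h : NCh S f y c r₀ r s A B Λ wh sc) (h0 : r₀ ≤ i) (hi : i ≤ r) (hw : A < w)
    (hwB : (w : ℝ) < B) {D : ℕ → ℕ → ℝ} {d x : ℝ} (hx : 0 < x) (hdx : 3 * ((r : ℝ) + 1) * x ≤ d)
    (hdΛ : d ≤ Λ)
    (hD : ∀ l, r₀ ≤ l → l < i → ∀ j' ≤ 1, sc w l - (j' : ℕ) * wh w + d ≤ D l j') :
    Few S f (vg (wh w)) y (nearQ m c r₀ i wh sc D w)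
      (natQ m c r₀ i wh sc (fun l : ℕ => d - 3 * ((l : ℝ) + 1) * x) w) := by
  have hlr : ∀ l, l < i → 3 * ((l : ℝ) + 1) * x ≤ 3 * r * x := fun l hl => by
    have h1 : (l : ℝ) + 1 ≤ r := by exact_mod_cast (by omega : l + 1 ≤ r)
    nlinarith
  have hll : ∀ l l' : ℕ, l' < l → 3 * ((l' : ℝ) + 1) * x + 3 * x ≤ 3 * (l + 1) * x := by
    intro l l' l1'
    have h3 : (l' : ℝ) + 1 ≤ l := by exact_mod_cast l1'
    nlinarith
  have hl0 : ∀ l : ℕ, 3 * x ≤ 3 * ((l : ℝ) + 1) * x := fun l => by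
    have : (0 : ℝ) ≤ l := Nat.cast_nonneg l
    nlinarith
  have e1 : 3 * ((r : ℝ) + 1) * x = 3 * r * x + 3 * x := by ring
  refine jets_few h h0 hi hw hw hwB le_rfl le_rfl (lv := fun l : ℕ => d - 3 * ((l : ℝ) + 1) * x)
    (σ₀ := x) hx (fun l l0 l1 => ?_) (fun l l0 l1 j' hj' => ?_) (fun l l0 l1 => ?_)
    (fun l l0 l1 l' l0' l1' => ?_) (fun l l0 l1 j' hj' => ?_) (fun l l0 l1 j' hj' => ?_)
    (fun l l0 l1 j' hj' l' l0' l1' => ?_)
  · have := hlr l l1
    linarith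
  · have := hD l l0 l1 j' hj'
    have := hl0 l
    linarith
  · have := hl0 l
    linarith
  · have := hll l l' l1'
    linarith
  · have := hD l l0 l1 j' hj'
    have := hl0 l
    linarith
  · rw [min_self]
    have := hl0 l
    linarith
  · rw [min_self]
    have := hll l l' l1'
    linarith

/-- **The middle term.** -/
theorem BoxN.mid (h : NCh S f y c r₀ r s A B Λ wh sc) (h0 : r₀ ≤ i) (hi : i ≤ r)
    (b : BoxN sc r₀ r i Λ Sl w v d C' x e n) (hw : A < w) (hv : (v : ℝ) < B) {D : ℕ → ℕ → ℝ}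
    (hD : ∀ l, r₀ ≤ l → l < i → ∀ j' ≤ 1, sc w l - (j' : ℕ) * wh w + d ≤ D l j') :
    Few S f (vg (wh v)) y (nearQ m c r₀ i wh sc D w) (FamX m c i wh sc w v) := by
  have hwv : (w : ℝ) ≤ v := by exact_mod_cast b.wv
  have hwB : (w : ℝ) < B := by linarith
  have hx := b.x0
  have hrx : (0 : ℝ) ≤ r * x := by positivity
  have h1 := b.dl i h0 le_rfl
  have h2 := mul_nonneg (b.nn i h0 le_rfl) (show (0 : ℝ) ≤ v - w by linarith)
  have e1 : 16 * ((r : ℝ) + 2) * x = 16 * (r * x) + 32 * x := by ring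
  have h3 := b.CΛ
  have h4 := b.dC
  have h5 : Few S f (vg (wh v)) y (nearQ m c r₀ i wh sc D w)
      (natQ m c r₀ i wh sc (fun l : ℕ => d - 3 * ((l : ℝ) + 1) * x) w) :=
    h.upw hw b.wv hv (near_nat h h0 hi hw hwB hx (by linarith) (by linarith) hD)
  have h6 : Exs S (natQ m c r₀ i wh sc (fun l : ℕ => d - 3 * ((l : ℝ) + 1) * x) w) :=
    exs_jets h h0 hi hw hwB _
  have h7 : ∀ j ≤ 1, Few S f (vg (wh v)) y (nearQ m c r₀ i wh sc D w)
      (fam m c i j wh sc w v) := fun j hj => Few.trans h.pos h6 h5 (b.mid0 h h0 hi hw hv hj)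
  exact Few.pair h.pos (h7 0 (by norm_num)) (h7 1 le_rfl)

/-- **The near digits contain the natural digits at `v`.** -/
theorem BoxN.rw1 (h : NCh S f y c r₀ r s A B Λ wh sc) (h0 : r₀ ≤ i) (hi : i ≤ r)
    (b : BoxN sc r₀ r i Λ Sl w v d C' x e n) (hw : A < w) (hv : (v : ℝ) < B) {D : ℕ → ℕ → ℝ}
    (hD : ∀ l, r₀ ≤ l → l < i → ∀ j' ≤ 1, sc w l - (j' : ℕ) * wh w + d ≤ D l j')
    {N : ℕ → ℝ} (hN : ∀ j ≤ 1, natD i wh sc v j ≤ N j) :
    Few S f (vg (wh w)) y ((nearQ m c r₀ i wh sc D w).prod (prQ m c i (wh w) (sc w i) N))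
      (FamX m c i wh sc w v) := by
  have hwv : (w : ℝ) ≤ v := by exact_mod_cast b.wv
  have hwB : (w : ℝ) < B := by linarith
  have hx := b.x0
  have hn : (1 : ℝ) ≤ n := by exact_mod_cast b.n1
  have hn0 : (0 : ℝ) < n := by linarith
  have hxn1 : x / n ≤ x := div_le_self hx.le hn
  have hrx : (0 : ℝ) ≤ r * x := by positivity
  have h1 := b.dl i h0 le_rfl
  have h2 := mul_nonneg (b.nn i h0 le_rfl) (show (0 : ℝ) ≤ v - w by linarith)
  have e1 : 16 * ((r : ℝ) + 2) * x = 16 * (r * x) + 32 * x := by ring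
  have h3 := b.CΛ
  have h4 := b.dC
  have h8 := (abs_le.mp (b.sl i h0 le_rfl w v le_rfl b.wv le_rfl)).2
  have h9 := b.e0
  have hlr : ∀ l, l < i → 3 * ((l : ℝ) + 1) * x ≤ 3 * (r * x) := fun l hl => by
    have h1 : (l : ℝ) + 1 ≤ r := by exact_mod_cast (by omega : l + 1 ≤ r)
    nlinarith
  have hll : ∀ l l' : ℕ, l' < l → 3 * ((l' : ℝ) + 1) * x + 3 * x ≤ 3 * (l + 1) * x := by
    intro l l' l1'
    have h3 : (l' : ℝ) + 1 ≤ l := by exact_mod_cast l1'
    nlinarith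
  have hl0 : ∀ l : ℕ, 3 * x ≤ 3 * ((l : ℝ) + 1) * x := fun l => by
    have : (0 : ℝ) ≤ l := Nat.cast_nonneg l
    nlinarith
  have key : ∀ j ≤ 1, Few S f (vg (wh w)) y ((nearQ m c r₀ i wh sc D w).prod
      (qJet m ((range i).image c) (c i) j (wh w) (sc w i) (N j)))
      (fam m c i j wh sc w v) := by
    intro j hj
    have hj0 : 0 ≤ (j : ℝ) * (wh v - wh w) :=
      mul_nonneg (Nat.cast_nonneg j) (by linarith [h.wm w v hw b.wv hv])
    refine jet_few h h0 hi hj hw hw hw hwB le_rfl le_rfl le_rfl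
      (lv := fun l : ℕ => d - 3 * ((l : ℝ) + 1) * x) (σ₀ := x) hx (fun l l0 l1 => ?_)
      (fun l l0 l1 j' hj' => ?_) (fun l l0 l1 => ?_) (fun l l0 l1 l' l0' l1' => ?_) (hN j hj) ?_
      (fun l l0 l1 => ?_)
    · have := hlr l l1
      linarith
    · have := hD l l0 l1 j' hj'
      have := hl0 l
      linarith
    · have := hl0 l
      linarith
    · have := hll l l' l1'
      linarith
    · rw [min_self]
      unfold natD
      linarith
    · rw [min_self]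
      have := hlr l l1
      unfold natD
      linarith
  exact Few.pair h.pos (few_pr1 h.pos (key 0 (by norm_num))) (few_pr2 h.pos (key 1 le_rfl))

end

/-! ### Far digits and near digits -/

section

variable {i : ℕ} {w : ℚ} {a : ℕ → ℚ} {A' B' : ℝ} {lv : ℕ → ℝ} {σ₀ C' : ℝ}

/-- The near digits of the prefix from its far digits. -/
theorem far_pre (h : NCh S f y c r₀ r s A B Λ wh sc) (h0 : r₀ ≤ i) (hi : i ≤ r)
    (hS : FarS wh sc r₀ i a Λ A' B' lv σ₀) (hA : A ≤ A') (hB : B' ≤ B) (hw : A' < w)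
    (hwB : (w : ℝ) < B') (hC : C' ≤ σ₀ / 2) (hCΛ : C' + σ₀ / 2 ≤ Λ) {D : ℕ → ℕ → ℝ}
    (hD : ∀ l, r₀ ≤ l → l < i → ∀ j' ≤ 1, D l j' ≤ sc w l - (j' : ℕ) * wh w + C') :
    Few S f (vg (wh w)) y (farQ m c r₀ i wh sc a w) (nearQ m c r₀ i wh sc D w) := by
  have hσ := hS.σ0
  have hwA : A < w := by linarith
  refine jets_few h h0 hi hwA hwA (by linarith) le_rfl le_rfl (lv := lv) (σ₀ := σ₀ / 2)
    (by linarith) hS.lv0 (fun l l0 l1 j' hj' => ?_) (fun l l0 l1 => ?_)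
    (fun l l0 l1 l' l0' l1' => ?_) (fun l l0 l1 j' hj' => ?_) (fun l l0 l1 j' hj' => ?_)
    (fun l l0 l1 j' hj' l' l0' l1' => ?_)
  · have e2 := hS.far hw hwB l0 l1 hj'
    linarith
  · have := hS.c2 w w hw le_rfl hwB l l0 l1
    linarith
  · have := hS.c2' w w hw le_rfl hwB l l0 l1 l' l0' l1'
    linarith
  · have e2 := hS.far hw hwB l0 l1 hj'
    have e5 := hD l l0 l1 j' hj'
    have e6 := hS.lv0 l l0 l1
    linarith
  · rw [min_self]
    have e5 := hD l l0 l1 j' hj'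
    linarith
  · rw [min_self]
    have e5 := hD l l0 l1 j' hj'
    have e6 := hS.c2' w w hw le_rfl hwB l l0 l1 l' l0' l1'
    have e7 := hS.lv0 l l0 l1
    linarith

/-- The near digits of the coordinate from the far digits. -/
theorem far_rw2 (h : NCh S f y c r₀ r s A B Λ wh sc) (h0 : r₀ ≤ i) (hi : i ≤ r)
    (hS : FarS wh sc r₀ i a Λ A' B' lv σ₀) (hT : FarT sc r₀ i Λ A' B' lv σ₀) (hA : A ≤ A')
    (hB : B' ≤ B) (hw : A' < w) (hwB : (w : ℝ) < B') (hC : C' ≤ σ₀ / 2) {N N' : ℕ → ℝ}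
    (hN : ∀ j ≤ 1, N j ≤ N' j) (hN' : ∀ j ≤ 1, N j ≤ sc w i - (j : ℕ) * wh w + C') :
    Few S f (vg (wh w)) y ((farQ m c r₀ i wh sc a w).prod (prQ m c i (wh w) (sc w i) N'))
      (prQ m c i (wh w) (sc w i) N) := by
  have hσ := hS.σ0
  have hwA : A < w := by linarith
  have key : ∀ j ≤ 1, Few S f (vg (wh w)) y ((farQ m c r₀ i wh sc a w).prod
      (qJet m ((range i).image c) (c i) j (wh w) (sc w i) (N' j)))
      (qJet m ((range i).image c) (c i) j (wh w) (sc w i) (N j)) := by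
    intro j hj
    refine jet_few h h0 hi hj hwA hwA hwA (by linarith) le_rfl le_rfl le_rfl
      (lv := lv) (σ₀ := σ₀ / 2) (by linarith) hS.lv0 (fun l l0 l1 j' hj' => ?_)
      (fun l l0 l1 => ?_) (fun l l0 l1 l' l0' l1' => ?_) (hN j hj) ?_ (fun l l0 l1 => ?_)
    · have e2 := hS.far hw hwB l0 l1 hj'
      linarith
    · have := hS.c2 w w hw le_rfl hwB l l0 l1
      linarith
    · have := hS.c2' w w hw le_rfl hwB l l0 l1 l' l0' l1'
      linarith
    · rw [min_self]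
      have e5 := hN' j hj
      have e6 := hT.c3 w w hw le_rfl hwB
      linarith
    · rw [min_self]
      have e5 := hN' j hj
      have e6 := hT.c3' w w hw le_rfl hwB l l0 l1
      linarith
  exact Few.pair h.pos (few_pr1 h.pos (key 0 (by norm_num))) (few_pr2 h.pos (key 1 le_rfl))

end

end Pool.AVG96
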