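import Pool.Agent.H96.AVG.Dbg

/-!
# One rough coordinate, charts at good windows: the position is full given the velocity

`dead_ptG`, `dead_clsG`: `dead_pt`, `dead_cls` (helper83) for the labels of the windows `wh w`.
-/

set_option autoImplicit false

namespace Pool.AVG96

open Finset Real MvPolynomial
open Pool.Agent.H49.Ent Pool.Agent.H32.Dense Pool.STK Pool.KA Pool.KSAT Pool.K2S Pool.PB Pool.GEN
open Pool.S6C Pool.RCD Pool.LA91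
open Pool.OWN83

variable {m : ℕ} {S : PCl m} {U₀ : Type} {α γ' : ∀ J : ℕ, Fam m J → Type}
  {f : ∀ (J : ℕ) (F : Fam m J), F.Ω → α J F} {y : ∀ (J : ℕ) (F : Fam m J), F.Ω → γ' J F}

/-- **The jets of order at least `2` at a point**: in the `r`-box behind `γ` they are few bits, up
to `e r`. -/
def JetPG (S : PCl m) (f : ∀ (J : ℕ) (F : Fam m J), F.Ω → α J F)
    (y : ∀ (J : ℕ) (F : Fam m J), F.Ω → γ' J F) (Q₀ : Qt m U₀) (I : Finset (Fin m)) (k : Fin m)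
    (sh : ℝ) (wh : ℚ → ℝ) (p : ℚ → ℝ) (γ : ℝ) : Prop :=
  ∀ e : ℝ, 0 < e → ∃ r₀ : ℝ, 0 < r₀ ∧ ∀ r : ℝ, 0 < r → r < r₀ → ∀ w o : ℚ, γ ≤ w → w < o →
    (o : ℝ) ≤ γ + r → ∃ Pm : ℝ, p o ≤ Pm ∧
      JetR S f (vg ((w : ℝ) + sh)) y Q₀ I k (wh w) (p w) Pm (e * r)

/-- The windows of the charts are close to the windows of the records. -/
def WhP (wh : ℚ → ℝ) (sh γ : ℝ) : Prop :=
  ∀ ε : ℝ, 0 < ε → ∃ r₀ : ℝ, 0 < r₀ ∧ ∀ r : ℝ, 0 < r → r < r₀ → ∀ x : ℚ, γ - r ≤ x →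
    (x : ℝ) ≤ γ + r → wh x ≤ x + sh ∧ (x : ℝ) + sh - ε * r ≤ wh x

/-- The position is full in the boxes of a point. -/
def FulX (p : ℚ → ℝ) (θX : ℚ → ℚ → ℝ) (γ : ℝ) : Prop :=
  ∀ e : ℝ, 0 < e → ∃ r₀ : ℝ, 0 < r₀ ∧ ∀ r : ℝ, 0 < r → r < r₀ → ∀ w o : ℚ, γ - r ≤ w →
    w ≤ o → (o : ℝ) ≤ γ + r → (p o - p w) * Real.log 2 - e * r ≤ θX w o

/-- **At one point.** -/
theorem dead_ptG {I : Finset (Fin m)} {k : Fin m} {sh : ℝ} {wh : ℚ → ℝ} {p : ℚ → ℝ} {A B lam p₀ lam' : ℝ}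
    (hL : LbsG S f y I k sh wh p A B p₀ lam') {Q₀ : Qt m U₀} {θX θD θJ : ℚ → ℚ → ℝ}
    (hF : FmsG S f y I k sh wh p Q₀ A B lam θX θD θJ) (hlam : 0 < lam) {γ P Sl fX fD fJ : ℝ}
    (hA : A < γ) (hB : γ < B) (hS : 1 < Sl) (hder : SlP p γ P Sl) (hwh : WhP wh sh γ) (rX : RtP θX γ fX)
    (rD : RtP θD γ fD) (rJ : RtP θJ γ fJ) (hfX : Sl * Real.log 2 ≤ fX) (hfD : 0 ≤ fD)
    (hjet : JetPG S f y Q₀ I k sh wh p γ) : Sl * Real.log 2 ≤ fJ - fD := by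
  by_contra hlt
  rw [not_le] at hlt
  have l0 : 0 < Real.log 2 := Real.log_pos one_lt_two
  have hS0 : 0 < Sl := by linarith
  have hS1 : 0 < Sl - 1 := by linarith
  have hSl : 0 < Sl * Real.log 2 := mul_pos hS0 l0
  obtain ⟨x₀, hx₀⟩ : ∃ x₀ : ℝ, x₀ = (fJ - fD) / (Sl * Real.log 2) := ⟨_, rfl⟩
  have hx1 : x₀ < 1 := by
    rw [hx₀, div_lt_one hSl]
    exact hlt
  have hx2 : x₀ * (Sl * Real.log 2) = fJ - fD := by
    rw [hx₀]
    field_simp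
  obtain ⟨τ, hτ⟩ : ∃ τ : ℝ, τ = min 1 (1 - x₀) := ⟨_, rfl⟩
  have hτ1 : τ ≤ 1 := by rw [hτ]; exact min_le_left _ _
  have hτ2 : τ ≤ 1 - x₀ := by rw [hτ]; exact min_le_right _ _
  have hτ0 : 0 < τ := by
    rw [hτ]
    exact lt_min one_pos (by linarith)
  have hfJ : fJ - fD ≤ (1 - τ) * (Sl * Real.log 2) := by
    rw [← hx2]
    exact mul_le_mul_of_nonneg_right (by linarith) hSl.le
  obtain ⟨ρ, hρ⟩ : ∃ ρ : ℝ, ρ = 2 * (Sl - 1) / Sl := ⟨_, rfl⟩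
  have hρ0 : 0 ≤ ρ := by rw [hρ]; positivity
  obtain ⟨η, hη, hno⟩ := noD hτ0 hρ0
  obtain ⟨n₀, hn₀⟩ := exists_nat_ge (1 / η)
  obtain ⟨n, hn⟩ : ∃ n : ℕ, n = n₀ + 1 := ⟨_, rfl⟩
  have hn1 : 1 ≤ n := by omega
  have hηn : 1 ≤ η * n := by
    have h1 : (n : ℝ) = n₀ + 1 := by rw [hn]; push_cast; ring
    rw [div_le_iff₀ hη] at hn₀
    rw [h1]
    linarith
  have hnr : (0 : ℝ) < (n : ℝ) + 1 := by positivity
  obtain ⟨c₀, hc₀⟩ : ∃ c₀ : ℝ, c₀ = min 1 (η / (n + 1)) := ⟨_, rfl⟩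
  have hc0 : 0 < c₀ := by
    rw [hc₀]
    exact lt_min one_pos (by positivity)
  have hc1 : c₀ ≤ 1 := by rw [hc₀]; exact min_le_left _ _
  have hc2 : ((n : ℝ) + 1) * c₀ ≤ η := by
    have h1 : c₀ ≤ η / (n + 1) := by rw [hc₀]; exact min_le_right _ _
    rw [le_div_iff₀ hnr] at h1
    linarith
  -- the accuracy
  obtain ⟨κ, hκ⟩ : ∃ κ : ℝ, κ = 1 / (2 * (Sl - 1)) := ⟨_, rfl⟩
  have hκ0 : 0 < κ := by rw [hκ]; positivity
  obtain ⟨cc, hcc⟩ : ∃ cc : ℝ, cc = 1 / (8 * (1 + κ)) := ⟨_, rfl⟩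
  have hcc0 : 0 < cc := by rw [hcc]; positivity
  have heK : 0 ≤ eK Sl fD := by
    unfold eK
    positivity
  obtain ⟨z1, hz1⟩ : ∃ z : ℝ, z = 4 * (1 + 4 * Sl / (Sl - 1)) := ⟨_, rfl⟩
  obtain ⟨z2, hz2⟩ : ∃ z : ℝ, z = 2 * (Sl + 2) / cc := ⟨_, rfl⟩
  obtain ⟨z3, hz3⟩ : ∃ z : ℝ, z = n * Sl / cc := ⟨_, rfl⟩
  obtain ⟨z4, hz4⟩ : ∃ z : ℝ, z = Sl * κ / cc := ⟨_, rfl⟩
  obtain ⟨z5, hz5⟩ : ∃ z : ℝ, z = (22 * Sl + 6 + 3 * eK Sl fD) * 4 / (η * cc) := ⟨_, rfl⟩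
  have y1 : 0 ≤ z1 := by rw [hz1]; positivity
  have y2 : 0 ≤ z2 := by rw [hz2]; positivity
  have y3 : 0 ≤ z3 := by rw [hz3]; positivity
  have y4 : 0 ≤ z4 := by rw [hz4]; positivity
  have y5 : 0 ≤ z5 := by rw [hz5]; positivity
  obtain ⟨ε, hε⟩ : ∃ ε : ℝ, ε = 1 / (z1 + z2 + z3 + z4 + z5 + 1) := ⟨_, rfl⟩
  have hε0 : 0 < ε := by rw [hε]; positivity
  have hεz : ε * (z1 + z2 + z3 + z4 + z5 + 1) = 1 := by
    rw [hε]
    field_simp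
  have x1 : 0 ≤ ε * z1 := mul_nonneg hε0.le y1
  have x2 : 0 ≤ ε * z2 := mul_nonneg hε0.le y2
  have x3 : 0 ≤ ε * z3 := mul_nonneg hε0.le y3
  have x4 : 0 ≤ ε * z4 := mul_nonneg hε0.le y4
  have x5 : 0 ≤ ε * z5 := mul_nonneg hε0.le y5
  have u1 : ε * (4 * (1 + 4 * Sl / (Sl - 1))) ≤ 1 := by rw [← hz1]; linarith
  have u2 : ε * (2 * (Sl + 2)) ≤ cc := by
    have : ε * z2 ≤ 1 := by linarith
    rw [hz2, mul_div_assoc', div_le_one hcc0] at this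
    exact this
  have u3 : ε * (n * Sl) ≤ cc := by
    have : ε * z3 ≤ 1 := by linarith
    rw [hz3, mul_div_assoc', div_le_one hcc0] at this
    exact this
  have u4 : ε * (Sl * κ) ≤ cc := by
    have : ε * z4 ≤ 1 := by linarith
    rw [hz4, mul_div_assoc', div_le_one hcc0] at this
    exact this
  have u5 : ε * ((22 * Sl + 6 + 3 * eK Sl fD) * 4) ≤ η * cc := by
    have : ε * z5 ≤ 1 := by linarith
    rw [hz5, mul_div_assoc', div_le_one (by positivity)] at this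
    exact this
  -- the box
  obtain ⟨r1, hr1, H1⟩ := box_pos hder hε0 n
  obtain ⟨r2, hr2, H2⟩ := rX ε hε0
  obtain ⟨r3, hr3, H3⟩ := rD ε hε0
  obtain ⟨r4, hr4, H4⟩ := rJ ε hε0
  obtain ⟨r5, hr5, H5⟩ := hjet (c₀ * ε / 3) (by positivity)
  obtain ⟨r6, hr6, H6⟩ := hwh (ε / 2) (half_pos hε0)
  obtain ⟨r, hr, s1, s2, s3, s4, s5, s6, s7, s8⟩ : ∃ r : ℝ, 0 < r ∧ r < r1 ∧ r < r2 ∧ r < r3 ∧
      r < r4 ∧ r < r5 ∧ r < B - γ ∧ r < lam ∧ r < r6 := by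
    have hBγ : 0 < B - γ := by linarith
    obtain ⟨a, ha, a1, a2, a3⟩ : ∃ a : ℝ, 0 < a ∧ a ≤ r1 ∧ a ≤ r2 ∧ a ≤ r3 :=
      ⟨min r1 (min r2 r3), by positivity, min_le_left _ _, (min_le_right _ _).trans
        (min_le_left _ _), (min_le_right _ _).trans (min_le_right _ _)⟩
    obtain ⟨b, hb, b1, b2, b3⟩ : ∃ b : ℝ, 0 < b ∧ b ≤ r4 ∧ b ≤ r5 ∧ b ≤ r6 :=
      ⟨min r4 (min r5 r6), by positivity, min_le_left _ _, (min_le_right _ _).trans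
        (min_le_left _ _), (min_le_right _ _).trans (min_le_right _ _)⟩
    obtain ⟨c, hc, c1, c2, c3, c4⟩ : ∃ c : ℝ, 0 < c ∧ c ≤ a ∧ c ≤ b ∧ c ≤ B - γ ∧ c ≤ lam :=
      ⟨min (min a b) (min (B - γ) lam), by positivity,
        (min_le_left _ _).trans (min_le_left _ _), (min_le_left _ _).trans (min_le_right _ _),
        (min_le_right _ _).trans (min_le_left _ _),
        (min_le_right _ _).trans (min_le_right _ _)⟩
    refine ⟨c / 2, by positivity, ?_, ?_, ?_, ?_, ?_, ?_, ?_, ?_⟩ <;> linarith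
  obtain ⟨w, v, kk, L, κ', δ, hbox⟩ := H1 r hr s1
  have hκ' : κ' = κ := by rw [hbox.hκ, hκ]
  rw [hκ'] at hbox
  obtain ⟨-, hL0, -, -, hκ2⟩ := hbox.sz hS hr
  have hcL : Sl * (κ * L) = cc * r := by
    have h2 : L * (4 * Sl * (1 + κ)) = r * (Sl - 1) := by
      rw [hbox.hL]
      field_simp
    have h3 : Sl * (κ * L) * (8 * (1 + κ)) = r := by
      have h4 : Sl * (κ * L) * (8 * (1 + κ)) = 2 * κ * (L * (4 * Sl * (1 + κ))) := by ring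
      rw [h4, h2]
      linear_combination r * hκ2
    rw [hcc, one_div, inv_mul_eq_div, eq_div_iff (by positivity)]
    exact h3
  have her : 0 < ε * r := mul_pos hε0 hr
  have hε1 : ε + δ ≤ 1 / 4 := by
    have h1 : δ = ε * (4 * Sl / (Sl - 1)) := by rw [hbox.hδ]; ring
    rw [h1]
    linarith
  have hε2 : 2 * ((Sl + 2) * (ε * r)) ≤ Sl * (κ * L) := by
    rw [hcL]
    have := mul_le_mul_of_nonneg_right u2 hr.le
    linarith
  have hεn : ε * r * n ≤ κ * L := by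
    have h1 := mul_le_mul_of_nonneg_right u3 hr.le
    rw [← hcL] at h1
    have h2 : Sl * (ε * r * n) ≤ Sl * (κ * L) := by linarith
    exact le_of_mul_le_mul_left h2 hS0
  have hεL : ε * r ≤ L := by
    have h1 := mul_le_mul_of_nonneg_right u4 hr.le
    rw [← hcL] at h1
    have h2 : Sl * κ * (ε * r) ≤ Sl * κ * L := by linarith
    exact le_of_mul_le_mul_left h2 (mul_pos hS0 hκ0)
  obtain ⟨ow, on, onk, okk⟩ := hbox.ord hS hr hε0 hn1 hεn hεL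
  obtain ⟨pv, pk⟩ := hbox.pr hS hr hε0 hε1
  obtain ⟨hbw, hbv, hbk⟩ := hbox.bx hS hr hε0 hε1
  have hwk : (w : ℝ) < kk n := by
    have h1 := hbox.w2
    have h2 := hbox.v1 n le_rfl
    have h3 := (pT_le hL0 hκ0 (le_refl n)).1
    have h4 : (v n : ℝ) ≤ kk n := by exact_mod_cast onk n le_rfl
    linarith
  obtain ⟨Pm, hPm, hJR⟩ := H5 r hr s5 w (kk n) hbox.w1.le (by exact_mod_cast hwk)
    (hbk n le_rfl).2
  have hPm' : p (v n) < Pm := by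
    have := (pk n le_rfl).1
    linarith
  have e3 : c₀ * ε / 3 * r = c₀ * (ε * r) / 3 := by ring
  rw [e3] at hJR
  refine dead_boxG hL hF hbox hS hr hε0 hn1 hε1 hε2 hεn hεL hA (by linarith) s7
    (fun x x1 x2 => by
      obtain ⟨y1, y2⟩ := H6 r hr s8 x x1 x2
      exact ⟨y1, by linarith⟩) (H2 r hr s2)
    (H3 r hr s3) (H4 r hr s4) hfX hfD (by linarith) (by linarith) hfJ hρ hη hno hηn hc0 hc1 hc2
    hPm' hJR ?_
  rw [hcL]
  have := mul_le_mul_of_nonneg_right u5 hr.le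
  linarith

open Set MeasureTheory in
/-- **The position is full given the velocity**, in the boxes of almost every point. -/
theorem dead_clsG {I : Finset (Fin m)} {k : Fin m} {sh : ℝ} {wh : ℚ → ℝ} {p : ℚ → ℝ}
    {A B lam p₀ lam' : ℝ}
    (hL : LbsG S f y I k sh wh p A B p₀ lam') {Q₀ : Qt m U₀} {θX θD θJ : ℚ → ℚ → ℝ}
    (hF : FmsG S f y I k sh wh p Q₀ A B lam θX θD θJ) (hlam : 0 < lam) :
    ∀ᵐ γ : ℝ, γ ∈ Ioo A B → ∀ P Sl : ℝ, 1 < Sl → SlP p γ P Sl → WhP wh sh γ →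
      FulX p θX γ → JetPG S f y Q₀ I k sh wh p γ → ∀ e : ℝ, 0 < e → ∃ r₀ : ℝ, 0 < r₀ ∧ ∀ r : ℝ, 0 < r → r < r₀ →
      ∀ w o : ℚ, γ - r ≤ w → w ≤ o → (o : ℝ) ≤ γ + r →
        (p o - p w) * Real.log 2 - e * r ≤ θJ w o - θD w o := by
  obtain ⟨θ₀X, nX⟩ := hF.nX
  obtain ⟨θ₀D, nD⟩ := hF.nD
  obtain ⟨θ₀J, nJ⟩ := hF.nJ
  obtain ⟨a1, a2⟩ := nX.super hL.ne hL.pos hL.B1 hL.rn hF.X
  obtain ⟨b1, b2⟩ := nD.super hL.ne hL.pos hL.B1 hL.rn hF.D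
  obtain ⟨c1, c2⟩ := nJ.super hL.ne hL.pos hL.B1 hL.rn (hF.X.prod hL.pos hF.D)
  filter_upwards [rate_rat hlam a1 a2, rate_rat hlam b1 b2, rate_rat hlam c1 c2]
    with γ g1 g2 g3 hγ P Sl hS hder hwh hX hjet
  obtain ⟨fX, -, rX⟩ := g1 hγ
  obtain ⟨fD, hfD, rD⟩ := g2 hγ
  obtain ⟨fJ, -, rJ⟩ := g3 hγ
  have l0 : 0 < Real.log 2 := Real.log_pos one_lt_two
  have l1 : Real.log 2 ≤ 1 := by
    have := Real.log_two_lt_d9
    linarith
  -- the slope in a box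
  have hsb : ∀ ε : ℝ, 0 < ε → ∃ r₀ : ℝ, 0 < r₀ ∧ ∀ r : ℝ, 0 < r → r < r₀ → ∀ w o : ℚ,
      γ - r ≤ w → w ≤ o → (o : ℝ) ≤ γ + r → |p o - p w - Sl * (o - w)| ≤ 2 * (ε * r) := by
    intro ε hε
    obtain ⟨r₀, hr₀, H⟩ := hder ε hε
    refine ⟨r₀, hr₀, fun r hr hrr w o h1 h2 h3 => ?_⟩
    have h2' : (w : ℝ) ≤ o := by exact_mod_cast h2
    have k1 : |(w : ℝ) - γ| ≤ r := by
      rw [abs_le]
      constructor <;> linarith
    have k2 : |(o : ℝ) - γ| ≤ r := by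
      rw [abs_le]
      constructor <;> linarith
    have k3 := (H w (k1.trans hrr.le)).trans (mul_le_mul_of_nonneg_left k1 hε.le)
    have k4 := (H o (k2.trans hrr.le)).trans (mul_le_mul_of_nonneg_left k2 hε.le)
    rw [abs_le] at k3 k4 ⊢
    constructor <;> linarith [k3.1, k3.2, k4.1, k4.2]
  have hfX : Sl * Real.log 2 ≤ fX := by
    refine le_of_forall_pos_le_add fun ε' hε' => ?_
    obtain ⟨ε, hε⟩ : ∃ ε : ℝ, ε = ε' / 4 := ⟨_, rfl⟩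
    have hε0 : 0 < ε := by rw [hε]; positivity
    obtain ⟨r1, hr1, H1⟩ := rX ε hε0
    obtain ⟨r2, hr2, H2⟩ := hsb ε hε0
    obtain ⟨r3, hr3, H3⟩ := hX ε hε0
    obtain ⟨r, hr, s1, s2, s3⟩ : ∃ r : ℝ, 0 < r ∧ r < r1 ∧ r < r2 ∧ r < r3 := by
      refine ⟨min r1 (min r2 r3) / 2, by positivity, ?_⟩
      have t : 0 < min r1 (min r2 r3) := by positivity
      have u1 := min_le_left r1 (min r2 r3)
      have u2 := (min_le_right r1 (min r2 r3)).trans (min_le_left _ _)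
      have u3 := (min_le_right r1 (min r2 r3)).trans (min_le_right _ _)
      refine ⟨?_, ?_, ?_⟩ <;> linarith
    obtain ⟨w, w1, w2⟩ := exists_rat_btwn (show γ - r < γ - r / 2 by linarith)
    obtain ⟨o, o1, o2⟩ := exists_rat_btwn (show γ + r / 2 < γ + r by linarith)
    have hwo : (w : ℝ) ≤ o := by linarith
    have hwo' : w ≤ o := by exact_mod_cast hwo
    have h1 := abs_le.1 (H1 r hr s1 w o w1.le hwo' o2.le)
    have h2 := abs_le.1 (H2 r hr s2 w o w1.le hwo' o2.le)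
    have h3 := H3 r hr s3 w o w1.le hwo' o2.le
    have h4 : (Sl * (o - w) - 2 * (ε * r)) * Real.log 2 ≤ (p o - p w) * Real.log 2 :=
      mul_le_mul_of_nonneg_right (by linarith [h2.1]) l0.le
    have h5 : 2 * (ε * r) * Real.log 2 ≤ 2 * (ε * r) * 1 :=
      mul_le_mul_of_nonneg_left l1 (by positivity)
    have h6 : (Sl * Real.log 2 - fX) * (o - w) ≤ 4 * (ε * r) := by linarith [h1.2]
    by_contra hcon
    rw [not_le] at hcon
    have h7 : 0 < Sl * Real.log 2 - fX := by linarith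
    have h8 : (Sl * Real.log 2 - fX) * r ≤ (Sl * Real.log 2 - fX) * (o - w) :=
      mul_le_mul_of_nonneg_left (by linarith) h7.le
    have h9 : (Sl * Real.log 2 - fX) * r ≤ 4 * ε * r := by linarith
    have h10 := le_of_mul_le_mul_right h9 hr
    rw [hε] at h10
    linarith
  have key := dead_ptG hL hF hlam hγ.1 hγ.2 hS hder hwh rX rD rJ hfX hfD hjet
  intro e he
  obtain ⟨r1, hr1, H1⟩ := rD (e / 4) (by positivity)
  obtain ⟨r2, hr2, H2⟩ := rJ (e / 4) (by positivity)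
  obtain ⟨r3, hr3, H3⟩ := hsb (e / 4) (by positivity)
  refine ⟨min r1 (min r2 r3), lt_min hr1 (lt_min hr2 hr3), fun r hr hrr w o h1 h2 h3 => ?_⟩
  have t1 : r < r1 := lt_of_lt_of_le hrr (min_le_left _ _)
  have t2 : r < r2 := lt_of_lt_of_le hrr ((min_le_right _ _).trans (min_le_left _ _))
  have t3 : r < r3 := lt_of_lt_of_le hrr ((min_le_right _ _).trans (min_le_right _ _))
  have k1 := abs_le.1 (H1 r hr t1 w o h1 h2 h3)
  have k2 := abs_le.1 (H2 r hr t2 w o h1 h2 h3)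
  have k3 := abs_le.1 (H3 r hr t3 w o h1 h2 h3)
  have h2' : (w : ℝ) ≤ o := by exact_mod_cast h2
  have k4 : Sl * Real.log 2 * (o - w) ≤ (fJ - fD) * (o - w) :=
    mul_le_mul_of_nonneg_right key (by linarith)
  have k5 : (p o - p w) * Real.log 2 ≤ (Sl * (o - w) + 2 * (e / 4 * r)) * Real.log 2 :=
    mul_le_mul_of_nonneg_right (by linarith [k3.2]) l0.le
  have k6 : 2 * (e / 4 * r) * Real.log 2 ≤ 2 * (e / 4 * r) * 1 :=
    mul_le_mul_of_nonneg_left l1 (by positivity)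
  linarith [k1.2, k2.1]

end Pool.AVG96
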