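import Pool.Agent.H71.AVG.Law

/-!
# The step of the chain of mutual informations

`mi_step`: `A`: far digits of a prefix, `N`: its near digits, `X`: far digits of one more
coordinate, `n`: its near digits, `n₀`: the digits which the record `R` sees.
-/

set_option autoImplicit false

namespace Pool.AVG96

open Finset Real
open Pool.Agent.H49.Ent Pool.Agent.H32.Dense Pool.STK Pool.K2S Pool.OWN68
open Pool.KVA (MI)
open Pool.AVG71 (MI_eq MI_eq')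

variable {Ω 𝓡 𝓐 𝓝 𝓧 𝓜 𝓜' 𝓦 𝓥 : Type} [Fintype Ω] {p : Ω → ℝ}

/-- The near digits of the last coordinate can be replaced by fewer digits. -/
theorem mi_step1 (h0 : ∀ ω, 0 ≤ p ω) (R : Ω → 𝓡) (Y : Ω → 𝓐) (n : Ω → 𝓜) (n₀ : Ω → 𝓜')
    (W : Ω → 𝓦) {e₄ e₅ : ℝ} (h4 : CH p n₀ (fun ω => (n ω, W ω)) ≤ e₄)
    (h5 : CH p n (fun ω => (Y ω, W ω)) ≤ e₅) :
    MI p R Y (fun ω => (n ω, W ω)) ≤ MI p R Y (fun ω => (n₀ ω, W ω)) + e₄ + e₅ := by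
  rw [MI_eq' h0, MI_eq' h0]
  have a1 := CH_le_add h0 Y n₀ (fun ω => (n ω, W ω))
  have a2 := CH_chain h0 Y n (fun ω => (n₀ ω, W ω))
  have a3 := CH_chain2 h0 Y n (fun ω => (n₀ ω, W ω))
  have a4 : CH p n (fun ω => (Y ω, (n₀ ω, W ω))) ≤ CH p n (fun ω => (Y ω, W ω)) :=
    CH_mono_cond h0 fun ω ω' _ _ hh => by
      simp only [Prod.mk.injEq] at hh ⊢
      exact ⟨hh.1, hh.2.2⟩
  have a5 : CH p Y (fun ω => (n₀ ω, (n ω, W ω))) = CH p Y (fun ω => (n ω, (n₀ ω, W ω))) :=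
    CH_congr h0 (fun _ _ _ _ hh => (Prod.ext_iff.mp hh).1)
      (fun _ _ _ _ hh => (Prod.ext_iff.mp hh).1) (fun ω ω' _ _ hh => by
        simp only [Prod.mk.injEq] at hh ⊢
        exact ⟨hh.2.1, hh.1, hh.2.2⟩) (fun ω ω' _ _ hh => by
        simp only [Prod.mk.injEq] at hh ⊢
        exact ⟨hh.2.1, hh.1, hh.2.2⟩)
  -- below
  have b1 := CH_le_add h0 Y n (fun ω => (R ω, (n₀ ω, W ω)))
  have b2 : CH p Y (fun ω => (n ω, (R ω, (n₀ ω, W ω)))) ≤ CH p Y (fun ω => (R ω, (n ω, W ω))) :=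
    CH_mono_cond h0 fun ω ω' _ _ hh => by
      simp only [Prod.mk.injEq] at hh ⊢
      exact ⟨hh.2.1, hh.1, hh.2.2.2⟩
  have b3 : CH p n (fun ω => (R ω, (n₀ ω, W ω))) ≤ CH p n (fun ω => (n₀ ω, W ω)) :=
    CH_mono_cond h0 fun ω ω' _ _ hh => (Prod.ext_iff.mp hh).2
  linarith

/-- **The step.** -/
theorem mi_step (h0 : ∀ ω, 0 ≤ p ω) (R : Ω → 𝓡) (A : Ω → 𝓐) (N : Ω → 𝓝) (X : Ω → 𝓧) (n : Ω → 𝓜)
    (n₀ : Ω → 𝓜') (W : Ω → 𝓦) {e₁ e₂ e₃ e₄ e₅ e₆ : ℝ}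
    (h1 : MI p R A (fun ω => (N ω, W ω)) ≤ e₁)
    (h2 : CH p n₀ (fun ω => (N ω, (R ω, W ω))) ≤ e₂)
    (h3 : MI p R X (fun ω => (n₀ ω, (A ω, W ω))) ≤ e₃)
    (h4 : CH p n₀ (fun ω => ((N ω, n ω), W ω)) ≤ e₄)
    (h5 : CH p n (fun ω => ((A ω, X ω), W ω)) ≤ e₅)
    (h6 : CH p N (fun ω => (A ω, W ω)) ≤ e₆) :
    MI p R (fun ω => (A ω, X ω)) (fun ω => ((N ω, n ω), W ω)) ≤
      e₁ + e₂ + e₃ + e₄ + e₅ + e₆ := by
  -- first replace `(N, n)` by `(N, n₀)`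
  have c1 : MI p R (fun ω => (A ω, X ω)) (fun ω => ((N ω, n ω), W ω)) =
      MI p R (fun ω => (A ω, X ω)) (fun ω => (n ω, (N ω, W ω))) := by
    have h : ∀ {T : Type} (Z : Ω → T), CH p Z (fun ω => ((N ω, n ω), W ω)) =
        CH p Z (fun ω => (n ω, (N ω, W ω))) := fun Z =>
      CH_congr h0 (fun _ _ _ _ hh => (Prod.ext_iff.mp hh).1)
        (fun _ _ _ _ hh => (Prod.ext_iff.mp hh).1) (fun ω ω' _ _ hh => by
        simp only [Prod.mk.injEq] at hh ⊢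
        exact ⟨hh.1.2, hh.1.1, hh.2⟩) (fun ω ω' _ _ hh => by
        simp only [Prod.mk.injEq] at hh ⊢
        exact ⟨⟨hh.2.1, hh.1⟩, hh.2.2⟩)
    unfold Pool.KVA.MI
    rw [h, h, h]
  have c2 := mi_step1 h0 R (fun ω => (A ω, X ω)) n n₀ (fun ω => (N ω, W ω)) (e₄ := e₄) (e₅ := e₅)
    (le_trans (CH_mono_cond h0 fun ω ω' _ _ hh => by
      simp only [Prod.mk.injEq] at hh ⊢
      exact ⟨⟨hh.2.1, hh.1⟩, hh.2.2⟩) h4)
    (le_trans (CH_mono_cond h0 fun ω ω' _ _ hh => by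
      simp only [Prod.mk.injEq] at hh ⊢
      exact ⟨hh.1, hh.2.2⟩) h5)
  have c3 : MI p R (fun ω => (A ω, X ω)) (fun ω => (n₀ ω, (N ω, W ω))) ≤
      e₁ + e₂ + e₃ + e₆ := by
    rw [MI_eq' h0] at h1 h3 ⊢
    have a1 := CH_chain2 h0 A X (fun ω => (n₀ ω, (N ω, W ω)))
    have a2 : CH p A (fun ω => (n₀ ω, (N ω, W ω))) ≤ CH p A (fun ω => (N ω, W ω)) :=
      CH_mono_cond h0 fun ω ω' _ _ hh => (Prod.ext_iff.mp hh).2
    have a3 : CH p X (fun ω => (A ω, (n₀ ω, (N ω, W ω)))) ≤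
        CH p X (fun ω => (n₀ ω, (A ω, W ω))) :=
      CH_mono_cond h0 fun ω ω' _ _ hh => by
        simp only [Prod.mk.injEq] at hh ⊢
        exact ⟨hh.2.1, hh.1, hh.2.2.2⟩
    have b1 := CH_chain2 h0 A X (fun ω => (R ω, (n₀ ω, (N ω, W ω))))
    have b2 := CH_le_add h0 A n₀ (fun ω => (R ω, (N ω, W ω)))
    have b3 : CH p n₀ (fun ω => (R ω, (N ω, W ω))) ≤ CH p n₀ (fun ω => (N ω, (R ω, W ω))) :=
      CH_mono_cond h0 fun ω ω' _ _ hh => by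
        simp only [Prod.mk.injEq] at hh ⊢
        exact ⟨hh.2.1, hh.1, hh.2.2⟩
    have b4 : CH p A (fun ω => (n₀ ω, (R ω, (N ω, W ω)))) ≤
        CH p A (fun ω => (R ω, (n₀ ω, (N ω, W ω)))) :=
      CH_mono_cond h0 fun ω ω' _ _ hh => by
        simp only [Prod.mk.injEq] at hh ⊢
        exact ⟨hh.2.1, hh.1, hh.2.2⟩
    have b5 := CH_le_add h0 X N (fun ω => (R ω, (n₀ ω, (A ω, W ω))))
    have b6 : CH p X (fun ω => (N ω, (R ω, (n₀ ω, (A ω, W ω))))) ≤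
        CH p X (fun ω => (A ω, (R ω, (n₀ ω, (N ω, W ω))))) :=
      CH_mono_cond h0 fun ω ω' _ _ hh => by
        simp only [Prod.mk.injEq] at hh ⊢
        exact ⟨hh.2.2.2.1, hh.2.1, hh.2.2.1, hh.1, hh.2.2.2.2⟩
    have b7 : CH p N (fun ω => (R ω, (n₀ ω, (A ω, W ω)))) ≤ CH p N (fun ω => (A ω, W ω)) :=
      CH_mono_cond h0 fun ω ω' _ _ hh => by
        simp only [Prod.mk.injEq] at hh ⊢
        exact hh.2.2
    linarith
  linarith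

/-- Equal quantities. -/
theorem mi_congr (h0 : ∀ ω, 0 ≤ p ω) (R : Ω → 𝓡) {A : Ω → 𝓐} {A' : Ω → 𝓧} {N : Ω → 𝓝}
    {N' : Ω → 𝓜} (W : Ω → 𝓦) (a1 : Det p A A') (a2 : Det p A' A) (n1 : Det p N N')
    (n2 : Det p N' N) :
    MI p R A (fun ω => (N ω, W ω)) = MI p R A' (fun ω => (N' ω, W ω)) := by
  have d1 : Det p (fun ω => (N ω, W ω)) (fun ω => (N' ω, W ω)) := fun ω ω' x y hh =>
    Prod.ext (n1 ω ω' x y (Prod.ext_iff.mp hh).1) (Prod.ext_iff.mp hh).2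
  have d2 : Det p (fun ω => (N' ω, W ω)) (fun ω => (N ω, W ω)) := fun ω ω' x y hh =>
    Prod.ext (n2 ω ω' x y (Prod.ext_iff.mp hh).1) (Prod.ext_iff.mp hh).2
  unfold Pool.KVA.MI
  have e1 : CH p R (fun ω => (N ω, W ω)) = CH p R (fun ω => (N' ω, W ω)) :=
    CH_congr h0 (fun _ _ _ _ hh => (Prod.ext_iff.mp hh).1)
      (fun _ _ _ _ hh => (Prod.ext_iff.mp hh).1) d1 d2
  have e2 : CH p A (fun ω => (N ω, W ω)) = CH p A' (fun ω => (N' ω, W ω)) :=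
    CH_congr h0 (fun ω ω' x y hh => a1 ω ω' x y (Prod.ext_iff.mp hh).1)
      (fun ω ω' x y hh => a2 ω ω' x y (Prod.ext_iff.mp hh).1) d1 d2
  have e3 : CH p (fun ω => (R ω, A ω)) (fun ω => (N ω, W ω)) =
      CH p (fun ω => (R ω, A' ω)) (fun ω => (N' ω, W ω)) :=
    CH_congr h0 (fun ω ω' x y hh => by
        have h1 := Prod.ext_iff.mp (Prod.ext_iff.mp hh).1
        exact Prod.ext h1.1 (a1 ω ω' x y h1.2))
      (fun ω ω' x y hh => by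
        have h1 := Prod.ext_iff.mp (Prod.ext_iff.mp hh).1
        exact Prod.ext h1.1 (a2 ω ω' x y h1.2)) d1 d2
  rw [e1, e2, e3]

/-- A constant. -/
theorem mi_const (h0 : ∀ ω, 0 ≤ p ω) (R : Ω → 𝓡) {A : Ω → 𝓐} (W : Ω → 𝓦) (h : Det p W A) :
    MI p R A W = 0 := by
  rw [MI_eq' h0, CH_eq_zero h0 h, CH_eq_zero h0 fun ω ω' x y hh =>
    h ω ω' x y (Prod.ext_iff.mp hh).2]
  ring

end Pool.AVG96
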