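import Pool.Agent.H96.AVG.Box

/-!
# The far balls

`HNum`: the numbers of the relative families over far digits, at rational intervals;
`hnum_cls`: one subclass with these numbers. `far_all`: at almost every `g` there are far balls
`a l` for all coordinates, arbitrarily near `g`, with a small mutual information (`FarAt`).
-/

set_option autoImplicit false

namespace Pool.AVG96

open Finset Real MvPolynomial MeasureTheory Filter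
open Pool.Agent.H49.Ent Pool.Agent.H32.Dense Pool.STK Pool.KA Pool.KSAT Pool.K2S Pool.PB Pool.S6C
  Pool.GEN Pool.RCD Pool.LA91
open Pool.OWN83 (TwoRelS TRelS TwoParS rel_clsS)

variable {m : ℕ} {α γ : ∀ J : ℕ, Fam m J → Type}
  {f : ∀ (J : ℕ) (F : Fam m J), F.Ω → α J F} {y : ∀ (J : ℕ) (F : Fam m J), F.Ω → γ J F}
  {S : PCl m} {c : ℕ → Fin m} {r₀ r : ℕ} {s B Λ : ℝ} {wh : ℚ → ℝ} {sc : ℚ → ℕ → ℝ}
  {PA : ℚ → Prop}

theorem farQ_congr {i : ℕ} {a a' : ℕ → ℚ} (ha : ∀ l < i, a l = a' l) (w : ℚ) :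
    farQ m c r₀ i wh sc a w = farQ m c r₀ i wh sc a' w := by
  unfold farQ
  congr 1
  funext l j'
  unfold farD
  by_cases h : l < i
  · rw [if_pos h, if_pos h, ha l h]
  · rw [if_neg h, if_neg h]

/-- The far balls of a list. -/
def lst (L : List ℚ) (l : ℕ) : ℚ := L.getD l 0

/-- The numbers of the coordinate `i` over the far balls `L` hold on the interval `(A', B')`. -/
def FarOk (wh : ℚ → ℝ) (sc : ℚ → ℕ → ℝ) (r₀ i : ℕ) (Λ : ℝ) (L : List ℚ) (A' B' : ℚ) : Prop :=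
  ∃ (lv : ℕ → ℝ) (σ₀ : ℝ), FarS wh sc r₀ i (lst L) Λ A' B' lv σ₀ ∧ FarT sc r₀ i Λ A' B' lv σ₀

/-- **The numbers** of the relative families, at the rational intervals with the left ends `PA`. -/
def HNum (S : PCl m) (f : ∀ (J : ℕ) (F : Fam m J), F.Ω → α J F)
    (y : ∀ (J : ℕ) (F : Fam m J), F.Ω → γ J F) (c : ℕ → Fin m) (r₀ r : ℕ) (s : ℝ)
    (PA : ℚ → Prop) (B Λ : ℝ) (wh : ℚ → ℝ) (sc : ℚ → ℕ → ℝ) : Prop :=
  ∀ i, r₀ ≤ i → i ≤ r → ∀ (L : List ℚ) (A' B' : ℚ), PA A' → A' < B' → (B' : ℝ) ≤ B →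
    FarOk wh sc r₀ i Λ L A' B' → ∃ (θ₀ : ℚ → ℝ) (θ : ℚ → ℚ → ℝ),
      TRelS S f y s (farQ m c r₀ i wh sc (lst L)) (FamX m c i wh sc) A' B' ((B' : ℝ) - A') θ₀ θ

theorem HNum.sub {S' : PCl m} (hs : ∀ (τ : ℝ) (J : ℕ) (F : Fam m J) (A : F.Ω → Prop),
    S'.St τ J F A → S.St τ J F A) (h : HNum S f y c r₀ r s PA B Λ wh sc) :
    HNum S' f y c r₀ r s PA B Λ wh sc := by
  intro i h0 hi L A' B' h1 h2 h3 h4
  obtain ⟨θ₀, θ, h5⟩ := h i h0 hi L A' B' h1 h2 h3 h4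
  exact ⟨θ₀, θ, h5.sub hs⟩

/-- **One subclass with all numbers.** -/
theorem hnum_cls (hne : S.Ne)
    (hpos : ∀ (τ : ℝ) (J : ℕ) (F : Fam m J) (A : F.Ω → Prop), S.St τ J F A → 0 < Pe F.p A)
    (h : ∀ A' : ℚ, PA A' → NCh S f y c r₀ r s A' B Λ wh sc) :
    ∃ S' : PCl m, S'.Ne ∧
      (∀ (τ : ℝ) (J : ℕ) (F : Fam m J) (A : F.Ω → Prop), S'.St τ J F A → S.St τ J F A) ∧
      HNum S' f y c r₀ r s PA B Λ wh sc := by
  classical
  obtain ⟨ι, hι⟩ : ∃ ι : Type, ι = {x : ℕ × List ℚ × ℚ × ℚ // (r₀ ≤ x.1 ∧ x.1 ≤ r) ∧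
    PA x.2.2.1 ∧ x.2.2.1 < x.2.2.2 ∧ (x.2.2.2 : ℝ) ≤ B ∧
    FarOk wh sc r₀ x.1 Λ x.2.1 x.2.2.1 x.2.2.2} := ⟨_, rfl⟩
  subst hι
  obtain ⟨S', h1, h2, h3⟩ := rel_clsS (ι := {x : ℕ × List ℚ × ℚ × ℚ // (r₀ ≤ x.1 ∧ x.1 ≤ r) ∧
      PA x.2.2.1 ∧ x.2.2.1 < x.2.2.2 ∧ (x.2.2.2 : ℝ) ≤ B ∧
      FarOk wh sc r₀ x.1 Λ x.2.1 x.2.2.1 x.2.2.2}) hne hpos
    (fun _ => ℕ → ℕ → ℤ) (fun _ => ℤ × ℤ) (fun _ => α) (fun _ => γ) (fun _ => f) (fun _ => y)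
    (fun _ => s) (fun x => farQ m c r₀ x.1.1 wh sc (lst x.1.2.1)) (fun x => FamX m c x.1.1 wh sc)
    (fun x => (x.1.2.2.1 : ℝ)) (fun x => (x.1.2.2.2 : ℝ))
    (fun x => (x.1.2.2.2 : ℝ) - x.1.2.2.1)
    (fun x => by
      obtain ⟨⟨i, L, A', B'⟩, ⟨a0, a1⟩, a2, a3, a4, lv, σ₀, a5, a6⟩ := x
      exact rel_fam ((h A' a2).cut le_rfl a4) a0 a1 a5 a6)
    (fun x => by
      obtain ⟨⟨i, L, A', B'⟩, ⟨a0, a1⟩, a2, a3, a4, a5⟩ := x
      have a3' : (A' : ℝ) < B' := by exact_mod_cast a3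
      show (0 : ℝ) < (B' : ℝ) - A'
      linarith)
  exact ⟨S', h1, h2, fun i a0 a1 L A' B' a2 a3 a4 a5 =>
    h3 ⟨(i, L, A', B'), ⟨a0, a1⟩, a2, a3, a4, a5⟩⟩

/-- **The mutual information of the coordinate `i`** in the boxes of `g`. -/
def FarAt (S : PCl m) (f : ∀ (J : ℕ) (F : Fam m J), F.Ω → α J F)
    (y : ∀ (J : ℕ) (F : Fam m J), F.Ω → γ J F) (c : ℕ → Fin m) (r₀ : ℕ) (s : ℝ)
    (wh : ℚ → ℝ) (sc : ℚ → ℕ → ℝ) (i : ℕ) (a : ℕ → ℚ) (g e R₀ : ℝ) : Prop :=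
  ∀ R : ℝ, 0 < R → R < R₀ → ∀ w j : ℚ, g - R ≤ w → w ≤ j → (j : ℝ) ≤ g + R →
    MIr S f y s w j (farQ m c r₀ i wh sc a w) (FamX m c i wh sc w (a i)) (FamX m c i wh sc w j)
      (e * R)

theorem FarAt.mono {i : ℕ} {a : ℕ → ℚ} {g e R₀ R₁ : ℝ} (h : FarAt S f y c r₀ s wh sc i a g e R₀)
    (hR : R₁ ≤ R₀) : FarAt S f y c r₀ s wh sc i a g e R₁ :=
  fun R h1 h2 => h R h1 (h2.trans_le hR)

theorem FarAt.congr {i : ℕ} {a a' : ℕ → ℚ} {g e R₀ : ℝ} (h : FarAt S f y c r₀ s wh sc i a g e R₀)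
    (ha : ∀ l ≤ i, a l = a' l) : FarAt S f y c r₀ s wh sc i a' g e R₀ := by
  intro R h1 h2 w j h3 h4 h5
  rw [← farQ_congr (i := i) (fun l hl => ha l hl.le) w, ← ha i le_rfl]
  exact h R h1 h2 w j h3 h4 h5

/-- **Almost every `g`**: one coordinate over given far balls. -/
theorem far_ae (h : ∀ A' : ℚ, PA A' → NCh S f y c r₀ r s A' B Λ wh sc) (hn : HNum S f y c r₀ r s PA B Λ wh sc) :
    ∀ᵐ g : ℝ, ∀ (i : ℕ) (L : List ℚ) (A' B' : ℚ), r₀ ≤ i → i ≤ r → PA A' → (B' : ℝ) ≤ B →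
      FarOk wh sc r₀ i Λ L A' B' → g ∈ Set.Ioo (A' : ℝ) B' → ∀ e : ℝ, 0 < e → ∀ δ : ℝ, 0 < δ →
      ∃ x : ℚ, g < x ∧ (x : ℝ) < g + δ ∧ (x : ℝ) < B' ∧ ∃ R₀ : ℝ, 0 < R₀ ∧ g + R₀ ≤ x ∧
        FarAt S f y c r₀ s wh sc i (Function.update (lst L) i x) g e R₀ := by
  rw [ae_all_iff]; intro i
  rw [ae_all_iff]; intro L
  rw [ae_all_iff]; intro A'
  rw [ae_all_iff]; intro B'
  by_cases hh : r₀ ≤ i ∧ i ≤ r ∧ PA A' ∧ (B' : ℝ) ≤ B ∧ FarOk wh sc r₀ i Λ L A' B' ∧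
      (A' : ℝ) < B'
  · obtain ⟨h0, hi, hA, hB, hok, hAB⟩ := hh
    obtain ⟨lv, σ₀, hS, hT⟩ := hok
    have hAB' : A' < B' := by exact_mod_cast hAB
    obtain ⟨θ₀, θ, hθ⟩ := hn i h0 hi L A' B' hA hAB' hB ⟨lv, σ₀, hS, hT⟩
    have h := h A' hA
    have hr := rel_fam (h.cut le_rfl hB) h0 hi hS hT
    have hB1 : (B' : ℝ) + s ≤ 1 := by linarith [h.B1]
    obtain ⟨k1, k2⟩ := TRelS.super h.ne h.pos hB1
      (fun w a b => h.rn w (by linarith) (by linarith)) hr hθ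
    filter_upwards [far_rat (lam := (B' : ℝ) - A') (by linarith) k1 k2] with g hg _ _ _ _ _ hgm e he
      δ hδ
    obtain ⟨x, x1, x2, x3, R₀, hR₀, hx⟩ := hg hgm e he δ hδ
    obtain ⟨R₁, hR₁, q1, q2⟩ : ∃ R₁ : ℝ, 0 < R₁ ∧ R₁ ≤ R₀ ∧ g + R₁ ≤ x :=
      ⟨min R₀ (x - g), lt_min hR₀ (by linarith), min_le_left _ _, by
        linarith [min_le_right R₀ ((x : ℝ) - g)]⟩
    refine ⟨x, x1, x2, x3, R₁, hR₁, q2, fun R r1 r2 w j w1 w2 w3 => ?_⟩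
    obtain ⟨p1, p2, p3, p4⟩ := hx R r1 (r2.trans_le q1)
    have p5 := p4 w j w1 w2 w3
    have w2' : (w : ℝ) ≤ j := by exact_mod_cast w2
    have hjx : j ≤ x := by
      have : (j : ℝ) ≤ x := by linarith
      exact_mod_cast this
    rw [← farQ_congr (i := i) (fun l hl => (Function.update_of_ne (by omega) _ _).symm) w,
      Function.update_self]
    exact (hr.mir h.pos hθ (w := w) (v := j) (o := x) (by linarith) w2 hjx x3 (by linarith)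
      hB1).le p5
  · refine Eventually.of_forall fun g h0 hi hA hB hok hgm => absurd ?_ hh
    exact ⟨h0, hi, hA, hB, hok, hgm.1.trans hgm.2⟩

/-- **The far balls of all coordinates.** -/
theorem far_all (h : ∀ A' : ℚ, PA A' → NCh S f y c r₀ r s A' B Λ wh sc)
    (hP : ∀ p q : ℚ, PA p → p ≤ q → PA q) (hn : HNum S f y c r₀ r s PA B Λ wh sc)
    (hr : r₀ ≤ r) :
    ∀ᵐ g : ℝ, ∀ A : ℚ, PA A → g ∈ Set.Ioo (A : ℝ) B → ∀ Sl : ℕ → ℝ, Slp s wh sc r₀ r g Sl → ∀ e : ℝ, 0 < e →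
      ∀ δ : ℝ, 0 < δ → ∃ a : ℕ → ℚ,
        (∀ l, r₀ ≤ l → l ≤ r → g < a l ∧ (a l : ℝ) < g + δ ∧ (a l : ℝ) < B) ∧
        ∃ (lv : ℕ → ℝ) (σ₀ ρ : ℝ), 0 < ρ ∧ A < g - ρ ∧ g + ρ < B ∧ g + ρ ≤ a r ∧
          FarS wh sc r₀ r a Λ (g - ρ) (g + ρ) lv σ₀ ∧
          (∀ n, r₀ ≤ n → n ≤ r → FarT sc r₀ n Λ (g - ρ) (g + ρ) lv σ₀) ∧
          (∀ w : ℚ, g - ρ < w → (w : ℝ) < g + ρ → sc (a r) r + σ₀ ≤ sc w r + Λ ∧
            ∀ l, r₀ ≤ l → l < r → sc (a r) r + σ₀ ≤ sc w r + lv l) ∧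
          ∀ l, r₀ ≤ l → l ≤ r → FarAt S f y c r₀ s wh sc l a g e ρ := by
  filter_upwards [far_ae h hn] with g hg A hPA hgAB Sl hSl e he δ hδ
  have h := h A hPA
  have hmo : ∀ i, r₀ ≤ i → i ≤ r → ∀ v o : ℚ, (A : ℝ) < v → v ≤ o → (o : ℝ) < B →
      sc v i - wh v ≤ sc o i - wh o := fun i a b => h.mono i a b
  -- one more ball
  have nxt : ∀ i, r₀ ≤ i → i ≤ r → ∀ a : ℕ → ℚ, Inv wh sc r₀ A B Λ g i a → ∀ δ' : ℝ, 0 < δ' →
      ∃ x : ℚ, g < x ∧ (x : ℝ) < g + δ' ∧ (x : ℝ) < B ∧ ∃ R₀ : ℝ, 0 < R₀ ∧ g + R₀ ≤ x ∧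
        FarAt S f y c r₀ s wh sc i (Function.update a i x) g e R₀ := by
    intro i h0 hi a hI δ' hδ'
    obtain ⟨lv, σ₀, ρ, hρ, hρA, hρB, hS, hT⟩ := hI.tgt hSl hi h.Λ0
    obtain ⟨A', a1, a2⟩ := exists_rat_btwn (show g - ρ < g by linarith)
    obtain ⟨B', b1, b2⟩ := exists_rat_btwn (show g < g + ρ by linarith)
    have hlst : ∀ l < i, a l = lst ((List.range i).map a) l := fun l hl => by
      unfold lst
      rw [List.getD_eq_getElem _ _ (by simpa using hl)]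
      simp
    have hok : FarOk wh sc r₀ i Λ ((List.range i).map a) A' B' :=
      ⟨lv, σ₀, (hS.mono a1.le b2.le hS.σ0 le_rfl).congr hlst,
        (hT i h0 le_rfl).mono a1.le b2.le le_rfl⟩
    have hAA : A ≤ A' := by
      have : (A : ℝ) ≤ A' := by linarith
      exact_mod_cast this
    obtain ⟨x, x1, x2, x3, R₀, hR₀, x4, x5⟩ := hg i ((List.range i).map a) A' B' h0 hi
      (hP A A' hPA hAA) (by linarith) hok ⟨a2, b1⟩ e he δ' hδ'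
    refine ⟨x, x1, x2, by linarith, R₀, hR₀, x4, x5.congr fun l hl => ?_⟩
    rcases Nat.lt_or_ge l i with h4 | h4
    · rw [Function.update_of_ne (by omega), Function.update_of_ne (by omega), ← hlst l h4]
    · rw [le_antisymm hl h4, Function.update_self, Function.update_self]
  -- the balls of the prefix
  have key : ∀ i, r₀ ≤ i → i ≤ r → ∃ a : ℕ → ℚ,
      (∀ l, r₀ ≤ l → l < i → g < a l ∧ (a l : ℝ) < g + δ ∧ (a l : ℝ) < B) ∧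
      Inv wh sc r₀ A B Λ g i a ∧ ∃ R₀ : ℝ, 0 < R₀ ∧
        ∀ l, r₀ ≤ l → l < i → FarAt S f y c r₀ s wh sc l a g e R₀ := by
    intro i h0
    induction i, h0 using Nat.le_induction with
    | base =>
      intro _
      exact ⟨fun _ => 0, fun l a b => absurd b (by omega), Inv.zero hgAB.1 hgAB.2 _, 1, one_pos,
        fun l a b => absurd b (by omega)⟩
    | succ i h0 ih =>
      intro hi
      obtain ⟨a, a1, a2, R₀, hR₀, a3⟩ := ih (by omega)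
      obtain ⟨δ₁, hδ₁, a4⟩ := a2.succ hSl h0 (by omega) hgAB.1 (hmo i h0 (by omega)) h.wm h.Λ0
      obtain ⟨x, x1, x2, x3, R₁, hR₁, x4, x5⟩ := nxt i h0 (by omega) a a2 (min δ δ₁)
        (lt_min hδ hδ₁)
      refine ⟨Function.update a i x, fun l l0 l1 => ?_, a4 x x1 (x2.trans_le (by
        linarith [min_le_right δ δ₁])), min R₀ R₁, lt_min hR₀ hR₁, fun l l0 l1 => ?_⟩
      · rcases Nat.lt_or_ge l i with h4 | h4
        · rw [Function.update_of_ne (by omega)]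
          exact a1 l l0 h4
        · rw [show l = i by omega, Function.update_self]
          exact ⟨x1, x2.trans_le (by linarith [min_le_left δ δ₁]), x3⟩
      · rcases Nat.lt_or_ge l i with h4 | h4
        · exact ((a3 l l0 h4).congr fun l' hl' => (Function.update_of_ne (by omega) _ _).symm).mono
            (min_le_left _ _)
        · rw [show l = i by omega]
          exact x5.mono (min_le_right _ _)
  obtain ⟨a, a1, a2, R₀, hR₀, a3⟩ := key r hr le_rfl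
  obtain ⟨lv, σ₀, ρ, hρ, hρA, hρB, hS, hT⟩ := a2.tgt hSl le_rfl h.Λ0
  obtain ⟨x, x1, x2', x3, R₁, hR₁, x4, x5⟩ := nxt r hr le_rfl a a2 (min δ ρ) (lt_min hδ hρ)
  have x2 : (x : ℝ) < g + δ := x2'.trans_le (by linarith [min_le_left δ ρ])
  have x2ρ : (x : ℝ) < g + ρ := x2'.trans_le (by linarith [min_le_right δ ρ])
  obtain ⟨ρ', hρ', p1, p2, p3⟩ : ∃ ρ' : ℝ, 0 < ρ' ∧ ρ' ≤ ρ ∧ ρ' ≤ R₀ ∧ ρ' ≤ R₁ :=
    ⟨min ρ (min R₀ R₁), lt_min hρ (lt_min hR₀ hR₁), min_le_left _ _,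
      (min_le_right _ _).trans (min_le_left _ _), (min_le_right _ _).trans (min_le_right _ _)⟩
  refine ⟨Function.update a r x, fun l l0 l1 => ?_, lv, σ₀, ρ', hρ', by linarith, by linarith, ?_,
    (hS.mono (by linarith) (by linarith) hS.σ0 le_rfl).congr
      (fun l hl => (Function.update_of_ne (by omega) _ _).symm),
    fun n n0 n1 => (hT n n0 n1).mono (by linarith) (by linarith) le_rfl,
    fun w w1 w2 => ?_, fun l l0 l1 => ?_⟩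
  · rcases Nat.lt_or_ge l r with h4 | h4
    · rw [Function.update_of_ne (by omega)]
      exact a1 l l0 h4
    · rw [show l = r by omega, Function.update_self]
      exact ⟨x1, x2, x3⟩
  · rw [Function.update_self]
    linarith
  · rw [Function.update_self]
    have hwx : w ≤ x := by
      have : (w : ℝ) ≤ x := by linarith
      exact_mod_cast this
    exact ⟨(hT r hr le_rfl).c3 w x (by linarith) hwx x2ρ,
      fun l l0 l1 => (hT r hr le_rfl).c3' w x (by linarith) hwx x2ρ l l0 l1⟩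
  · rcases Nat.lt_or_ge l r with h4 | h4
    · exact ((a3 l l0 h4).congr fun l' hl' => (Function.update_of_ne (by omega) _ _).symm).mono p2
    · rw [show l = r by omega]
      exact x5.mono p3

end Pool.AVG96
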