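import Pool.Agent.H96.AVG.Gch

/-!
# Far balls at the good windows

`nD`: natural digits of the windows `a l`. `FarR`: the numbers of far balls `a l` of `G`.
`GCh.jets_few`, `GCh.jet_few`: few bits between charts, at the record of a window of `G`.
`FarR.lab`, `FarR.labT`, `FarR.near`, `FarR.nearT`: far digits.
-/

set_option autoImplicit false

namespace Pool.AVG96

open Finset Real MvPolynomial MeasureTheory Filter Topology
open Pool.Agent.H49.Ent Pool.Agent.H32.Dense Pool.STK Pool.KA Pool.KSAT Pool.K2S Pool.PB Pool.S6C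
  Pool.GEN Pool.RCD Pool.LA91

variable {m : ℕ} {α γ : ∀ J : ℕ, Fam m J → Type}
  {f : ∀ (J : ℕ) (F : Fam m J), F.Ω → α J F} {y : ∀ (J : ℕ) (F : Fam m J), F.Ω → γ J F}
  {S : PCl m} {c : ℕ → Fin m} {r₀ r : ℕ} {s A B Λ : ℝ} {sn : ℝ → ℕ → ℝ} {G : Set ℝ}

/-! ### Few bits at a good window -/

/-- **Few bits between jets of the coordinates `< i`**, at the window `w` of `G`. -/
theorem GCh.jets_few (h : GCh S f y c r₀ r s A B Λ sn G) {i : ℕ} (h0 : r₀ ≤ i) (hi : i ≤ r)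
    {w x x' : ℝ} (hw : w ∈ G) (hA : A ≤ w) (hB : w < B) (hx : x ≤ w) (hx' : x' ≤ w)
    {p p' : ℕ → ℝ} (hp : ∀ l, r₀ ≤ l → l < i → p l ≤ sn w l) {N N' : ℕ → ℕ → ℝ} {lv : ℕ → ℝ}
    {σ₀ : ℝ} (hσ : 0 < σ₀) (hlv : ∀ l, r₀ ≤ l → l < i → 0 < lv l)
    (h1 : ∀ l, r₀ ≤ l → l < i → ∀ j' ≤ 1, sn w l + lv l + σ₀ ≤ N l j' + (j' : ℕ) * w)
    (h2 : ∀ l, r₀ ≤ l → l < i → sn w l + lv l + σ₀ ≤ p l + Λ)
    (h2' : ∀ l, r₀ ≤ l → l < i → ∀ l', r₀ ≤ l' → l' < l → sn w l + lv l + σ₀ ≤ p l + lv l')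
    (hN : ∀ l, r₀ ≤ l → l < i → ∀ j' ≤ 1, N' l j' ≤ N l j')
    (h3 : ∀ l, r₀ ≤ l → l < i → ∀ j' ≤ 1, N' l j' + (j' : ℕ) * w + σ₀ ≤ min (p l) (p' l) + Λ)
    (h3' : ∀ l, r₀ ≤ l → l < i → ∀ j' ≤ 1, ∀ l', r₀ ≤ l' → l' < l →
      N' l j' + (j' : ℕ) * w + σ₀ ≤ min (p l) (p' l) + lv l') :
    Few S f (vg w) y (jetQ m c r₀ i x p N) (jetQ m c r₀ i x' p' N') := by
  obtain ⟨C₀, htm⟩ := h.tm
  obtain ⟨p₀, lam', hp1, hlam, hp0, hkn⟩ := h.kn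
  have hΛ0 := h.Λ0
  obtain ⟨u₁, rd, hrd, hch⟩ := h.ch w hw hA hB
  have hch := hch.take h0 hi
  have hmn : Λ ≤ min lam' (p₀ - w) := le_min hlam (by linarith)
  refine few_jets htm h.pos hch (lv := lv) (p₀ := p₀) (lam := lam') (σ₀ := σ₀)
    (fun _ _ _ _ _ => hx) (fun _ _ _ _ _ => hx') (by linarith) hp1
    (by linarith) hσ hlv (fun l a b j' c' => h1 l a b j' c') (fun l a b j' _ => ?_)
    (fun l a b j' _ l' a' b' => ?_) (fun l a b j' c' => hN l a b j' c')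
    (fun l a b j' c' => ?_) (fun l a b j' c' l' a' b' => h3' l a b j' c' l' a' b') h.pt hkn
  · rw [min_eq_left (hp l a b)]
    have := h2 l a b
    linarith
  · rw [min_eq_left (hp l a b)]
    exact h2' l a b l' a' b'
  · have := h3 l a b j' c'
    linarith

/-- **Few bits for one jet**, at the window `w` of `G`, over the coordinates `< i`. -/
theorem GCh.jet_few (h : GCh S f y c r₀ r s A B Λ sn G) {i j : ℕ} (h0 : r₀ ≤ i) (hi : i ≤ r)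
    (hj : j ≤ 1) {w x₀ x x' : ℝ} (hw : w ∈ G) (hA : A ≤ w) (hB : w < B) (hx₀ : x₀ ≤ w)
    (hx : x ≤ w) (hx' : x' ≤ w) {p₀ : ℕ → ℝ} {p p' : ℝ}
    (hp : ∀ l, r₀ ≤ l → l < i → p₀ l ≤ sn w l) {N : ℕ → ℕ → ℝ} {N₁ N₂ : ℝ} {lv : ℕ → ℝ}
    {σ₀ : ℝ} (hσ : 0 < σ₀) (hlv : ∀ l, r₀ ≤ l → l < i → 0 < lv l)
    (h1 : ∀ l, r₀ ≤ l → l < i → ∀ j' ≤ 1, sn w l + lv l + σ₀ ≤ N l j' + (j' : ℕ) * w)
    (h2 : ∀ l, r₀ ≤ l → l < i → sn w l + lv l + σ₀ ≤ p₀ l + Λ)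
    (h2' : ∀ l, r₀ ≤ l → l < i → ∀ l', r₀ ≤ l' → l' < l → sn w l + lv l + σ₀ ≤ p₀ l + lv l')
    (hN : N₂ ≤ N₁) (h3 : N₂ + (j : ℝ) * w + σ₀ ≤ min p p' + Λ)
    (h3' : ∀ l, r₀ ≤ l → l < i → N₂ + (j : ℝ) * w + σ₀ ≤ min p p' + lv l) :
    Few S f (vg w) y ((jetQ m c r₀ i x₀ p₀ N).prod
      (qJet m ((range i).image c) (c i) j x p N₁))
      (qJet m ((range i).image c) (c i) j x' p' N₂) := by
  obtain ⟨C₀, htm⟩ := h.tm
  obtain ⟨q₀, lam', hp1, hlam, hp0, hkn⟩ := h.kn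
  have hΛ0 := h.Λ0
  obtain ⟨u₁, rd, hrd, hch⟩ := h.ch w hw hA hB
  have hch := hch.take h0 hi
  have hmn : Λ ≤ min lam' (q₀ - w) := le_min hlam (by linarith)
  have key : Few S f (vg w) y
      ((qJets m c r₀ i j (fun _ _ => x₀) (fun l _ => p₀ l) N).prod
      (qJet m ((range i).image c) (c i) j x p N₁))
      (qJet m ((range i).image c) (c i) j x' p' N₂) := by
    refine few_jetN htm hch (lv := lv) (p₀ := q₀) (lam := lam') (σ₀ := σ₀)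
      (fun _ _ _ _ _ => hx₀) hx hx'
      (by linarith) hp1 (by linarith) hσ hlv (fun l a b j' c' => h1 l a b j' (c'.trans hj))
      (fun l a b j' _ => ?_) (fun l a b j' _ l' a' b' => ?_) hN (by linarith)
      (fun l a b => h3' l a b) h.pt hkn
    · rw [min_eq_left (hp l a b)]
      have := h2 l a b
      linarith
    · rw [min_eq_left (hp l a b)]
      exact h2' l a b l' a' b'
  rcases Nat.lt_or_ge j 1 with hj1 | hj1
  · have : j = 0 := by omega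
    subst this
    exact few_raise h.pos key
  · have : j = 1 := by omega
    subst this
    exact key

/-! ### Far balls -/

/-- The natural digits of the window `a l`. -/
noncomputable def nD (sn : ℝ → ℕ → ℝ) (a : ℕ → ℝ) (l j' : ℕ) : ℝ := sn (a l) l - (j' : ℝ) * a l

/-- **The numbers of far balls** on the interval `(A', B')`. -/
structure FarR (sn : ℝ → ℕ → ℝ) (G : Set ℝ) (r₀ r : ℕ) (a : ℕ → ℝ) (Λ A' B' : ℝ) (lv : ℕ → ℝ)
    (σ₀ : ℝ) : Prop where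
  σ0 : 0 < σ₀
  lv0 : ∀ l, r₀ ≤ l → l < r → 0 < lv l
  ha : ∀ l, r₀ ≤ l → l ≤ r → B' ≤ a l
  c1 : ∀ v ∈ G, A' < v → v < B' → ∀ l, r₀ ≤ l → l < r →
    sn v l + lv l + σ₀ ≤ sn (a l) l - (a l - v)
  c2 : ∀ w ∈ G, ∀ v ∈ G, A' < w → w ≤ v → v < B' → ∀ l, r₀ ≤ l → l < r →
    sn v l + lv l + σ₀ ≤ sn w l + Λ
  c2' : ∀ w ∈ G, ∀ v ∈ G, A' < w → w ≤ v → v < B' → ∀ l, r₀ ≤ l → l < r → ∀ l', r₀ ≤ l' →
    l' < l → sn v l + lv l + σ₀ ≤ sn w l + lv l'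
  c4 : ∀ w ∈ G, A' < w → w < B' → ∀ l, r₀ ≤ l → l < r → sn (a l) l + σ₀ ≤ sn w l + Λ
  c4' : ∀ w ∈ G, A' < w → w < B' → ∀ l, r₀ ≤ l → l < r → ∀ l', r₀ ≤ l' → l' < l →
    sn (a l) l + σ₀ ≤ sn w l + lv l'
  c5 : ∀ w ∈ G, A' < w → w < B' → sn (a r) r + σ₀ ≤ sn w r + Λ
  c5' : ∀ w ∈ G, A' < w → w < B' → ∀ l, r₀ ≤ l → l < r → sn (a r) r + σ₀ ≤ sn w r + lv l

section

variable {a : ℕ → ℝ} {A' B' σ₀ : ℝ} {lv : ℕ → ℝ}

theorem FarR.far (h : FarR sn G r₀ r a Λ A' B' lv σ₀) {v : ℝ} (hv : v ∈ G) (hA : A' < v)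
    (hB : v < B') {l j' : ℕ} (l0 : r₀ ≤ l) (l1 : l < r) (hj' : j' ≤ 1) :
    sn v l + lv l + σ₀ ≤ nD sn a l j' + (j' : ℕ) * v := by
  have e1 : (j' : ℝ) ≤ 1 := by exact_mod_cast hj'
  have e2 := h.c1 v hv hA hB l l0 l1
  have e3 := h.ha l l0 l1.le
  have e4 : (j' : ℝ) * (a l - v) ≤ 1 * (a l - v) :=
    mul_le_mul_of_nonneg_right e1 (by linarith)
  unfold nD
  linarith

theorem FarR.le (h : FarR sn G r₀ r a Λ A' B' lv σ₀) {v : ℝ} (hB : v < B') {l : ℕ} (j' : ℕ)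
    (l0 : r₀ ≤ l) (l1 : l ≤ r) : nD sn a l j' + (j' : ℕ) * v ≤ sn (a l) l := by
  have e3 := h.ha l l0 l1
  have e4 : 0 ≤ (j' : ℝ) * (a l - v) := mul_nonneg (Nat.cast_nonneg _) (by linarith)
  unfold nD
  linarith

/-- **Far digits over other labels.** -/
theorem FarR.lab (hF : FarR sn G r₀ r a Λ A' B' lv σ₀) (h : GCh S f y c r₀ r s A B Λ sn G)
    (hr : r₀ ≤ r) (hA : A ≤ A') (hB : B' ≤ B) {w u u' : ℝ} (hw : w ∈ G) (hu : u ∈ G) (hu' : u' ∈ G)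
    (hwB : w < B') (huA : A' < u) (huA' : A' < u') (huw : u ≤ w) (huw' : u' ≤ w)
    {N N' : ℕ → ℕ → ℝ} (hN : ∀ l, r₀ ≤ l → l < r → ∀ j' ≤ 1, N l j' = nD sn a l j')
    (hN' : ∀ l, r₀ ≤ l → l < r → ∀ j' ≤ 1, N' l j' = nD sn a l j') :
    Few S f (vg w) y (jetQ m c r₀ r u (sn u) N) (jetQ m c r₀ r u' (sn u') N') := by
  refine h.jets_few hr le_rfl hw (by linarith) (by linarith) huw huw'
    (fun l l0 l1 => h.mono' l0 l1.le hu hw (by linarith) huw (by linarith)) hF.σ0 hF.lv0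
    (fun l l0 l1 j' hj' => ?_) (fun l l0 l1 => hF.c2 u hu w hw huA huw hwB l l0 l1)
    (fun l l0 l1 l' l0' l1' => hF.c2' u hu w hw huA huw hwB l l0 l1 l' l0' l1')
    (fun l l0 l1 j' hj' => ?_) (fun l l0 l1 j' hj' => ?_) (fun l l0 l1 j' hj' l' l0' l1' => ?_)
  · rw [hN l l0 l1 j' hj']
    exact hF.far hw (by linarith) hwB l0 l1 hj'
  · rw [hN l l0 l1 j' hj', hN' l l0 l1 j' hj']
  · rw [hN' l l0 l1 j' hj', ← min_add_add_right]
    have e1 := hF.le hwB j' l0 l1.le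
    refine le_min ?_ ?_
    · linarith [hF.c4 u hu huA (by linarith) l l0 l1]
    · linarith [hF.c4 u' hu' huA' (by linarith) l l0 l1]
  · rw [hN' l l0 l1 j' hj', ← min_add_add_right]
    have e1 := hF.le hwB j' l0 l1.le
    refine le_min ?_ ?_
    · linarith [hF.c4' u hu huA (by linarith) l l0 l1 l' l0' l1']
    · linarith [hF.c4' u' hu' huA' (by linarith) l l0 l1 l' l0' l1']

/-- **Far digits of the target over other labels.** -/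
theorem FarR.labT (hF : FarR sn G r₀ r a Λ A' B' lv σ₀) (h : GCh S f y c r₀ r s A B Λ sn G)
    (hr : r₀ ≤ r) (hA : A ≤ A') (hB : B' ≤ B) {w u u' : ℝ} (hw : w ∈ G) (hu : u ∈ G) (hu' : u' ∈ G)
    (hwB : w < B') (huA : A' < u) (huA' : A' < u') (huw : u ≤ w) (huw' : u' ≤ w)
    {N : ℕ → ℕ → ℝ} (hN : ∀ l, r₀ ≤ l → l < r → ∀ j' ≤ 1, N l j' = nD sn a l j')
    {N₁ N₂ : ℕ → ℝ} (hN₁ : ∀ j' ≤ 1, N₁ j' = nD sn a r j') (hN₂ : ∀ j' ≤ 1, N₂ j' = nD sn a r j') :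
    Few S f (vg w) y ((jetQ m c r₀ r u (sn u) N).prod (prQ m c r u (sn u r) N₁))
      (prQ m c r u' (sn u' r) N₂) := by
  have key : ∀ j ≤ 1, Few S f (vg w) y ((jetQ m c r₀ r u (sn u) N).prod
      (qJet m ((range r).image c) (c r) j u (sn u r) (N₁ j)))
      (qJet m ((range r).image c) (c r) j u' (sn u' r) (N₂ j)) := by
    intro j hj
    refine h.jet_few hr le_rfl hj hw (by linarith) (by linarith) huw huw huw'
      (fun l l0 l1 => h.mono' l0 l1.le hu hw (by linarith) huw (by linarith)) hF.σ0 hF.lv0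
      (fun l l0 l1 j' hj' => ?_) (fun l l0 l1 => hF.c2 u hu w hw huA huw hwB l l0 l1)
      (fun l l0 l1 l' l0' l1' => hF.c2' u hu w hw huA huw hwB l l0 l1 l' l0' l1') ?_ ?_
      (fun l l0 l1 => ?_)
    · rw [hN l l0 l1 j' hj']
      exact hF.far hw (by linarith) hwB l0 l1 hj'
    · rw [hN₁ j hj, hN₂ j hj]
    · rw [hN₂ j hj, ← min_add_add_right]
      have e1 := hF.le hwB j hr le_rfl
      refine le_min ?_ ?_
      · linarith [hF.c5 u hu huA (by linarith)]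
      · linarith [hF.c5 u' hu' huA' (by linarith)]
    · rw [hN₂ j hj, ← min_add_add_right]
      have e1 := hF.le hwB j hr le_rfl
      refine le_min ?_ ?_
      · linarith [hF.c5' u hu huA (by linarith) l l0 l1]
      · linarith [hF.c5' u' hu' huA' (by linarith) l l0 l1]
  exact Few.pair h.pos (few_pr1 h.pos (key 0 (by norm_num))) (few_pr2 h.pos (key 1 le_rfl))

/-- **Near digits from far digits.** -/
theorem FarR.near (hF : FarR sn G r₀ r a Λ A' B' lv σ₀) (h : GCh S f y c r₀ r s A B Λ sn G)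
    (hr : r₀ ≤ r) (hA : A ≤ A') (hB : B' ≤ B) {w C' : ℝ} (hw : w ∈ G)
    (hwA : A' < w) (hwB : w < B') (hC : C' ≤ σ₀ / 2) (hCΛ : C' + σ₀ / 2 ≤ Λ) {D : ℕ → ℕ → ℝ}
    (hD : ∀ l, r₀ ≤ l → l < r → ∀ j' ≤ 1, D l j' ≤ sn w l - (j' : ℕ) * w + C') :
    Few S f (vg w) y (jetQ m c r₀ r w (sn w) (nD sn a)) (jetQ m c r₀ r w (sn w) D) := by
  have hσ := hF.σ0
  refine h.jets_few hr le_rfl hw (by linarith) (by linarith) le_rfl le_rfl
    (fun l l0 l1 => le_rfl) (half_pos hσ) hF.lv0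
    (fun l l0 l1 j' hj' => ?_) (fun l l0 l1 => ?_)
    (fun l l0 l1 l' l0' l1' => ?_)
    (fun l l0 l1 j' hj' => ?_) (fun l l0 l1 j' hj' => ?_) (fun l l0 l1 j' hj' l' l0' l1' => ?_)
  · linarith [hF.far hw hwA hwB l0 l1 hj']
  · linarith [hF.c2 w hw w hw hwA le_rfl hwB l l0 l1]
  · linarith [hF.c2' w hw w hw hwA le_rfl hwB l l0 l1 l' l0' l1']
  · linarith [hF.far hw hwA hwB l0 l1 hj', hD l l0 l1 j' hj', hF.lv0 l l0 l1]
  · rw [min_self]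
    linarith [hD l l0 l1 j' hj']
  · rw [min_self]
    linarith [hD l l0 l1 j' hj', hF.c2' w hw w hw hwA le_rfl hwB l l0 l1 l' l0' l1',
      hF.lv0 l l0 l1]

/-- **Near digits of the target from far digits.** -/
theorem FarR.nearT (hF : FarR sn G r₀ r a Λ A' B' lv σ₀) (h : GCh S f y c r₀ r s A B Λ sn G)
    (hr : r₀ ≤ r) (hA : A ≤ A') (hB : B' ≤ B) (har : a r ∈ G) (harB : a r < B) {w C' : ℝ}
    (hw : w ∈ G) (hwA : A' < w) (hwB : w < B') (hC : C' ≤ σ₀ / 2) (hCΛ : C' + σ₀ / 2 ≤ Λ)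
    {E : ℕ → ℝ} (hE : ∀ j' ≤ 1, E j' ≤ sn w r - (j' : ℕ) * w + C')
    (hE' : ∀ j' ≤ 1, E j' ≤ nD sn a r j') :
    Few S f (vg w) y ((jetQ m c r₀ r w (sn w) (nD sn a)).prod (prQ m c r w (sn w r) (nD sn a r)))
      (prQ m c r w (sn w r) E) := by
  have hσ := hF.σ0
  have key : ∀ j ≤ 1, Few S f (vg w) y ((jetQ m c r₀ r w (sn w) (nD sn a)).prod
      (qJet m ((range r).image c) (c r) j w (sn w r) (nD sn a r j)))
      (qJet m ((range r).image c) (c r) j w (sn w r) (E j)) := by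
    intro j hj
    refine h.jet_few hr le_rfl hj hw (by linarith) (by linarith) le_rfl le_rfl le_rfl
      (fun l l0 l1 => le_rfl) (half_pos hσ) hF.lv0
      (fun l l0 l1 j' hj' => ?_) (fun l l0 l1 => ?_)
      (fun l l0 l1 l' l0' l1' => ?_) (hE' j hj) ?_ (fun l l0 l1 => ?_)
    · linarith [hF.far hw hwA hwB l0 l1 hj']
    · linarith [hF.c2 w hw w hw hwA le_rfl hwB l l0 l1]
    · linarith [hF.c2' w hw w hw hwA le_rfl hwB l l0 l1 l' l0' l1']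
    · rw [min_self]
      linarith [hE j hj]
    · rw [min_self]
      have e1 := hF.c5' w hw hwA hwB l l0 l1
      have e2 := h.mono' hr le_rfl hw har (by linarith) (by linarith [hF.ha r hr le_rfl]) harB
      linarith [hE j hj]
  exact Few.pair h.pos (few_pr1 h.pos (key 0 (by norm_num))) (few_pr2 h.pos (key 1 le_rfl))

end

/-- **The far balls of the indices** give far balls of `G`. -/
theorem farR_of (h : GCh S f y c r₀ r s A B Λ sn G) {A₁ : ℚ} (hA₁ : PG G A s A₁)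
    {a : ℕ → ℚ} {g ρ ρ' σ₀ : ℝ} {lv : ℕ → ℝ} (h1 : A₁ < g - ρ) (h2 : g + ρ < B - s)
    (ha : ∀ l, r₀ ≤ l → l ≤ r → g + ρ ≤ a l ∧ (a l : ℝ) < B - s)
    (hS : FarS (whG G A s) (scG sn G A s) r₀ r a Λ (g - ρ) (g + ρ) lv σ₀)
    (h5 : ∀ w : ℚ, g - ρ < w → (w : ℝ) < g + ρ →
      scG sn G A s (a r) r + σ₀ ≤ scG sn G A s w r + Λ ∧
        ∀ l, r₀ ≤ l → l < r → scG sn G A s (a r) r + σ₀ ≤ scG sn G A s w r + lv l)
    (hρ' : ρ' < ρ) {u : ℝ} (hu : u ∈ G) (hu1 : g + s + ρ' ≤ u) (hu2 : u < g + s + ρ)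
    (huA : A ≤ u) (hr : r₀ ≤ r) :
    FarR sn G r₀ r (fun l => whG G A s (a l)) Λ (g + s - ρ') (g + s + ρ') lv σ₀ := by
  have hA0 : A ≤ (A₁ : ℝ) + s := by
    obtain ⟨u, hu, h1, h2⟩ := hA₁
    linarith
  have hm : ∀ w : ℚ, (A₁ : ℝ) < w → whG G A s w ∈ G ∧ A ≤ whG G A s w ∧
      whG G A s w ≤ w + s := fun w hw => fl_mem h.cl (hA₁.lt hw)
  -- from above
  have up : ∀ v ∈ G, g + s - ρ' < v → v < g + s + ρ' → ∃ q : ℚ, g - ρ < q ∧ (q : ℝ) < g + ρ ∧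
      v - s < q ∧ ∀ l, r₀ ≤ l → l ≤ r → sn v l - v ≤ scG sn G A s q l - whG G A s q ∧
        sn v l ≤ scG sn G A s q l := by
    intro v hv v1 v2
    obtain ⟨q, q1, q2⟩ := exists_rat_btwn (show v - s < g + ρ by linarith)
    have q3 : v ≤ whG G A s q := le_fl hv (by linarith) (by linarith)
    obtain ⟨m1, m2, m3⟩ := hm q (by linarith)
    refine ⟨q, by linarith, q2, q1, fun l l0 l1 => ⟨?_, ?_⟩⟩
    · exact h.mono l l0 l1 v hv _ m1 (by linarith) q3 (by linarith)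
    · exact h.mono' l0 l1 hv m1 (by linarith) q3 (by linarith)
  have dn : ∀ v ∈ G, g + s - ρ' < v → v < g + s + ρ' → ∃ q : ℚ, g - ρ < q ∧ (q : ℝ) < g + ρ ∧
      (q : ℝ) < v - s ∧ ∀ l, r₀ ≤ l → l ≤ r → scG sn G A s q l ≤ sn v l := by
    intro v hv v1 v2
    obtain ⟨q, q1, q2⟩ := exists_rat_btwn (show g - ρ < v - s by linarith)
    obtain ⟨m1, m2, m3⟩ := hm q (by linarith)
    exact ⟨q, q1, by linarith, q2, fun l l0 l1 =>
      h.mono' l0 l1 m1 hv m2 (by linarith) (by linarith)⟩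
  have ord : ∀ {p q : ℚ} {x z : ℝ}, (p : ℝ) < x - s → x ≤ z → z - s < q → p ≤ q := by
    intro p q x z a1 a2 a3
    have : (p : ℝ) ≤ q := by linarith
    exact_mod_cast this
  refine ⟨hS.σ0, hS.lv0, fun l l0 l1 => ?_, fun v hv v1 v2 l l0 l1 => ?_,
    fun w hw v hv w1 wv v2 l l0 l1 => ?_, fun w hw v hv w1 wv v2 l l0 l1 l' l0' l1' => ?_,
    fun w hw w1 w2 l l0 l1 => ?_, fun w hw w1 w2 l l0 l1 l' l0' l1' => ?_,
    fun w hw w1 w2 => ?_, fun w hw w1 w2 l l0 l1 => ?_⟩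
  · have e1 := (ha l l0 l1).1
    exact hu1.trans (le_fl hu huA (by linarith))
  · obtain ⟨q, q1, q2, q3, q4⟩ := up v hv v1 v2
    have e1 := hS.c1 q q1 q2 l l0 l1
    have e2 := (q4 l l0 l1.le).1
    show sn v l + lv l + σ₀ ≤ scG sn G A s (a l) l - (whG G A s (a l) - v)
    linarith
  · obtain ⟨q, q1, q2, q3, q4⟩ := up v hv (by linarith) v2
    obtain ⟨p, p1, p2, p3, p4⟩ := dn w hw w1 (by linarith)
    linarith [hS.c2 p q p1 (ord p3 wv q3) q2 l l0 l1, (q4 l l0 l1.le).2, p4 l l0 l1.le]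
  · obtain ⟨q, q1, q2, q3, q4⟩ := up v hv (by linarith) v2
    obtain ⟨p, p1, p2, p3, p4⟩ := dn w hw w1 (by linarith)
    linarith [hS.c2' p q p1 (ord p3 wv q3) q2 l l0 l1 l' l0' l1', (q4 l l0 l1.le).2,
      p4 l l0 l1.le]
  · obtain ⟨p, p1, p2, p3, p4⟩ := dn w hw w1 w2
    have := hS.c4 p p1 p2 l l0 l1
    show scG sn G A s (a l) l + σ₀ ≤ sn w l + Λ
    linarith [p4 l l0 l1.le]
  · obtain ⟨p, p1, p2, p3, p4⟩ := dn w hw w1 w2
    have := hS.c4' p p1 p2 l l0 l1 l' l0' l1'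
    show scG sn G A s (a l) l + σ₀ ≤ sn w l + lv l'
    linarith [p4 l l0 l1.le]
  · obtain ⟨p, p1, p2, p3, p4⟩ := dn w hw w1 w2
    have := (h5 p p1 p2).1
    show scG sn G A s (a r) r + σ₀ ≤ sn w r + Λ
    linarith [p4 r hr le_rfl]
  · obtain ⟨p, p1, p2, p3, p4⟩ := dn w hw w1 w2
    have := (h5 p p1 p2).2 l l0 l1
    show scG sn G A s (a r) r + σ₀ ≤ sn w r + lv l
    linarith [p4 r hr le_rfl]

end Pool.AVG96
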