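import Pool.Agent.H96.AVG.Fam

/-!
# Few bits over small steps

`mid_chain`: the natural digits of the coordinate `i` at the index `o n` are few bits given the
record at this index and the digits `L 0 l` behind the natural digits of the earlier coordinates;
the labels are changed along the indices `o 0 ≤ o 1 ≤ ... ≤ o n`.
-/

set_option autoImplicit false

namespace Pool.AVG96

open Finset Real MvPolynomial
open Pool.Agent.H49.Ent Pool.Agent.H32.Dense Pool.STK Pool.KA Pool.KSAT Pool.K2S Pool.PB Pool.S6C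
  Pool.GEN Pool.RCD Pool.LA91
open Pool.OWN83 (TwoRelS TRelS TwoParS)

variable {m : ℕ} {α γ : ∀ J : ℕ, Fam m J → Type}
  {f : ∀ (J : ℕ) (F : Fam m J), F.Ω → α J F} {y : ∀ (J : ℕ) (F : Fam m J), F.Ω → γ J F}
  {S : PCl m} {c : ℕ → Fin m} {r₀ r : ℕ} {s A B Λ : ℝ} {wh : ℚ → ℝ} {sc : ℚ → ℕ → ℝ}

/-- The jets of the coordinates `< i` over the labels of the index `w`, to `L l` digits behind
the natural digits of `w`. -/
noncomputable def natQ (m : ℕ) (c : ℕ → Fin m) (r₀ i : ℕ) (wh : ℚ → ℝ) (sc : ℚ → ℕ → ℝ)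
    (L : ℕ → ℝ) (w : ℚ) : Qt m (ℕ → ℕ → ℤ) :=
  jetQ m c r₀ i (wh w) (sc w) (fun l j' => sc w l - (j' : ℝ) * wh w + L l)

/-- **Few bits along small steps.** -/
theorem mid_chain (h : NCh S f y c r₀ r s A B Λ wh sc) {i j : ℕ} (h0 : r₀ ≤ i) (hi : i ≤ r)
    (hj : j ≤ 1) {n : ℕ} {o : ℕ → ℚ} (ho : ∀ k < n, o k ≤ o (k + 1)) (hA : A < o 0)
    (hB : (o n : ℝ) < B) {L : ℕ → ℕ → ℝ} {σ₀ : ℝ} (hσ : 0 < σ₀)
    (hL0 : ∀ k ≤ n, ∀ l, r₀ ≤ l → l < i → σ₀ < L k l)
    (hL1 : ∀ k < n, ∀ l, r₀ ≤ l → l < i → sc (o (k + 1)) l - sc (o k) l + L (k + 1) l + σ₀ ≤ L k l)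
    (hL2 : ∀ k < n, ∀ l, r₀ ≤ l → l < i → ∀ l', r₀ ≤ l' → l' < l →
      sc (o (k + 1)) l - sc (o k) l + L (k + 1) l + σ₀ ≤ L (k + 1) l')
    (hL3 : ∀ k < n, ∀ l, r₀ ≤ l → l < i →
      sc (o (k + 1)) l - sc (o k) l + L (k + 1) l + σ₀ ≤ Λ)
    (hT3 : ∀ k < n, sc (o n) i - sc (o k) i + σ₀ ≤ Λ)
    (hT3' : ∀ k < n, ∀ l, r₀ ≤ l → l < i → sc (o n) i - sc (o k) i + 2 * σ₀ ≤ L (k + 1) l) :
    Few S f (vg (wh (o n))) y (natQ m c r₀ i wh sc (L 0) (o 0))
      (fam m c i j wh sc (o 0) (o n)) := by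
  have hj0 : (0 : ℝ) ≤ j := Nat.cast_nonneg j
  have hmo : ∀ k ≤ n, ∀ k' ≤ k, o k' ≤ o k := by
    intro k
    induction k with
    | zero =>
      intro _ k' hk'
      rw [Nat.le_zero.1 hk']
    | succ k ih =>
      intro hk k' hk'
      rcases Nat.lt_or_ge k' (k + 1) with h1 | h1
      · exact (ih (by omega) k' (by omega)).trans (ho k (by omega))
      · rw [le_antisymm hk' h1]
  have hmR : ∀ k ≤ n, ∀ k' ≤ k, (o k' : ℝ) ≤ o k := fun k hk k' hk' => by
    exact_mod_cast hmo k hk k' hk'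
  have hoA : ∀ k ≤ n, A < o k := fun k hk => hA.trans_le (hmR k hk 0 (Nat.zero_le k))
  have hoB : ∀ k ≤ n, (o k : ℝ) < B := fun k hk => (hmR n le_rfl k hk).trans_lt hB
  obtain ⟨Ns, hNs⟩ : ∃ Ns : ℝ, Ns = natD i wh sc (o n) j := ⟨_, rfl⟩
  have hNs' : Ns = sc (o n) i - (j : ℝ) * wh (o n) := hNs
  -- from the end
  have key : ∀ d ≤ n, Few S f (vg (wh (o n))) y (natQ m c r₀ i wh sc (L (n - d)) (o (n - d)))
      (qJet m ((range i).image c) (c i) j (wh (o (n - d))) (sc (o (n - d)) i) Ns) := by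
    intro d
    induction d with
    | zero =>
      intro _
      rw [Nat.sub_zero]
      obtain ⟨C₀, htm⟩ := h.tm
      obtain ⟨w1, w2⟩ := h.wl (o n) (hoA n le_rfl) hB
      have h3 := h.B1
      exact Few0.few h.pos (few0_jet htm w1 (by linarith) (by linarith) _ _ _)
    | succ d ih =>
      intro hd
      have ih := ih (by omega)
      obtain ⟨k, hk, hk1⟩ : ∃ k, n - (d + 1) = k ∧ n - d = k + 1 := ⟨_, rfl, by omega⟩
      have hkn : k < n := by omega
      rw [hk]
      rw [hk1] at ih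
      have a1 := hoA k (by omega)
      have a2 := hoB (k + 1) (by omega)
      have a3 := hoA (k + 1) (by omega)
      have a4 : o k ≤ o (k + 1) := ho k hkn
      have a5 : wh (o (k + 1)) ≤ wh (o n) := h.wm _ _ a3 (hmo n le_rfl (k + 1) (by omega)) hB
      have a6 : wh (o k) ≤ wh (o (k + 1)) := h.wm _ _ a1 a4 a2
      have hup : ∀ {U U' : Type} {Q : Qt m U} {Q' : Qt m U'},
          Few S f (vg (wh (o (k + 1)))) y Q Q' → Few S f (vg (wh (o n))) y Q Q' :=
        fun hh => Few.up h.pos (fun J F => ⟨fun x => x, fun _ => rfl⟩)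
          (fun J F => vg_mono a5 (by linarith [h.B1, (h.wl (o n) (hoA n le_rfl) hB).2]) J F)
          (fun J F => ⟨fun x => x, fun _ => rfl⟩) hh
      -- change of the labels of the earlier coordinates
      have b1 : Few S f (vg (wh (o (k + 1)))) y (natQ m c r₀ i wh sc (L k) (o k))
          (natQ m c r₀ i wh sc (L (k + 1)) (o (k + 1))) := by
        refine jets_few h h0 hi a1 a3 a2 a4 le_rfl (lv := L (k + 1)) hσ
          (fun l l0 l1 => hσ.trans (hL0 (k + 1) (by omega) l l0 l1)) ?_ ?_ ?_ ?_ ?_ ?_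
        · intro l l0 l1 j' hj'
          have e1 := hL1 k hkn l l0 l1
          have e2 : 0 ≤ (j' : ℝ) * (wh (o (k + 1)) - wh (o k)) :=
            mul_nonneg (Nat.cast_nonneg _) (by linarith)
          linarith
        · intro l l0 l1
          linarith [hL3 k hkn l l0 l1]
        · intro l l0 l1 l' l0' l1'
          linarith [hL2 k hkn l l0 l1 l' l0' l1']
        · intro l l0 l1 j' hj'
          have e1 := hL1 k hkn l l0 l1
          have e2 : 0 ≤ (j' : ℝ) * (wh (o (k + 1)) - wh (o k)) :=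
            mul_nonneg (Nat.cast_nonneg _) (by linarith)
          linarith
        · intro l l0 l1 j' hj'
          rw [min_eq_left (h.mono' l0 (by omega) a1 a4 a2)]
          linarith [hL3 k hkn l l0 l1]
        · intro l l0 l1 j' hj' l' l0' l1'
          rw [min_eq_left (h.mono' l0 (by omega) a1 a4 a2)]
          linarith [hL2 k hkn l l0 l1 l' l0' l1']
      -- change of the label of the coordinate
      have b2 : Few S f (vg (wh (o (k + 1)))) y
          ((natQ m c r₀ i wh sc (L (k + 1)) (o (k + 1))).prod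
          (qJet m ((range i).image c) (c i) j (wh (o (k + 1))) (sc (o (k + 1)) i) Ns))
          (qJet m ((range i).image c) (c i) j (wh (o k)) (sc (o k) i) Ns) := by
        have e0 := h.mono' h0 hi a1 a4 a2
        refine jet_few h h0 hi hj a3 a3 a1 a2 le_rfl le_rfl a4
          (lv := fun l => L (k + 1) l - σ₀) hσ
          (fun l l0 l1 => by
            have := hL0 (k + 1) (by omega) l l0 l1
            linarith) ?_ ?_ ?_ le_rfl ?_ ?_
        · intro l l0 l1 j' hj'
          linarith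
        · intro l l0 l1
          have e1 := hL3 k hkn l l0 l1
          have e2 := h.mono' l0 (by omega : l ≤ r) a1 a4 a2
          linarith
        · intro l l0 l1 l' l0' l1'
          have e1 := hL2 k hkn l l0 l1 l' l0' l1'
          have e2 := h.mono' l0 (by omega : l ≤ r) a1 a4 a2
          linarith
        · rw [min_eq_right e0]
          have e1 := hT3 k hkn
          have e3 : 0 ≤ (j : ℝ) * (wh (o n) - wh (o (k + 1))) := mul_nonneg hj0 (by linarith)
          rw [hNs']
          linarith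
        · intro l l0 l1
          rw [min_eq_right e0]
          have e1 := hT3' k hkn l l0 l1
          have e3 : 0 ≤ (j : ℝ) * (wh (o n) - wh (o (k + 1))) := mul_nonneg hj0 (by linarith)
          rw [hNs']
          linarith
      have x1 : Exs S (qJet m ((range i).image c) (c i) j (wh (o (k + 1)))
          (sc (o (k + 1)) i) Ns) := exs_jet1 h h0 hi a3 a2 Ns
      have x2 : Exs S (natQ m c r₀ i wh sc (L (k + 1)) (o (k + 1))) := exs_jets h h0 hi a3 a2 _
      exact Few.trans h.pos x2 (hup b1) (few_cut h.pos x1 ih (hup b2))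
  have h1 := key n le_rfl
  rw [Nat.sub_self, hNs] at h1
  exact h1

end Pool.AVG96
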