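import Pool.Agent.H96.AVG.Fal

/-!
# The mutual information with the far digits of all coordinates

`mj_ae`: at almost every `g`, for fixed far balls `a l` arbitrarily near `g` and in all small boxes
of `g`: the record at `j` knows at most `e R J` bits of the far digits (positions and velocities) of
the coordinates `r₀ ≤ l < r`, given their near digits (`d` digits behind the natural digits of `w`,
`d` at least `Sl l * (j - w) + κ R`), the record at `w` and `y`; the same for the far digits of the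
coordinates `r₀ ≤ l ≤ r`, given also the natural digits at `j` of the coordinate `r`.
-/

set_option autoImplicit false

namespace Pool.AVG96

open Finset Real MvPolynomial MeasureTheory Filter
open Pool.Agent.H49.Ent Pool.Agent.H32.Dense Pool.STK Pool.KA Pool.KSAT Pool.K2S Pool.PB Pool.S6C
  Pool.GEN Pool.RCD Pool.LA91
open Pool.OWN83 (TwoRelS TRelS TwoParS rel_clsS)

variable {m : ℕ} {α γ : ∀ J : ℕ, Fam m J → Type}
  {f : ∀ (J : ℕ) (F : Fam m J), F.Ω → α J F} {y : ∀ (J : ℕ) (F : Fam m J), F.Ω → γ J F}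
  {S : PCl m} {c : ℕ → Fin m} {r₀ r : ℕ} {s A B Λ : ℝ} {wh : ℚ → ℝ} {sc : ℚ → ℕ → ℝ}

/-! ### One more place -/

/-- The restriction to the places `< i`. -/
def cutJ (r₀ i : ℕ) (u : ℕ → ℕ → ℤ) : ℕ → ℕ → ℤ :=
  fun l j' => if r₀ ≤ l ∧ l < i ∧ j' ≤ 1 then u l j' else 0

theorem qJets_succ {c : ℕ → Fin m} {r₀ i : ℕ} {w p N N' : ℕ → ℕ → ℝ} (h0 : r₀ ≤ i)
    (hN : ∀ l < i, ∀ j', N l j' = N' l j') {K : ℕ} {e : ℝ} {J : ℕ} {F : Fam m J} {A : F.Ω → Prop}
    {u : F.Ω → ℕ → ℕ → ℤ} (h : (qJets m c r₀ (i + 1) 1 w p N).P K e J F A u) :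
    (((qJets m c r₀ i 1 w p N').prod
      ((qJet m ((range i).image c) (c i) 0 (w i 0) (p i 0) (N i 0)).prod
      (qJet m ((range i).image c) (c i) 1 (w i 1) (p i 1) (N i 1)))).P K e J F A
        (fun ω => (cutJ r₀ i (u ω), (u ω i 0, u ω i 1)))) ∧
    ∀ ω ω', A ω → A ω' → (cutJ r₀ i (u ω), (u ω i 0, u ω i 1)) =
      (cutJ r₀ i (u ω'), (u ω' i 0, u ω' i 1)) → u ω = u ω' := by
  refine ⟨⟨⟨fun l l0 l1 j' hj' => ?_, fun ω _ l j' hin => if_neg hin⟩,
    h.1 i h0 (Nat.lt_succ_self i) 0 (by norm_num), h.1 i h0 (Nat.lt_succ_self i) 1 le_rfl⟩,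
    fun ω ω' hω hω' hh => ?_⟩
  · have h1 := h.1 l l0 (by omega) j' hj'
    have h2 : (fun ω => cutJ r₀ i (u ω) l j') = fun ω => u ω l j' := by
      funext ω
      exact if_pos ⟨l0, l1, hj'⟩
    rw [← hN l l1]
    show (qJet m ((range l).image c) (c l) j' (w l j') (p l j') (N l j')).P K e J F A
      (fun ω => cutJ r₀ i (u ω) l j')
    rw [h2]
    exact h1
  · simp only [Prod.mk.injEq] at hh
    obtain ⟨h1, h2, h3⟩ := hh
    funext l j'
    by_cases hin : r₀ ≤ l ∧ l < i + 1 ∧ j' ≤ 1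
    · obtain ⟨l0, l1, hj'⟩ := hin
      rcases Nat.lt_or_ge l i with h4 | h4
      · have h5 := congrFun (congrFun h1 l) j'
        unfold cutJ at h5
        rw [if_pos ⟨l0, h4, hj'⟩, if_pos ⟨l0, h4, hj'⟩] at h5
        exact h5
      · rw [show l = i by omega]
        rcases Nat.lt_or_ge j' 1 with h6 | h6
        · rw [show j' = 0 by omega]
          exact h2
        · rw [show j' = 1 by omega]
          exact h3
    · rw [h.2 ω hω l j' hin, h.2 ω' hω' l j' hin]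

section

variable {i : ℕ} {a : ℕ → ℚ} {w j : ℚ} {d κ R C : ℝ} {D : ℕ → ℕ → ℝ}

/-- The mutual information for the places `< i + 1`. -/
theorem mis_succ (hpos : ∀ (τ : ℝ) (J : ℕ) (F : Fam m J) (A : F.Ω → Prop), S.St τ J F A →
    0 < Pe F.p A) (h0 : r₀ ≤ i) {ε : ℝ}
    (h : MIs S f y s w j ((farQ m c r₀ i wh sc a w).prod (FamX m c i wh sc w (a i)))
      ((nearQ m c r₀ i wh sc D w).prod (prQ m c i (wh w) (sc w i) (D i))) ε) :
    MIs S f y s w j (farQ m c r₀ (i + 1) wh sc a w) (nearQ m c r₀ (i + 1) wh sc D w) ε := by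
  refine h.map hpos (fun u => (cutJ r₀ i u, (u i 0, u i 1)))
    (fun u => (cutJ r₀ i u, (u i 0, u i 1))) (fun K e J F A u hu => ?_) (fun K e J F A u hu => ?_)
  · have key := qJets_succ (N' := farD i wh sc a) h0
      (fun l hl j' => by
        show farD (i + 1) wh sc a l j' = farD i wh sc a l j'
        unfold farD
        rw [if_pos hl, if_pos (by omega : l < i + 1)]) hu
    have e1 : ∀ j' : ℕ, farD (i + 1) wh sc a i j' = natD i wh sc (a i) j' := fun j' => by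
      unfold farD natD
      rw [if_pos (Nat.lt_succ_self i)]
    have e2 := e1 0
    have e3 := e1 1
    rw [e2, e3] at key
    exact key
  · exact qJets_succ h0 (fun l hl j' => rfl) hu

/-- **All stages.** -/
theorem mis_stages (h : NCh S f y c r₀ r s A B Λ wh sc) {Sl lv : ℕ → ℝ} {σ₀ A' B' x e e' : ℝ} {n : ℕ}
    (hA : A ≤ A') (hB : B' ≤ B) (hw : A' < w) (hwj : w ≤ j) (hj : (j : ℝ) < B')
    (hS : FarS wh sc r₀ r a Λ A' B' lv σ₀)
    (hT : ∀ i, r₀ ≤ i → i ≤ r → FarT sc r₀ i Λ A' B' lv σ₀) (hC : C ≤ σ₀ / 2)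
    (hCΛ : C + σ₀ / 2 ≤ Λ)
    (hb : ∀ i, r₀ ≤ i → i < r → BoxN sc r₀ r i Λ Sl w j d C x e n)
    (hD : ∀ l, r₀ ≤ l → l < r → ∀ j' ≤ 1, sc w l - (j' : ℕ) * wh w + d ≤ D l j' ∧
      D l j' ≤ sc w l - (j' : ℕ) * wh w + C)
    (hR : ∀ i, r₀ ≤ i → i < r → MIr S f y s w j (farQ m c r₀ i wh sc a w)
      (FamX m c i wh sc w (a i)) (FamX m c i wh sc w j) e') :
    ∀ i, r₀ ≤ i → i ≤ r → MIs S f y s w j (farQ m c r₀ i wh sc a w) (nearQ m c r₀ i wh sc D w)
      (((i : ℝ) - r₀) * e') := by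
  have hwj' : (w : ℝ) ≤ j := by exact_mod_cast hwj
  intro i h0
  induction i, h0 using Nat.le_induction with
  | base =>
    intro _
    rw [sub_self, zero_mul]
    exact MIs.empty h.pos _ (fun _ _ => 0) fun K e J F A u hu ω hω => by
      funext l j'
      exact hu.2 ω hω l j' (by omega)
  | succ i h0 ih =>
    intro hi
    have hir : i < r := by omega
    have b := hb i h0 hir
    have hD1 : ∀ l, r₀ ≤ l → l < i → ∀ j' ≤ 1, sc w l - (j' : ℕ) * wh w + d ≤ D l j' :=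
      fun l l0 l1 j' hj' => (hD l l0 (by omega) j' hj').1
    have hD2 : ∀ l, r₀ ≤ l → l < i → ∀ j' ≤ 1, D l j' ≤ sc w l - (j' : ℕ) * wh w + C :=
      fun l l0 l1 j' hj' => (hD l l0 (by omega) j' hj').2
    have s1 := (abs_le.mp (b.sl i h0 le_rfl w j le_rfl hwj le_rfl)).2
    have s2 := b.dl i h0 le_rfl
    have s3 := b.e0
    have hx := b.x0
    have hn : (1 : ℝ) ≤ n := by exact_mod_cast b.n1
    have hxn1 : x / n ≤ x := div_le_self hx.le hn
    have hrx : (0 : ℝ) ≤ r * x := by positivity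
    have e1 : 16 * ((r : ℝ) + 2) * x = 16 * (r * x) + 32 * x := by ring
    have g1 := hS.c1 w hw (by linarith) i h0 hir
    have g2 := hS.ha i h0 hir
    have g3 := hS.lv0 i h0 hir
    have hσ := hS.σ0
    have x1 : Exs S (FamX m c i wh sc w j) := exs_pr h h0 hir.le (by linarith) (by linarith) _
    have hwA : A < w := by linarith
    have hjB : (j : ℝ) < B := by linarith
    have hwh := h.wm w j hwA hwj hjB
    have m1 := h.up (by linarith) (le_refl j) hjB (b.mid h h0 hir.le hwA hjB hD1)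
    have m2 := h.up hwA (le_refl w) (by linarith) (b.rw1 h h0 hir.le hwA hjB hD1 (N := D i)
      (fun j' hj' => by
        have e2 := (hD i h0 hir j' hj').1
        have e3 : 0 ≤ (j' : ℝ) * (wh j - wh w) := mul_nonneg (Nat.cast_nonneg _) (by linarith)
        unfold natD
        linarith))
    have m3 := h.up hwA (le_refl w) (by linarith)
      (far_rw2 h h0 hir.le (hS.take hir.le) (hT i h0 hir.le) hA hB hw (by linarith) hC
      (N := D i) (N' := natD i wh sc (a i))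
      (fun j' hj' => by
        have e2 := (hD i h0 hir j' hj').2
        have e3 : (j' : ℝ) ≤ 1 := by exact_mod_cast hj'
        have e5 := hS.hw w hw (by linarith) i h0 hir
        have e4 : (j' : ℝ) * (wh (a i) - wh w) ≤ 1 * (wh (a i) - wh w) :=
          mul_le_mul_of_nonneg_right e3 (by linarith)
        unfold natD
        linarith)
      (fun j' hj' => (hD i h0 hir j' hj').2))
    have m4 := h.up hwA (le_refl w) (by linarith)
      (far_pre h h0 hir.le (hS.take hir.le) hA hB hw (by linarith) hC hCΛ hD2)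
    have key := (ih (by omega)).step h.pos (hR i h0 hir) x1 m1 m2 m3 m4
    have e5 : (((i + 1 : ℕ) : ℝ) - r₀) * e' = ((i : ℝ) - r₀) * e' + e' := by
      push_cast
      ring
    rw [e5]
    exact mis_succ h.pos h0 key

/-- **The target.** -/
theorem mis_tgt (h : NCh S f y c r₀ r s A B Λ wh sc) (hr : r₀ ≤ r) {Sl lv : ℕ → ℝ}
    {σ₀ A' B' x e e' ε : ℝ}
    {n : ℕ} (hA : A ≤ A') (hB : B' ≤ B) (hw : A' < w) (hwj : w ≤ j) (hj : (j : ℝ) < B')
    (hS : FarS wh sc r₀ r a Λ A' B' lv σ₀) (hT : FarT sc r₀ r Λ A' B' lv σ₀) (hC : C ≤ σ₀ / 2)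
    (hCΛ : C + σ₀ / 2 ≤ Λ) (hja : j ≤ a r) (haB : (a r : ℝ) < B)
    (b : BoxN sc r₀ r r Λ Sl w j d C x e n)
    (hD : ∀ l, r₀ ≤ l → l < r → ∀ j' ≤ 1, sc w l - (j' : ℕ) * wh w + d ≤ D l j' ∧
      D l j' ≤ sc w l - (j' : ℕ) * wh w + C)
    (hR : MIr S f y s w j (farQ m c r₀ r wh sc a w) (FamX m c r wh sc w (a r))
      (FamX m c r wh sc w j) e')
    (hM : MIs S f y s w j (farQ m c r₀ r wh sc a w) (nearQ m c r₀ r wh sc D w) ε) :
    MIs S f y s w j ((farQ m c r₀ r wh sc a w).prod (FamX m c r wh sc w (a r)))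
      ((nearQ m c r₀ r wh sc D w).prod (FamX m c r wh sc w j)) (ε + e') := by
  have hwj' : (w : ℝ) ≤ j := by exact_mod_cast hwj
  have hD1 : ∀ l, r₀ ≤ l → l < r → ∀ j' ≤ 1, sc w l - (j' : ℕ) * wh w + d ≤ D l j' :=
    fun l l0 l1 j' hj' => (hD l l0 l1 j' hj').1
  have hD2 : ∀ l, r₀ ≤ l → l < r → ∀ j' ≤ 1, D l j' ≤ sc w l - (j' : ℕ) * wh w + C :=
    fun l l0 l1 j' hj' => (hD l l0 l1 j' hj').2
  have s1 := (abs_le.mp (b.sl r hr le_rfl w j le_rfl hwj le_rfl)).2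
  have s2 := b.dl r hr le_rfl
  have s3 := b.e0
  have s4 := b.dC
  have hx := b.x0
  have hn : (1 : ℝ) ≤ n := by exact_mod_cast b.n1
  have hxn1 : x / n ≤ x := div_le_self hx.le hn
  have hrx : (0 : ℝ) ≤ r * x := by positivity
  have e1 : 16 * ((r : ℝ) + 2) * x = 16 * (r * x) + 32 * x := by ring
  have x1 : Exs S (FamX m c r wh sc w j) := exs_pr h hr le_rfl (by linarith) (by linarith) _
  have hwA : A < w := by linarith
  have hjB : (j : ℝ) < B := by linarith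
  have hwh := h.wm w j hwA hwj hjB
  have m1 := h.up (by linarith) (le_refl j) hjB (b.mid h hr le_rfl hwA hjB hD1)
  have m2 := h.up hwA (le_refl w) (by linarith) (b.rw1 h hr le_rfl hwA hjB hD1
    (N := natD r wh sc j) (fun j' hj' => le_rfl))
  have m3 := h.up hwA (le_refl w) (by linarith)
    (far_rw2 h hr le_rfl hS hT hA hB hw (by linarith) hC
    (N := natD r wh sc j) (N' := natD r wh sc (a r))
    (fun j' hj' => by
      have e2 := h.mono r hr le_rfl j (a r) (by linarith) hja haB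
      have e3 : (j' : ℝ) ≤ 1 := by exact_mod_cast hj'
      have e5 := h.wm j (a r) (by linarith) hja haB
      have e4 : (j' : ℝ) * (wh (a r) - wh j) ≤ 1 * (wh (a r) - wh j) :=
        mul_le_mul_of_nonneg_right e3 (by linarith)
      unfold natD
      linarith)
    (fun j' hj' => by
      have e3 : 0 ≤ (j' : ℝ) * (wh j - wh w) := mul_nonneg (Nat.cast_nonneg _) (by linarith)
      unfold natD
      linarith))
  have m4 := h.up hwA (le_refl w) (by linarith)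
    (far_pre h hr le_rfl hS hA hB hw (by linarith) hC hCΛ hD2)
  exact hM.step h.pos hR x1 m1 m2 m3 m4

end

/-- **The mutual information with the far digits**, almost every `g`. -/
theorem mj_ae {PA : ℚ → Prop} (h : ∀ A' : ℚ, PA A' → NCh S f y c r₀ r s A' B Λ wh sc)
    (hP : ∀ p q : ℚ, PA p → p ≤ q → PA q) (hn : HNum S f y c r₀ r s PA B Λ wh sc)
    (hr : r₀ ≤ r) :
    ∀ᵐ g : ℝ, ∀ A : ℚ, PA A → g ∈ Set.Ioo (A : ℝ) B → ∀ Sl : ℕ → ℝ,
      Slp s wh sc r₀ r g Sl → ∀ e κ C δ : ℝ, 0 < e → 0 < κ →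
      0 < C → 0 < δ → ∃ a : ℕ → ℚ,
        (∀ l, r₀ ≤ l → l ≤ r → g < a l ∧ (a l : ℝ) < g + δ ∧ (a l : ℝ) < B) ∧
        ∃ (lv : ℕ → ℝ) (σ₀ ρ : ℝ), 0 < ρ ∧ A < g - ρ ∧ g + ρ < B ∧
          (∀ l, r₀ ≤ l → l ≤ r → g + ρ ≤ a l) ∧
          FarS wh sc r₀ r a Λ (g - ρ) (g + ρ) lv σ₀ ∧
          (∀ n, r₀ ≤ n → n ≤ r → FarT sc r₀ n Λ (g - ρ) (g + ρ) lv σ₀) ∧
          (∀ w : ℚ, g - ρ < w → (w : ℝ) < g + ρ → sc (a r) r + σ₀ ≤ sc w r + Λ ∧
            ∀ l, r₀ ≤ l → l < r → sc (a r) r + σ₀ ≤ sc w r + lv l) ∧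
          C * ρ ≤ σ₀ / 2 ∧ C * ρ + σ₀ / 2 ≤ Λ ∧
          ∀ R : ℝ, 0 < R → R < ρ → ∀ w j : ℚ, g - R ≤ w → w ≤ j → (j : ℝ) ≤ g + R →
            ∀ (d : ℝ) (D : ℕ → ℕ → ℝ), d ≤ C * R →
            (∀ l, r₀ ≤ l → l < r → Sl l * (j - w) + κ * R ≤ d) →
            (∀ l, r₀ ≤ l → l < r → ∀ j' ≤ 1, sc w l - (j' : ℕ) * wh w + d ≤ D l j' ∧
              D l j' ≤ sc w l - (j' : ℕ) * wh w + C * R) →
            MIs S f y s w j (farQ m c r₀ r wh sc a w) (nearQ m c r₀ r wh sc D w) (e * R) ∧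
            (Sl r * (j - w) + κ * R ≤ d →
              MIs S f y s w j ((farQ m c r₀ r wh sc a w).prod (FamX m c r wh sc w (a r)))
                ((nearQ m c r₀ r wh sc D w).prod (FamX m c r wh sc w j)) (e * R)) := by
  filter_upwards [far_all h hP hn hr] with g hg A hPA hgAB Sl hSl e κ C δ he hκ hC hδ
  have h := h A hPA
  obtain ⟨e', he', hee⟩ : ∃ e' : ℝ, 0 < e' ∧ ((r : ℝ) + 1) * e' ≤ e :=
    ⟨e / (r + 1), by positivity, le_of_eq (by field_simp)⟩
  obtain ⟨a, ha, lv, σ₀, ρ, hρ, hρA, hρB, har, hS, hT, h5, hF⟩ := hg A hPA hgAB Sl hSl e' he' δ hδ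
  obtain ⟨M, hM⟩ : ∃ M : ℝ, M = 16 * ((r : ℝ) + 2) := ⟨_, rfl⟩
  have hM0 : 0 < M := by rw [hM]; positivity
  obtain ⟨n, hn1, hn2⟩ : ∃ n : ℕ, 1 ≤ n ∧ C * M / κ ≤ n := by
    obtain ⟨n, hn⟩ := exists_nat_ge (C * M / κ)
    exact ⟨max n 1, le_max_right _ _, hn.trans (by exact_mod_cast le_max_left n 1)⟩
  have hnR : (1 : ℝ) ≤ n := by exact_mod_cast hn1
  have hn0 : (0 : ℝ) < n := by linarith
  obtain ⟨η, hη⟩ : ∃ η : ℝ, η = κ / M / n := ⟨_, rfl⟩
  have hη0 : 0 < η := by rw [hη]; positivity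
  -- the slopes
  have hsl : ∀ k ≤ r, ∃ ρ₁ : ℝ, 0 < ρ₁ ∧ ∀ l, r₀ ≤ l → l ≤ k → ∀ t : ℝ, 0 < t → t < ρ₁ →
      ∀ w v : ℚ, g - t ≤ w → w ≤ v → (v : ℝ) ≤ g + t →
        |sc v l - sc w l - Sl l * (v - w)| ≤ η * t := by
    intro k
    induction k with
    | zero =>
      intro _
      by_cases h1 : r₀ = 0
      · obtain ⟨ρ₁, hρ₁, H⟩ := hSl.sl 0 (by omega) (Nat.zero_le r) η hη0
        exact ⟨ρ₁, hρ₁, fun l l0 l1 => by rw [Nat.le_zero.1 l1]; exact H⟩
      · exact ⟨1, one_pos, fun l l0 l1 => absurd l1 (by omega)⟩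
    | succ k ih =>
      intro hk
      obtain ⟨ρ₁, hρ₁, H⟩ := ih (by omega)
      by_cases h1 : r₀ ≤ k + 1
      · obtain ⟨ρ₂, hρ₂, H'⟩ := hSl.sl (k + 1) h1 hk η hη0
        refine ⟨min ρ₁ ρ₂, lt_min hρ₁ hρ₂, fun l l0 l1 t t1 t2 => ?_⟩
        rcases Nat.lt_or_ge l (k + 1) with h4 | h4
        · exact H l l0 (by omega) t t1 (t2.trans_le (min_le_left _ _))
        · rw [show l = k + 1 by omega]
          exact H' t t1 (t2.trans_le (min_le_right _ _))
      · exact ⟨ρ₁, hρ₁, fun l l0 l1 => absurd l0 (by omega)⟩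
  obtain ⟨ρ₁, hρ₁, hsl⟩ := hsl r le_rfl
  have hσ := hS.σ0
  obtain ⟨σ, hσ0, hσ1, hσ2⟩ : ∃ σ : ℝ, 0 < σ ∧ σ ≤ σ₀ ∧ σ ≤ Λ :=
    ⟨min σ₀ Λ, lt_min hσ h.Λ0, min_le_left _ _, min_le_right _ _⟩
  obtain ⟨ρ', hρ', p1, p2, p3, p4⟩ : ∃ ρ' : ℝ, 0 < ρ' ∧ ρ' ≤ ρ ∧ ρ' ≤ ρ₁ ∧ C * ρ' ≤ σ / 4 ∧
      κ * ρ' ≤ σ / 4 := by
    refine ⟨min (min ρ ρ₁) (min (σ / (4 * C)) (σ / (4 * κ))), by positivity,
      (min_le_left _ _).trans (min_le_left _ _), (min_le_left _ _).trans (min_le_right _ _), ?_, ?_⟩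
    · have h1 := (min_le_right (min ρ ρ₁) (min (σ / (4 * C)) (σ / (4 * κ)))).trans
        (min_le_left _ _)
      refine (mul_le_mul_of_nonneg_left h1 hC.le).trans (le_of_eq ?_)
      field_simp
    · have h1 := (min_le_right (min ρ ρ₁) (min (σ / (4 * C)) (σ / (4 * κ)))).trans
        (min_le_right _ _)
      refine (mul_le_mul_of_nonneg_left h1 hκ.le).trans (le_of_eq ?_)
      field_simp
  have hS' := hS.mono (A'' := g - ρ') (B'' := g + ρ') (by linarith) (by linarith) hσ0 hσ1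
  have hT' : ∀ n, r₀ ≤ n → n ≤ r → FarT sc r₀ n Λ (g - ρ') (g + ρ') lv σ := fun n n0 n1 =>
    (hT n n0 n1).mono (by linarith) (by linarith) hσ1
  refine ⟨a, ha, lv, σ, ρ', hρ', by linarith, by linarith, fun l l0 l1 => ?_, hS', hT',
    fun w w1 w2 => ?_,
    by linarith, by linarith, fun R hR hR' w j hw hwj hj d D hd hdl hD => ?_⟩
  · rcases Nat.lt_or_ge l r with h4 | h4
    · have := hS.ha l l0 h4
      linarith
    · rw [show l = r by omega]
      linarith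
  · obtain ⟨q1, q2⟩ := h5 w (by linarith) (by linarith)
    exact ⟨by linarith, fun l l0 l1 => by linarith [q2 l l0 l1]⟩
  have hCR : C * R ≤ σ / 4 := (mul_le_mul_of_nonneg_left hR'.le hC.le).trans p3
  have hκR : κ * R ≤ σ / 4 := (mul_le_mul_of_nonneg_left hR'.le hκ.le).trans p4
  have hwj' : (w : ℝ) ≤ j := by exact_mod_cast hwj
  -- the boxes
  have hbox : ∀ i, r₀ ≤ i → i ≤ r → (∀ l, r₀ ≤ l → l ≤ i → Sl l * (j - w) + κ * R ≤ d) →
      BoxN sc r₀ r i Λ Sl w j d (C * R) (κ / M * R) (η * R) n := by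
    intro i h0 hi hdi
    have e1 : 16 * ((r : ℝ) + 2) * (κ / M * R) = κ * R := by
      rw [← hM]
      field_simp
    refine ⟨hwj, hn1, by positivity, ?_, hd, ?_, ?_, fun l l0 l1 => hSl.nn l l0 (by omega),
      fun l l0 l1 w' v' a1 a2 a3 => ?_, fun l l0 l1 => ?_⟩
    · rw [hη]
      refine le_of_eq ?_
      ring
    · rw [div_le_iff₀ hn0]
      rw [div_le_iff₀ hκ] at hn2
      have e2 : κ / M * R * n = (n * κ) / M * R := by ring
      have e3 : C ≤ n * κ / M := by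
        rw [le_div_iff₀ hM0]
        exact hn2
      rw [e2]
      exact mul_le_mul_of_nonneg_right e3 hR.le
    · rw [e1]
      linarith
    · have a1' : (w : ℝ) ≤ w' := by exact_mod_cast a1
      have a3' : (v' : ℝ) ≤ j := by exact_mod_cast a3
      exact hsl l l0 (by omega) R hR (hR'.trans_le p2) w' v' (by linarith) a2 (by linarith)
    · rw [e1]
      exact hdi l l0 l1
  have hja : j ≤ a r := by
    have : (j : ℝ) ≤ a r := by linarith
    exact_mod_cast this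
  have st := mis_stages (A' := g - ρ') (B' := g + ρ') (a := a) (w := w) (j := j) (d := d)
    (C := C * R) (D := D) (e' := e' * R) h (by linarith) (by linarith) (by linarith) hwj
    (by linarith) hS' hT' (by linarith) (by linarith)
    (fun i h0 hi => hbox i h0 hi.le fun l l0 l1 => hdl l l0 (by omega)) hD
    (fun i h0 hi => hF i h0 hi.le R hR (hR'.trans_le p1) w j hw hwj hj) r hr le_rfl
  have hr0 : (0 : ℝ) ≤ r₀ := Nat.cast_nonneg _
  have he'R : 0 ≤ e' * R := by positivity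
  have heR : ((r : ℝ) + 1) * e' * R ≤ e * R := mul_le_mul_of_nonneg_right hee hR.le
  have e4 : ((r : ℝ) - r₀) * (e' * R) ≤ r * (e' * R) :=
    mul_le_mul_of_nonneg_right (by linarith) he'R
  refine ⟨st.le (by linarith), fun hdr => ?_⟩
  have tg := mis_tgt (A' := g - ρ') (B' := g + ρ') (a := a) (w := w) (j := j) (d := d)
    (C := C * R) (D := D) (e' := e' * R) h hr (by linarith) (by linarith) (by linarith) hwj
    (by linarith) hS' (hT' r hr le_rfl) (by linarith) (by linarith) hja (ha r hr le_rfl).2.2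
    (hbox r hr le_rfl fun l l0 l1 => by
      rcases Nat.lt_or_ge l r with h4 | h4
      · exact hdl l l0 h4
      · rw [show l = r by omega]
        exact hdr) hD (hF r hr le_rfl R hR (hR'.trans_le p1) w j hw hwj hj) st
  exact tg.le (by linarith)

end Pool.AVG96
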