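import Pool.Agent.H96.AVG.Mjr

/-!
# The mutual information with the far digits, at good windows

`mj_G`: `mj_ae` for a closed set `G` of good windows: real windows `w` of `G`, real record windows
`j`.
-/

set_option autoImplicit false

namespace Pool.AVG96

open Finset Real MvPolynomial MeasureTheory Filter Topology
open Pool.Agent.H49.Ent Pool.Agent.H32.Dense Pool.STK Pool.KA Pool.KSAT Pool.K2S Pool.PB Pool.S6C
  Pool.GEN Pool.RCD Pool.LA91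

variable {m : ℕ} {α γ : ∀ J : ℕ, Fam m J → Type}
  {f : ∀ (J : ℕ) (F : Fam m J), F.Ω → α J F} {y : ∀ (J : ℕ) (F : Fam m J), F.Ω → γ J F}
  {S : PCl m} {c : ℕ → Fin m} {r₀ r : ℕ} {s A B Λ : ℝ} {sn : ℝ → ℕ → ℝ} {G : Set ℝ}

/-- The conclusion at the indices. -/
def IxC (S : PCl m) (f : ∀ (J : ℕ) (F : Fam m J), F.Ω → α J F)
    (y : ∀ (J : ℕ) (F : Fam m J), F.Ω → γ J F) (c : ℕ → Fin m) (r₀ r : ℕ) (s A : ℝ)
    (sn : ℝ → ℕ → ℝ) (G : Set ℝ) (Sl : ℕ → ℝ) (a : ℕ → ℚ) (g e κ C ρ : ℝ) : Prop :=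
  ∀ R : ℝ, 0 < R → R < ρ → ∀ w j : ℚ, g - R ≤ w → w ≤ j → (j : ℝ) ≤ g + R →
    ∀ (d : ℝ) (D : ℕ → ℕ → ℝ), d ≤ C * R →
    (∀ l, r₀ ≤ l → l < r → Sl l * (j - w) + κ * R ≤ d) →
    (∀ l, r₀ ≤ l → l < r → ∀ j' ≤ 1,
      scG sn G A s w l - (j' : ℕ) * whG G A s w + d ≤ D l j' ∧
      D l j' ≤ scG sn G A s w l - (j' : ℕ) * whG G A s w + C * R) →
    MIs S f y s w j (farQ m c r₀ r (whG G A s) (scG sn G A s) a w)
      (nearQ m c r₀ r (whG G A s) (scG sn G A s) D w) (e * R) ∧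
    (Sl r * (j - w) + κ * R ≤ d →
      MIs S f y s w j ((farQ m c r₀ r (whG G A s) (scG sn G A s) a w).prod
        (FamX m c r (whG G A s) (scG sn G A s) w (a r)))
        ((nearQ m c r₀ r (whG G A s) (scG sn G A s) D w).prod
        (FamX m c r (whG G A s) (scG sn G A s) w j)) (e * R))

/-- The numbers of the box. -/
structure BxN (sn : ℝ → ℕ → ℝ) (r₀ r : ℕ) (G : Set ℝ) (g A Λ : ℝ) (Sl : ℕ → ℝ)
    (e κ C M τ t σ₀ : ℝ) : Prop where
  nn : ∀ l, r₀ ≤ l → l ≤ r → 0 ≤ Sl l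
  M1 : 1 ≤ M
  hM : ∀ l ≤ r, Sl l ≤ M
  τ0 : 0 < τ
  τ1 : τ ≤ 1 / 4
  τκ : 8 * M * τ ≤ κ / (16 * (r + 2))
  τe : 8 * M * τ ≤ e / 4
  e0 : 0 < e
  κ0 : 0 < κ
  C0 : 0 < C
  gap : ∀ R : ℝ, 0 < R → R < t → ∀ x : ℝ, g - 2 * R ≤ x → x ≤ g + 2 * R →
    ∃ u ∈ G, x - τ * R ≤ u ∧ u ≤ x
  sl : ∀ R : ℝ, 0 < R → R < t → ∀ w ∈ G, ∀ v ∈ G, g - 2 * R ≤ w → w ≤ v → v ≤ g + 2 * R →
    |sn v r - sn w r - Sl r * (v - w)| ≤ τ * R
  tA : A ≤ g - 4 * t
  Cσ : C * t ≤ σ₀ / 2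
  CΛ : C * t + σ₀ / 2 ≤ Λ
  κσ : κ * t ≤ σ₀ / 2
  σ0 : 0 < σ₀

/-- The conclusions in a box. -/
theorem box_G (h : GCh S f y c r₀ r s A B Λ sn G) (hr : r₀ ≤ r) {g e κ C M τ t σ₀ ρ : ℝ}
    {Sl lv : ℕ → ℝ} (b : BxN sn r₀ r G g A Λ Sl e κ C M τ t σ₀) {a : ℕ → ℚ} {a' : ℕ → ℝ}
    (ea : ∀ l, a' l = whG G A s (a l)) (har : a' r ∈ G) (harB : a' r < B)
    (hF : FarR sn G r₀ r a' Λ (g - 2 * t) (g + 2 * t) lv σ₀) (hB : g + 2 * t ≤ B)
    (H : IxC S f y c r₀ r s A sn G Sl a (g - s) (e / 4) (κ / 4) C ρ) (hρ : 2 * t ≤ ρ) {R : ℝ}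
    (hR : 0 < R) (hRt : R < t) {w : ℝ} (hw : w ∈ G) {j : ℝ} (hwR : g - R ≤ w) (hwj : w ≤ j)
    (hjR : j ≤ g + R) {d : ℝ} {D : ℕ → ℕ → ℝ} (hdC : d ≤ C * R)
    (hdl : ∀ l, r₀ ≤ l → l < r → Sl l * (j - w) + κ * R ≤ d)
    (hD : ∀ l, r₀ ≤ l → l < r → ∀ j' ≤ 1, sn w l - (j' : ℕ) * w + d ≤ D l j' ∧
      D l j' ≤ sn w l - (j' : ℕ) * w + C * R) :
    MIw S f y w j (jetQ m c r₀ r w (sn w) (nD sn a')) (jetQ m c r₀ r w (sn w) D) (e * R) ∧
    (Sl r * (j - w) + κ * R ≤ d → ∀ E : ℕ → ℝ,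
      (∀ j' ≤ 1, (∀ o ∈ G, A ≤ o → o ≤ j → sn o r - (j' : ℕ) * o ≤ E j') ∧
        E j' ≤ sn w r - (j' : ℕ) * w + C * R ∧ E j' ≤ nD sn a' r j') →
      MIw S f y w j
        ((jetQ m c r₀ r w (sn w) (nD sn a')).prod (prQ m c r w (sn w r) (nD sn a' r)))
        ((jetQ m c r₀ r w (sn w) D).prod (prQ m c r w (sn w r) E)) (e * R)) := by
  obtain ⟨x, hx⟩ : ∃ x, x = κ / (16 * (r + 2)) * R := ⟨_, rfl⟩
  have hκ0 := b.κ0
  have hC0 := b.C0
  have he0 := b.e0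
  have hτ0 := b.τ0
  have hM1 := b.M1
  have htA := b.tA
  have hσ := b.σ0
  have hx0 : 0 < x := by rw [hx]; positivity
  have hκR : 16 * ((r : ℝ) + 2) * x = κ * R := by rw [hx]; field_simp
  have hτR : 0 < τ * R := by positivity
  have hMτ : 8 * M * (τ * R) ≤ x := by
    rw [hx, ← mul_assoc]
    exact mul_le_mul_of_nonneg_right b.τκ hR.le
  have hMτe : 8 * M * (τ * R) ≤ e / 4 * R := by
    rw [← mul_assoc]
    exact mul_le_mul_of_nonneg_right b.τe hR.le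
  have hτM : τ * R ≤ M * (τ * R) := by
    have := mul_le_mul_of_nonneg_right hM1 hτR.le
    linarith
  have hτR1 : τ * R ≤ 1 / 4 * R := mul_le_mul_of_nonneg_right b.τ1 hR.le
  have hrx : 0 ≤ (r : ℝ) * x := by positivity
  have hexp : 16 * ((r : ℝ) + 2) * x = 16 * (r * x) + 32 * x := by ring
  have hexp' : 3 * ((r : ℝ) + 1) * x = 3 * (r * x) + 3 * x := by ring
  have hCR : C * R ≤ C * t := mul_le_mul_of_nonneg_left hRt.le hC0.le
  have hCR2 : C * R ≤ C * (2 * R) := mul_le_mul_of_nonneg_left (by linarith) hC0.le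
  have hκt : κ * R ≤ κ * t := mul_le_mul_of_nonneg_left hRt.le hκ0.le
  have bC := b.Cσ
  have bΛ := b.CΛ
  have bκ := b.κσ
  have heR : 0 < e * R := by positivity
  -- the indices
  obtain ⟨q, q1, q2⟩ := exists_rat_btwn (show w - s - τ * R < w - s by linarith)
  obtain ⟨q', q1', q2'⟩ := exists_rat_btwn (show j - s < j - s + τ * R by linarith)
  have hqq : q ≤ q' := by
    have : (q : ℝ) ≤ q' := by linarith
    exact_mod_cast this
  -- points of `G`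
  have gp : ∀ z : ℝ, g - 2 * R ≤ z → z ≤ g + 2 * R → (G ∩ Set.Icc A z).Nonempty ∧
      fl G A z ∈ G ∧ A ≤ fl G A z ∧ fl G A z ≤ z ∧ z - τ * R ≤ fl G A z := by
    intro z z1 z2
    obtain ⟨u, hu, u1, u2⟩ := b.gap R hR hRt z z1 z2
    have u4 : A ≤ u := by linarith
    have hne : (G ∩ Set.Icc A z).Nonempty := ⟨u, hu, u4, u2⟩
    obtain ⟨m1, m2, m3⟩ := fl_mem h.cl hne
    exact ⟨hne, m1, m2, m3, u1.trans (le_fl hu u4 u2)⟩
  obtain ⟨u, hu⟩ : ∃ u, u = whG G A s q := ⟨_, rfl⟩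
  obtain ⟨v, hv⟩ : ∃ v, v = whG G A s q' := ⟨_, rfl⟩
  obtain ⟨o, ho⟩ : ∃ o, o = fl G A j := ⟨_, rfl⟩
  obtain ⟨hu0, hu1, hu2, hu3, hu4⟩ := gp (q + s) (by linarith) (by linarith)
  obtain ⟨-, hv1, hv2, hv3, hv4⟩ := gp (q' + s) (by linarith) (by linarith)
  obtain ⟨-, ho1, ho2, ho3, ho4⟩ := gp j (by linarith) (by linarith)
  rw [← ho] at ho1 ho2 ho3 ho4
  have hu' : fl G A (q + s) = u := by rw [hu]; rfl
  have hv' : fl G A (q' + s) = v := by rw [hv]; rfl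
  rw [hu'] at hu1 hu2 hu3 hu4
  rw [hv'] at hv1 hv2 hv3 hv4
  have hov : o ≤ v := by
    rw [ho, ← hv']
    exact fl_mono ⟨w, hw, by linarith, hwj⟩ (by linarith)
  have hwv : w ≤ v := by
    rw [← hv']
    exact le_fl hw (by linarith) (by linarith)
  -- the slope of the target
  have hMr := b.nn r hr le_rfl
  have sl1 := (abs_le.mp (b.sl R hR hRt u hu1 v hv1 (by linarith) (by linarith)
    (by linarith))).2
  have sl2 := (abs_le.mp (b.sl R hR hRt o ho1 v hv1 (by linarith) hov (by linarith))).2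
  have slM : ∀ l ≤ r, r₀ ≤ l → ∀ z z' : ℝ, 0 ≤ z' → z ≤ j - w + z' →
      Sl l * z ≤ Sl l * (j - w) + M * z' := by
    intro l hl l0 z z' h1 h2
    have e1 := mul_le_mul_of_nonneg_left h2 (b.nn l l0 hl)
    have e2 := mul_le_mul_of_nonneg_right (b.hM l hl) h1
    linarith
  have sl3 := slM r le_rfl hr (v - u) (3 * (τ * R)) (by linarith) (by linarith)
  have sl4 : Sl r * (v - o) ≤ M * (2 * (τ * R)) := by
    have e1 : Sl r * (v - o) ≤ Sl r * (2 * (τ * R)) :=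
      mul_le_mul_of_nonneg_left (by linarith) hMr
    have e2 : Sl r * (2 * (τ * R)) ≤ M * (2 * (τ * R)) :=
      mul_le_mul_of_nonneg_right (b.hM r le_rfl) (by linarith)
    linarith
  have hsv : sn v r - sn u r ≤ Sl r * (j - w) + x := by linarith
  have hso : sn v r - sn o r ≤ 4 * M * (τ * R) := by linarith
  clear sl1 sl2 sl3 sl4
  -- the digits
  have hdκ : ∀ l, r₀ ≤ l → l < r → κ * R ≤ d := fun l l0 l1 => by
    have := hdl l l0 l1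
    have := mul_nonneg (b.nn l l0 l1.le) (show 0 ≤ j - w by linarith)
    linarith
  have hdx : ∀ l, r₀ ≤ l → l < r → 3 * ((r : ℝ) + 1) * x ≤ d := fun l l0 l1 => by
    linarith [hdκ l l0 l1]
  have hdΛ : d ≤ Λ := by linarith
  have hlr : ∀ l, l < r → 3 * ((l : ℝ) + 1) * x ≤ 3 * (r * x) := fun l hl => by
    have h1 : (l : ℝ) + 1 ≤ r := by exact_mod_cast hl
    nlinarith
  have hl0 : ∀ l : ℕ, 0 ≤ 3 * ((l : ℝ) + 1) * x := fun l => by positivity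
  have slq : ∀ l ≤ r, r₀ ≤ l → Sl l * ((q' : ℝ) - q) ≤ Sl l * (j - w) + M * (2 * (τ * R)) :=
    fun l hl l0 => slM l hl l0 _ _ (by linarith) (by linarith)
  obtain ⟨H1, H2⟩ := H (2 * R) (by linarith) (by linarith) q q' (by linarith) hqq (by linarith)
    (d - 3 * ((r : ℝ) + 1) * x) (cD sn u d x) (by linarith) (fun l l0 l1 => by
      have := slq l l1.le l0
      have := hdl l l0 l1
      linarith) (fun l l0 l1 j' hj' => by
      have e1 : scG sn G A s q l = sn u l := by rw [hu]; rfl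
      unfold cD
      rw [e1, ← hu]
      have := hlr l l1
      have := hl0 l
      constructor <;> linarith)
  have k : Cnv A s G sn r₀ r B Λ (g - 2 * t) (g + 2 * t) σ₀ a a' q q' w j u d x (C * R) D :=
    ⟨ea, hu0, by linarith, hB, har, harB, by linarith, by linarith, hu, hw, by linarith, by linarith,
      by linarith, hwj, by linarith, hx0, by linarith, hdx, hdΛ, by linarith, by linarith, hD⟩
  refine ⟨(k.mx h hr hF H1).le (by linarith), fun hdr E hE => ?_⟩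
  have H3 := H2 (by
    have := slq r le_rfl hr
    linarith)
  refine (k.mj h hr hF hv hwv (δ := 4 * M * (τ * R)) (by positivity) (by linarith)
    (fun l l0 l1 => by linarith [hlr l l1]) (fun j' hj' => ⟨?_, (hE j' hj').2⟩) H3).le ?_
  · have e2 := (hE j' hj').1 o ho1 ho2 ho3
    have e3 : 0 ≤ (j' : ℝ) * (v - o) := mul_nonneg (Nat.cast_nonneg _) (by linarith)
    linarith
  · have h7 : 4 * M * (τ * R) * Real.log 2 ≤ 4 * M * (τ * R) * 1 := by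
      have h8 := Real.log_two_lt_d9
      exact mul_le_mul_of_nonneg_left (by linarith) (by positivity)
    linarith

/-- **Almost every `g`**: the far balls `a l` and the conclusions in all small boxes. -/
theorem mj_G (h : GCh S f y c r₀ r s A B Λ sn G)
    (hn : HNum S f y c r₀ r s (PG G A s) (B - s) Λ (whG G A s) (scG sn G A s)) (hr : r₀ ≤ r) :
    ∀ᵐ g : ℝ, A < g → g < B → ∀ Sl : ℕ → ℝ, SlpG sn r₀ r G g Sl → ∀ e κ C δ : ℝ, 0 < e →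
      0 < κ → 0 < C → 0 < δ → ∃ a : ℕ → ℝ,
        (∀ l, r₀ ≤ l → l ≤ r → a l ∈ G ∧ g < a l ∧ a l < g + δ ∧ a l < B) ∧
        ∃ (lv : ℕ → ℝ) (σ₀ ρ : ℝ), 0 < ρ ∧ A < g - ρ ∧ g + ρ < B ∧
          FarR sn G r₀ r a Λ (g - ρ) (g + ρ) lv σ₀ ∧ C * ρ ≤ σ₀ / 2 ∧ C * ρ + σ₀ / 2 ≤ Λ ∧
          ∀ R : ℝ, 0 < R → R < ρ → ∀ w ∈ G, ∀ j : ℝ, g - R ≤ w → w ≤ j → j ≤ g + R →
            ∀ (d : ℝ) (D : ℕ → ℕ → ℝ), d ≤ C * R →
            (∀ l, r₀ ≤ l → l < r → Sl l * (j - w) + κ * R ≤ d) →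
            (∀ l, r₀ ≤ l → l < r → ∀ j' ≤ 1, sn w l - (j' : ℕ) * w + d ≤ D l j' ∧
              D l j' ≤ sn w l - (j' : ℕ) * w + C * R) →
            MIw S f y w j (jetQ m c r₀ r w (sn w) (nD sn a)) (jetQ m c r₀ r w (sn w) D) (e * R) ∧
            (Sl r * (j - w) + κ * R ≤ d → ∀ E : ℕ → ℝ,
              (∀ j' ≤ 1, (∀ o ∈ G, A ≤ o → o ≤ j → sn o r - (j' : ℕ) * o ≤ E j') ∧
                E j' ≤ sn w r - (j' : ℕ) * w + C * R ∧ E j' ≤ nD sn a r j') →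
              MIw S f y w j
                ((jetQ m c r₀ r w (sn w) (nD sn a)).prod (prQ m c r w (sn w r) (nD sn a r)))
                ((jetQ m c r₀ r w (sn w) D).prod (prQ m c r w (sn w r) E)) (e * R)) := by
  filter_upwards [(measurePreserving_sub_right (volume : Measure ℝ)
    s).quasiMeasurePreserving.tendsto_ae.eventually (mj_ae (PA := PG G A s)
    (fun _ hA' => h.nch hA') (fun _ _ => PG.mono) hn hr)] with g hg hgA hgB Sl hSl e κ C δ he hκ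
    hC hδ
  -- a point of `G` before `g`
  obtain ⟨A₁, b0, b1, b2⟩ : ∃ A₁ : ℚ, PG G A s A₁ ∧ (A₁ : ℝ) < g - s ∧ A ≤ A₁ + s := by
    obtain ⟨ρ₀, hρ₀, H₀⟩ := hSl.gap 1 one_pos
    obtain ⟨t, ht, ht1, ht2⟩ : ∃ t : ℝ, 0 < t ∧ t < ρ₀ ∧ 2 * t < g - A :=
      ⟨min (ρ₀ / 2) ((g - A) / 4), lt_min (by positivity) (by linarith),
        (min_le_left _ _).trans_lt (by linarith), by
          linarith [min_le_right (ρ₀ / 2) ((g - A) / 4)]⟩
    obtain ⟨u₀, hu₀, u1, u2⟩ := H₀ t ht ht1 (g - t) le_rfl (by linarith)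
    obtain ⟨A₁, b1, b2⟩ := exists_rat_btwn (show u₀ - s < g - s by linarith)
    exact ⟨A₁, ⟨u₀, hu₀, by linarith, by linarith⟩, b2, by linarith⟩
  have hslp := hSl.slp (s := s) h.cl hgA
  -- a bound of the slopes
  obtain ⟨M, hM1, hM⟩ : ∃ M : ℝ, 1 ≤ M ∧ ∀ l ≤ r, Sl l ≤ M := by
    refine ⟨1 + ∑ l ∈ range (r + 1), |Sl l|, ?_, fun l hl => ?_⟩
    · have : 0 ≤ ∑ l ∈ range (r + 1), |Sl l| := Finset.sum_nonneg fun l _ => abs_nonneg _
      linarith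
    · have h1 := Finset.single_le_sum (f := fun l => |Sl l|) (fun l _ => abs_nonneg _)
        (mem_range.2 (by omega : l < r + 1))
      have h2 := le_abs_self (Sl l)
      linarith
  have hM0 : 0 < M := by linarith
  obtain ⟨τ, hτ0, hτ1, hτκ, hτe⟩ : ∃ τ : ℝ, 0 < τ ∧ τ ≤ 1 / 4 ∧
      8 * M * τ ≤ κ / (16 * (r + 2)) ∧ 8 * M * τ ≤ e / 4 := by
    refine ⟨min (1 / 4) (min (κ / (16 * (r + 2)) / (8 * M)) (e / 4 / (8 * M))),
      lt_min (by norm_num) (lt_min (by positivity) (by positivity)), min_le_left _ _, ?_, ?_⟩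
    · refine (mul_le_mul_of_nonneg_left ((min_le_right _ _).trans (min_le_left _ _))
        (by positivity)).trans (le_of_eq ?_)
      field_simp
    · refine (mul_le_mul_of_nonneg_left ((min_le_right _ _).trans (min_le_right _ _))
        (by positivity)).trans (le_of_eq ?_)
      field_simp
  obtain ⟨a, ha, lv, σ₀, ρ, hρ, hρA, hρB, har, hS, hT, h5, hCρ, hCρ', H⟩ :=
    hg A₁ b0 ⟨b1, by linarith⟩ Sl hslp (e / 4) (κ / 4) C δ (by positivity) (by positivity) hC hδ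
  clear hT
  obtain ⟨ρ₁, hρ₁, Hg⟩ := hSl.gap (τ / 2) (by positivity)
  obtain ⟨ρ₂, hρ₂, Hs⟩ := hSl.sl r hr le_rfl (τ / 2) (by positivity)
  have hσ := hS.σ0
  -- the radius
  obtain ⟨t₁, ht₁0, ht1, ht2⟩ : ∃ t : ℝ, 0 < t ∧ t < ρ ∧ t < ρ₁ :=
    ⟨min ρ ρ₁ / 2, by positivity, by
      have h1 : 0 < min ρ ρ₁ := by positivity
      linarith [min_le_left ρ ρ₁], by
      have h1 : 0 < min ρ ρ₁ := by positivity
      linarith [min_le_right ρ ρ₁]⟩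
  obtain ⟨u₁, hu₁, v1, v2⟩ := Hg t₁ ht₁0 ht2 (g + t₁) (by linarith) le_rfl
  have hτt : τ / 2 * t₁ ≤ 1 / 2 * t₁ := mul_le_mul_of_nonneg_right (by linarith) ht₁0.le
  obtain ⟨t, ht, k1, k2, k3, k4, k5⟩ : ∃ t : ℝ, 0 < t ∧ 4 * t ≤ t₁ ∧ 2 * t ≤ ρ₁ ∧ 2 * t ≤ ρ₂ ∧
      κ * t ≤ σ₀ / 2 ∧ 4 * t ≤ ρ := by
    obtain ⟨t, ht⟩ : ∃ t : ℝ, t = min (min (t₁ / 4) (ρ₁ / 2)) (min (ρ₂ / 2) (min (σ₀ / 2 / κ)
      (ρ / 4))) := ⟨_, rfl⟩
    have n1 : t ≤ t₁ / 4 := by rw [ht]; exact (min_le_left _ _).trans (min_le_left _ _)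
    have n2 : t ≤ ρ₁ / 2 := by rw [ht]; exact (min_le_left _ _).trans (min_le_right _ _)
    have n3 : t ≤ ρ₂ / 2 := by rw [ht]; exact (min_le_right _ _).trans (min_le_left _ _)
    have n4 : t ≤ σ₀ / 2 / κ := by
      rw [ht]
      exact (min_le_right _ _).trans ((min_le_right _ _).trans (min_le_left _ _))
    have n5 : t ≤ ρ / 4 := by
      rw [ht]
      exact (min_le_right _ _).trans ((min_le_right _ _).trans (min_le_right _ _))
    refine ⟨t, by rw [ht]; positivity, by linarith, by linarith, by linarith, ?_, by linarith⟩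
    rw [le_div_iff₀ hκ] at n4
    linarith
  have hAg : A ≤ g - ρ := by linarith
  have hFR := farR_of h b0 (g := g - s) (ρ := ρ) (ρ' := 2 * t) (a := a) (lv := lv) (σ₀ := σ₀)
    hρA hρB (fun l l0 l1 => ⟨har l l0 l1, (ha l l0 l1).2.2⟩) hS h5 (by linarith) hu₁
    (by linarith) (by linarith) (by linarith) hr
  have eg : g - s + s = g := by ring
  rw [eg] at hFR
  obtain ⟨a', ha'⟩ : ∃ a' : ℕ → ℝ, a' = fun l => whG G A s (a l) := ⟨_, rfl⟩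
  have ea' : ∀ l, a' l = whG G A s (a l) := fun l => by rw [ha']
  rw [← ha'] at hFR
  have ham : ∀ l, r₀ ≤ l → l ≤ r → a' l ∈ G ∧ A ≤ a' l ∧ a' l ≤ a l + s := fun l l0 l1 => by
    rw [ea']
    exact fl_mem h.cl (b0.lt (by linarith [har l l0 l1]))
  have hCt : C * t ≤ C * ρ := mul_le_mul_of_nonneg_left (by linarith) hC.le
  have bx : BxN sn r₀ r G g A Λ Sl e κ C M τ t σ₀ := by
    refine ⟨hSl.nn, hM1, hM, hτ0, hτ1, hτκ, hτe, he, hκ, hC, fun R h1 h2 x x1 x2 => ?_,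
      fun R h1 h2 w hw v hv w1 w2 w3 => ?_, by linarith, by linarith, by linarith, k4, hσ⟩
    · obtain ⟨u, hu, m1, m2⟩ := Hg (2 * R) (by linarith) (by linarith) x x1 x2
      exact ⟨u, hu, by linarith, m2⟩
    · refine (Hs (2 * R) (by linarith) (by linarith) w hw v hv w1 w2 w3).trans (le_of_eq ?_)
      ring
  refine ⟨a', fun l l0 l1 => ?_, lv, σ₀, t, ht, by linarith, by linarith,
    hFR.mono (by linarith) (by linarith), bx.Cσ, bx.CΛ, ?_⟩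
  · obtain ⟨m1, m2, m3⟩ := ham l l0 l1
    obtain ⟨n1, n2, n3⟩ := ha l l0 l1
    exact ⟨m1, by linarith [hFR.ha l l0 l1], by linarith, by linarith⟩
  · intro R hR hRt w hw j hwR hwj hjR d D hdC hdl hD
    exact box_G h hr bx ea' (ham r hr le_rfl).1
      (by linarith [(ham r hr le_rfl).2.2, (ha r hr le_rfl).2.2]) hFR (by linarith) H
      (by linarith) hR hRt hw hwR hwj hjR hdC hdl hD

end Pool.AVG96
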