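import Pool.Agent.H96.AVG.Far2

/-!
# The mutual information with the far digits, at good windows

`mj_G`: `mj_ae` for a closed set `G` of good windows: real windows `w` of `G`, real record windows
`j`. `hnum_G`: the subclass with the numbers.
-/

set_option autoImplicit false

namespace Pool.AVG96

open Finset Real MvPolynomial MeasureTheory Filter Topology
open Pool.Agent.H49.Ent Pool.Agent.H32.Dense Pool.STK Pool.KA Pool.KSAT Pool.K2S Pool.PB Pool.S6C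
  Pool.GEN Pool.RCD Pool.LA91

variable {m : ℕ} {α γ : ∀ J : ℕ, Fam m J → Type}
  {f : ∀ (J : ℕ) (F : Fam m J), F.Ω → α J F} {y : ∀ (J : ℕ) (F : Fam m J), F.Ω → γ J F}
  {S : PCl m} {c : ℕ → Fin m} {r₀ r : ℕ} {s A B Λ : ℝ} {sn : ℝ → ℕ → ℝ} {G : Set ℝ}

theorem FarR.mono {a : ℕ → ℝ} {A' B' A'' B'' σ₀ : ℝ} {lv : ℕ → ℝ}
    (h : FarR sn G r₀ r a Λ A' B' lv σ₀) (hA : A' ≤ A'') (hB : B'' ≤ B') :
    FarR sn G r₀ r a Λ A'' B'' lv σ₀ where
  σ0 := h.σ0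
  lv0 := h.lv0
  ha := fun l a b => hB.trans (h.ha l a b)
  c1 := fun v hv a b => h.c1 v hv (by linarith) (by linarith)
  c2 := fun w hw v hv a b d => h.c2 w hw v hv (by linarith) b (by linarith)
  c2' := fun w hw v hv a b d => h.c2' w hw v hv (by linarith) b (by linarith)
  c4 := fun w hw a b => h.c4 w hw (by linarith) (by linarith)
  c4' := fun w hw a b => h.c4' w hw (by linarith) (by linarith)
  c5 := fun w hw a b => h.c5 w hw (by linarith) (by linarith)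
  c5' := fun w hw a b => h.c5' w hw (by linarith) (by linarith)

/-- **The subclass with the numbers.** -/
theorem hnum_G (h : GCh S f y c r₀ r s A B Λ sn G) :
    ∃ S' : PCl m, S'.Ne ∧
      (∀ (τ : ℝ) (J : ℕ) (F : Fam m J) (A : F.Ω → Prop), S'.St τ J F A → S.St τ J F A) ∧
      HNum S' f y c r₀ r s (PG G A s) (B - s) Λ (whG G A s) (scG sn G A s) :=
  hnum_cls h.ne h.pos fun _ hA' => h.nch hA'

/-- The near digits over other labels. -/
theorem GCh.near_conv (h : GCh S f y c r₀ r s A B Λ sn G) (hr : r₀ ≤ r) {w u d x : ℝ} (hw : w ∈ G)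
    (hu : u ∈ G) (huA : A ≤ u) (huw : u ≤ w) (hwB : w < B) (hx : 0 < x) (hwu : w - u ≤ x)
    (hdx : ∀ l, r₀ ≤ l → l < r → 3 * ((r : ℝ) + 1) * x ≤ d) (hdΛ : d ≤ Λ) {D : ℕ → ℕ → ℝ}
    (hD : ∀ l, r₀ ≤ l → l < r → ∀ j' ≤ 1, sn w l - (j' : ℕ) * w + d ≤ D l j') :
    Few S f (vg w) y (jetQ m c r₀ r w (sn w) D) (jetQ m c r₀ r u (sn u)
      (fun l j' => sn u l - (j' : ℝ) * u + (d - 3 * ((l : ℝ) + 1) * x))) := by
  have hlr : ∀ l, l < r → 3 * ((l : ℝ) + 1) * x ≤ 3 * r * x := fun l hl => by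
    have h1 : (l : ℝ) + 1 ≤ r := by exact_mod_cast hl
    nlinarith
  have hll : ∀ l l' : ℕ, l' < l → 3 * ((l' : ℝ) + 1) * x + 3 * x ≤ 3 * (l + 1) * x := by
    intro l l' l1'
    have h3 : (l' : ℝ) + 1 ≤ l := by exact_mod_cast l1'
    nlinarith
  have hl0 : ∀ l : ℕ, 3 * x ≤ 3 * ((l : ℝ) + 1) * x := fun l => by
    have : (0 : ℝ) ≤ l := Nat.cast_nonneg l
    nlinarith
  have e1 : 3 * ((r : ℝ) + 1) * x = 3 * r * x + 3 * x := by ring
  have hj : ∀ j' ≤ 1, (j' : ℕ) * (w - u) ≤ 1 * (w - u) := fun j' hj' =>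
    mul_le_mul_of_nonneg_right (by exact_mod_cast hj') (by linarith)
  refine h.jets_few hr le_rfl hw (by linarith) hwB le_rfl huw (fun l l0 l1 => le_rfl)
    (lv := fun l : ℕ => d - 3 * ((l : ℝ) + 1) * x) hx
    (fun l l0 l1 => ?_) (fun l l0 l1 j' hj' => ?_) (fun l l0 l1 => ?_)
    (fun l l0 l1 l' l0' l1' => ?_) (fun l l0 l1 j' hj' => ?_) (fun l l0 l1 j' hj' => ?_)
    (fun l l0 l1 j' hj' l' l0' l1' => ?_)
  · linarith [hlr l l1, hdx l l0 l1]
  · linarith [hD l l0 l1 j' hj', hl0 l]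
  · linarith [hl0 l]
  · linarith [hll l l' l1']
  · linarith [hD l l0 l1 j' hj', hl0 l, hj j' hj', h.mono l l0 l1.le u hu w hw huA huw hwB]
  · rw [min_eq_right (h.mono' l0 l1.le hu hw huA huw hwB)]
    linarith [hl0 l, hj j' hj']
  · rw [min_eq_right (h.mono' l0 l1.le hu hw huA huw hwB)]
    linarith [hll l l' l1', hj j' hj']

/-- The near digits of the target over other labels. -/
theorem GCh.nearT_conv (h : GCh S f y c r₀ r s A B Λ sn G) (hr : r₀ ≤ r) {w u d x : ℝ} (hw : w ∈ G)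
    (hu : u ∈ G) (huA : A ≤ u) (huw : u ≤ w) (hwB : w < B) (hx : 0 < x)
    (hdx : ∀ l, r₀ ≤ l → l < r → 3 * ((r : ℝ) + 1) * x ≤ d) (hdΛ : d ≤ Λ) {D : ℕ → ℕ → ℝ}
    (hD : ∀ l, r₀ ≤ l → l < r → ∀ j' ≤ 1, sn w l - (j' : ℕ) * w + d ≤ D l j') {E Nn : ℕ → ℝ}
    {T δ : ℝ} (hδ : 0 ≤ δ) (hT : ∀ j' ≤ 1, Nn j' + (j' : ℕ) * w ≤ T) (hTΛ : T + x ≤ sn u r + Λ)
    (hTl : ∀ l, r₀ ≤ l → l < r → T + x ≤ sn u r + (d - 3 * ((l : ℝ) + 1) * x))
    (hE : ∀ j' ≤ 1, Nn j' - E j' ≤ δ) :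
    FewD S f (vg w) y ((jetQ m c r₀ r w (sn w) D).prod (prQ m c r w (sn w r) E))
      (prQ m c r u (sn u r) Nn) (2 * (δ * Real.log 2)) := by
  have hl2 : 0 < Real.log 2 := Real.log_pos one_lt_two
  have hlr : ∀ l, l < r → 3 * ((l : ℝ) + 1) * x ≤ 3 * r * x := fun l hl => by
    have h1 : (l : ℝ) + 1 ≤ r := by exact_mod_cast hl
    nlinarith
  have hll : ∀ l l' : ℕ, l' < l → 3 * ((l' : ℝ) + 1) * x + 3 * x ≤ 3 * (l + 1) * x := by
    intro l l' l1'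
    have h3 : (l' : ℝ) + 1 ≤ l := by exact_mod_cast l1'
    nlinarith
  have hl0 : ∀ l : ℕ, 3 * x ≤ 3 * ((l : ℝ) + 1) * x := fun l => by
    have : (0 : ℝ) ≤ l := Nat.cast_nonneg l
    nlinarith
  have e1 : 3 * ((r : ℝ) + 1) * x = 3 * r * x + 3 * x := by ring
  have key : ∀ j ≤ 1, Few S f (vg w) y ((jetQ m c r₀ r w (sn w) D).prod
      (qJet m ((range r).image c) (c r) j w (sn w r) (E j)))
      (qJet m ((range r).image c) (c r) j u (sn u r) (min (E j) (Nn j))) := by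
    intro j hj
    refine h.jet_few hr le_rfl hj hw (by linarith) hwB le_rfl le_rfl huw (fun l l0 l1 => le_rfl)
      (lv := fun l : ℕ => d - 3 * ((l : ℝ) + 1) * x) hx
      (fun l l0 l1 => ?_) (fun l l0 l1 j' hj' => ?_) (fun l l0 l1 => ?_)
      (fun l l0 l1 l' l0' l1' => ?_) (min_le_left _ _) ?_ (fun l l0 l1 => ?_)
    · linarith [hlr l l1, hdx l l0 l1]
    · linarith [hD l l0 l1 j' hj', hl0 l]
    · linarith [hl0 l]
    · linarith [hll l l' l1']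
    · rw [min_eq_right (h.mono' hr le_rfl hu hw huA huw hwB)]
      linarith [hT j hj, min_le_right (E j) (Nn j)]
    · rw [min_eq_right (h.mono' hr le_rfl hu hw huA huw hwB)]
      linarith [hT j hj, min_le_right (E j) (Nn j), hTl l l0 l1]
  have hm : ∀ j ≤ 1, (Nn j - min (E j) (Nn j)) * Real.log 2 ≤ δ * Real.log 2 := fun j hj => by
    refine mul_le_mul_of_nonneg_right ?_ hl2.le
    rcases min_choice (E j) (Nn j) with h1 | h1
    · rw [h1]
      exact hE j hj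
    · rw [h1, sub_self]
      exact hδ
  rw [two_mul]
  exact FewD.pair h.pos
    ((more_digits h.pos (min_le_right _ _) (few_pr1 h.pos (key 0 (by norm_num)))).le
      (hm 0 (by norm_num)))
    ((more_digits h.pos (min_le_right _ _) (few_pr2 h.pos (key 1 le_rfl))).le (hm 1 le_rfl))

/-! ### From the indices to the windows of `G` -/

section

variable {a : ℕ → ℚ} {a' : ℕ → ℝ} {A' B' σ₀ : ℝ} {lv : ℕ → ℝ}

/-- The numbers of the conversion. -/
structure Cnv (A s : ℝ) (G : Set ℝ) (sn : ℝ → ℕ → ℝ) (r₀ r : ℕ) (B Λ A' B' σ₀ : ℝ)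
    (a : ℕ → ℚ) (a' : ℕ → ℝ) (q q' : ℚ) (w j u d x C' : ℝ) (D : ℕ → ℕ → ℝ) : Prop where
  ea : ∀ l, a' l = whG G A s (a l)
  ne : PG G A s q
  hA : A ≤ A'
  hB : B' ≤ B
  har : a' r ∈ G
  harB : a' r < B
  qA : A < (q : ℝ) + s
  qB : (q' : ℝ) + s < B
  hu : u = whG G A s q
  hw : w ∈ G
  wB : w < B'
  uA : A' < u
  qw : (q : ℝ) + s ≤ w
  wj : w ≤ j
  jq : j ≤ (q' : ℝ) + s
  hx : 0 < x
  wu : w - u ≤ x
  dx : ∀ l, r₀ ≤ l → l < r → 3 * ((r : ℝ) + 1) * x ≤ d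
  dΛ : d ≤ Λ
  C1 : C' ≤ σ₀ / 2
  C2 : C' + σ₀ / 2 ≤ Λ
  hD : ∀ l, r₀ ≤ l → l < r → ∀ j' ≤ 1, sn w l - (j' : ℕ) * w + d ≤ D l j' ∧
    D l j' ≤ sn w l - (j' : ℕ) * w + C'

/-- The digits of the near quantity of the index. -/
noncomputable def cD (sn : ℝ → ℕ → ℝ) (u d x : ℝ) (l j' : ℕ) : ℝ :=
  sn u l - (j' : ℝ) * u + (d - 3 * ((l : ℝ) + 1) * x)

variable {q q' : ℚ} {w j u d x C' : ℝ} {D : ℕ → ℕ → ℝ}

theorem Cnv.uu (k : Cnv A s G sn r₀ r B Λ A' B' σ₀ a a' q q' w j u d x C' D)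
    (h : GCh S f y c r₀ r s A B Λ sn G) : u ∈ G ∧ A ≤ u ∧ u ≤ w := by
  obtain ⟨m1, m2, m3⟩ := fl_mem h.cl k.ne
  rw [k.hu]
  exact ⟨m1, m2, m3.trans k.qw⟩

theorem Cnv.fd (k : Cnv A s G sn r₀ r B Λ A' B' σ₀ a a' q q' w j u d x C' D) :
    ∀ l, r₀ ≤ l → l < r → ∀ j' ≤ 1, farD r (whG G A s) (scG sn G A s) a l j' =
      nD sn a' l j' := fun l _ l1 j' _ => by
  unfold farD nD
  rw [if_pos l1, k.ea]
  rfl

theorem Cnv.exs (k : Cnv A s G sn r₀ r B Λ A' B' σ₀ a a' q q' w j u d x C' D)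
    (h : GCh S f y c r₀ r s A B Λ sn G) (N : ℕ → ℕ → ℝ) :
    Exs S (jetQ m c r₀ r u (sn u) N) := by
  obtain ⟨m1, m2, m3⟩ := k.uu h
  have wB := k.wB
  have hB := k.hB
  obtain ⟨u₁, rd, h1, h2⟩ := h.ch u m1 m2 (by linarith)
  exact exs_qjets fun l l0 l1 j' _ => exs_jet (h1 l l0 l1) (h2.att l l0 l1)

theorem Cnv.exsT (k : Cnv A s G sn r₀ r B Λ A' B' σ₀ a a' q q' w j u d x C' D)
    (h : GCh S f y c r₀ r s A B Λ sn G) (N : ℕ → ℝ) :
    Exs S (prQ m c r u (sn u r) N) := by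
  obtain ⟨m1, m2, m3⟩ := k.uu h
  have wB := k.wB
  have hB := k.hB
  have h1 := h.att u m1 m2 (by linarith)
  exact (h1.exs _).prod (h1.exs _)

/-- **The far digits of the prefix.** -/
theorem Cnv.mx (k : Cnv A s G sn r₀ r B Λ A' B' σ₀ a a' q q' w j u d x C' D)
    (h : GCh S f y c r₀ r s A B Λ sn G) (hr : r₀ ≤ r) (hF : FarR sn G r₀ r a' Λ A' B' lv σ₀)
    {ε : ℝ} (H : MIs S f y s q q' (farQ m c r₀ r (whG G A s) (scG sn G A s) a q)
      (nearQ m c r₀ r (whG G A s) (scG sn G A s) (cD sn u d x) q) ε) :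
    MIw S f y w j (jetQ m c r₀ r w (sn w) (nD sn a')) (jetQ m c r₀ r w (sn w) D) ε := by
  obtain ⟨u1, u2, u3⟩ := k.uu h
  have hA := k.hA
  have hB := k.hB
  have wB := k.wB
  have uA := k.uA
  have qA := k.qA
  have qB := k.qB
  have qw := k.qw
  have wj := k.wj
  have jq := k.jq
  have hx := k.hx
  obtain ⟨ηq, hηq⟩ := h.rn q qA (by linarith)
  obtain ⟨ηq', hηq'⟩ := h.rn q' (by linarith) qB
  have f1 : farQ m c r₀ r (whG G A s) (scG sn G A s) a q =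
      jetQ m c r₀ r u (sn u) (farD r (whG G A s) (scG sn G A s) a) := by
    rw [k.hu]
    rfl
  have f2 : nearQ m c r₀ r (whG G A s) (scG sn G A s) (cD sn u d x) q =
      jetQ m c r₀ r u (sn u) (cD sn u d x) := by
    rw [k.hu]
    rfl
  rw [f1, f2] at H
  have k1 := hF.lab h hr hA hB k.hw u1 k.hw wB uA (by linarith) u3 le_rfl k.fd
    (N' := nD sn a') (fun l _ _ j' _ => rfl)
  have k2 := hF.lab h hr hA hB k.hw k.hw u1 wB (by linarith) uA le_rfl u3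
    (N := nD sn a') (fun l _ _ j' _ => rfl) k.fd
  have k3 : Few S f (vg w) y (jetQ m c r₀ r w (sn w) D) (jetQ m c r₀ r u (sn u) (cD sn u d x)) :=
    h.near_conv hr k.hw u1 u2 u3 (by linarith) hx k.wu k.dx k.dΛ
      fun l l0 l1 j' hj' => (k.hD l l0 l1 j' hj').1
  have k4 := hF.near h hr hA hB k.hw (by linarith) wB k.C1 k.C2
    (D := D) fun l l0 l1 j' hj' => (k.hD l l0 l1 j' hj').2
  have key := MIw.conv h.pos (w' := q + s) (w := w) (v := j) (v' := q' + s) qw wj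
    jq (by linarith [h.B1]) hηq hηq' H.w (k.exs h _) (k.exs h _) k1 k2 (few_d k3) k4
  rw [add_zero] at key
  exact key

/-- **The far digits with the target.** -/
theorem Cnv.mj (k : Cnv A s G sn r₀ r B Λ A' B' σ₀ a a' q q' w j u d x C' D)
    (h : GCh S f y c r₀ r s A B Λ sn G) (hr : r₀ ≤ r) (hF : FarR sn G r₀ r a' Λ A' B' lv σ₀)
    {ε v δ : ℝ} (hv : v = whG G A s q') (hwv : w ≤ v) (hδ : 0 ≤ δ)
    (hTΛ : sn v r + x ≤ sn u r + Λ)
    (hTl : ∀ l, r₀ ≤ l → l < r → sn v r + x ≤ sn u r + (d - 3 * ((l : ℝ) + 1) * x)) {E : ℕ → ℝ}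
    (hE : ∀ j' ≤ 1, sn v r - (j' : ℕ) * v - E j' ≤ δ ∧ E j' ≤ sn w r - (j' : ℕ) * w + C' ∧
      E j' ≤ nD sn a' r j')
    (H : MIs S f y s q q' ((farQ m c r₀ r (whG G A s) (scG sn G A s) a q).prod
        (FamX m c r (whG G A s) (scG sn G A s) q (a r)))
      ((nearQ m c r₀ r (whG G A s) (scG sn G A s) (cD sn u d x) q).prod
        (FamX m c r (whG G A s) (scG sn G A s) q q')) ε) :
    MIw S f y w j ((jetQ m c r₀ r w (sn w) (nD sn a')).prod (prQ m c r w (sn w r) (nD sn a' r)))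
      ((jetQ m c r₀ r w (sn w) D).prod (prQ m c r w (sn w r) E)) (ε + 2 * (δ * Real.log 2)) := by
  obtain ⟨u1, u2, u3⟩ := k.uu h
  have hA := k.hA
  have hB := k.hB
  have wB := k.wB
  have uA := k.uA
  have qA := k.qA
  have qB := k.qB
  have qw := k.qw
  have wj := k.wj
  have jq := k.jq
  have hx := k.hx
  obtain ⟨ηq, hηq⟩ := h.rn q qA (by linarith)
  obtain ⟨ηq', hηq'⟩ := h.rn q' (by linarith) qB
  have f1 : farQ m c r₀ r (whG G A s) (scG sn G A s) a q =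
      jetQ m c r₀ r u (sn u) (farD r (whG G A s) (scG sn G A s) a) := by
    rw [k.hu]
    rfl
  have f2 : nearQ m c r₀ r (whG G A s) (scG sn G A s) (cD sn u d x) q =
      jetQ m c r₀ r u (sn u) (cD sn u d x) := by
    rw [k.hu]
    rfl
  have f3 : ∀ o' : ℚ, FamX m c r (whG G A s) (scG sn G A s) q o' =
      prQ m c r u (sn u r) (natD r (whG G A s) (scG sn G A s) o') := fun o' => by
    rw [k.hu]
    rfl
  rw [f1, f2, f3, f3] at H
  have hnd : ∀ j' ≤ 1, natD r (whG G A s) (scG sn G A s) (a r) j' = nD sn a' r j' :=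
    fun j' _ => by
    unfold natD nD
    rw [k.ea]
    rfl
  have hnv : ∀ j' : ℕ, natD r (whG G A s) (scG sn G A s) q' j' = sn v r - (j' : ℝ) * v :=
    fun j' => by
    rw [hv]
    rfl
  have k1 := hF.lab h hr hA hB k.hw u1 k.hw wB uA (by linarith) u3 le_rfl k.fd
    (N' := nD sn a') (fun l _ _ j' _ => rfl)
  have k2 := hF.lab h hr hA hB k.hw k.hw u1 wB (by linarith) uA le_rfl u3
    (N := nD sn a') (fun l _ _ j' _ => rfl) k.fd
  have k3 : Few S f (vg w) y (jetQ m c r₀ r w (sn w) D) (jetQ m c r₀ r u (sn u) (cD sn u d x)) :=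
    h.near_conv hr k.hw u1 u2 u3 (by linarith) hx k.wu k.dx k.dΛ
      fun l l0 l1 j' hj' => (k.hD l l0 l1 j' hj').1
  have k4 := hF.near h hr hA hB k.hw (by linarith) wB k.C1 k.C2
    (D := D) fun l l0 l1 j' hj' => (k.hD l l0 l1 j' hj').2
  have m1 := hF.labT h hr hA hB k.hw u1 k.hw wB uA (by linarith) u3 le_rfl k.fd
    (N₁ := natD r (whG G A s) (scG sn G A s) (a r)) (N₂ := nD sn a' r) hnd
    (fun j' _ => rfl)
  have m2 := hF.labT h hr hA hB k.hw k.hw u1 wB (by linarith) uA le_rfl u3 (N := nD sn a')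
    (fun l _ _ j' _ => rfl)
    (N₁ := nD sn a' r) (N₂ := natD r (whG G A s) (scG sn G A s) (a r)) (fun j' _ => rfl) hnd
  have m4 := hF.nearT h hr hA hB k.har k.harB k.hw (by linarith) wB
    k.C1 k.C2 (E := E) (fun j' hj' => (hE j' hj').2.1)
    (fun j' hj' => (hE j' hj').2.2)
  have m3 := h.nearT_conv hr k.hw u1 u2 u3 (by linarith) hx k.dx k.dΛ
    (fun l l0 l1 j' hj' => (k.hD l l0 l1 j' hj').1) (E := E)
    (Nn := natD r (whG G A s) (scG sn G A s) q') (T := sn v r) hδ (fun j' hj' => by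
      have e2 : 0 ≤ (j' : ℝ) * (v - w) := mul_nonneg (Nat.cast_nonneg _) (by linarith)
      rw [hnv]
      linarith) hTΛ hTl
    (fun j' hj' => by
      rw [hnv]
      exact (hE j' hj').1)
  have key := MIw.conv h.pos (w' := q + s) (w := w) (v := j) (v' := q' + s) qw wj
    jq (by linarith [h.B1]) hηq hηq' H.w ((k.exs h _).prod (k.exsT h _))
    ((k.exs h _).prod (k.exsT h _))
    (Few.pair h.pos (Few.fst h.pos k1) m1) (Few.pair h.pos (Few.fst h.pos k2) m2)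
    (FewD.pair h.pos (few_d (Few.fst h.pos k3)) m3) (Few.pair h.pos (Few.fst h.pos k4) m4)
  rw [zero_add] at key
  exact key

end

end Pool.AVG96
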