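import Pool.Agent.H96.AVG.Fbc

/-!
# The far balls of the coordinates of a chain

`Slp`: the slopes of the levels at `g`. `Inv`: the numbers of the far balls chosen so far.
`Inv.succ`: one more far ball, near enough to `g`. `far_all`: at almost every `g` there are far
balls for all coordinates with a small mutual information.
-/

set_option autoImplicit false

namespace Pool.AVG96

open Finset Real MvPolynomial
open Pool.Agent.H49.Ent Pool.Agent.H32.Dense Pool.STK Pool.KA Pool.KSAT Pool.K2S Pool.PB Pool.S6C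
  Pool.GEN Pool.RCD Pool.LA91
open Pool.OWN83 (TwoRelS TRelS TwoParS)

variable {m : ℕ}

/-- **The slopes** of the levels at `g`, and the windows of the charts near `g`. -/
structure Slp (s : ℝ) (wh : ℚ → ℝ) (sc : ℚ → ℕ → ℝ) (r₀ r : ℕ) (g : ℝ) (Sl : ℕ → ℝ) : Prop where
  nn : ∀ l, r₀ ≤ l → l ≤ r → 0 ≤ Sl l
  gt : ∀ l, r₀ ≤ l → l < r → 1 < Sl l
  sl : ∀ l, r₀ ≤ l → l ≤ r → ∀ η : ℝ, 0 < η → ∃ ρ : ℝ, 0 < ρ ∧ ∀ t : ℝ, 0 < t → t < ρ →
    ∀ w v : ℚ, g - t ≤ w → w ≤ v → (v : ℝ) ≤ g + t → |sc v l - sc w l - Sl l * (v - w)| ≤ η * t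
  wl : ∀ η : ℝ, 0 < η → ∃ ρ : ℝ, 0 < ρ ∧ ∀ t : ℝ, 0 < t → t < ρ → ∀ v : ℚ, g - t ≤ v →
    (v : ℝ) ≤ g + t → wh v ≤ v + s ∧ (v : ℝ) + s - wh v ≤ η * t

section num

variable {s : ℝ} {wh : ℚ → ℝ} {sc : ℚ → ℕ → ℝ} {r₀ r : ℕ} {g A B Λ : ℝ} {Sl : ℕ → ℝ}

theorem Slp.cont (h : Slp s wh sc r₀ r g Sl) {l : ℕ} (h0 : r₀ ≤ l) (h1 : l ≤ r) {η : ℝ} (hη : 0 < η) :
    ∃ ρ : ℝ, 0 < ρ ∧ ∀ w v : ℚ, g - ρ ≤ w → w ≤ v → (v : ℝ) ≤ g + ρ → sc v l - sc w l ≤ η := by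
  obtain ⟨ρ, hρ, H⟩ := h.sl l h0 h1 1 one_pos
  have hS := h.nn l h0 h1
  obtain ⟨t, ht, ht1, ht2⟩ : ∃ t : ℝ, 0 < t ∧ t < ρ ∧ (2 * Sl l + 1) * t ≤ η := by
    refine ⟨min (ρ / 2) (η / (2 * Sl l + 1)), by positivity, ?_, ?_⟩
    · exact (min_le_left _ _).trans_lt (by linarith)
    · have := min_le_right (ρ / 2) (η / (2 * Sl l + 1))
      calc (2 * Sl l + 1) * min (ρ / 2) (η / (2 * Sl l + 1)) ≤
          (2 * Sl l + 1) * (η / (2 * Sl l + 1)) := mul_le_mul_of_nonneg_left this (by positivity)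
        _ = η := by field_simp
  refine ⟨t, ht, fun w v a b d => ?_⟩
  have b' : (w : ℝ) ≤ v := by exact_mod_cast b
  have h2 := (abs_le.mp (H t ht ht1 w v a b d)).2
  have h3 : Sl l * (v - w) ≤ Sl l * (2 * t) := mul_le_mul_of_nonneg_left (by linarith) hS
  linarith

theorem Slp.grow (h : Slp s wh sc r₀ r g Sl) {l : ℕ} (h0 : r₀ ≤ l) (h1 : l < r) (hA : A < g)
    (hm : ∀ v o : ℚ, A < v → v ≤ o → (o : ℝ) < B → sc v l - wh v ≤ sc o l - wh o) {a : ℚ}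
    (ha : g < a) (haB : (a : ℝ) < B) :
    ∃ γ : ℝ, 0 < γ ∧ ∃ ρ : ℝ, 0 < ρ ∧ ∀ v : ℚ, g - ρ ≤ v → (v : ℝ) ≤ g + ρ →
      sc v l - wh v + γ ≤ sc a l - wh a := by
  obtain ⟨τ, hτ⟩ : ∃ τ, τ = Sl l - 1 := ⟨_, rfl⟩
  have hτ0 : 0 < τ := by rw [hτ]; linarith [h.gt l h0 h1]
  obtain ⟨ρ, hρ, H⟩ := h.sl l h0 h1.le (τ / 8) (by positivity)
  obtain ⟨ρ', hρ', H'⟩ := h.wl (τ / 8) (by positivity)
  obtain ⟨t, ht, ht0, ht1, ht2, ht3⟩ : ∃ t : ℝ, 0 < t ∧ t < ρ' ∧ t < ρ ∧ g + t < a ∧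
      A < g - t := by
    obtain ⟨t, ht⟩ : ∃ t : ℝ, t = min (min (ρ' / 2) (ρ / 2)) (min ((a - g) / 2) ((g - A) / 2)) :=
      ⟨_, rfl⟩
    have q1 : t ≤ ρ' / 2 := by rw [ht]; exact (min_le_left _ _).trans (min_le_left _ _)
    have q2 : t ≤ ρ / 2 := by rw [ht]; exact (min_le_left _ _).trans (min_le_right _ _)
    have q3 : t ≤ (a - g) / 2 := by rw [ht]; exact (min_le_right _ _).trans (min_le_left _ _)
    have q4 : t ≤ (g - A) / 2 := by rw [ht]; exact (min_le_right _ _).trans (min_le_right _ _)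
    refine ⟨t, ?_, by linarith, by linarith, by linarith, by linarith⟩
    rw [ht]
    exact lt_min (lt_min (by positivity) (by positivity)) (lt_min (by linarith) (by linarith))
  obtain ⟨v₀, b1, b2⟩ := exists_rat_btwn (show g + t / 4 < g + 3 * t / 8 by linarith)
  obtain ⟨v₁, b3, b4⟩ := exists_rat_btwn (show g + 7 * t / 8 < g + t by linarith)
  have b5 : v₀ ≤ v₁ := by
    have : (v₀ : ℝ) ≤ v₁ := by linarith
    exact_mod_cast this
  have b6 := (abs_le.mp (H t ht ht1 v₀ v₁ (by linarith) b5 (by linarith))).1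
  have d0 := (H' t ht ht0 v₀ (by linarith) (by linarith)).2
  have d1 := (H' t ht ht0 v₁ (by linarith) (by linarith)).1
  have b7 : v₁ ≤ a := by
    have : (v₁ : ℝ) ≤ a := by linarith
    exact_mod_cast this
  have b8 := hm v₁ a (by linarith) b7 haB
  refine ⟨τ * t / 4, by positivity, t / 4, by positivity, fun v a1 a2 => ?_⟩
  have c1 : v ≤ v₀ := by
    have : (v : ℝ) ≤ v₀ := by linarith
    exact_mod_cast this
  have c2 := hm v v₀ (by linarith) c1 (by linarith)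
  have c3 : τ * (t / 2) ≤ τ * (v₁ - v₀) := mul_le_mul_of_nonneg_left (by linarith) hτ0.le
  have c4 : Sl l * ((v₁ : ℝ) - v₀) = τ * (v₁ - v₀) + (v₁ - v₀) := by rw [hτ]; ring
  linarith

/-- The numbers of the far balls chosen so far. -/
def Inv (wh : ℚ → ℝ) (sc : ℚ → ℕ → ℝ) (r₀ : ℕ) (A B Λ g : ℝ) (i : ℕ) (a : ℕ → ℚ) : Prop :=
  ∃ (lv : ℕ → ℝ) (σ₀ ρ : ℝ), 0 < ρ ∧ A < g - ρ ∧ g + ρ < B ∧
    FarS wh sc r₀ i a Λ (g - ρ) (g + ρ) lv σ₀

theorem Inv.zero (hA : A < g) (hB : g < B) (a : ℕ → ℚ) : Inv wh sc r₀ A B Λ g r₀ a := by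
  refine ⟨fun _ => 1, 1, min (g - A) (B - g) / 2, ?_, ?_, ?_, ?_⟩
  · have : 0 < min (g - A) (B - g) := lt_min (by linarith) (by linarith)
    linarith
  · have := min_le_left (g - A) (B - g)
    have h2 : 0 < min (g - A) (B - g) := lt_min (by linarith) (by linarith)
    linarith
  · have := min_le_right (g - A) (B - g)
    have h2 : 0 < min (g - A) (B - g) := lt_min (by linarith) (by linarith)
    linarith
  · exact ⟨one_pos, fun l a b => absurd b (by omega), fun l a b => absurd b (by omega),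
      fun v _ _ l a b => absurd b (by omega),
      fun v _ _ l a b => absurd b (by omega), fun w v _ _ _ l a b => absurd b (by omega),
      fun w v _ _ _ l a b => absurd b (by omega), fun w _ _ l a b => absurd b (by omega),
      fun w _ _ l a b => absurd b (by omega)⟩

/-- A common lower bound. -/
theorem exists_low (lv : ℕ → ℝ) (i : ℕ) (hΛ : 0 < Λ) (hlv : ∀ l, r₀ ≤ l → l < i → 0 < lv l) :
    ∃ ν : ℝ, 0 < ν ∧ ν ≤ Λ ∧ ∀ l, r₀ ≤ l → l < i → ν ≤ lv l := by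
  have key : ∀ n ≤ i, ∃ ν : ℝ, 0 < ν ∧ ν ≤ Λ ∧ ∀ l, r₀ ≤ l → l < n → ν ≤ lv l := by
    intro n
    induction n with
    | zero => exact fun _ => ⟨Λ, hΛ, le_rfl, fun l _ h => absurd h (by omega)⟩
    | succ n ih =>
      intro hn
      obtain ⟨ν, a1, a2, a3⟩ := ih (by omega)
      by_cases h0 : r₀ ≤ n
      · refine ⟨min ν (lv n), lt_min a1 (hlv n h0 (by omega)), (min_le_left _ _).trans a2,
          fun l l0 l1 => ?_⟩
        rcases Nat.lt_or_ge l n with h4 | h4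
        · exact (min_le_left _ _).trans (a3 l l0 h4)
        · rw [show l = n by omega]
          exact min_le_right _ _
      · exact ⟨ν, a1, a2, fun l l0 l1 => a3 l l0 (by omega)⟩
  exact key i le_rfl

/-- **One more far ball.** -/
theorem Inv.succ (h : Slp s wh sc r₀ r g Sl) {i : ℕ} (h0 : r₀ ≤ i) (hi : i < r) (hA : A < g)
    (hm : ∀ v o : ℚ, A < v → v ≤ o → (o : ℝ) < B → sc v i - wh v ≤ sc o i - wh o)
    (hwm : ∀ v o : ℚ, A < v → v ≤ o → (o : ℝ) < B → wh v ≤ wh o) (hΛ : 0 < Λ)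
    {a : ℕ → ℚ} (H : Inv wh sc r₀ A B Λ g i a) :
    ∃ δ : ℝ, 0 < δ ∧ ∀ x : ℚ, g < x → (x : ℝ) < g + δ →
      Inv wh sc r₀ A B Λ g (i + 1) (Function.update a i x) := by
  obtain ⟨lv, σ₀, ρ, hρ, hρA, hρB, hF⟩ := H
  obtain ⟨ν, hν, hνΛ, hνl⟩ := exists_low (r₀ := r₀) lv i hΛ hF.lv0
  obtain ⟨ρ₁, hρ₁, hc⟩ := h.cont h0 hi.le (η := ν / 4) (by positivity)
  refine ⟨min ρ ρ₁, lt_min hρ hρ₁, fun x hx1 hx2 => ?_⟩
  have hxρ : (x : ℝ) < g + ρ := hx2.trans_le (by linarith [min_le_left ρ ρ₁])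
  have hxρ₁ : (x : ℝ) < g + ρ₁ := hx2.trans_le (by linarith [min_le_right ρ ρ₁])
  obtain ⟨γ, hγ, ρ₂, hρ₂, hg⟩ := h.grow h0 hi hA hm hx1 (by linarith)
  obtain ⟨ρ₃, hρ₃, q1, q2, q3, q4⟩ : ∃ ρ₃ : ℝ, 0 < ρ₃ ∧ ρ₃ ≤ ρ ∧ ρ₃ ≤ ρ₁ ∧ ρ₃ ≤ ρ₂ ∧
      g + ρ₃ ≤ x := by
    refine ⟨min (min ρ ρ₁) (min ρ₂ (x - g)), lt_min (lt_min hρ hρ₁) (lt_min hρ₂ (by linarith)),
      (min_le_left _ _).trans (min_le_left _ _), (min_le_left _ _).trans (min_le_right _ _),
      (min_le_right _ _).trans (min_le_left _ _), ?_⟩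
    have := (min_le_right (min ρ ρ₁) (min ρ₂ ((x : ℝ) - g))).trans (min_le_right _ _)
    linarith
  obtain ⟨σ, hσ, p1, p2, p3⟩ : ∃ σ : ℝ, 0 < σ ∧ σ ≤ σ₀ ∧ σ ≤ γ / 2 ∧ σ ≤ ν / 4 :=
    ⟨min σ₀ (min (γ / 2) (ν / 4)), lt_min hF.σ0 (lt_min (by positivity) (by positivity)),
      min_le_left _ _, (min_le_right _ _).trans (min_le_left _ _),
      (min_le_right _ _).trans (min_le_right _ _)⟩
  obtain ⟨ι, hι, t1, t2⟩ : ∃ ι : ℝ, 0 < ι ∧ ι ≤ γ / 2 ∧ ι ≤ ν / 4 :=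
    ⟨min (γ / 2) (ν / 4), lt_min (by positivity) (by positivity), min_le_left _ _,
      min_le_right _ _⟩
  have hF' := (hF.mono (A'' := g - ρ₃) (B'' := g + ρ₃) (by linarith) (by linarith) hσ p1).congr
    (a' := Function.update a i x) (fun l hl => by rw [Function.update_of_ne (by omega)])
  have hcc : ∀ w v : ℚ, g - ρ₃ < w → w ≤ v → (v : ℝ) < g + ρ₃ → sc v i - sc w i ≤ ν / 4 :=
    fun w v d e g' => hc w v (by linarith) e (by linarith)
  have hcx : ∀ w : ℚ, g - ρ₃ < w → (w : ℝ) < g + ρ₃ → sc x i - sc w i ≤ ν / 4 := fun w d e => by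
    refine hc w x (by linarith) ?_ (by linarith)
    have : (w : ℝ) ≤ x := by linarith
    exact_mod_cast this
  refine ⟨fun l => if l < i then lv l else ι, σ, ρ₃, hρ₃, by linarith, by linarith, ?_⟩
  have hl1 : ∀ l, l < i → (if l < i then lv l else ι) = lv l := fun l hl => if_pos hl
  have hl2 : (if i < i then lv i else ι) = ι := if_neg (lt_irrefl i)
  have hlt : ∀ l, l < i + 1 → ¬ l < i → l = i := fun l b c => by omega
  refine ⟨hσ, fun l l0 l1 => ?_, fun l l0 l1 => ?_, fun v b d l l0 l1 => ?_,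
    fun v b d l l0 l1 => ?_, fun w v b d e l l0 l1 => ?_, fun w v b d e l l0 l1 l' l0' l1' => ?_, fun w b d l l0 l1 => ?_,
    fun w b d l l0 l1 l' l0' l1' => ?_⟩
  · by_cases hl : l < i
    · show 0 < if l < i then lv l else ι
      rw [hl1 l hl]
      exact hF.lv0 l l0 hl
    · show 0 < if l < i then lv l else ι
      rw [if_neg hl]
      exact hι
  · by_cases hl : l < i
    · exact hF'.ha l l0 hl
    · rw [hlt l l1 hl, Function.update_self]
      exact q4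
  · by_cases hl : l < i
    · exact hF'.hw v b d l l0 hl
    · rw [hlt l l1 hl, Function.update_self]
      refine hwm v x (by linarith) ?_ (by linarith)
      have : (v : ℝ) ≤ x := by linarith
      exact_mod_cast this
  · show sc v l + (if l < i then lv l else ι) + σ ≤ _
    by_cases hl : l < i
    · rw [hl1 l hl]
      exact hF'.c1 v b d l l0 hl
    · rw [if_neg hl, hlt l l1 hl, Function.update_self]
      have := hg v (by linarith) (by linarith)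
      linarith
  · show sc v l + (if l < i then lv l else ι) + σ ≤ _
    by_cases hl : l < i
    · rw [hl1 l hl]
      exact hF'.c2 w v b d e l l0 hl
    · rw [if_neg hl, hlt l l1 hl]
      have := hcc w v b d e
      linarith
  · show sc v l + (if l < i then lv l else ι) + σ ≤ sc w l + (if l' < i then lv l' else ι)
    by_cases hl : l < i
    · rw [hl1 l hl, hl1 l' (by omega)]
      exact hF'.c2' w v b d e l l0 hl l' l0' l1'
    · have hli := hlt l l1 hl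
      rw [if_neg hl, hl1 l' (by omega), hli]
      have h5 := hcc w v b d e
      have h6 := hνl l' l0' (by omega)
      linarith
  · by_cases hl : l < i
    · exact hF'.c4 w b d l l0 hl
    · rw [hlt l l1 hl, Function.update_self]
      have h5 := hcx w b d
      linarith
  · show _ ≤ sc w l + (if l' < i then lv l' else ι)
    by_cases hl : l < i
    · rw [hl1 l' (by omega)]
      exact hF'.c4' w b d l l0 hl l' l0' l1'
    · have hli := hlt l l1 hl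
      rw [hl1 l' (by omega), hli, Function.update_self]
      have h5 := hcx w b d
      have h6 := hνl l' l0' (by omega)
      linarith

/-- The numbers of the next coordinate. -/
theorem Inv.tgt (h : Slp s wh sc r₀ r g Sl) {i : ℕ} (hi : i ≤ r) (hΛ : 0 < Λ)
    {a : ℕ → ℚ} (H : Inv wh sc r₀ A B Λ g i a) :
    ∃ (lv : ℕ → ℝ) (σ₀ ρ : ℝ), 0 < ρ ∧ A < g - ρ ∧ g + ρ < B ∧
      FarS wh sc r₀ i a Λ (g - ρ) (g + ρ) lv σ₀ ∧
      ∀ n, r₀ ≤ n → n ≤ i → FarT sc r₀ n Λ (g - ρ) (g + ρ) lv σ₀ := by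
  obtain ⟨lv, σ₀, ρ, hρ, hρA, hρB, hF⟩ := H
  obtain ⟨ν, hν, hνΛ, hνl⟩ := exists_low (r₀ := r₀) lv i hΛ hF.lv0
  have key : ∀ n ≤ i, ∃ ρ' : ℝ, 0 < ρ' ∧ ρ' ≤ ρ ∧ ∀ n', r₀ ≤ n' → n' ≤ n → ∀ w o : ℚ,
      g - ρ' ≤ w → w ≤ o → (o : ℝ) ≤ g + ρ' → sc o n' - sc w n' ≤ ν / 2 := by
    intro n
    induction n with
    | zero =>
      intro _
      by_cases hr : r₀ = 0
      · obtain ⟨ρ₁, hρ₁, hc⟩ := h.cont (l := 0) (by omega) (by omega) (η := ν / 2) (by positivity)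
        refine ⟨min ρ ρ₁, lt_min hρ hρ₁, min_le_left _ _, fun n' a1 a2 w o b1 b2 b3 => ?_⟩
        have hn' : n' = 0 := by omega
        subst hn'
        exact hc w o (by linarith [min_le_right ρ ρ₁]) b2 (by linarith [min_le_right ρ ρ₁])
      · exact ⟨ρ, hρ, le_rfl, fun n' a1 a2 => absurd a2 (by omega)⟩
    | succ n ih =>
      intro hn
      obtain ⟨ρ', b1, b2, b3⟩ := ih (by omega)
      by_cases hr : r₀ ≤ n + 1
      · obtain ⟨ρ₁, hρ₁, hc⟩ := h.cont (l := n + 1) hr (by omega) (η := ν / 2) (by positivity)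
        refine ⟨min ρ' ρ₁, lt_min b1 hρ₁, (min_le_left _ _).trans b2,
          fun n' a1 a2 w o d1 d2 d3 => ?_⟩
        rcases Nat.lt_or_ge n' (n + 1) with h4 | h4
        · exact b3 n' a1 (by omega) w o (by linarith [min_le_left ρ' ρ₁]) d2
            (by linarith [min_le_left ρ' ρ₁])
        · have hn' : n' = n + 1 := by omega
          subst hn'
          exact hc w o (by linarith [min_le_right ρ' ρ₁]) d2 (by linarith [min_le_right ρ' ρ₁])
      · exact ⟨ρ', b1, b2, fun n' a1 a2 => absurd a1 (by omega)⟩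
  obtain ⟨ρ', c1, c2, c3⟩ := key i le_rfl
  obtain ⟨σ, hσ, p1, p3⟩ : ∃ σ : ℝ, 0 < σ ∧ σ ≤ σ₀ ∧ σ ≤ ν / 2 :=
    ⟨min σ₀ (ν / 2), lt_min hF.σ0 (by positivity), min_le_left _ _, min_le_right _ _⟩
  refine ⟨lv, σ, ρ', c1, by linarith, by linarith, hF.mono (by linarith) (by linarith) hσ p1,
    fun n n1 n2 => ⟨fun w o d1 d2 d3 => ?_, fun w o d1 d2 d3 l l0 l1 => ?_⟩⟩
  · have := c3 n n1 n2 w o d1.le d2 d3.le
    linarith
  · have := c3 n n1 n2 w o d1.le d2 d3.le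
    have := hνl l l0 (by omega)
    linarith

end num

end Pool.AVG96
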