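import Pool.Agent.H96.AVG.Mjg

/-!
# Less precise charts: few bits

`MIw.lab`: other charts at the same windows. `GCh.near_rgh`, `FarR.lab_rgh`, ..: few bits between
the natural charts of a window `w` of `G` and charts of a precision between `sn w - φ` and `sn w`.
-/

set_option autoImplicit false

namespace Pool.AVG96

open Finset Real MvPolynomial MeasureTheory Filter Topology
open Pool.Agent.H49.Ent Pool.Agent.H32.Dense Pool.STK Pool.KA Pool.KSAT Pool.K2S Pool.PB Pool.S6C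
  Pool.GEN Pool.RCD Pool.LA91
open Pool.KVA (MI)
open Pool.AVG71 (MI_eq MI_eq')

variable {m : ℕ} {U U' U₁ U₂ : Type} {α γ : ∀ J : ℕ, Fam m J → Type}
  {f : ∀ (J : ℕ) (F : Fam m J), F.Ω → α J F} {y : ∀ (J : ℕ) (F : Fam m J), F.Ω → γ J F}
  {S : PCl m} {c : ℕ → Fin m} {r₀ r : ℕ} {s A B Λ : ℝ} {sn : ℝ → ℕ → ℝ} {G : Set ℝ}

/-- **Other charts** at the same windows. -/
theorem MIw.lab
    (hpos : ∀ (τ : ℝ) (J : ℕ) (F : Fam m J) (A : F.Ω → Prop), S.St τ J F A → 0 < Pe F.p A)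
    {w v : ℝ} {Qa' : Qt m U} {Qn' : Qt m U'}
    {Qa : Qt m U₁} {Qn : Qt m U₂} {ε δ : ℝ} (h : MIw S f y w v Qa' Qn' ε) (xa : Exs S Qa')
    (xn : Exs S Qn') (a1 : Few S f (vg w) y Qa' Qa) (a2 : Few S f (vg w) y Qa Qa')
    (a3 : FewD S f (vg w) y Qn Qn' δ) (a4 : Few S f (vg w) y Qa Qn) :
    MIw S f y w v Qa Qn (ε + δ) := by
  intro c hc
  obtain ⟨d, hd⟩ : ∃ d, d = c / 8 := ⟨_, rfl⟩
  have hd0 : 0 < d := by rw [hd]; positivity
  obtain ⟨k1, hk1, e1, he1, H1⟩ := h d hd0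
  obtain ⟨e2, he2, H2⟩ := a1.mx hpos d hd0
  obtain ⟨e3, he3, H3⟩ := a2.mx hpos d hd0
  obtain ⟨e4, he4, H4⟩ := a3.mx hpos d hd0
  obtain ⟨e5, he5, H5⟩ := a4.mx hpos d hd0
  obtain ⟨e₀, he₀, l1, l2, l3, l4, l5⟩ : ∃ e₀ : ℝ, 0 < e₀ ∧ e₀ ≤ e1 ∧ e₀ ≤ e2 ∧ e₀ ≤ e3 ∧
      e₀ ≤ e4 ∧ e₀ ≤ e5 :=
    ⟨min e1 (min e2 (min e3 (min e4 e5))), by positivity, min_le_left _ _,
      (min_le_right _ _).trans (min_le_left _ _),
      (min_le_right _ _).trans ((min_le_right _ _).trans (min_le_left _ _)),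
      (min_le_right _ _).trans ((min_le_right _ _).trans ((min_le_right _ _).trans
        (min_le_left _ _))),
      (min_le_right _ _).trans ((min_le_right _ _).trans ((min_le_right _ _).trans
        (min_le_right _ _)))⟩
  obtain ⟨K₁, M₁, hxa⟩ := xa e₀ he₀
  obtain ⟨K₂, M₂, hxn⟩ := xn e₀ he₀
  refine ⟨min k1 (d / 2), lt_min hk1 (half_pos hd0), e₀, he₀, fun K => ?_⟩
  obtain ⟨K', q0, q1, q2⟩ : ∃ K' : ℕ, K ≤ K' ∧ K₁ ≤ K' ∧ K₂ ≤ K' :=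
    ⟨max K (max K₁ K₂), le_max_left _ _, (le_max_left _ _).trans (le_max_right _ _),
      (le_max_right _ _).trans (le_max_right _ _)⟩
  refine Bas.mono 0 (((((H1 K').and (H2 K')).and ((H3 K').and (H4 K'))).and (H5 K')).and
    ((hxa.and hxn).and (pos_bas hpos))) ?_
  rintro J - F A ⟨⟨⟨⟨H1, H2⟩, H3, H4⟩, H5⟩,
    ⟨⟨a', ha', -⟩, ⟨n', hn', -⟩⟩, hA⟩ V₁ V₂ z zv hz hzv a n ha hn
  have hcl := isLaw_cond F.isLaw hA
  have hz1 : Mx f (vg w) k1 F A z := hz.le' (min_le_left _ _)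
  have hz2 : Mx f (vg w) (d / 2) F A z := hz.le' (min_le_right _ _)
  have hzv1 : Mx f (vg v) k1 F A zv := hzv.le' (min_le_left _ _)
  have b1 := H1 _ _ z zv hz1 hzv1 a' n' (Qa'.mono q1 l1 ha') (Qn'.mono q2 l1 hn')
  have b2 := H2 V₁ z hz2 a' a (Qa'.mono q1 l2 ha') (Qa.mono q0 l2 ha)
  have b3 := H3 V₁ z hz2 a a' (Qa.mono q0 l3 ha) (Qa'.mono q1 l3 ha')
  have b4 := H4 V₁ z hz2 n n' (Qn.mono q0 l4 hn) (Qn'.mono q2 l4 hn')
  have b5 := H5 V₁ z hz2 a n (Qa.mono q0 l5 ha) (Qn.mono q0 l5 hn)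
  have s1 := mi_step1 hcl.nonneg zv a n n' (fun ω => (z ω, y J F ω)) b4 b5
  rw [MI_eq' hcl.nonneg] at b1
  have s2 : MI (Pool.Agent.H49.Ent.cond F.p A True) zv a (fun ω => (n' ω, (z ω, y J F ω))) ≤
      (ε + d) * J + 2 * (d * J) := by
    rw [MI_eq' hcl.nonneg]
    have c3 := CH_le_add hcl.nonneg a a' (fun ω => (n' ω, (z ω, y J F ω)))
    have c4 : CH (Pool.Agent.H49.Ent.cond F.p A True) a
        (fun ω => (a' ω, (n' ω, (z ω, y J F ω)))) ≤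
        CH (Pool.Agent.H49.Ent.cond F.p A True) a (fun ω => (a' ω, (z ω, y J F ω))) :=
      CH_mono_cond hcl.nonneg fun ω ω' _ _ hh => by
        simp only [Prod.mk.injEq] at hh ⊢
        exact ⟨hh.1, hh.2.2⟩
    have d1 := CH_le_add hcl.nonneg a' a (fun ω => (zv ω, (n' ω, (z ω, y J F ω))))
    have d2 : CH (Pool.Agent.H49.Ent.cond F.p A True) a'
        (fun ω => (a ω, (zv ω, (n' ω, (z ω, y J F ω))))) ≤
        CH (Pool.Agent.H49.Ent.cond F.p A True) a' (fun ω => (a ω, (z ω, y J F ω))) :=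
      CH_mono_cond hcl.nonneg fun ω ω' _ _ hh => by
        simp only [Prod.mk.injEq] at hh ⊢
        exact ⟨hh.1, hh.2.2.2⟩
    linarith
  rw [hd] at s1 s2
  nlinarith [Nat.cast_nonneg (α := ℝ) J]

section

variable {w φ : ℝ} {p p' : ℕ → ℝ}

/-- A precision between `sn w - φ` and `sn w`. -/
def Rgh (sn : ℝ → ℕ → ℝ) (r₀ r : ℕ) (w φ : ℝ) (p : ℕ → ℝ) : Prop :=
  ∀ l, r₀ ≤ l → l ≤ r → sn w l - φ ≤ p l ∧ p l ≤ sn w l

theorem Rgh.self (hφ : 0 ≤ φ) : Rgh sn r₀ r w φ (sn w) := fun _ _ _ => ⟨by linarith, le_rfl⟩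

theorem Rgh.min (h : Rgh sn r₀ r w φ p) (h' : Rgh sn r₀ r w φ p') {l : ℕ} (l0 : r₀ ≤ l)
    (l1 : l ≤ r) : sn w l - φ ≤ min (p l) (p' l) := le_min (h l l0 l1).1 (h' l l0 l1).1

/-- The near digits over other labels. -/
theorem GCh.near_rgh (h : GCh S f y c r₀ r s A B Λ sn G) (hr : r₀ ≤ r) {d x : ℝ} (hw : w ∈ G)
    (hwA : A ≤ w) (hwB : w < B) (hx : 0 < x) (hφ : φ ≤ x) (hp : Rgh sn r₀ r w φ p)
    (hp' : Rgh sn r₀ r w φ p')
    (hdx : ∀ l, r₀ ≤ l → l < r → 3 * ((r : ℝ) + 1) * x ≤ d) (hdΛ : d ≤ Λ) {D : ℕ → ℕ → ℝ}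
    (hD : ∀ l, r₀ ≤ l → l < r → ∀ j' ≤ 1, sn w l - (j' : ℕ) * w + d ≤ D l j') :
    Few S f (vg w) y (jetQ m c r₀ r w p D) (jetQ m c r₀ r w p'
      (fun l j' => sn w l - (j' : ℝ) * w + (d - 3 * ((l : ℝ) + 1) * x))) := by
  have hlr : ∀ l, l < r → 3 * ((l : ℝ) + 1) * x + 3 * x ≤ 3 * ((r : ℝ) + 1) * x := fun l hl => by
    have h1 : (l : ℝ) + 1 ≤ r := by exact_mod_cast hl
    nlinarith
  have hll : ∀ l l' : ℕ, l' < l → 3 * ((l' : ℝ) + 1) * x + 3 * x ≤ 3 * (l + 1) * x := by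
    intro l l' l1'
    have h3 : (l' : ℝ) + 1 ≤ l := by exact_mod_cast l1'
    nlinarith
  have hl0 : ∀ l : ℕ, 3 * x ≤ 3 * ((l : ℝ) + 1) * x := fun l => by
    have : (0 : ℝ) ≤ l := Nat.cast_nonneg l
    nlinarith
  refine h.jets_few hr le_rfl hw hwA hwB le_rfl le_rfl (fun l l0 l1 => (hp l l0 l1.le).2)
    (lv := fun l : ℕ => d - 3 * ((l : ℝ) + 1) * x) hx
    (fun l l0 l1 => ?_) (fun l l0 l1 j' hj' => ?_) (fun l l0 l1 => ?_)
    (fun l l0 l1 l' l0' l1' => ?_) (fun l l0 l1 j' hj' => ?_) (fun l l0 l1 j' hj' => ?_)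
    (fun l l0 l1 j' hj' l' l0' l1' => ?_)
  · linarith [hlr l l1, hdx l l0 l1]
  · linarith [hD l l0 l1 j' hj', hl0 l]
  · linarith [hl0 l, (hp l l0 l1.le).1]
  · linarith [hll l l' l1', (hp l l0 l1.le).1]
  · linarith [hD l l0 l1 j' hj', hl0 l]
  · linarith [hl0 l, hp.min hp' l0 l1.le]
  · linarith [hll l l' l1', hp.min hp' l0 l1.le]

/-- The near digits of the target over other labels. -/
theorem GCh.nearT_rgh (h : GCh S f y c r₀ r s A B Λ sn G) (hr : r₀ ≤ r) {d x : ℝ} (hw : w ∈ G)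
    (hwA : A ≤ w) (hwB : w < B) (hx : 0 < x) (hφ : φ ≤ x) (hp : Rgh sn r₀ r w φ p)
    (hp' : Rgh sn r₀ r w φ p')
    (hdx : ∀ l, r₀ ≤ l → l < r → 3 * ((r : ℝ) + 1) * x ≤ d) (hdΛ : d ≤ Λ) {D : ℕ → ℕ → ℝ}
    (hD : ∀ l, r₀ ≤ l → l < r → ∀ j' ≤ 1, sn w l - (j' : ℕ) * w + d ≤ D l j') {E Nn : ℕ → ℝ}
    {T : ℝ} (hT : ∀ j' ≤ 1, Nn j' + (j' : ℕ) * w ≤ T) (hTΛ : T + 2 * x ≤ sn w r + Λ)
    (hTl : ∀ l, r₀ ≤ l → l < r → T + 3 * ((r : ℝ) + 2) * x ≤ sn w r + d)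
    (hE : ∀ j' ≤ 1, Nn j' ≤ E j') :
    Few S f (vg w) y ((jetQ m c r₀ r w p D).prod (prQ m c r w (p r) E))
      (prQ m c r w (p' r) Nn) := by
  have hlr : ∀ l, l < r → 3 * ((l : ℝ) + 1) * x + 3 * x ≤ 3 * ((r : ℝ) + 1) * x := fun l hl => by
    have h1 : (l : ℝ) + 1 ≤ r := by exact_mod_cast hl
    nlinarith
  have hll : ∀ l l' : ℕ, l' < l → 3 * ((l' : ℝ) + 1) * x + 3 * x ≤ 3 * (l + 1) * x := by
    intro l l' l1'
    have h3 : (l' : ℝ) + 1 ≤ l := by exact_mod_cast l1'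
    nlinarith
  have hl0 : ∀ l : ℕ, 3 * x ≤ 3 * ((l : ℝ) + 1) * x := fun l => by
    have : (0 : ℝ) ≤ l := Nat.cast_nonneg l
    nlinarith
  have key : ∀ j ≤ 1, Few S f (vg w) y ((jetQ m c r₀ r w p D).prod
      (qJet m ((range r).image c) (c r) j w (p r) (E j)))
      (qJet m ((range r).image c) (c r) j w (p' r) (Nn j)) := by
    intro j hj
    refine h.jet_few hr le_rfl hj hw hwA hwB le_rfl le_rfl le_rfl
      (fun l l0 l1 => (hp l l0 l1.le).2)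
      (lv := fun l : ℕ => d - 3 * ((l : ℝ) + 1) * x) hx
      (fun l l0 l1 => ?_) (fun l l0 l1 j' hj' => ?_) (fun l l0 l1 => ?_)
      (fun l l0 l1 l' l0' l1' => ?_) (hE j hj) ?_ (fun l l0 l1 => ?_)
    · linarith [hlr l l1, hdx l l0 l1]
    · linarith [hD l l0 l1 j' hj', hl0 l]
    · linarith [hl0 l, (hp l l0 l1.le).1]
    · linarith [hll l l' l1', (hp l l0 l1.le).1]
    · linarith [hT j hj, hp.min hp' hr le_rfl]
    · have e1 : 3 * ((r : ℝ) + 2) * x = 3 * ((r : ℝ) + 1) * x + 3 * x := by ring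
      linarith [hT j hj, hTl l l0 l1, hp.min hp' hr le_rfl, hlr l l1]
  exact Few.pair h.pos (few_pr1 h.pos (key 0 (by norm_num))) (few_pr2 h.pos (key 1 le_rfl))

variable {a : ℕ → ℝ} {A' B' σ₀ : ℝ} {lv : ℕ → ℝ}

/-- **Far digits over other labels.** -/
theorem FarR.lab_rgh (hF : FarR sn G r₀ r a Λ A' B' lv σ₀) (h : GCh S f y c r₀ r s A B Λ sn G)
    (hr : r₀ ≤ r) (hA : A ≤ A') (hB : B' ≤ B) (hw : w ∈ G) (hwA : A' < w) (hwB : w < B')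
    (hφ : φ ≤ σ₀ / 2) (hp : Rgh sn r₀ r w φ p) (hp' : Rgh sn r₀ r w φ p') :
    Few S f (vg w) y (jetQ m c r₀ r w p (nD sn a)) (jetQ m c r₀ r w p' (nD sn a)) := by
  refine h.jets_few hr le_rfl hw (by linarith) (by linarith) le_rfl le_rfl
    (fun l l0 l1 => (hp l l0 l1.le).2) (half_pos hF.σ0) hF.lv0
    (fun l l0 l1 j' hj' => ?_) (fun l l0 l1 => ?_)
    (fun l l0 l1 l' l0' l1' => ?_)
    (fun l l0 l1 j' hj' => le_rfl) (fun l l0 l1 j' hj' => ?_)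
    (fun l l0 l1 j' hj' l' l0' l1' => ?_)
  · linarith [hF.far hw hwA hwB l0 l1 hj', hF.σ0]
  · linarith [hF.c2 w hw w hw hwA le_rfl hwB l l0 l1, (hp l l0 l1.le).1]
  · linarith [hF.c2' w hw w hw hwA le_rfl hwB l l0 l1 l' l0' l1', (hp l l0 l1.le).1]
  · linarith [hF.le hwB j' l0 l1.le, hF.c4 w hw hwA hwB l l0 l1, hp.min hp' l0 l1.le]
  · linarith [hF.le hwB j' l0 l1.le, hF.c4' w hw hwA hwB l l0 l1 l' l0' l1',
      hp.min hp' l0 l1.le]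

/-- **Far digits of the target over other labels.** -/
theorem FarR.labT_rgh (hF : FarR sn G r₀ r a Λ A' B' lv σ₀) (h : GCh S f y c r₀ r s A B Λ sn G)
    (hr : r₀ ≤ r) (hA : A ≤ A') (hB : B' ≤ B) (hw : w ∈ G) (hwA : A' < w) (hwB : w < B')
    (hφ : φ ≤ σ₀ / 2) (hp : Rgh sn r₀ r w φ p) (hp' : Rgh sn r₀ r w φ p') :
    Few S f (vg w) y ((jetQ m c r₀ r w p (nD sn a)).prod (prQ m c r w (p r) (nD sn a r)))
      (prQ m c r w (p' r) (nD sn a r)) := by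
  have key : ∀ j ≤ 1, Few S f (vg w) y ((jetQ m c r₀ r w p (nD sn a)).prod
      (qJet m ((range r).image c) (c r) j w (p r) (nD sn a r j)))
      (qJet m ((range r).image c) (c r) j w (p' r) (nD sn a r j)) := by
    intro j hj
    refine h.jet_few hr le_rfl hj hw (by linarith) (by linarith) le_rfl le_rfl le_rfl
      (fun l l0 l1 => (hp l l0 l1.le).2) (half_pos hF.σ0) hF.lv0
      (fun l l0 l1 j' hj' => ?_) (fun l l0 l1 => ?_)
      (fun l l0 l1 l' l0' l1' => ?_) le_rfl ?_ (fun l l0 l1 => ?_)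
    · linarith [hF.far hw hwA hwB l0 l1 hj', hF.σ0]
    · linarith [hF.c2 w hw w hw hwA le_rfl hwB l l0 l1, (hp l l0 l1.le).1]
    · linarith [hF.c2' w hw w hw hwA le_rfl hwB l l0 l1 l' l0' l1', (hp l l0 l1.le).1]
    · linarith [hF.le hwB j hr le_rfl, hF.c5 w hw hwA hwB, hp.min hp' hr le_rfl]
    · linarith [hF.le hwB j hr le_rfl, hF.c5' w hw hwA hwB l l0 l1, hp.min hp' hr le_rfl]
  exact Few.pair h.pos (few_pr1 h.pos (key 0 (by norm_num))) (few_pr2 h.pos (key 1 le_rfl))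

/-- **Near digits from far digits.** -/
theorem FarR.near_rgh (hF : FarR sn G r₀ r a Λ A' B' lv σ₀) (h : GCh S f y c r₀ r s A B Λ sn G)
    (hr : r₀ ≤ r) (hA : A ≤ A') (hB : B' ≤ B) {C' : ℝ} (hw : w ∈ G)
    (hwA : A' < w) (hwB : w < B') (hφ : φ ≤ σ₀ / 4) (hp : Rgh sn r₀ r w φ p)
    (hC : C' ≤ σ₀ / 2) (hCΛ : C' + σ₀ / 2 ≤ Λ) {D : ℕ → ℕ → ℝ}
    (hD : ∀ l, r₀ ≤ l → l < r → ∀ j' ≤ 1, D l j' ≤ sn w l - (j' : ℕ) * w + C') :
    Few S f (vg w) y (jetQ m c r₀ r w p (nD sn a)) (jetQ m c r₀ r w p D) := by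
  have hσ := hF.σ0
  refine h.jets_few hr le_rfl hw (by linarith) (by linarith) le_rfl le_rfl
    (fun l l0 l1 => (hp l l0 l1.le).2) (σ₀ := σ₀ / 4) (by linarith) hF.lv0
    (fun l l0 l1 j' hj' => ?_) (fun l l0 l1 => ?_)
    (fun l l0 l1 l' l0' l1' => ?_)
    (fun l l0 l1 j' hj' => ?_) (fun l l0 l1 j' hj' => ?_) (fun l l0 l1 j' hj' l' l0' l1' => ?_)
  · linarith [hF.far hw hwA hwB l0 l1 hj']
  · linarith [hF.c2 w hw w hw hwA le_rfl hwB l l0 l1, (hp l l0 l1.le).1]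
  · linarith [hF.c2' w hw w hw hwA le_rfl hwB l l0 l1 l' l0' l1', (hp l l0 l1.le).1]
  · linarith [hF.far hw hwA hwB l0 l1 hj', hD l l0 l1 j' hj', hF.lv0 l l0 l1]
  · rw [min_self]
    linarith [hD l l0 l1 j' hj', (hp l l0 l1.le).1]
  · rw [min_self]
    linarith [hD l l0 l1 j' hj', hF.c2' w hw w hw hwA le_rfl hwB l l0 l1 l' l0' l1',
      hF.lv0 l l0 l1, (hp l l0 l1.le).1]

/-- **Near digits of the target from far digits.** -/
theorem FarR.nearT_rgh (hF : FarR sn G r₀ r a Λ A' B' lv σ₀) (h : GCh S f y c r₀ r s A B Λ sn G)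
    (hr : r₀ ≤ r) (hA : A ≤ A') (hB : B' ≤ B) (har : a r ∈ G) (harB : a r < B) {C' : ℝ}
    (hw : w ∈ G) (hwA : A' < w) (hwB : w < B') (hφ : φ ≤ σ₀ / 4) (hp : Rgh sn r₀ r w φ p)
    (hC : C' ≤ σ₀ / 2) (hCΛ : C' + σ₀ / 2 ≤ Λ)
    {E : ℕ → ℝ} (hE : ∀ j' ≤ 1, E j' ≤ sn w r - (j' : ℕ) * w + C')
    (hE' : ∀ j' ≤ 1, E j' ≤ nD sn a r j') :
    Few S f (vg w) y ((jetQ m c r₀ r w p (nD sn a)).prod (prQ m c r w (p r) (nD sn a r)))
      (prQ m c r w (p r) E) := by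
  have hσ := hF.σ0
  have key : ∀ j ≤ 1, Few S f (vg w) y ((jetQ m c r₀ r w p (nD sn a)).prod
      (qJet m ((range r).image c) (c r) j w (p r) (nD sn a r j)))
      (qJet m ((range r).image c) (c r) j w (p r) (E j)) := by
    intro j hj
    refine h.jet_few hr le_rfl hj hw (by linarith) (by linarith) le_rfl le_rfl le_rfl
      (fun l l0 l1 => (hp l l0 l1.le).2) (σ₀ := σ₀ / 4) (by linarith) hF.lv0
      (fun l l0 l1 j' hj' => ?_) (fun l l0 l1 => ?_)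
      (fun l l0 l1 l' l0' l1' => ?_) (hE' j hj) ?_ (fun l l0 l1 => ?_)
    · linarith [hF.far hw hwA hwB l0 l1 hj']
    · linarith [hF.c2 w hw w hw hwA le_rfl hwB l l0 l1, (hp l l0 l1.le).1]
    · linarith [hF.c2' w hw w hw hwA le_rfl hwB l l0 l1 l' l0' l1', (hp l l0 l1.le).1]
    · rw [min_self]
      linarith [hE j hj, (hp r hr le_rfl).1]
    · rw [min_self]
      have e1 := hF.c5' w hw hwA hwB l l0 l1
      have e2 := h.mono' hr le_rfl hw har (by linarith) (by linarith [hF.ha r hr le_rfl]) harB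
      linarith [hE j hj, (hp r hr le_rfl).1]
  exact Few.pair h.pos (few_pr1 h.pos (key 0 (by norm_num))) (few_pr2 h.pos (key 1 le_rfl))

end

end Pool.AVG96
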