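import Pool.Agent.H96.AVG.Ent
import Pool.Agent.H91.LA.Shn

/-!
# The chain of mutual informations, in a class

`MIs S f y s w v Qa Qn ε`: the record at the window `v + s` knows at most `ε J` bits of the far
quantity `Qa`, given the near quantity `Qn`, the record at the window `w + s` and `y`.
`MIr`: the same for one coordinate, given the far digits `Q₀` of a prefix. `TwoRelS.mir`: no
look-ahead. `MIs.step`: one more coordinate.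
-/

set_option autoImplicit false

namespace Pool.AVG96

open Finset Real
open Pool.Agent.H49.Ent Pool.Agent.H32.Dense Pool.STK Pool.KA Pool.KSAT Pool.K2S Pool.PB Pool.S6C
  Pool.GEN Pool.RCD Pool.LA91
open Pool.OWN83 (TwoRelS TRelS)
open Pool.OWN68 (CH_chain2)
open Pool.KVA (MI)
open Pool.AVG71 (MI_eq MI_eq')

variable {m : ℕ} {U₀ U U' U₁ U₂ U₃ : Type} {α γ : ∀ J : ℕ, Fam m J → Type}
  {f : ∀ (J : ℕ) (F : Fam m J), F.Ω → α J F} {y : ∀ (J : ℕ) (F : Fam m J), F.Ω → γ J F}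
  {S : PCl m} {s : ℝ}

/-- The record at `v + s` knows at most `ε J` bits of the far quantity `Qa`, given the near quantity
`Qn`, the record at `w + s` and `y`. -/
def MIs (S : PCl m) (f : ∀ (J : ℕ) (F : Fam m J), F.Ω → α J F)
    (y : ∀ (J : ℕ) (F : Fam m J), F.Ω → γ J F) (s : ℝ) (w v : ℚ) (Qa : Qt m U) (Qn : Qt m U')
    (ε : ℝ) : Prop :=
  ∀ c : ℝ, 0 < c → ∃ k : ℝ, 0 < k ∧ ∃ e₀ : ℝ, 0 < e₀ ∧ ∀ K : ℕ, Bas S (fun J F A =>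
    ∀ (V₁ V₂ : Type) (z : F.Ω → V₁) (zv : F.Ω → V₂), Mx f (vg ((w : ℝ) + s)) k F A z →
    Mx f (vg ((v : ℝ) + s)) k F A zv → ∀ a n, Qa.P K e₀ J F A a → Qn.P K e₀ J F A n →
    MI (Pool.Agent.H49.Ent.cond F.p A True) zv a (fun ω => (n ω, (z ω, y J F ω))) ≤ (ε + c) * J)

/-- One coordinate, given the far digits `Q₀` of a prefix. -/
def MIr (S : PCl m) (f : ∀ (J : ℕ) (F : Fam m J), F.Ω → α J F)
    (y : ∀ (J : ℕ) (F : Fam m J), F.Ω → γ J F) (s : ℝ) (w v : ℚ) (Q₀ : Qt m U₀) (Q : Qt m U)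
    (Q₁ : Qt m U₁) (ε : ℝ) : Prop :=
  ∀ c : ℝ, 0 < c → ∃ k : ℝ, 0 < k ∧ ∃ e₀ : ℝ, 0 < e₀ ∧ ∀ K : ℕ, Bas S (fun J F A =>
    ∀ (V₁ V₂ : Type) (z : F.Ω → V₁) (zv : F.Ω → V₂), Mx f (vg ((w : ℝ) + s)) k F A z →
    Mx f (vg ((v : ℝ) + s)) k F A zv → ∀ u₀ u u₁, Q₀.P K e₀ J F A u₀ → Q.P K e₀ J F A u →
    Q₁.P K e₀ J F A u₁ →
    MI (Pool.Agent.H49.Ent.cond F.p A True) zv u (fun ω => (u₁ ω, (u₀ ω, (z ω, y J F ω)))) ≤
      (ε + c) * J)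

theorem MIs.sub {S' : PCl m} (hs : ∀ (τ : ℝ) (J : ℕ) (F : Fam m J) (A : F.Ω → Prop),
    S'.St τ J F A → S.St τ J F A) {w v : ℚ} {Qa : Qt m U} {Qn : Qt m U'} {ε : ℝ}
    (h : MIs S f y s w v Qa Qn ε) : MIs S' f y s w v Qa Qn ε := by
  intro c hc
  obtain ⟨k, hk, e, he, h1⟩ := h c hc
  exact ⟨k, hk, e, he, fun K => (h1 K).sub hs⟩

theorem MIs.le {w v : ℚ} {Qa : Qt m U} {Qn : Qt m U'} {ε ε' : ℝ} (h : MIs S f y s w v Qa Qn ε)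
    (hε : ε ≤ ε') : MIs S f y s w v Qa Qn ε' := by
  intro c hc
  obtain ⟨k, hk, e, he, h1⟩ := h c hc
  refine ⟨k, hk, e, he, fun K => Bas.mono 0 (h1 K) ?_⟩
  intro J _ F A H V₁ V₂ z zv hz hzv a n ha hn
  exact (H V₁ V₂ z zv hz hzv a n ha hn).trans
    (mul_le_mul_of_nonneg_right (by linarith) (Nat.cast_nonneg J))

theorem MIr.le {w v : ℚ} {Q₀ : Qt m U₀} {Q : Qt m U} {Q₁ : Qt m U₁} {ε ε' : ℝ}
    (h : MIr S f y s w v Q₀ Q Q₁ ε) (hε : ε ≤ ε') : MIr S f y s w v Q₀ Q Q₁ ε' := by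
  intro c hc
  obtain ⟨k, hk, e, he, h1⟩ := h c hc
  refine ⟨k, hk, e, he, fun K => Bas.mono 0 (h1 K) ?_⟩
  intro J _ F A H V₁ V₂ z zv hz hzv u₀ u u₁ hu₀ hu hu₁
  exact (H V₁ V₂ z zv hz hzv u₀ u u₁ hu₀ hu hu₁).trans
    (mul_le_mul_of_nonneg_right (by linarith) (Nat.cast_nonneg J))

/-- **No look-ahead**, as a mutual information. -/
theorem _root_.Pool.OWN83.TwoRelS.mir
    (hpos : ∀ (τ : ℝ) (J : ℕ) (F : Fam m J) (A : F.Ω → Prop), S.St τ J F A → 0 < Pe F.p A)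
    {Q₀ : ℚ → Qt m U₀} {Q : ℚ → ℚ → Qt m U} {A B lam : ℝ} (h : TwoRelS S f y s Q₀ Q A B lam)
    {θ₀ : ℚ → ℝ} {θ : ℚ → ℚ → ℝ} (hθ : TRelS S f y s Q₀ Q A B lam θ₀ θ) {w v o : ℚ} (h1 : A < w)
    (h2 : w ≤ v) (h3 : v ≤ o) (h4 : (o : ℝ) < B) (h5 : (o : ℝ) < w + lam) (hB1 : B + s ≤ 1) :
    MIr S f y s w v (Q₀ w) (Q w o) (Q w v) (θ w o - θ w v - θ v o) := by
  intro c hc
  have h2' : (w : ℝ) ≤ v := by exact_mod_cast h2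
  have h3' : (v : ℝ) ≤ o := by exact_mod_cast h3
  obtain ⟨k1, hk1, e1, he1, H1⟩ := h.la hpos hθ h1 h2 h3 h4 h5 (c / 2) (half_pos hc)
  obtain ⟨e2, he2, H2⟩ := (h.own w v h1 h2 (by linarith) (by linarith)).mx hpos (c / 2)
    (half_pos hc)
  obtain ⟨k, hk, m1, m2⟩ : ∃ k : ℝ, 0 < k ∧ k ≤ k1 ∧ k ≤ c / 2 / 2 :=
    ⟨min k1 (c / 2 / 2), by positivity, min_le_left _ _, min_le_right _ _⟩
  refine ⟨k, hk, min e1 e2, lt_min he1 he2, fun K => Bas.mono 0 (((H1 K).and (H2 K)).and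
    (pos_bas hpos)) ?_⟩
  rintro J - F A' ⟨⟨H1, H2⟩, hA⟩ V₁ V₂ z zv hz hzv u₀ u u₁ hu₀ hu hu₁
  have hcl := isLaw_cond F.isLaw hA
  have l1 : min e1 e2 ≤ e1 := min_le_left _ _
  have l2 : min e1 e2 ≤ e2 := min_le_right _ _
  have hj : Mx f (vg ((v : ℝ) + s)) k F A' (fun ω => (z ω, zv ω)) :=
    Mx.join hA ⟨fun x => x, fun _ => rfl⟩ (vg_mono (by linarith) (by linarith) J F) hz hzv
  have a1 := H1 V₁ z (V₁ × V₂) (fun ω => (z ω, zv ω)) (hz.le' m1) (hj.le' m1) u₀ u u₁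
    ((Q₀ w).mono le_rfl l1 hu₀) ((Q w o).mono le_rfl l1 hu) ((Q w v).mono le_rfl l1 hu₁)
  have a2 := H2 (V₁ × V₂) (fun ω => (z ω, zv ω)) (hj.le' m2) u₀ u₁
    ((Q₀ w).mono le_rfl l2 hu₀) ((Q w v).mono le_rfl l2 hu₁)
  rw [MI_eq' hcl.nonneg]
  have a3 := CH_le_add hcl.nonneg u u₁ (fun ω => (u₀ ω, ((z ω, zv ω), y J F ω)))
  have a4 : CH (Pool.Agent.H49.Ent.cond F.p A' True) u
      (fun ω => (u₁ ω, (u₀ ω, ((z ω, zv ω), y J F ω)))) ≤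
      CH (Pool.Agent.H49.Ent.cond F.p A' True) u
      (fun ω => (zv ω, (u₁ ω, (u₀ ω, (z ω, y J F ω))))) :=
    CH_mono_cond hcl.nonneg fun ω ω' _ _ hh => by
      simp only [Prod.mk.injEq] at hh ⊢
      exact ⟨hh.2.2.1.2, hh.1, hh.2.1, hh.2.2.1.1, hh.2.2.2⟩
  linarith

/-- **One more coordinate.** `Qa`, `Qn`: far and near digits of the prefix, `QX`, `Qv`: far and near
digits of the coordinate, `Q₁`: its digits which the record at `v + s` sees. -/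
theorem MIs.step
    (hpos : ∀ (τ : ℝ) (J : ℕ) (F : Fam m J) (A : F.Ω → Prop), S.St τ J F A → 0 < Pe F.p A)
    {w v : ℚ} {Qa : Qt m U} {Qn : Qt m U'} {QX : Qt m U₁} {Q₁ : Qt m U₂} {Qv : Qt m U₃}
    {ε κ : ℝ} (hM : MIs S f y s w v Qa Qn ε) (hR : MIr S f y s w v Qa QX Q₁ κ) (x₁ : Exs S Q₁)
    (hmid : Few S f (vg ((v : ℝ) + s)) y Qn Q₁)
    (hr1 : Few S f (vg ((w : ℝ) + s)) y (Qn.prod Qv) Q₁)
    (hr2 : Few S f (vg ((w : ℝ) + s)) y (Qa.prod QX) Qv)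
    (hpre : Few S f (vg ((w : ℝ) + s)) y Qa Qn) :
    MIs S f y s w v (Qa.prod QX) (Qn.prod Qv) (ε + κ) := by
  intro c hc
  obtain ⟨d, hd⟩ : ∃ d, d = c / 6 := ⟨_, rfl⟩
  have hd0 : 0 < d := by rw [hd]; positivity
  obtain ⟨k1, hk1, e1, he1, H1⟩ := hM d hd0
  obtain ⟨k2, hk2, e2, he2, H2⟩ := hR d hd0
  obtain ⟨e3, he3, H3⟩ := hmid.mx hpos d hd0
  obtain ⟨e4, he4, H4⟩ := hr1.mx hpos d hd0
  obtain ⟨e5, he5, H5⟩ := hr2.mx hpos d hd0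
  obtain ⟨e6, he6, H6⟩ := hpre.mx hpos d hd0
  obtain ⟨e₀, he₀, l1, l2, l3, l4, l5, l6⟩ : ∃ e₀ : ℝ, 0 < e₀ ∧ e₀ ≤ e1 ∧ e₀ ≤ e2 ∧ e₀ ≤ e3 ∧
      e₀ ≤ e4 ∧ e₀ ≤ e5 ∧ e₀ ≤ e6 :=
    ⟨min e1 (min e2 (min e3 (min e4 (min e5 e6)))), by positivity, min_le_left _ _,
      (min_le_right _ _).trans (min_le_left _ _),
      (min_le_right _ _).trans ((min_le_right _ _).trans (min_le_left _ _)),
      (min_le_right _ _).trans ((min_le_right _ _).trans ((min_le_right _ _).trans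
        (min_le_left _ _))),
      (min_le_right _ _).trans ((min_le_right _ _).trans ((min_le_right _ _).trans
        ((min_le_right _ _).trans (min_le_left _ _)))),
      (min_le_right _ _).trans ((min_le_right _ _).trans ((min_le_right _ _).trans
        ((min_le_right _ _).trans (min_le_right _ _))))⟩
  obtain ⟨k, hk, m1, m2, m3⟩ : ∃ k : ℝ, 0 < k ∧ k ≤ k1 ∧ k ≤ k2 ∧ k ≤ d / 2 :=
    ⟨min k1 (min k2 (d / 2)), by positivity, min_le_left _ _,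
      (min_le_right _ _).trans (min_le_left _ _), (min_le_right _ _).trans (min_le_right _ _)⟩
  obtain ⟨K₁, M₁, hx⟩ := x₁ e₀ he₀
  refine ⟨k, hk, e₀, he₀, fun K => Bas.mono 0 (((((H1 (max K K₁)).and (H2 (max K K₁))).and
    ((H3 (max K K₁)).and (H4 (max K K₁)))).and ((H5 (max K K₁)).and (H6 (max K K₁)))).and
    (hx.and (pos_bas hpos))) ?_⟩
  rintro J - F A ⟨⟨⟨⟨H1, H2⟩, H3, H4⟩, H5, H6⟩, ⟨n₀, hn₀, -⟩, hA⟩ V₁ V₂ z zv hz hzv a n ⟨ha, hX⟩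
    ⟨hn, hv⟩
  have hcl := isLaw_cond F.isLaw hA
  have q := le_max_left K K₁
  have q' := le_max_right K K₁
  have b1 := H1 V₁ V₂ z zv (hz.le' m1) (hzv.le' m1) _ _ (Qa.mono q l1 ha) (Qn.mono q l1 hn)
  have b2 := H2 V₁ V₂ z zv (hz.le' m2) (hzv.le' m2) _ _ _ (Qa.mono q l2 ha) (QX.mono q l2 hX)
    (Q₁.mono q' l2 hn₀)
  have b3 := H3 V₂ zv (hzv.le' m3) _ _ (Qn.mono q l3 hn) (Q₁.mono q' l3 hn₀)
  have b4 := H4 V₁ z (hz.le' m3) (fun ω => ((n ω).1, (n ω).2)) _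
    ⟨Qn.mono q l4 hn, Qv.mono q l4 hv⟩ (Q₁.mono q' l4 hn₀)
  have b5 := H5 V₁ z (hz.le' m3) (fun ω => ((a ω).1, (a ω).2)) _
    ⟨Qa.mono q l5 ha, QX.mono q l5 hX⟩ (Qv.mono q l5 hv)
  have b6 := H6 V₁ z (hz.le' m3) _ _ (Qa.mono q l6 ha) (Qn.mono q l6 hn)
  have b3' : CH (Pool.Agent.H49.Ent.cond F.p A True) n₀
      (fun ω => ((n ω).1, (zv ω, (z ω, y J F ω)))) ≤ d * J := by
    refine le_trans (CH_mono_cond hcl.nonneg fun ω ω' _ _ hh => ?_) b3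
    simp only [Prod.mk.injEq] at hh ⊢
    exact ⟨hh.1, hh.2.1, hh.2.2.2⟩
  have key := mi_step hcl.nonneg zv (fun ω => (a ω).1) (fun ω => (n ω).1) (fun ω => (a ω).2)
    (fun ω => (n ω).2) n₀ (fun ω => (z ω, y J F ω)) b1 b3' b2 b4 b5 b6
  refine key.trans (le_of_eq ?_)
  rw [hd]
  ring

/-- **Renamed quantities.** -/
theorem MIs.map
    (hpos : ∀ (τ : ℝ) (J : ℕ) (F : Fam m J) (A : F.Ω → Prop), S.St τ J F A → 0 < Pe F.p A)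
    {w v : ℚ} {Qa : Qt m U} {Qn : Qt m U'} {Qa' : Qt m U₁} {Qn' : Qt m U₂} {ε : ℝ}
    (hM : MIs S f y s w v Qa Qn ε) (φ : U₁ → U) (ψ : U₂ → U')
    (hφ : ∀ (K : ℕ) (e : ℝ) (J : ℕ) (F : Fam m J) (A : F.Ω → Prop) (a : F.Ω → U₁),
      Qa'.P K e J F A a → Qa.P K e J F A (fun ω => φ (a ω)) ∧
        ∀ ω ω', A ω → A ω' → φ (a ω) = φ (a ω') → a ω = a ω')
    (hψ : ∀ (K : ℕ) (e : ℝ) (J : ℕ) (F : Fam m J) (A : F.Ω → Prop) (a : F.Ω → U₂),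
      Qn'.P K e J F A a → Qn.P K e J F A (fun ω => ψ (a ω)) ∧
        ∀ ω ω', A ω → A ω' → ψ (a ω) = ψ (a ω') → a ω = a ω') :
    MIs S f y s w v Qa' Qn' ε := by
  intro c hc
  obtain ⟨k, hk, e₀, he₀, H⟩ := hM c hc
  refine ⟨k, hk, e₀, he₀, fun K => Bas.mono 0 ((H K).and (pos_bas hpos)) ?_⟩
  rintro J - F A ⟨H, hA⟩ V₁ V₂ z zv hz hzv a n ha hn
  obtain ⟨a1, a2⟩ := hφ _ _ _ _ _ _ ha
  obtain ⟨n1, n2⟩ := hψ _ _ _ _ _ _ hn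
  have hcl := isLaw_cond F.isLaw hA
  have key := H V₁ V₂ z zv hz hzv _ _ a1 n1
  rw [← mi_congr hcl.nonneg zv (A := a) (A' := fun ω => φ (a ω)) (N := n)
    (N' := fun ω => ψ (n ω)) (fun ω => (z ω, y J F ω))
    (fun ω ω' _ _ hh => congrArg φ hh)
    (fun ω ω' x x' hh => a2 ω ω' (of_cond_pos x) (of_cond_pos x') hh)
    (fun ω ω' _ _ hh => congrArg ψ hh)
    (fun ω ω' x x' hh => n2 ω ω' (of_cond_pos x) (of_cond_pos x') hh)] at key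
  exact key

/-- The empty prefix. -/
theorem MIs.empty
    (hpos : ∀ (τ : ℝ) (J : ℕ) (F : Fam m J) (A : F.Ω → Prop), S.St τ J F A → 0 < Pe F.p A)
    {w v : ℚ} {Qa : Qt m U} (Qn : Qt m U') (u₀ : U)
    (h : ∀ (K : ℕ) (e : ℝ) (J : ℕ) (F : Fam m J) (A : F.Ω → Prop) (a : F.Ω → U),
      Qa.P K e J F A a → ∀ ω, A ω → a ω = u₀) : MIs S f y s w v Qa Qn 0 := by
  intro c hc
  refine ⟨1, one_pos, 1, one_pos, fun K => Bas.mono 0 (pos_bas hpos) ?_⟩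
  rintro J - F A hA V₁ V₂ z zv - - a n ha -
  rw [mi_const (isLaw_cond F.isLaw hA).nonneg zv _ fun ω ω' x x' _ => by
    rw [h _ _ _ _ _ _ ha ω (of_cond_pos x), h _ _ _ _ _ _ ha ω' (of_cond_pos x')]]
  positivity

end Pool.AVG96
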