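import Pool.Agent.H96.AVG.Vlb

/-!
# The near digits of the first rough coordinate given its velocity, at real windows

`VelG`: the conclusion for real windows `w` of `G`, real record windows `j`, real numbers of digits.
`vel_real`: from the indices (`VelI`) to `VelG`.
-/

set_option autoImplicit false

namespace Pool.AVG96

open Finset Real MvPolynomial MeasureTheory Filter
open Pool.Agent.H49.Ent Pool.Agent.H32.Dense Pool.STK Pool.KA Pool.KSAT Pool.K2S Pool.PB Pool.S6C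
  Pool.GEN Pool.RCD Pool.LA91
open Pool.OWN83
open Pool.OWN68 (cl2_vg)

/-- Replacing all quantities by others which determine them up to few bits. -/
theorem ch_swap {Ω T₁ T₂ T₃ T₄ T₅ T₆ T₇ T₈ T₉ T₀ W Y : Type} [Fintype Ω] {p : Ω → ℝ}
    (hp : ∀ ω, 0 ≤ p ω) {b' : Ω → T₁} {b : Ω → T₂} {a' : Ω → T₃} {a : Ω → T₄} {d' : Ω → T₅}
    {d : Ω → T₆} {zj : Ω → T₇} {zw : Ω → T₈} {zq : Ω → T₉} {z₀ : Ω → T₀} {u₀ : Ω → W}
    {y : Ω → Y} {θ x : ℝ}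
    (h1 : θ ≤ CH p b' (fun ω => (a' ω, (d' ω, (zq ω, (z₀ ω, (u₀ ω, y ω)))))))
    (h2 : CH p b' (fun ω => (b ω, (zw ω, y ω))) ≤ x)
    (h3 : CH p a (fun ω => (a' ω, (zw ω, y ω))) ≤ x)
    (h4 : CH p d (fun ω => (d' ω, (zw ω, y ω))) ≤ x) (h5 : CH p zj zq ≤ x)
    (h6 : CH p zw zq ≤ x) :
    θ - 5 * x ≤ CH p b (fun ω => (a ω, (d ω, (zj ω, (zw ω, (u₀ ω, y ω)))))) := by
  obtain ⟨C, hC⟩ : ∃ C : Ω → T₃ × T₅ × T₉ × T₀ × W × Y,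
      C = fun ω => (a' ω, (d' ω, (zq ω, (z₀ ω, (u₀ ω, y ω))))) := ⟨_, rfl⟩
  rw [← hC] at h1
  have k1 := CH_le_add hp b' zw C
  have k2 := CH_le_add hp b' zj (fun ω => (zw ω, C ω))
  have k3 := CH_le_add hp b' a (fun ω => (zj ω, (zw ω, C ω)))
  have k4 := CH_le_add hp b' d (fun ω => (a ω, (zj ω, (zw ω, C ω))))
  have k5 := CH_le_add hp b' b (fun ω => (d ω, (a ω, (zj ω, (zw ω, C ω)))))
  have m1 : CH p zw C ≤ CH p zw zq := CH_mono_cond hp fun ω ω' _ _ hh => by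
    rw [hC] at hh
    simp only [Prod.mk.injEq] at hh
    exact hh.2.2.1
  have m2 : CH p zj (fun ω => (zw ω, C ω)) ≤ CH p zj zq :=
    CH_mono_cond hp fun ω ω' _ _ hh => by
      rw [hC] at hh
      simp only [Prod.mk.injEq] at hh
      exact hh.2.2.2.1
  have m3 : CH p a (fun ω => (zj ω, (zw ω, C ω))) ≤ CH p a (fun ω => (a' ω, (zw ω, y ω))) :=
    CH_mono_cond hp fun ω ω' _ _ hh => by
      rw [hC] at hh
      simp only [Prod.mk.injEq] at hh ⊢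
      exact ⟨hh.2.2.1, hh.2.1, hh.2.2.2.2.2.2.2⟩
  have m4 : CH p d (fun ω => (a ω, (zj ω, (zw ω, C ω)))) ≤
      CH p d (fun ω => (d' ω, (zw ω, y ω))) :=
    CH_mono_cond hp fun ω ω' _ _ hh => by
      rw [hC] at hh
      simp only [Prod.mk.injEq] at hh ⊢
      exact ⟨hh.2.2.2.2.1, hh.2.2.1, hh.2.2.2.2.2.2.2.2⟩
  have m5 : CH p b' (fun ω => (b ω, (d ω, (a ω, (zj ω, (zw ω, C ω)))))) ≤
      CH p b' (fun ω => (b ω, (zw ω, y ω))) :=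
    CH_mono_cond hp fun ω ω' _ _ hh => by
      rw [hC] at hh
      simp only [Prod.mk.injEq] at hh ⊢
      exact ⟨hh.1, hh.2.2.2.2.1, hh.2.2.2.2.2.2.2.2.2.2⟩
  have m6 : CH p b (fun ω => (d ω, (a ω, (zj ω, (zw ω, C ω))))) ≤
      CH p b (fun ω => (a ω, (d ω, (zj ω, (zw ω, (u₀ ω, y ω)))))) :=
    CH_mono_cond hp fun ω ω' _ _ hh => by
      rw [hC] at hh
      simp only [Prod.mk.injEq] at hh ⊢
      exact ⟨hh.2.1, hh.1, hh.2.2.1, hh.2.2.2.1, hh.2.2.2.2.2.2.2.2.1, hh.2.2.2.2.2.2.2.2.2⟩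
  linarith

variable {m : ℕ} {U₀ : Type} {α γ : ∀ J : ℕ, Fam m J → Type}
  {f : ∀ (J : ℕ) (F : Fam m J), F.Ω → α J F} {y : ∀ (J : ℕ) (F : Fam m J), F.Ω → γ J F}
  {S : PCl m} {c : ℕ → Fin m} {r₀ r : ℕ} {s A B Λ : ℝ} {sn : ℝ → ℕ → ℝ} {G : Set ℝ}

/-- **Few bits for one jet** over the base, at the window `w` of `G`. -/
theorem GCh.jet_one (h : GCh S f y c r₀ r s A B Λ sn G) (hr : r₀ ≤ r) {j : ℕ}
    {w x x' : ℝ} (hw : w ∈ G) (hA : A ≤ w) (hB : w < B) (hx : x ≤ w) (hx' : x' ≤ w)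
    {p p' N₁ N₂ σ₀ : ℝ} (hσ : 0 < σ₀) (hN : N₂ ≤ N₁)
    (h3 : N₂ + (j : ℝ) * w + σ₀ ≤ min p p' + Λ) :
    Few S f (vg w) y (qJet m ((range r₀).image c) (c r₀) j x p N₁)
      (qJet m ((range r₀).image c) (c r₀) j x' p' N₂) := by
  obtain ⟨C₀, htm⟩ := h.tm
  obtain ⟨q₀, lam', hp1, hlam, hp0, hkn⟩ := h.kn
  have hΛ0 := h.Λ0
  obtain ⟨u₁, rd, hrd, hch⟩ := h.ch w hw hA hB
  have hch := hch.take le_rfl hr
  have hmn : Λ ≤ min lam' (q₀ - w) := le_min hlam (by linarith)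
  exact few_emp h.pos (few_jetN (wv := fun _ _ => 0) (pv := fun _ _ => 0) (Nv := fun _ _ => 0)
    htm hch (lv := fun _ => 1) (p₀ := q₀) (lam := lam') (σ₀ := σ₀)
    (fun l a b => absurd b (by omega)) hx hx' (by linarith) hp1 (by linarith) hσ
    (fun _ _ _ => one_pos) (fun l a b => absurd b (by omega)) (fun l a b => absurd b (by omega))
    (fun l a b => absurd b (by omega)) hN (by linarith) (fun l a b => absurd b (by omega))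
    h.pt hkn)

/-- **The near digits of the first rough coordinate are full given its velocity**, at real
windows: `w` in `G`, the record at `j`, the position to `Na` and `Nb` digits, the velocity to `Nd`
digits, over the labels of `w`. -/
def VelG (S : PCl m) (f : ∀ (J : ℕ) (F : Fam m J), F.Ω → α J F)
    (y : ∀ (J : ℕ) (F : Fam m J), F.Ω → γ J F) (Q₀ : Qt m U₀) (c : ℕ → Fin m) (r₀ : ℕ)
    (sn : ℝ → ℕ → ℝ) (G : Set ℝ) (Sl g : ℝ) : Prop :=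
  ∀ e C : ℝ, 0 < e → 0 < C → ∃ κ ρ : ℝ, 0 < κ ∧ 0 < ρ ∧ ∀ R : ℝ, 0 < R → R < ρ → ∀ w ∈ G,
    ∀ j : ℝ, g - R ≤ w → w ≤ j → j ≤ g + R → ∀ Na Nb Nd : ℝ,
    sn w r₀ + Sl * (j - w) ≤ Na + κ * R → Na ≤ Nb → Nb ≤ sn w r₀ + C * R →
    Nd + w ≤ sn w r₀ + C * R → ∀ c₀ : ℝ, 0 < c₀ → ∃ k : ℝ, 0 < k ∧ ∃ e₀ : ℝ, 0 < e₀ ∧
    ∀ K : ℕ, Bas S (fun J F A' => ∀ (V₁ V₂ : Type) (z : F.Ω → V₁) (zj : F.Ω → V₂),
      Mx f (vg w) k F A' z → Mx f (vg j) k F A' zj → ∀ u₀ a b d, Q₀.P K e₀ J F A' u₀ →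
      (qJet m ((range r₀).image c) (c r₀) 0 w (sn w r₀) Na).P K e₀ J F A' a →
      (qJet m ((range r₀).image c) (c r₀) 0 w (sn w r₀) Nb).P K e₀ J F A' b →
      (qJet m ((range r₀).image c) (c r₀) 1 w (sn w r₀) Nd).P K e₀ J F A' d →
      ∀ B' : F.Ω → Prop, Sub B' A' → c₀ * Pe F.p A' ≤ Pe F.p B' →
      ((Nb - Na) * Real.log 2 - e * R) * J ≤ CH (Pool.Agent.H49.Ent.cond F.p B' True) b
        (fun ω => (a ω, (d ω, (zj ω, (z ω, (u₀ ω, y J F ω)))))))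

/-- The change of the windows, for given indices. -/
theorem vel_box (h : GCh S f y c r₀ r s A B Λ sn G) (hr : r₀ ≤ r) {Q₀ : Qt m U₀}
    {w j : ℝ} (hw : w ∈ G) (hwA : A ≤ w) (hwB : w < B) (hwj : w ≤ j) {w' q₁ q₂ l A₁ : ℚ}
    (hA₁ : PG G A s A₁) (hAw : A₁ < w') (h1 : (w' : ℝ) + s ≤ w) (h2 : w' ≤ q₁) (h3 : q₁ < q₂)
    (h4 : q₂ ≤ l) (hj : j ≤ (q₁ : ℝ) + s) (hqB : (l : ℝ) + s < B) {Na Nb Nd σ₀ E X c₀ : ℝ}
    (hσ : 0 < σ₀) (hE : 0 < E) (hc₀ : 0 < c₀)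
    (ha : Na ≤ scG sn G A s q₁ r₀) (hb : scG sn G A s q₂ r₀ ≤ Nb)
    (hd : Nd ≤ scG sn G A s l r₀ - whG G A s l)
    (ha' : Na + σ₀ ≤ min (scG sn G A s w' r₀) (sn w r₀) + Λ)
    (hb' : scG sn G A s q₂ r₀ + σ₀ ≤ min (sn w r₀) (scG sn G A s w' r₀) + Λ)
    (hd' : Nd + w + σ₀ ≤ min (scG sn G A s w' r₀) (sn w r₀) + Λ)
    (H : ∃ κ : ℝ, 0 < κ ∧ ∃ e₀ : ℝ, 0 < e₀ ∧ ∀ K : ℕ, Bas S (fun J F A' =>
      ∀ (V₁ V₂ : Type) (z : F.Ω → V₁) (zj : F.Ω → V₂), Mx f (vg ((w' : ℝ) + s)) κ F A' z →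
      Mx f (vg ((q₁ : ℝ) + s)) κ F A' zj → ∀ u₀ a b d, Q₀.P K e₀ J F A' u₀ →
      (JG m ((range r₀).image c) (c r₀) (whG G A s) (fun q => scG sn G A s q r₀) 0 w' q₁).P
        K e₀ J F A' a →
      (JG m ((range r₀).image c) (c r₀) (whG G A s) (fun q => scG sn G A s q r₀) 0 w' q₂).P
        K e₀ J F A' b →
      (JG m ((range r₀).image c) (c r₀) (whG G A s) (fun q => scG sn G A s q r₀) 1 w' l).P
        K e₀ J F A' d →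
      ∀ B' : F.Ω → Prop, Sub B' A' → c₀ * Pe F.p A' ≤ Pe F.p B' →
      X * J ≤ CH (Pool.Agent.H49.Ent.cond F.p B' True) b
          (fun ω => (a ω, (d ω, (zj ω, (z ω, (u₀ ω, y J F ω)))))))) :
    ∃ k : ℝ, 0 < k ∧ ∃ e₀ : ℝ, 0 < e₀ ∧
    ∀ K : ℕ, Bas S (fun J F A' => ∀ (V₁ V₂ : Type) (z : F.Ω → V₁) (zj : F.Ω → V₂),
      Mx f (vg w) k F A' z → Mx f (vg j) k F A' zj → ∀ u₀ a b d, Q₀.P K e₀ J F A' u₀ →
      (qJet m ((range r₀).image c) (c r₀) 0 w (sn w r₀) Na).P K e₀ J F A' a →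
      (qJet m ((range r₀).image c) (c r₀) 0 w (sn w r₀) Nb).P K e₀ J F A' b →
      (qJet m ((range r₀).image c) (c r₀) 1 w (sn w r₀) Nd).P K e₀ J F A' d →
      ∀ B' : F.Ω → Prop, Sub B' A' → c₀ * Pe F.p A' ≤ Pe F.p B' →
      (X - E) * J ≤ CH (Pool.Agent.H49.Ent.cond F.p B' True) b
        (fun ω => (a ω, (d ω, (zj ω, (z ω, (u₀ ω, y J F ω))))))) := by
  obtain ⟨κ, hκ, e1, he1, H⟩ := H
  have hn := h.nch hA₁
  have hpos := h.pos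
  have hB1 := h.B1
  have hAw' : (A₁ : ℝ) < w' := by exact_mod_cast hAw
  have c2 : (w' : ℝ) ≤ q₁ := by exact_mod_cast h2
  have c3 : (q₁ : ℝ) < q₂ := by exact_mod_cast h3
  have c4 : (q₂ : ℝ) ≤ l := by exact_mod_cast h4
  have hwl := (hn.wl w' hAw' (by linarith)).2
  have hA0 : A ≤ (w' : ℝ) + s := by
    obtain ⟨u, hu, u1, u2⟩ := hA₁
    linarith
  obtain ⟨x, hx⟩ : ∃ x : ℝ, x = E / 5 := ⟨_, rfl⟩
  have hx0 : 0 < x := by rw [hx]; positivity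
  have hcx : 0 < c₀ * x := mul_pos hc₀ hx0
  -- few bits
  have f1 := h.jet_one hr (j := 0) hw hwA hwB (x := whG G A s w') (x' := w)
    (p := scG sn G A s w' r₀) (p' := sn w r₀) (N₁ := scG sn G A s q₁ r₀ - ((0 : ℕ) : ℝ) *
      whG G A s q₁) (N₂ := Na) (by linarith) le_rfl hσ (by simpa using ha) (by simpa using ha')
  have f2 := h.jet_one hr (j := 1) hw hwA hwB (x := whG G A s w') (x' := w)
    (p := scG sn G A s w' r₀) (p' := sn w r₀) (N₁ := scG sn G A s l r₀ - ((1 : ℕ) : ℝ) *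
      whG G A s l) (N₂ := Nd) (by linarith) le_rfl hσ (by simpa using hd) (by simpa using hd')
  have f3 := h.jet_one hr (j := 0) hw hwA hwB (x := w) (x' := whG G A s w')
    (p := sn w r₀) (p' := scG sn G A s w' r₀) (N₁ := Nb) (N₂ := scG sn G A s q₂ r₀ -
      ((0 : ℕ) : ℝ) * whG G A s q₂) le_rfl (by linarith) hσ (by simpa using hb)
    (by simpa using hb')
  obtain ⟨g1, hg1, F1⟩ := f1.mx hpos (c₀ * x) hcx
  obtain ⟨g2, hg2, F2⟩ := f2.mx hpos (c₀ * x) hcx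
  obtain ⟨g3, hg3, F3⟩ := f3.mx hpos (c₀ * x) hcx
  obtain ⟨e₀, he₀, l1, l2, l3, l4⟩ : ∃ e : ℝ, 0 < e ∧ e ≤ e1 ∧ e ≤ g1 ∧ e ≤ g2 ∧ e ≤ g3 :=
    ⟨min e1 (min g1 (min g2 g3)), by positivity, min_le_left _ _,
      (min_le_right _ _).trans (min_le_left _ _),
      (min_le_right _ _).trans ((min_le_right _ _).trans (min_le_left _ _)),
      (min_le_right _ _).trans ((min_le_right _ _).trans (min_le_right _ _))⟩
  obtain ⟨k, hk, k1, k2⟩ : ∃ k : ℝ, 0 < k ∧ k ≤ κ ∧ k ≤ c₀ * x / 2 :=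
    ⟨min κ (c₀ * x / 2), by positivity, min_le_left _ _, min_le_right _ _⟩
  have hwB' : (w' : ℝ) < B - s := by linarith
  obtain ⟨K1, M1, X1⟩ := exs_jet1 hn le_rfl hr (j := 0) hAw' hwB'
    (scG sn G A s q₁ r₀ - ((0 : ℕ) : ℝ) * whG G A s q₁) e₀ he₀
  obtain ⟨K2, M2, X2⟩ := exs_jet1 hn le_rfl hr (j := 0) hAw' hwB'
    (scG sn G A s q₂ r₀ - ((0 : ℕ) : ℝ) * whG G A s q₂) e₀ he₀
  obtain ⟨K3, M3, X3⟩ := exs_jet1 hn le_rfl hr (j := 1) hAw' hwB'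
    (scG sn G A s l r₀ - ((1 : ℕ) : ℝ) * whG G A s l) e₀ he₀
  obtain ⟨η1, r1⟩ := hn.rn w' hAw' hwB'
  obtain ⟨η2, r2⟩ := hn.rn q₁ (by linarith) (by linarith)
  refine ⟨k, hk, e₀, he₀, fun K => ?_⟩
  obtain ⟨L, n0, n1, n2, n3⟩ : ∃ L : ℕ, K ≤ L ∧ K1 ≤ L ∧ K2 ≤ L ∧ K3 ≤ L :=
    ⟨max K (max K1 (max K2 K3)), le_max_left _ _, (le_max_left _ _).trans (le_max_right _ _),
      (le_max_left _ _).trans ((le_max_right _ _).trans (le_max_right _ _)),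
      (le_max_right _ _).trans ((le_max_right _ _).trans (le_max_right _ _))⟩
  refine Bas.mono 0 ((((H L).and (F1 L)).and ((F2 L).and (F3 L))).and ((((X1.and X2).and X3).and
    ((mx_ex hpos r1 k hk).and (mx_ex hpos r2 k hk))).and (pos_bas hpos))) ?_
  rintro J - F A' ⟨⟨⟨H, F1⟩, F2, F3⟩, ⟨⟨⟨⟨a', ha'', -⟩, b', hb'', -⟩, d', hd'', -⟩,
    ⟨Z₀, z₀, hz₀⟩, Zq, zq, hzq⟩, hA'⟩ V₁ V₂ z zj hz hzj u₀ a b d hu₀ hua hub hud B' hB' hBA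
  have hJ0 : (0 : ℝ) ≤ J := Nat.cast_nonneg J
  have hBp : 0 < Pe F.p B' := lt_of_lt_of_le (mul_pos hc₀ hA') hBA
  have hp := (isLaw_cond F.isLaw hBp).nonneg
  have part : ∀ {T T' : Type} (X : F.Ω → T) (Y : F.Ω → T'),
      CH (Pool.Agent.H49.Ent.cond F.p A' True) X Y ≤ c₀ * x * J →
      CH (Pool.Agent.H49.Ent.cond F.p B' True) X Y ≤ x * J := fun X Y hXY =>
    ch_part F.isLaw hB' hA' hc₀ hBA X Y (by rw [← mul_assoc]; exact hXY)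
  have hkJ : k * J ≤ c₀ * x * J := mul_le_mul_of_nonneg_right (by linarith) hJ0
  have t1 := H Z₀ Zq z₀ zq (hz₀.le' k1) (hzq.le' k1) u₀ a' b' d'
    (Q₀.mono n0 l1 hu₀) ((JG m _ _ _ _ 0 w' q₁).mono n1 l1 ha'')
    ((JG m _ _ _ _ 0 w' q₂).mono n2 l1 hb'') ((JG m _ _ _ _ 1 w' l).mono n3 l1 hd'') B' hB' hBA
  have t2 := part _ _ (F3 V₁ z (hz.le' k2) b b' ((qJet m _ _ _ _ _ _).mono n0 l4 hub)
    ((qJet m _ _ _ _ _ _).mono n2 l4 hb''))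
  have t3 := part _ _ (F1 V₁ z (hz.le' k2) a' a ((qJet m _ _ _ _ _ _).mono n1 l2 ha'')
    ((qJet m _ _ _ _ _ _).mono n0 l2 hua))
  have t4 := part _ _ (F2 V₁ z (hz.le' k2) d' d ((qJet m _ _ _ _ _ _).mono n3 l3 hd'')
    ((qJet m _ _ _ _ _ _).mono n0 l3 hud))
  have t5 := part _ _ ((hzq.2 V₂ zj (cl2_vg hj (by linarith) hzj.1)).trans hkJ)
  have t6 := part _ _ ((hzq.2 V₁ z (cl2_vg (hwj.trans hj) (by linarith) hz.1)).trans hkJ)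
  refine le_trans (le_of_eq ?_) (ch_swap hp t1 t2 t3 t4 t5 t6)
  rw [hx]
  ring

end Pool.AVG96
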