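import Pool.Agent.H96.AVG.Vlc

/-!
# The near digits of the first rough coordinate given its velocity: the theorem

`vel_real`: from the indices (`VelI`) to real windows (`VelG`). `vel_G`: almost every `g`.
-/

set_option autoImplicit false

namespace Pool.AVG96

open Finset Real MvPolynomial MeasureTheory Filter
open Pool.Agent.H49.Ent Pool.Agent.H32.Dense Pool.STK Pool.KA Pool.KSAT Pool.K2S Pool.PB Pool.S6C
  Pool.GEN Pool.RCD Pool.LA91
open Pool.OWN83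

variable {m : ℕ} {U₀ : Type} {α γ : ∀ J : ℕ, Fam m J → Type}
  {f : ∀ (J : ℕ) (F : Fam m J), F.Ω → α J F} {y : ∀ (J : ℕ) (F : Fam m J), F.Ω → γ J F}
  {S : PCl m} {c : ℕ → Fin m} {r₀ r : ℕ} {s A B Λ : ℝ} {sn : ℝ → ℕ → ℝ} {G : Set ℝ}

/-- The indices of a box. -/
theorem vel_num {A s : ℝ} {sn : ℝ → ℕ → ℝ} {G : Set ℝ} {r₀ : ℕ} {T C D τ R e g w j Na Nb Nd Λ : ℝ}
    (hS1 : 1 < T) (hτR : 0 < τ * R) (hR : 0 < R) (heR : 0 < e * R)
    (hCR : 0 < C * R)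
    (hτR1 : τ * R ≤ 1 / 16 * R) (hTτ : T * (τ * R) ≤ e / 96 * R)
    (τ3 : τ / (T - 1) ≤ 1 / 16) (eD : D * R = 6 * R + C * R + C / (T - 1) * R)
    (wn : ∀ x : ℚ, g - D * R ≤ x + s → (x : ℝ) + s ≤ g + D * R → whG G A s x ∈ G ∧
      A ≤ whG G A s x ∧ whG G A s x ≤ x + s ∧ (x : ℝ) + s - τ * R ≤ whG G A s x ∧
      PG G A s x)
    (sl : ∀ u ∈ G, ∀ v ∈ G, g - D * R ≤ u → u ≤ v → v ≤ g + D * R →
      |sn v r₀ - sn u r₀ - T * (v - u)| ≤ τ * R)
    (hw : w ∈ G) (w1 : g - R ≤ w) (w2 : w ≤ j) (w3 : j ≤ g + R)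
    (hNa : sn w r₀ + T * (j - w) ≤ Na + e / 4 * R) (hNb : Nb ≤ sn w r₀ + C * R)
    (hNd : Nd + w ≤ sn w r₀ + C * R) (hN : e * R < Nb - Na)
    (hCTR : 0 < C / (T - 1) * R) (hRΛ : (C + 2 * T + 2) * R ≤ Λ / 2) :
    ∃ w' A₁ q₁ q₂ l : ℚ, PG G A s A₁ ∧ A₁ < w' ∧ (w' : ℝ) + s ≤ w ∧ w' ≤ q₁ ∧ q₁ < q₂ ∧
      q₂ ≤ l ∧ j ≤ (q₁ : ℝ) + s ∧ g - D * R ≤ w' + s ∧ (l : ℝ) + s ≤ g + D * R ∧
      Na ≤ scG sn G A s q₁ r₀ ∧ scG sn G A s q₂ r₀ ≤ Nb ∧
      Nd ≤ scG sn G A s l r₀ - whG G A s l ∧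
      Na + Λ / 2 ≤ min (scG sn G A s w' r₀) (sn w r₀) + Λ ∧
      scG sn G A s q₂ r₀ + Λ / 2 ≤ min (sn w r₀) (scG sn G A s w' r₀) + Λ ∧
      Nd + w + Λ / 2 ≤ min (scG sn G A s w' r₀) (sn w r₀) + Λ ∧
      scG sn G A s q₁ r₀ ≤ Na + e / 4 * R + 6 * (T * (τ * R)) ∧
      Nb - 6 * (T * (τ * R)) ≤ scG sn G A s q₂ r₀ := by
  have hT0 : 0 < T := by linarith
  have hT1 : 0 < T - 1 := by linarith
  have hτT : τ * R ≤ T * (τ * R) := by
    have := mul_le_mul_of_nonneg_right hS1.le hτR.le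
    linarith
  -- the natural windows
  obtain ⟨m₁, hm₁⟩ : ∃ m₁ : ℝ, m₁ = max (T * (j - w)) (Na - sn w r₀) := ⟨_, rfl⟩
  have m1 : T * (j - w) ≤ m₁ := by rw [hm₁]; exact le_max_left _ _
  have m2 : Na - sn w r₀ ≤ m₁ := by rw [hm₁]; exact le_max_right _ _
  have m3 : m₁ ≤ Na - sn w r₀ + e / 4 * R := by
    rw [hm₁]
    exact max_le (by linarith) (by linarith)
  obtain ⟨x₁, hx₁⟩ : ∃ x₁ : ℝ, x₁ = w + m₁ / T + 4 * (τ * R) := ⟨_, rfl⟩
  have X1 : T * (x₁ - w) = m₁ + 4 * (T * (τ * R)) := by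
    rw [hx₁]
    field_simp
    ring
  obtain ⟨x₂, hx₂⟩ : ∃ x₂ : ℝ, x₂ = w + (Nb - sn w r₀) / T - 4 * (τ * R) := ⟨_, rfl⟩
  have X2 : T * (x₂ - w) = Nb - sn w r₀ - 4 * (T * (τ * R)) := by
    rw [hx₂]
    field_simp
    ring
  obtain ⟨x₃, hx₃⟩ : ∃ x₃ : ℝ, x₃ = max x₂ (w + (Nd + w - sn w r₀) / (T - 1)) +
    (2 + 1 / (T - 1)) * (τ * R) := ⟨_, rfl⟩
  have hτ1 : 1 / (T - 1) * (τ * R) ≤ 1 / 16 * R := by
    have : 1 / (T - 1) * (τ * R) = τ / (T - 1) * R := by ring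
    rw [this]
    exact mul_le_mul_of_nonneg_right τ3 hR.le
  have hτ0 : 0 < 1 / (T - 1) * (τ * R) := mul_pos (by positivity) hτR
  have X3 : (T - 1) * (x₃ - w) ≥ Nd + w - sn w r₀ + 2 * (T - 1) * (τ * R) + τ * R := by
    have h1 : w + (Nd + w - sn w r₀) / (T - 1) + (2 + 1 / (T - 1)) * (τ * R) ≤ x₃ := by
      rw [hx₃]
      linarith [le_max_right x₂ (w + (Nd + w - sn w r₀) / (T - 1))]
    have h2 := mul_le_mul_of_nonneg_left (show (Nd + w - sn w r₀) / (T - 1) +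
      (2 + 1 / (T - 1)) * (τ * R) ≤ x₃ - w by linarith) hT1.le
    have h3 : (T - 1) * ((Nd + w - sn w r₀) / (T - 1) + (2 + 1 / (T - 1)) * (τ * R)) =
        Nd + w - sn w r₀ + 2 * (T - 1) * (τ * R) + τ * R := by
      field_simp
      ring
    linarith
  have X4 : x₂ + 2 * (τ * R) ≤ x₃ := by
    rw [hx₃]
    linarith [le_max_left x₂ (w + (Nd + w - sn w r₀) / (T - 1))]
  have hx₁j : j + 4 * (τ * R) ≤ x₁ := by
    have h1 : T * j + 4 * (T * (τ * R)) ≤ T * x₁ := by linarith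
    have h2 : T * (j + 4 * (τ * R)) ≤ T * x₁ := by linarith
    exact le_of_mul_le_mul_left h2 hT0
  have h12 : x₁ + τ * R ≤ x₂ := by
    have h1 : T * x₁ + T * (τ * R) ≤ T * x₂ := by linarith
    have h2 : T * (x₁ + τ * R) ≤ T * x₂ := by linarith
    exact le_of_mul_le_mul_left h2 hT0
  have hx₂u : x₂ ≤ w + C * R := by
    have h1 : (Nb - sn w r₀) / T ≤ C * R := by
      rw [div_le_iff₀ hT0]
      have : C * R * 1 ≤ C * R * T := mul_le_mul_of_nonneg_left hS1.le hCR.le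
      linarith
    rw [hx₂]
    linarith
  have hx₃u : x₃ ≤ w + C * R + C / (T - 1) * R + R := by
    have h1 : (Nd + w - sn w r₀) / (T - 1) ≤ C / (T - 1) * R := by
      rw [div_mul_eq_mul_div]
      exact div_le_div_of_nonneg_right (by linarith) hT1.le
    have h2 : max x₂ (w + (Nd + w - sn w r₀) / (T - 1)) ≤ w + C * R + C / (T - 1) * R :=
      max_le (by linarith) (by linarith)
    rw [hx₃]
    linarith
  -- the indices
  obtain ⟨w', v1, v2⟩ := exists_rat_btwn (show w - s - τ * R < w - s by linarith)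
  obtain ⟨A₁, v3, v4⟩ := exists_rat_btwn (show w - s - 2 * (τ * R) < w - s - τ * R by linarith)
  obtain ⟨q₁, a1, a2⟩ := exists_rat_btwn (show x₁ - s < x₁ - s + τ * R by linarith)
  obtain ⟨q₂, b1, b2⟩ := exists_rat_btwn (show x₂ - s < x₂ - s + τ * R by linarith)
  obtain ⟨l, d1, d2⟩ := exists_rat_btwn (show x₃ - s < x₃ - s + τ * R by linarith)
  have hwq : w' ≤ q₁ := by
    have : (w' : ℝ) ≤ q₁ := by linarith
    exact_mod_cast this
  have hqq : q₁ < q₂ := by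
    have : (q₁ : ℝ) < q₂ := by linarith
    exact_mod_cast this
  have hql : q₂ ≤ l := by
    have : (q₂ : ℝ) ≤ l := by linarith
    exact_mod_cast this
  have hAw : A₁ < w' := by
    have : (A₁ : ℝ) < w' := by linarith
    exact_mod_cast this
  obtain ⟨-, -, -, -, hPA⟩ := wn A₁ (by linarith) (by linarith)
  obtain ⟨u1, u2, u3, u4, -⟩ := wn w' (by linarith) (by linarith)
  obtain ⟨o1, o2, o3, o4, -⟩ := wn q₁ (by linarith) (by linarith)
  obtain ⟨p1, p2, p3, p4, -⟩ := wn q₂ (by linarith) (by linarith)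
  obtain ⟨t1, t2, t3, t4, -⟩ := wn l (by linarith) (by linarith)
  have s1 := abs_le.1 (sl _ u1 w hw (by linarith) (by linarith) (by linarith))
  have s2 := abs_le.1 (sl w hw _ o1 (by linarith) (by linarith) (by linarith))
  have s3 := abs_le.1 (sl w hw _ p1 (by linarith) (by linarith) (by linarith))
  have s4 := abs_le.1 (sl w hw _ t1 (by linarith) (by linarith) (by linarith))
  -- the digits
  have z1 : Na ≤ scG sn G A s q₁ r₀ := by
    unfold scG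
    have h1 : T * (x₁ - τ * R - w) ≤ T * (whG G A s q₁ - w) :=
      mul_le_mul_of_nonneg_left (by linarith) hT0.le
    linarith [s2.1]
  have z1' : scG sn G A s q₁ r₀ ≤ Na + e / 4 * R + 6 * (T * (τ * R)) := by
    unfold scG
    have h1 : T * (whG G A s q₁ - w) ≤ T * (x₁ + τ * R - w) :=
      mul_le_mul_of_nonneg_left (by linarith) hT0.le
    linarith [s2.2]
  have z2 : scG sn G A s q₂ r₀ ≤ Nb := by
    unfold scG
    have h1 : T * (whG G A s q₂ - w) ≤ T * (x₂ + τ * R - w) :=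
      mul_le_mul_of_nonneg_left (by linarith) hT0.le
    linarith [s3.2]
  have z2' : Nb - 6 * (T * (τ * R)) ≤ scG sn G A s q₂ r₀ := by
    unfold scG
    have h1 : T * (x₂ - τ * R - w) ≤ T * (whG G A s q₂ - w) :=
      mul_le_mul_of_nonneg_left (by linarith) hT0.le
    linarith [s3.1]
  have z3 : Nd ≤ scG sn G A s l r₀ - whG G A s l := by
    unfold scG
    have h1 : (T - 1) * (x₃ - τ * R - w) ≤ (T - 1) * (whG G A s l - w) :=
      mul_le_mul_of_nonneg_left (by linarith) hT1.le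
    have h2 : 0 ≤ (T - 1) * (τ * R) := by positivity
    linarith [s4.1]
  have z4 : sn w r₀ - (2 * T + 1) * R ≤ scG sn G A s w' r₀ := by
    unfold scG
    have h1 : T * (w - whG G A s w') ≤ T * (2 * R) :=
      mul_le_mul_of_nonneg_left (by linarith) hT0.le
    linarith [s1.2]
  have hTR : 0 < T * R := by positivity
  refine ⟨w', A₁, q₁, q₂, l, hPA, hAw, by linarith, hwq, hqq, hql, by linarith, by linarith,
    by linarith, z1, z2, z3, ?_, ?_, ?_, z1', z2'⟩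
  · rw [← sub_le_iff_le_add]
    exact le_min (by linarith) (by linarith)
  · rw [← sub_le_iff_le_add]
    exact le_min (by linarith) (by linarith)
  · rw [← sub_le_iff_le_add]
    exact le_min (by linarith) (by linarith)

/-- **From the indices to real windows.** -/
theorem vel_real (h : GCh S f y c r₀ r s A B Λ sn G) (hr : r₀ ≤ r) {Q₀ : Qt m U₀} {g : ℝ}
    {Sl : ℕ → ℝ} (hS : SlpG sn r₀ r G g Sl) (hS1 : 1 < Sl r₀) (hA : A < g) (hB : g < B)
    (hI : VelI S f y Q₀ ((range r₀).image c) (c r₀) s (whG G A s)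
      (fun q => scG sn G A s q r₀) (g - s)) : VelG S f y Q₀ c r₀ sn G (Sl r₀) g := by
  intro e C he hC
  obtain ⟨T, hT⟩ : ∃ T : ℝ, T = Sl r₀ := ⟨_, rfl⟩
  rw [← hT] at hS1 ⊢
  have hT0 : 0 < T := by linarith
  have hT1 : 0 < T - 1 := by linarith
  have hΛ0 := h.Λ0
  -- the constants
  obtain ⟨D, hD⟩ : ∃ D : ℝ, D = 6 + C + C / (T - 1) := ⟨_, rfl⟩
  have hCT : 0 < C / (T - 1) := by positivity
  have hD0 : 0 < D := by rw [hD]; positivity
  obtain ⟨τ, hτ, τ1, τ2, τ3⟩ : ∃ τ : ℝ, 0 < τ ∧ τ ≤ 1 / 16 ∧ 12 * T * τ ≤ e / 8 ∧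
      τ / (T - 1) ≤ 1 / 16 := by
    refine ⟨min (1 / 16) (min (e / (96 * T)) ((T - 1) / 16)), by positivity, min_le_left _ _,
      ?_, ?_⟩
    · have h1 := (min_le_right (1 / 16) (min (e / (96 * T)) ((T - 1) / 16))).trans
        (min_le_left _ _)
      have h2 : 12 * T * min (1 / 16) (min (e / (96 * T)) ((T - 1) / 16)) ≤
          12 * T * (e / (96 * T)) := mul_le_mul_of_nonneg_left h1 (by positivity)
      refine h2.trans (le_of_eq ?_)
      field_simp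
      norm_num
    · have h1 := (min_le_right (1 / 16) (min (e / (96 * T)) ((T - 1) / 16))).trans
        (min_le_right _ _)
      rw [div_le_iff₀ hT1]
      linarith
  obtain ⟨ρ₁, hρ₁, H1⟩ := hI (e / (4 * D)) (by positivity)
  obtain ⟨ρ₂, hρ₂, H2⟩ := hS.wnd (s := s) h.cl hA (η := τ / D) (by positivity) (by
    rw [div_le_one hD0]
    rw [hD]
    linarith)
  obtain ⟨ρ₃, hρ₃, H3⟩ := hS.sl r₀ le_rfl hr (τ / D) (by positivity)
  rw [← hT] at H3
  obtain ⟨ρ, hρ, k1, k2, k3, k4, k5, k6⟩ : ∃ ρ : ℝ, 0 < ρ ∧ D * ρ ≤ ρ₁ ∧ D * ρ ≤ ρ₂ ∧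
      D * ρ ≤ ρ₃ ∧ D * ρ ≤ (g - A) / 2 ∧ D * ρ ≤ (B - g) / 2 ∧ (C + 2 * T + 2) * ρ ≤ Λ / 2 := by
    have q1 : 0 < (g - A) / 2 := by linarith
    have q2 : 0 < (B - g) / 2 := by linarith
    obtain ⟨a, ha, a1, a2, a3⟩ : ∃ a : ℝ, 0 < a ∧ a ≤ ρ₁ ∧ a ≤ ρ₂ ∧ a ≤ ρ₃ :=
      ⟨min ρ₁ (min ρ₂ ρ₃), by positivity, min_le_left _ _, (min_le_right _ _).trans
        (min_le_left _ _), (min_le_right _ _).trans (min_le_right _ _)⟩
    obtain ⟨b, hb, b1, b2, b3⟩ : ∃ b : ℝ, 0 < b ∧ b ≤ a ∧ b ≤ (g - A) / 2 ∧ b ≤ (B - g) / 2 :=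
      ⟨min a (min ((g - A) / 2) ((B - g) / 2)), by positivity, min_le_left _ _,
        (min_le_right _ _).trans (min_le_left _ _), (min_le_right _ _).trans (min_le_right _ _)⟩
    have c1 : D * min (b / D) (Λ / 2 / (C + 2 * T + 2)) ≤ b := by
      have : D * min (b / D) (Λ / 2 / (C + 2 * T + 2)) ≤ D * (b / D) :=
        mul_le_mul_of_nonneg_left (min_le_left _ _) hD0.le
      refine this.trans (le_of_eq ?_)
      field_simp
    refine ⟨min (b / D) (Λ / 2 / (C + 2 * T + 2)), by positivity, by linarith, by linarith,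
      by linarith, by linarith, by linarith, ?_⟩
    have : (C + 2 * T + 2) * min (b / D) (Λ / 2 / (C + 2 * T + 2)) ≤
        (C + 2 * T + 2) * (Λ / 2 / (C + 2 * T + 2)) :=
      mul_le_mul_of_nonneg_left (min_le_right _ _) (by positivity)
    refine this.trans (le_of_eq ?_)
    field_simp

  refine ⟨e / 4, ρ, by positivity, hρ, fun R hR hRρ w hw j w1 w2 w3 Na Nb Nd hNa hab hNb hNd c₀
    hc₀ => ?_⟩
  have hDR : D * R ≤ D * ρ := mul_le_mul_of_nonneg_left hRρ.le hD0.le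
  have hDR' : D * R < D * ρ := mul_lt_mul_of_pos_left hRρ hD0
  have hDR0 : 0 < D * R := by positivity
  have hτR : 0 < τ * R := by positivity
  have hτR1 : τ * R ≤ 1 / 16 * R := mul_le_mul_of_nonneg_right τ1 hR.le
  have hTτ : T * (τ * R) ≤ e / 96 * R := by
    have := mul_le_mul_of_nonneg_right τ2 hR.le
    linarith
  have hτT : τ * R ≤ T * (τ * R) := by
    have := mul_le_mul_of_nonneg_right hS1.le hτR.le
    linarith
  have eτ : τ / D * (D * R) = τ * R := by field_simp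
  have heR : 0 < e * R := by positivity
  have hCR : 0 < C * R := by positivity
  have eD : D * R = 6 * R + C * R + C / (T - 1) * R := by rw [hD]; ring
  have hCTR : 0 < C / (T - 1) * R := by positivity
  -- the windows in the box
  have wn : ∀ x : ℚ, g - D * R ≤ x + s → (x : ℝ) + s ≤ g + D * R → whG G A s x ∈ G ∧
      A ≤ whG G A s x ∧ whG G A s x ≤ x + s ∧ (x : ℝ) + s - τ * R ≤ whG G A s x ∧
      PG G A s x := by
    intro x x1 x2
    have := H2 (D * R) hDR0 (by linarith) x (by linarith) (by linarith)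
    rwa [eτ] at this
  have sl : ∀ u ∈ G, ∀ v ∈ G, g - D * R ≤ u → u ≤ v → v ≤ g + D * R →
      |sn v r₀ - sn u r₀ - T * (v - u)| ≤ τ * R := by
    intro u hu v hv a1 a2 a3
    have := H3 (D * R) hDR0 (by linarith) u hu v hv a1 a2 a3
    rwa [eτ] at this
  -- the trivial case
  rcases le_or_gt ((Nb - Na) * Real.log 2) (e * R) with hc | hc
  · refine ⟨1, one_pos, 1, one_pos, fun K => Bas.mono 0 (pos_bas h.pos) ?_⟩
    intro J _ F A' hA' V₁ V₂ z zj _ _ u₀ a b d _ _ _ _ B' hB' hBA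
    have hBp : 0 < Pe F.p B' := lt_of_lt_of_le (mul_pos hc₀ hA') hBA
    refine le_trans ?_ (CH_nonneg (isLaw_cond F.isLaw hBp).nonneg _ _)
    exact mul_nonpos_of_nonpos_of_nonneg (by linarith) (Nat.cast_nonneg J)
  have l0 : 0 < Real.log 2 := Real.log_pos one_lt_two
  have l1 : Real.log 2 ≤ 1 := by
    have := Real.log_two_lt_d9
    linarith
  have hN : e * R < Nb - Na := by
    have : (Nb - Na) * Real.log 2 ≤ (Nb - Na) * 1 :=
      mul_le_mul_of_nonneg_left l1 (by linarith)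
    linarith
  have hRΛ : (C + 2 * T + 2) * R ≤ Λ / 2 :=
    (mul_le_mul_of_nonneg_left hRρ.le (by positivity)).trans k6
  obtain ⟨w', A₁, q₁, q₂, l, hPA, hAw, n1, hwq, hqq, hql, n2, n3, n4, z1, z2, z3, y1, y2, y3,
    z1', z2'⟩ := vel_num hS1 hτR hR heR hCR hτR1 hTτ τ3 eD wn sl hw w1 w2 w3 hNa hNb hNd hN
      hCTR hRΛ
  have key := vel_box h hr (Q₀ := Q₀) hw (by linarith) (by linarith) w2 hPA hAw n1 hwq hqq hql
    n2 (by linarith) (σ₀ := Λ / 2) (E := e * R / 8)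
    (X := (scG sn G A s q₂ r₀ - scG sn G A s q₁ r₀) * Real.log 2 - e / (4 * D) * (D * R))
    (c₀ := c₀) (by linarith) (by positivity) hc₀ z1 z2 z3 y1 y2 y3
    (H1 (D * R) hDR0 (by linarith) w' q₁ q₂ l (by linarith) hwq hqq hql (by linarith) c₀ hc₀)
  obtain ⟨k, hk, e₀, he₀, key⟩ := key
  refine ⟨k, hk, e₀, he₀, fun K => Bas.mono 0 (key K) ?_⟩
  intro J _ F A' H V₁ V₂ z zj hz hzj u₀ a b d hu₀ ha hb hd B' hB' hBA
  refine le_trans (mul_le_mul_of_nonneg_right ?_ (Nat.cast_nonneg J))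
    (H V₁ V₂ z zj hz hzj u₀ a b d hu₀ ha hb hd B' hB' hBA)
  have e1 : e / (4 * D) * (D * R) = e / 4 * R := by field_simp
  rw [e1]
  have h1 : (Nb - Na - e / 4 * R - 12 * (T * (τ * R))) * Real.log 2 ≤
      (scG sn G A s q₂ r₀ - scG sn G A s q₁ r₀) * Real.log 2 :=
    mul_le_mul_of_nonneg_right (by linarith) l0.le
  have h2 : (e / 4 * R + 12 * (T * (τ * R))) * Real.log 2 ≤
      (e / 4 * R + 12 * (T * (τ * R))) * 1 := mul_le_mul_of_nonneg_left l1 (by positivity)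
  linarith

/-- **The near digits of the first rough coordinate are full given its velocity**: almost every
`g`, for the time, all digits of the base (`y`). -/
theorem vel_G0 (h : GCh S f y c r₀ r s A B Λ sn G) (hr : r₀ ≤ r) {Q₀ : Qt m U₀} (hQ : Exs S Q₀)
    (hQt : ∀ w ∈ G, A ≤ w → w < B → Few S f (vg w) y Q₀ Q₀)
    (hn : VNum S f y c r₀ s (PG G A s) (B - s) Λ (whG G A s) (scG sn G A s) Q₀)
    {p₀ lam' : ℝ} (hkn : Kn ((range r₀).image c) p₀ lam' y)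
    (hyk : ∀ (J : ℕ) (F : Fam m J), ∃ ψ : ℕ × (Fin m → ℤ) × (Fin m → ℤ) → γ J F, ∀ ω,
      y J F ω = ψ (F.T ω, (fun i => if i ∈ (range r₀).image c then F.X ⌊p₀ * J⌋₊ ω i else 0),
        (fun i => if i ∈ (range r₀).image c then F.D ⌊lam' * J⌋₊ ω i else 0)))
    (hsn : ∀ w ∈ G, A ≤ w → w < B → 0 ≤ sn w r₀) (hpl : p₀ ≤ A + lam') :
    ∀ᵐ g : ℝ, A < g → g < B → ∀ Sl : ℕ → ℝ, SlpG sn r₀ r G g Sl → 1 < Sl r₀ →
      FulG S f y Q₀ c r₀ sn G (Sl r₀) g → JetG S f y Q₀ c r₀ sn G g →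
      VelG S f y Q₀ c r₀ sn G (Sl r₀) g := by
  have hmem : ∀ A' : ℚ, PG G A s A' → ∀ v : ℚ, (A' : ℝ) < v →
      whG G A s v ∈ G ∧ A ≤ whG G A s v ∧ whG G A s v ≤ v + s := fun A' hA' v hv =>
    fl_mem h.cl (hA'.lt hv)
  filter_upwards [(measurePreserving_sub_right (volume : Measure ℝ)
    s).quasiMeasurePreserving.tendsto_ae.eventually (vel_ae (PA := PG G A s)
    (fun _ hA' => h.nch hA') (fun _ _ => PG.mono) hn hr hQ (fun A' hA' v v1 v2 => by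
      obtain ⟨m1, m2, m3⟩ := hmem A' hA' v v1
      exact (h.nch hA').up v1 le_rfl v2 (hQt _ m1 m2 (by linarith))) hkn hyk
    (fun A' hA' => by
      obtain ⟨u, hu, u1, u2⟩ := hA'
      linarith [h.A0]) (fun A' hA' v v1 v2 => by
      obtain ⟨m1, m2, m3⟩ := hmem A' hA' v v1
      exact hsn _ m1 m2 (by linarith)) (fun A' hA' => by
      obtain ⟨u, hu, u1, u2⟩ := hA'
      linarith))] with g hg hgA hgB Sl hS hS1 hful hjet
  -- a point of `G` before `g`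
  obtain ⟨A₁, b0, b1⟩ : ∃ A₁ : ℚ, PG G A s A₁ ∧ (A₁ : ℝ) < g - s := by
    obtain ⟨ρ₀, hρ₀, H₀⟩ := hS.gap 1 one_pos
    obtain ⟨t, ht, ht1, ht2⟩ : ∃ t : ℝ, 0 < t ∧ t < ρ₀ ∧ 2 * t < g - A :=
      ⟨min (ρ₀ / 2) ((g - A) / 4), lt_min (by positivity) (by linarith),
        (min_le_left _ _).trans_lt (by linarith), by
          linarith [min_le_right (ρ₀ / 2) ((g - A) / 4)]⟩
    obtain ⟨u₀, hu₀, u1, u2⟩ := H₀ t ht ht1 (g - t) le_rfl (by linarith)
    obtain ⟨A₁, b1, b2⟩ := exists_rat_btwn (show u₀ - s < g - s by linarith)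
    exact ⟨A₁, ⟨u₀, hu₀, by linarith, by linarith⟩, b2⟩
  exact vel_real h hr hS hS1 hgA hgB (hg A₁ b0 ⟨b1, by linarith⟩ _ _ hS1
    (hS.slP h.cl hgA hr) (hS.whP h.cl hgA) (hful.ful hS h.cl hgA hr)
    (hjet.jet hS h.cl hgA hr (by linarith [h.B1])))

end Pool.AVG96
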