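import Pool.Agent.H96.AVG.Vle
import Pool.Agent.H91.FR.QE

/-!
# The near digits of the first rough coordinate given its velocity: fixed numbers

The versions of `dead_ptG`, `dead_clsG`, `near_velG` in which the position is full up to a loss
`ε₁ r` only, where `ε₁` depends on the slope and the wanted loss only. `rn_le_fewC`: a number is at
most the number of the digits.
-/

set_option autoImplicit false

namespace Pool.AVG96

open Finset Real MvPolynomial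
open Pool.Agent.H49.Ent Pool.Agent.H32.Dense Pool.STK Pool.KA Pool.KSAT Pool.K2S Pool.PB Pool.GEN
open Pool.S6C Pool.RCD Pool.LA91
open Pool.OWN83

variable {m : ℕ} {S : PCl m} {U₀ U : Type} {α β γ' : ∀ J : ℕ, Fam m J → Type}
  {f : ∀ (J : ℕ) (F : Fam m J), F.Ω → α J F} {g : ∀ (J : ℕ) (F : Fam m J), F.Ω → β J F}
  {y : ∀ (J : ℕ) (F : Fam m J), F.Ω → γ' J F}

/-- **The number is at most the number of the digits.** -/
theorem rn_le_fewC (hS : S.Ne)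
    (hpos : ∀ (τ : ℝ) (J : ℕ) (F : Fam m J) (A : F.Ω → Prop), S.St τ J F A → 0 < Pe F.p A)
    {Q₀ : Qt m U₀} {Q : Qt m U} {η θ C : ℝ} (hη : RNum S f g η) (x₀ : Exs S Q₀) (x : Exs S Q)
    (N : RN S f g y Q₀ Q θ) (h : FewC S f g y Q₀ Q C) : θ ≤ C := by
  by_contra hcon
  rw [not_le] at hcon
  obtain ⟨h', hh'⟩ : ∃ h' : ℝ, h' = (θ - C) / 4 := ⟨_, rfl⟩
  have hh0 : 0 < h' := by rw [hh']; linarith
  obtain ⟨e1, he1, H1⟩ := h h' hh0
  obtain ⟨k2, hk2, e2, he2, H2⟩ := N h' hh0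
  obtain ⟨K1, M1, hx1⟩ := x₀ (min e1 e2) (lt_min he1 he2)
  obtain ⟨K2, M2, hx2⟩ := x (min e1 e2) (lt_min he1 he2)
  obtain ⟨J, hJ, F, A, ⟨⟨⟨H1, H2⟩, ⟨u₀, hu₀, -⟩, u, hu, -⟩, V, z, hz⟩, hA⟩ := bas_ex hS
    (((((H1 (max K1 K2)).and (H2 (max K1 K2))).and (hx1.and hx2)).and
      (mx_ex hpos hη (min k2 h') (lt_min hk2 hh0))).and (pos_bas hpos)) 1
  have hJ0 : (1 : ℝ) ≤ J := by exact_mod_cast hJ
  have hcl := isLaw_cond F.isLaw hA
  obtain ⟨V', z', hz', h3⟩ := H1 u₀ u (Q₀.mono (le_max_left _ _) (min_le_left _ _) hu₀)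
    (Q.mono (le_max_right _ _) (min_le_left _ _) hu)
  have a2 := (abs_le.1 (H2 V z (hz.le' (min_le_left _ _)) u₀ u
    (Q₀.mono (le_max_left _ _) (min_le_right _ _) hu₀)
    (Q.mono (le_max_right _ _) (min_le_right _ _) hu))).1
  have h4 := (hz.le' (min_le_right _ _)).2 _ _ hz'
  have h5 := CH_le_add hcl.nonneg u z' (fun ω => (z ω, (u₀ ω, y J F ω)))
  have h6 : CH (Pool.Agent.H49.Ent.cond F.p A True) z' (fun ω => (z ω, (u₀ ω, y J F ω))) ≤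
      CH (Pool.Agent.H49.Ent.cond F.p A True) z' z := CH_mono_cond hcl.nonneg fun ω ω' _ _ hh => by
    simp only [Prod.mk.injEq] at hh
    exact hh.1
  have h7 : CH (Pool.Agent.H49.Ent.cond F.p A True) u (fun ω => (z' ω, (z ω, (u₀ ω, y J F ω)))) ≤
      CH (Pool.Agent.H49.Ent.cond F.p A True) u (fun ω => (u₀ ω, (z' ω, y J F ω))) :=
    CH_mono_cond hcl.nonneg fun ω ω' _ _ hh => by
      simp only [Prod.mk.injEq] at hh ⊢
      exact ⟨hh.2.2.1, hh.1, hh.2.2.2⟩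
  have a3 : (θ - h' - (C + h') - h') * J ≤ 0 := by linarith
  have a4 : 0 < (θ - h' - (C + h') - h') * J := by
    refine mul_pos ?_ (by linarith)
    rw [hh']
    linarith
  linarith

/-! ### The numbers -/

/-- The numbers of the argument. -/
structure EpsP (Sl τ ε : ℝ) (n : ℕ) (η c₀ κ cc : ℝ) : Prop where
  ε0 : 0 < ε
  n1 : 1 ≤ n
  η0 : 0 < η
  no : NoD τ (2 * (Sl - 1) / Sl) η
  ηn : 1 ≤ η * n
  c0 : 0 < c₀
  c1 : c₀ ≤ 1
  c2 : ((n : ℝ) + 1) * c₀ ≤ η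
  κd : κ = 1 / (2 * (Sl - 1))
  ccd : cc = 1 / (8 * (1 + κ))
  u1 : ε * (4 * (1 + 4 * Sl / (Sl - 1))) ≤ 1
  u2 : ε * (2 * (Sl + 2)) ≤ cc
  u3 : ε * (n * Sl) ≤ cc
  u4 : ε * (Sl * κ) ≤ cc
  u5 : ε * ((22 * Sl + 6 + 3 * eK Sl Sl) * 4) ≤ η * cc

theorem epsP_ex {Sl τ : ℝ} (hS : 1 < Sl) (hτ0 : 0 < τ) :
    ∃ ε n η c₀ κ cc, EpsP Sl τ ε n η c₀ κ cc := by
  have hS0 : 0 < Sl := by linarith
  have hS1 : 0 < Sl - 1 := by linarith
  have hρ0 : 0 ≤ 2 * (Sl - 1) / Sl := by positivity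
  obtain ⟨η, hη, hno⟩ := noD hτ0 hρ0
  obtain ⟨n₀, hn₀⟩ := exists_nat_ge (1 / η)
  obtain ⟨n, hn⟩ : ∃ n : ℕ, n = n₀ + 1 := ⟨_, rfl⟩
  have hn1 : 1 ≤ n := by omega
  have hηn : 1 ≤ η * n := by
    have h1 : (n : ℝ) = n₀ + 1 := by rw [hn]; push_cast; ring
    rw [div_le_iff₀ hη] at hn₀
    rw [h1]
    linarith
  have hnr : (0 : ℝ) < (n : ℝ) + 1 := by positivity
  obtain ⟨c₀, hc₀⟩ : ∃ c₀ : ℝ, c₀ = min 1 (η / (n + 1)) := ⟨_, rfl⟩
  have hc0 : 0 < c₀ := by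
    rw [hc₀]
    exact lt_min one_pos (by positivity)
  have hc1 : c₀ ≤ 1 := by rw [hc₀]; exact min_le_left _ _
  have hc2 : ((n : ℝ) + 1) * c₀ ≤ η := by
    have h1 : c₀ ≤ η / (n + 1) := by rw [hc₀]; exact min_le_right _ _
    rw [le_div_iff₀ hnr] at h1
    linarith
  -- the accuracy
  obtain ⟨κ, hκ⟩ : ∃ κ : ℝ, κ = 1 / (2 * (Sl - 1)) := ⟨_, rfl⟩
  have hκ0 : 0 < κ := by rw [hκ]; positivity
  obtain ⟨cc, hcc⟩ : ∃ cc : ℝ, cc = 1 / (8 * (1 + κ)) := ⟨_, rfl⟩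
  have hcc0 : 0 < cc := by rw [hcc]; positivity
  have heK : 0 ≤ eK Sl Sl := by
    unfold eK
    positivity
  obtain ⟨z1, hz1⟩ : ∃ z : ℝ, z = 4 * (1 + 4 * Sl / (Sl - 1)) := ⟨_, rfl⟩
  obtain ⟨z2, hz2⟩ : ∃ z : ℝ, z = 2 * (Sl + 2) / cc := ⟨_, rfl⟩
  obtain ⟨z3, hz3⟩ : ∃ z : ℝ, z = n * Sl / cc := ⟨_, rfl⟩
  obtain ⟨z4, hz4⟩ : ∃ z : ℝ, z = Sl * κ / cc := ⟨_, rfl⟩
  obtain ⟨z5, hz5⟩ : ∃ z : ℝ, z = (22 * Sl + 6 + 3 * eK Sl Sl) * 4 / (η * cc) := ⟨_, rfl⟩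
  have y1 : 0 ≤ z1 := by rw [hz1]; positivity
  have y2 : 0 ≤ z2 := by rw [hz2]; positivity
  have y3 : 0 ≤ z3 := by rw [hz3]; positivity
  have y4 : 0 ≤ z4 := by rw [hz4]; positivity
  have y5 : 0 ≤ z5 := by rw [hz5]; positivity
  obtain ⟨ε, hε⟩ : ∃ ε : ℝ, ε = 1 / (z1 + z2 + z3 + z4 + z5 + 1) := ⟨_, rfl⟩
  have hε0 : 0 < ε := by rw [hε]; positivity
  have hεz : ε * (z1 + z2 + z3 + z4 + z5 + 1) = 1 := by
    rw [hε]
    field_simp
  have x1 : 0 ≤ ε * z1 := mul_nonneg hε0.le y1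
  have x2 : 0 ≤ ε * z2 := mul_nonneg hε0.le y2
  have x3 : 0 ≤ ε * z3 := mul_nonneg hε0.le y3
  have x4 : 0 ≤ ε * z4 := mul_nonneg hε0.le y4
  have x5 : 0 ≤ ε * z5 := mul_nonneg hε0.le y5
  have u1 : ε * (4 * (1 + 4 * Sl / (Sl - 1))) ≤ 1 := by rw [← hz1]; linarith
  have u2 : ε * (2 * (Sl + 2)) ≤ cc := by
    have : ε * z2 ≤ 1 := by linarith
    rw [hz2, mul_div_assoc', div_le_one hcc0] at this
    exact this
  have u3 : ε * (n * Sl) ≤ cc := by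
    have : ε * z3 ≤ 1 := by linarith
    rw [hz3, mul_div_assoc', div_le_one hcc0] at this
    exact this
  have u4 : ε * (Sl * κ) ≤ cc := by
    have : ε * z4 ≤ 1 := by linarith
    rw [hz4, mul_div_assoc', div_le_one hcc0] at this
    exact this
  have u5 : ε * ((22 * Sl + 6 + 3 * eK Sl Sl) * 4) ≤ η * cc := by
    have : ε * z5 ≤ 1 := by linarith
    rw [hz5, mul_div_assoc', div_le_one (by positivity)] at this
    exact this
  exact ⟨ε, n, η, c₀, κ, cc, ⟨hε0, hn1, hη, hno, hηn, hc0, hc1, hc2, hκ, hcc, u1, u2, u3, u4, u5⟩⟩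

/-- The accuracy. -/
noncomputable def epsN (Sl τ : ℝ) : ℝ :=
  open Classical in
  if h : 1 < Sl ∧ 0 < τ then (epsP_ex h.1 h.2).choose else 1

theorem epsN_spec {Sl τ : ℝ} (hS : 1 < Sl) (hτ0 : 0 < τ) :
    ∃ n η c₀ κ cc, EpsP Sl τ (epsN Sl τ) n η c₀ κ cc := by
  unfold epsN
  rw [dif_pos ⟨hS, hτ0⟩]
  exact (epsP_ex hS hτ0).choose_spec

theorem epsN_pos {Sl τ : ℝ} (hS : 1 < Sl) (hτ0 : 0 < τ) : 0 < epsN Sl τ := by
  obtain ⟨n, η, c₀, κ, cc, h⟩ := epsN_spec hS hτ0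
  exact h.ε0

/-- **At one point**, with a loss. -/
theorem dead_ptGe {I : Finset (Fin m)} {k : Fin m} {sh : ℝ} {wh : ℚ → ℝ} {p : ℚ → ℝ} {A B lam p₀ lam' : ℝ}
    (hL : LbsG S f y I k sh wh p A B p₀ lam') {Q₀ : Qt m U₀} {θX θD θJ : ℚ → ℚ → ℝ}
    (hF : FmsG S f y I k sh wh p Q₀ A B lam θX θD θJ) (hlam : 0 < lam) {γ P Sl fX fD fJ : ℝ}
    (hA : A < γ) (hB : γ < B) (hS : 1 < Sl) (hder : SlP p γ P Sl) (hwh : WhP wh sh γ) (rX : RtP θX γ fX)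
    (rD : RtP θD γ fD) (rJ : RtP θJ γ fJ) {τ : ℝ} (hτ0 : 0 < τ) (hτ1 : τ ≤ 1)
    (hfX : Sl * Real.log 2 - epsN Sl τ / 8 ≤ fX) (hfD : 0 ≤ fD) (hfD1 : fD ≤ Sl)
    (hjet : JetPG S f y Q₀ I k sh wh p γ) : (1 - τ) * (Sl * Real.log 2) ≤ fJ - fD := by
  by_contra hlt
  rw [not_le] at hlt
  have l0 : 0 < Real.log 2 := Real.log_pos one_lt_two
  have hS0 : 0 < Sl := by linarith
  have hS1 : 0 < Sl - 1 := by linarith
  have hSl : 0 < Sl * Real.log 2 := mul_pos hS0 l0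
  have hfJ : fJ - fD ≤ (1 - τ) * (Sl * Real.log 2) := hlt.le
  obtain ⟨ρ, hρ⟩ : ∃ ρ : ℝ, ρ = 2 * (Sl - 1) / Sl := ⟨_, rfl⟩
  obtain ⟨ε, hεd⟩ : ∃ ε : ℝ, ε = epsN Sl τ := ⟨_, rfl⟩
  obtain ⟨n, η, c₀, κ, cc, hE⟩ := epsN_spec hS hτ0
  rw [← hεd] at hE hfX
  obtain ⟨hε0, hn1, hη, hno, hηn, hc0, hc1, hc2, hκ, hcc, u1, u2, u3, u4, u5⟩ := hE
  rw [← hρ] at hno
  have hκ0 : 0 < κ := by rw [hκ]; positivity
  have hcc0 : 0 < cc := by rw [hcc]; positivity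
  have heKK : eK Sl fD ≤ eK Sl Sl := by
    unfold eK
    have h1 : 0 ≤ 4 * Sl / (Sl - 1) + 3 := by positivity
    have := mul_le_mul_of_nonneg_right hfD1 h1
    linarith
  -- the rate of the position
  obtain ⟨fX', hfX', q1, q2⟩ : ∃ fX' : ℝ, Sl * Real.log 2 ≤ fX' ∧ fX ≤ fX' ∧ fX' ≤ fX + ε / 8 :=
    ⟨max fX (Sl * Real.log 2), le_max_right _ _, le_max_left _ _,
      max_le (by linarith) (by linarith)⟩
  -- the box
  obtain ⟨r1, hr1, H1⟩ := box_pos hder hε0 n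
  obtain ⟨r2, hr2, H2⟩ := rX (ε / 2) (half_pos hε0)
  obtain ⟨r3, hr3, H3⟩ := rD ε hε0
  obtain ⟨r4, hr4, H4⟩ := rJ ε hε0
  obtain ⟨r5, hr5, H5⟩ := hjet (c₀ * ε / 3) (by positivity)
  obtain ⟨r6, hr6, H6⟩ := hwh (ε / 2) (half_pos hε0)
  obtain ⟨r, hr, s1, s2, s3, s4, s5, s6, s7, s8⟩ : ∃ r : ℝ, 0 < r ∧ r < r1 ∧ r < r2 ∧ r < r3 ∧
      r < r4 ∧ r < r5 ∧ r < B - γ ∧ r < lam ∧ r < r6 := by
    have hBγ : 0 < B - γ := by linarith
    obtain ⟨a, ha, a1, a2, a3⟩ : ∃ a : ℝ, 0 < a ∧ a ≤ r1 ∧ a ≤ r2 ∧ a ≤ r3 :=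
      ⟨min r1 (min r2 r3), by positivity, min_le_left _ _, (min_le_right _ _).trans
        (min_le_left _ _), (min_le_right _ _).trans (min_le_right _ _)⟩
    obtain ⟨b, hb, b1, b2, b3⟩ : ∃ b : ℝ, 0 < b ∧ b ≤ r4 ∧ b ≤ r5 ∧ b ≤ r6 :=
      ⟨min r4 (min r5 r6), by positivity, min_le_left _ _, (min_le_right _ _).trans
        (min_le_left _ _), (min_le_right _ _).trans (min_le_right _ _)⟩
    obtain ⟨c, hc, c1, c2, c3, c4⟩ : ∃ c : ℝ, 0 < c ∧ c ≤ a ∧ c ≤ b ∧ c ≤ B - γ ∧ c ≤ lam :=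
      ⟨min (min a b) (min (B - γ) lam), by positivity,
        (min_le_left _ _).trans (min_le_left _ _), (min_le_left _ _).trans (min_le_right _ _),
        (min_le_right _ _).trans (min_le_left _ _),
        (min_le_right _ _).trans (min_le_right _ _)⟩
    refine ⟨c / 2, by positivity, ?_, ?_, ?_, ?_, ?_, ?_, ?_, ?_⟩ <;> linarith
  obtain ⟨w, v, kk, L, κ', δ, hbox⟩ := H1 r hr s1
  have hκ' : κ' = κ := by rw [hbox.hκ, hκ]
  rw [hκ'] at hbox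
  obtain ⟨-, hL0, -, -, hκ2⟩ := hbox.sz hS hr
  have hcL : Sl * (κ * L) = cc * r := by
    have h2 : L * (4 * Sl * (1 + κ)) = r * (Sl - 1) := by
      rw [hbox.hL]
      field_simp
    have h3 : Sl * (κ * L) * (8 * (1 + κ)) = r := by
      have h4 : Sl * (κ * L) * (8 * (1 + κ)) = 2 * κ * (L * (4 * Sl * (1 + κ))) := by ring
      rw [h4, h2]
      linear_combination r * hκ2
    rw [hcc, one_div, inv_mul_eq_div, eq_div_iff (by positivity)]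
    exact h3
  have her : 0 < ε * r := mul_pos hε0 hr
  have hε1 : ε + δ ≤ 1 / 4 := by
    have h1 : δ = ε * (4 * Sl / (Sl - 1)) := by rw [hbox.hδ]; ring
    rw [h1]
    linarith
  have hε2 : 2 * ((Sl + 2) * (ε * r)) ≤ Sl * (κ * L) := by
    rw [hcL]
    have := mul_le_mul_of_nonneg_right u2 hr.le
    linarith
  have hεn : ε * r * n ≤ κ * L := by
    have h1 := mul_le_mul_of_nonneg_right u3 hr.le
    rw [← hcL] at h1
    have h2 : Sl * (ε * r * n) ≤ Sl * (κ * L) := by linarith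
    exact le_of_mul_le_mul_left h2 hS0
  have hεL : ε * r ≤ L := by
    have h1 := mul_le_mul_of_nonneg_right u4 hr.le
    rw [← hcL] at h1
    have h2 : Sl * κ * (ε * r) ≤ Sl * κ * L := by linarith
    exact le_of_mul_le_mul_left h2 (mul_pos hS0 hκ0)
  obtain ⟨ow, on, onk, okk⟩ := hbox.ord hS hr hε0 hn1 hεn hεL
  obtain ⟨pv, pk⟩ := hbox.pr hS hr hε0 hε1
  obtain ⟨hbw, hbv, hbk⟩ := hbox.bx hS hr hε0 hε1
  have hwk : (w : ℝ) < kk n := by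
    have h1 := hbox.w2
    have h2 := hbox.v1 n le_rfl
    have h3 := (pT_le hL0 hκ0 (le_refl n)).1
    have h4 : (v n : ℝ) ≤ kk n := by exact_mod_cast onk n le_rfl
    linarith
  obtain ⟨Pm, hPm, hJR⟩ := H5 r hr s5 w (kk n) hbox.w1.le (by exact_mod_cast hwk)
    (hbk n le_rfl).2
  have hPm' : p (v n) < Pm := by
    have := (pk n le_rfl).1
    linarith
  have e3 : c₀ * ε / 3 * r = c₀ * (ε * r) / 3 := by ring
  rw [e3] at hJR
  refine dead_boxG hL hF hbox hS hr hε0 hn1 hε1 hε2 hεn hεL hA (by linarith) s7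
    (fun x x1 x2 => by
      obtain ⟨y1, y2⟩ := H6 r hr s8 x x1 x2
      exact ⟨y1, by linarith⟩) (fun w o a1 a2 a3 => by
      have b1 := abs_le.1 (H2 r hr s2 w o a1 a2 a3)
      have b2 : (w : ℝ) ≤ o := by exact_mod_cast a2
      have b3 : (fX' - fX) * (o - w) ≤ ε / 8 * (2 * r) :=
        mul_le_mul (by linarith) (by linarith) (by linarith) (by positivity)
      have b4 : 0 ≤ (fX' - fX) * ((o : ℝ) - w) := mul_nonneg (by linarith) (by linarith)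
      have b5 : 0 < ε * r := mul_pos hε0 hr
      rw [abs_le]
      constructor <;> linarith [b1.1, b1.2])
    (H3 r hr s3) (H4 r hr s4) hfX' hfD (by linarith) (by linarith) hfJ hρ hη hno hηn hc0 hc1 hc2
    hPm' hJR ?_
  rw [hcL]
  have h9 := mul_le_mul_of_nonneg_right u5 hr.le
  have h10 : (22 * Sl + 6 + 3 * eK Sl fD) * (ε * r) ≤ (22 * Sl + 6 + 3 * eK Sl Sl) * (ε * r) :=
    mul_le_mul_of_nonneg_right (by linarith) her.le
  linarith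

/-- The position is full in the boxes of a point, with the loss `e`. -/
def FulXe (p : ℚ → ℝ) (θX : ℚ → ℚ → ℝ) (γ e : ℝ) : Prop :=
  ∃ r₀ : ℝ, 0 < r₀ ∧ ∀ r : ℝ, 0 < r → r < r₀ → ∀ w o : ℚ, γ - r ≤ w →
    w ≤ o → (o : ℝ) ≤ γ + r → (p o - p w) * Real.log 2 - e * r ≤ θX w o

/-- The accuracy wanted for the loss `e`. -/
noncomputable def tauE (Sl e : ℝ) : ℝ := min 1 (e / (16 * Sl))

noncomputable def eX (Sl e : ℝ) : ℝ := epsN Sl (tauE Sl e) / 64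

theorem tauE_pos {Sl e : ℝ} (hS : 1 < Sl) (he : 0 < e) : 0 < tauE Sl e := by
  unfold tauE
  have : 0 < Sl := by linarith
  exact lt_min one_pos (by positivity)

theorem eX_pos {Sl e : ℝ} (hS : 1 < Sl) (he : 0 < e) : 0 < eX Sl e := by
  unfold eX
  have := epsN_pos hS (tauE_pos hS he)
  positivity

open Set MeasureTheory in
/-- **The position is full given the velocity**, in the boxes of almost every point, for one
loss. -/
theorem dead_clsGe {I : Finset (Fin m)} {k : Fin m} {sh : ℝ} {wh : ℚ → ℝ} {p : ℚ → ℝ}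
    {A B lam p₀ lam' : ℝ}
    (hL : LbsG S f y I k sh wh p A B p₀ lam') {Q₀ : Qt m U₀} {θX θD θJ : ℚ → ℚ → ℝ}
    (hF : FmsG S f y I k sh wh p Q₀ A B lam θX θD θJ) (hlam : 0 < lam) :
    ∀ᵐ γ : ℝ, γ ∈ Ioo A B → ∀ P Sl : ℝ, 1 < Sl → SlP p γ P Sl → WhP wh sh γ →
      JetPG S f y Q₀ I k sh wh p γ → ∀ e : ℝ, 0 < e → FulXe p θX γ (eX Sl e) →
      ∃ r₀ : ℝ, 0 < r₀ ∧ ∀ r : ℝ, 0 < r → r < r₀ →
      ∀ w o : ℚ, γ - r ≤ w → w ≤ o → (o : ℝ) ≤ γ + r →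
        (p o - p w) * Real.log 2 - e * r ≤ θJ w o - θD w o := by
  obtain ⟨θ₀X, nX⟩ := hF.nX
  obtain ⟨θ₀D, nD⟩ := hF.nD
  obtain ⟨θ₀J, nJ⟩ := hF.nJ
  obtain ⟨a1, a2⟩ := nX.super hL.ne hL.pos hL.B1 hL.rn hF.X
  obtain ⟨b1, b2⟩ := nD.super hL.ne hL.pos hL.B1 hL.rn hF.D
  obtain ⟨c1, c2⟩ := nJ.super hL.ne hL.pos hL.B1 hL.rn (hF.X.prod hL.pos hF.D)
  filter_upwards [rate_rat hlam a1 a2, rate_rat hlam b1 b2, rate_rat hlam c1 c2]
    with γ g1 g2 g3 hγ P Sl hS hder hwh hjet e he hX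
  obtain ⟨fX, -, rX⟩ := g1 hγ
  obtain ⟨fD, hfD, rD⟩ := g2 hγ
  obtain ⟨fJ, -, rJ⟩ := g3 hγ
  have l0 : 0 < Real.log 2 := Real.log_pos one_lt_two
  have l1 : Real.log 2 ≤ 1 := by
    have := Real.log_two_lt_d9
    linarith
  -- the slope in a box
  have hsb : ∀ ε : ℝ, 0 < ε → ∃ r₀ : ℝ, 0 < r₀ ∧ ∀ r : ℝ, 0 < r → r < r₀ → ∀ w o : ℚ,
      γ - r ≤ w → w ≤ o → (o : ℝ) ≤ γ + r → |p o - p w - Sl * (o - w)| ≤ 2 * (ε * r) := by
    intro ε hε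
    obtain ⟨r₀, hr₀, H⟩ := hder ε hε
    refine ⟨r₀, hr₀, fun r hr hrr w o h1 h2 h3 => ?_⟩
    have h2' : (w : ℝ) ≤ o := by exact_mod_cast h2
    have k1 : |(w : ℝ) - γ| ≤ r := by
      rw [abs_le]
      constructor <;> linarith
    have k2 : |(o : ℝ) - γ| ≤ r := by
      rw [abs_le]
      constructor <;> linarith
    have k3 := (H w (k1.trans hrr.le)).trans (mul_le_mul_of_nonneg_left k1 hε.le)
    have k4 := (H o (k2.trans hrr.le)).trans (mul_le_mul_of_nonneg_left k2 hε.le)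
    rw [abs_le] at k3 k4 ⊢
    constructor <;> linarith [k3.1, k3.2, k4.1, k4.2]
  have hS0 : 0 < Sl := by linarith
  obtain ⟨ε₀, hε₀⟩ : ∃ ε : ℝ, ε = eX Sl e := ⟨_, rfl⟩
  have hε₀0 : 0 < ε₀ := by rw [hε₀]; exact eX_pos hS he
  rw [← hε₀] at hX
  have hfX : Sl * Real.log 2 - epsN Sl (tauE Sl e) / 8 ≤ fX := by
    have hεe : epsN Sl (tauE Sl e) / 8 = 8 * ε₀ := by
      rw [hε₀, eX]
      ring
    rw [hεe]
    obtain ⟨ε, hε⟩ : ∃ ε : ℝ, ε = ε₀ / 4 := ⟨_, rfl⟩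
    have hε0 : 0 < ε := by rw [hε]; positivity
    obtain ⟨r1, hr1, H1⟩ := rX ε hε0
    obtain ⟨r2, hr2, H2⟩ := hsb ε hε0
    obtain ⟨r3, hr3, H3⟩ := hX
    obtain ⟨r, hr, s1, s2, s3⟩ : ∃ r : ℝ, 0 < r ∧ r < r1 ∧ r < r2 ∧ r < r3 := by
      refine ⟨min r1 (min r2 r3) / 2, by positivity, ?_⟩
      have t : 0 < min r1 (min r2 r3) := by positivity
      have u1 := min_le_left r1 (min r2 r3)
      have u2 := (min_le_right r1 (min r2 r3)).trans (min_le_left _ _)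
      have u3 := (min_le_right r1 (min r2 r3)).trans (min_le_right _ _)
      refine ⟨?_, ?_, ?_⟩ <;> linarith
    obtain ⟨w, w1, w2⟩ := exists_rat_btwn (show γ - r < γ - r / 2 by linarith)
    obtain ⟨o, o1, o2⟩ := exists_rat_btwn (show γ + r / 2 < γ + r by linarith)
    have hwo : (w : ℝ) ≤ o := by linarith
    have hwo' : w ≤ o := by exact_mod_cast hwo
    have h1 := abs_le.1 (H1 r hr s1 w o w1.le hwo' o2.le)
    have h2 := abs_le.1 (H2 r hr s2 w o w1.le hwo' o2.le)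
    have h3 := H3 r hr s3 w o w1.le hwo' o2.le
    have h4 : (Sl * (o - w) - 2 * (ε * r)) * Real.log 2 ≤ (p o - p w) * Real.log 2 :=
      mul_le_mul_of_nonneg_right (by linarith [h2.1]) l0.le
    have h5 : 2 * (ε * r) * Real.log 2 ≤ 2 * (ε * r) * 1 :=
      mul_le_mul_of_nonneg_left l1 (by positivity)
    have h6 : (Sl * Real.log 2 - fX) * (o - w) ≤ 3 * (ε * r) + ε₀ * r := by linarith [h1.2]
    by_contra hcon
    rw [not_le] at hcon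
    have h7 : 0 < Sl * Real.log 2 - fX := by linarith
    have h8 : (Sl * Real.log 2 - fX) * r ≤ (Sl * Real.log 2 - fX) * (o - w) :=
      mul_le_mul_of_nonneg_left (by linarith) h7.le
    have h9 : (Sl * Real.log 2 - fX) * r ≤ (3 * ε + ε₀) * r := by linarith
    have h10 := le_of_mul_le_mul_right h9 hr
    rw [hε] at h10
    linarith
  -- the rate of the velocity
  have hfD1 : fD ≤ Sl := by
    refine le_of_forall_pos_le_add fun ε' hε' => ?_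
    obtain ⟨ε, hε, hε2, hε3⟩ : ∃ ε : ℝ, 0 < ε ∧ ε ≤ ε' / 8 ∧ ε ≤ (Sl - 1) / 8 :=
      ⟨min (ε' / 8) ((Sl - 1) / 8), lt_min (by positivity) (by linarith), min_le_left _ _,
        min_le_right _ _⟩
    obtain ⟨r1, hr1, H1⟩ := rD ε hε
    obtain ⟨r2, hr2, H2⟩ := hsb ε hε
    obtain ⟨r3, hr3, H3⟩ := hwh ε hε
    obtain ⟨r, hr, s1, s2, s3, s4, s5, s6⟩ : ∃ r : ℝ, 0 < r ∧ r < r1 ∧ r < r2 ∧ r < r3 ∧
        r ≤ (γ - A) / 2 ∧ r ≤ (B - γ) / 2 ∧ r ≤ lam / 4 := by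
      have hAγ : 0 < (γ - A) / 2 := by linarith [hγ.1]
      have hBγ : 0 < (B - γ) / 2 := by linarith [hγ.2]
      obtain ⟨a, ha, a1, a2, a3⟩ : ∃ a : ℝ, 0 < a ∧ a ≤ r1 ∧ a ≤ r2 ∧ a ≤ r3 :=
        ⟨min r1 (min r2 r3), by positivity, min_le_left _ _, (min_le_right _ _).trans
          (min_le_left _ _), (min_le_right _ _).trans (min_le_right _ _)⟩
      obtain ⟨b, hb, b1, b2, b3⟩ : ∃ b : ℝ, 0 < b ∧ b ≤ (γ - A) / 2 ∧ b ≤ (B - γ) / 2 ∧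
          b ≤ lam / 4 :=
        ⟨min ((γ - A) / 2) (min ((B - γ) / 2) (lam / 4)), by positivity, min_le_left _ _,
          (min_le_right _ _).trans (min_le_left _ _), (min_le_right _ _).trans (min_le_right _ _)⟩
      have c1 := min_le_left (a / 2) b
      have c2 := min_le_right (a / 2) b
      refine ⟨min (a / 2) b, by positivity, ?_, ?_, ?_, ?_, ?_, ?_⟩ <;> linarith
    obtain ⟨w, w1, w2⟩ := exists_rat_btwn (show γ - r < γ - r / 2 by linarith)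
    obtain ⟨o, o1, o2⟩ := exists_rat_btwn (show γ + r / 2 < γ + r by linarith)
    have hwo : (w : ℝ) ≤ o := by linarith
    have hwo' : w ≤ o := by exact_mod_cast hwo
    have hAw : A < w := by linarith
    have hoB : (o : ℝ) < B := by linarith
    have how : (o : ℝ) < w + lam := by linarith
    have h1 := abs_le.1 (H1 r hr s1 w o w1.le hwo' o2.le)
    have h2 := abs_le.1 (H2 r hr s2 w o w1.le hwo' o2.le)
    obtain ⟨k1, k2⟩ := H3 r hr s3 w w1.le (by linarith)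
    obtain ⟨k3, k4⟩ := H3 r hr s3 o (by linarith) o2.le
    have h4 : 0 < ε * r := mul_pos hε hr
    have h5 : ε * r ≤ (Sl - 1) / 8 * r := mul_le_mul_of_nonneg_right hε3 hr.le
    have h5' : ε * r ≤ ε' / 8 * r := mul_le_mul_of_nonneg_right hε2 hr.le
    have h6 : (Sl - 1) * r ≤ (Sl - 1) * (o - w) :=
      mul_le_mul_of_nonneg_left (by linarith) (by linarith)
    have hN : p w - ((1 : ℕ) : ℝ) * wh w ≤ p o - ((1 : ℕ) : ℝ) * wh o := by
      push_cast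
      linarith [h2.1]
    obtain ⟨η, hη⟩ := hL.rn w hAw (by linarith)
    have h7 := rn_le_fewC hL.ne hL.pos hη (hF.D.exs₀ w hAw (by linarith))
      (hF.D.exs w o hAw hwo' hoB how)
      (RN.of hL.pos (nD.n₀ w hAw (by linarith)) (nD.n w o hAw hwo' hoB how))
      (few_more hL.pos hN (hF.D.own w w hAw le_rfl (by linarith) (by linarith)))
    have h8 : Real.log 2 * (p o - ((1 : ℕ) : ℝ) * wh o - (p w - ((1 : ℕ) : ℝ) * wh w)) ≤
        1 * (p o - ((1 : ℕ) : ℝ) * wh o - (p w - ((1 : ℕ) : ℝ) * wh w)) :=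
      mul_le_mul_of_nonneg_right l1 (by linarith)
    have h12 := h7.trans h8
    push_cast at h12
    have h9 : fD * (o - w) ≤ (Sl + ε') * (o - w) := by
      have h10 : ε' * r ≤ ε' * (o - w) := mul_le_mul_of_nonneg_left (by linarith) hε'.le
      have h11 : 0 ≤ (o : ℝ) - w := by linarith
      have h13 : (Sl + ε') * ((o : ℝ) - w) = Sl * (o - w) + ε' * (o - w) := by ring
      have h14 : ε' / 8 * r = (ε' * r) / 8 := by ring
      rw [h13]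
      linarith [h1.1, h2.2]
    exact le_of_mul_le_mul_right h9 (by linarith)
  have hτ0 := tauE_pos hS he
  have hτ1 : tauE Sl e ≤ 1 := min_le_left _ _
  have hτ2 : tauE Sl e * (16 * Sl) ≤ e := by
    have h1 : tauE Sl e ≤ e / (16 * Sl) := min_le_right _ _
    rwa [le_div_iff₀ (by positivity)] at h1
  have key := dead_ptGe hL hF hlam hγ.1 hγ.2 hS hder hwh rX rD rJ hτ0 hτ1 hfX hfD hfD1 hjet
  obtain ⟨r1, hr1, H1⟩ := rD (e / 8) (by positivity)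
  obtain ⟨r2, hr2, H2⟩ := rJ (e / 8) (by positivity)
  obtain ⟨r3, hr3, H3⟩ := hsb (e / 8) (by positivity)
  refine ⟨min r1 (min r2 r3), lt_min hr1 (lt_min hr2 hr3), fun r hr hrr w o h1 h2 h3 => ?_⟩
  have t1 : r < r1 := lt_of_lt_of_le hrr (min_le_left _ _)
  have t2 : r < r2 := lt_of_lt_of_le hrr ((min_le_right _ _).trans (min_le_left _ _))
  have t3 : r < r3 := lt_of_lt_of_le hrr ((min_le_right _ _).trans (min_le_right _ _))
  have k1 := abs_le.1 (H1 r hr t1 w o h1 h2 h3)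
  have k2 := abs_le.1 (H2 r hr t2 w o h1 h2 h3)
  have k3 := abs_le.1 (H3 r hr t3 w o h1 h2 h3)
  have h2' : (w : ℝ) ≤ o := by exact_mod_cast h2
  have k4 : (1 - tauE Sl e) * (Sl * Real.log 2) * (o - w) ≤ (fJ - fD) * (o - w) :=
    mul_le_mul_of_nonneg_right key (by linarith)
  have k7 : tauE Sl e * (Sl * Real.log 2) * (o - w) ≤ e / 8 * r := by
    have m1 : tauE Sl e * (Sl * Real.log 2) ≤ tauE Sl e * (Sl * 1) :=
      mul_le_mul_of_nonneg_left (mul_le_mul_of_nonneg_left l1 hS0.le) hτ0.le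
    have m2 : tauE Sl e * (Sl * Real.log 2) * (o - w) ≤ tauE Sl e * (Sl * 1) * (2 * r) :=
      mul_le_mul m1 (by linarith) (by linarith) (by positivity)
    have m3 := mul_le_mul_of_nonneg_right hτ2 hr.le
    linarith
  have k5 : (p o - p w) * Real.log 2 ≤ (Sl * (o - w) + 2 * (e / 8 * r)) * Real.log 2 :=
    mul_le_mul_of_nonneg_right (by linarith [k3.2]) l0.le
  have k6 : 2 * (e / 8 * r) * Real.log 2 ≤ 2 * (e / 8 * r) * 1 :=
    mul_le_mul_of_nonneg_left l1 (by positivity)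
  linarith [k1.2, k2.1]

end Pool.AVG96
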